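import Pool.Agent.Stark.PDefsR

/-!
# Stark's conjecture: four classes of linear characters
-/

open NumberField IsDedekindDomain
open scoped Classical

namespace StarkP

/-- Stark's assertion `A_S(ψ, φ)^σ = A_S(ψ^σ, φ)` with the given `S` for the linear character `ψ`
of `Gal(L/K)`, all `φ` and all `σ`. -/
def StarkLin {K L : Type} [Field K] [NumberField K] [Field L] [NumberField L] [Algebra K L]
    (S : Finset (HeightOneSpectrum (𝓞 K))) (ψ : (L ≃ₐ[K] L) →* ℂˣ) : Prop :=
  ∀ (Θ : ((L → ℝ) →₀ ℂ) →ₗ[ℂ] ((L → ℝ) →₀ ℂ)) (σ : ℂ ≃+* ℂ), IsTheta K (aboveSet K L S) Θ →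
    StarkAt S (aboveSet K L S) Θ (linRep ψ) (linRep (twist σ ψ)) σ

/-- Every element of `Gal(M/K)` induces an automorphism of `p`-power order on the subfield `E`
of `M`. -/
def PAct (p : ℕ) (E K M : Type) [Field E] [Field K] [Field M] [Algebra K M] [Algebra E M] : Prop :=
  ∀ g : M ≃ₐ[K] M, ∃ k : ℕ, ∀ x : E, (g ^ (p ^ k)) (algebraMap E M x) = algebraMap E M x

/-- There is a Galois extension `M/K` which contains `E`, such that every element of `Gal(M/K)`
induces an automorphism of `p`-power order on `E`.  If `E` is a Galois number field this means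
that `EK/K` is a `p`-extension. -/
def PExt (p : ℕ) (E K : Type) [Field E] [Field K] : Prop :=
  ∃ (M : Type) (_ : Field M) (_ : Algebra K M) (_ : Algebra E M), IsGalois K M ∧ PAct p E K M

/-- All inertia groups of `L/K` are trivial, and the decomposition groups in `Gal(L/K)` of the
primes of `L` above the prime numbers in `T` are trivial. -/
def UnrSplit (T : Finset ℕ) (K L : Type) [Field K] [Field L] [NumberField L] [Algebra K L] :
    Prop :=
  (∀ (w : HeightOneSpectrum (𝓞 L)) (g : L ≃ₐ[K] L), FrobPow L w 1 g → g = 1) ∧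
  ∀ w : HeightOneSpectrum (𝓞 L), (∃ p ∈ T, p.Prime ∧ (p : 𝓞 L) ∈ w.asIdeal) →
    ∀ g : L ≃ₐ[K] L, Dec w g → g = 1

/-- `ψ(c) = -1` for every complex conjugation `c` in `Gal(L/K)`. -/
def OddChar {K L : Type} [Field K] [Field L] [Algebra K L] (ψ : (L ≃ₐ[K] L) →* ℂˣ) : Prop :=
  ∀ (Φ : L →+* ℂ) (c : L ≃ₐ[K] L), ComplexEmbedding.IsConj Φ c → (ψ c : ℂ) = -1

/-- `K` is totally complex, `L/K` is unramified and the primes above `T` split completely. -/
def CaseA (T : Finset ℕ) (K L : Type) [Field K] [NumberField K] [Field L] [NumberField L]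
    [Algebra K L] (_ : (L ≃ₐ[K] L) →* ℂˣ) : Prop :=
  IsTotallyComplex K ∧ UnrSplit T K L

/-- `K` is totally complex, `ψ` has prime power order `p^n` and `EK/K` is a `p`-extension. -/
def CaseB (E : Type) [Field E] (K L : Type) [Field K] [NumberField K] [Field L] [NumberField L]
    [Algebra K L] (ψ : (L ≃ₐ[K] L) →* ℂˣ) : Prop :=
  IsTotallyComplex K ∧ ∃ p n : ℕ, p.Prime ∧ PExt p E K ∧ ψ ^ (p ^ n) = 1

/-- `K` has at most `ε [K : ℚ]` real places, `EK/K` is a 2-extension, and `ψ` has 2-power order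
and is odd at all real places of `K`. -/
def CaseC (E : Type) [Field E] (ε : ℝ) (K L : Type) [Field K] [NumberField K] [Field L]
    [NumberField L] [Algebra K L] (ψ : (L ≃ₐ[K] L) →* ℂˣ) : Prop :=
  (InfinitePlace.nrRealPlaces K : ℝ) ≤ ε * (Module.finrank ℚ K : ℝ) ∧ PExt 2 E K ∧
    (∃ n : ℕ, ψ ^ (2 ^ n) = 1) ∧ OddChar ψ

/-- `K` is totally real and `ψ` is totally odd. -/
def CaseD (K L : Type) [Field K] [NumberField K] [Field L] [NumberField L]
    [Algebra K L] (ψ : (L ≃ₐ[K] L) →* ℂˣ) : Prop :=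
  IsTotallyReal K ∧ OddChar ψ

/-- Stark's assertion with `S = S_∞` for the faithful linear characters `ψ` of `Gal(L/K)` which
belong to one of the four cases. -/
def StarkLinearFour (T : Finset ℕ) (E : Type) [Field E] (ε : ℝ) (K L : Type) [Field K]
    [NumberField K] [Field L] [NumberField L] [Algebra K L] : Prop :=
  ∀ ψ : (L ≃ₐ[K] L) →* ℂˣ, Function.Injective ψ →
    CaseA T K L ψ ∨ CaseB E K L ψ ∨ CaseC E ε K L ψ ∨ CaseD K L ψ → StarkLin ∅ ψ

/-- Stark's conjecture with `S = S_∞` for the faithful linear characters of the four cases. -/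
def StarkFour (T : Finset ℕ) (E : Type) [Field E] (ε : ℝ) : Prop :=
  ∀ (K L : Type) [Field K] [NumberField K] [Field L] [NumberField L] [Algebra K L] [IsGalois K L],
    StarkLinearFour T E ε K L

end StarkP
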