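import Pool.Agent.StarkI.Stmts

/-!
GRP: the abstract group theory of the integral unramified reduction.
-/

open NumberField IsDedekindDomain
open scoped TensorProduct Classical

namespace StarkC

namespace IGRP

variable {G : Type} [Group G] [Finite G]

/-- conjugation by `x` acts on a normalised cyclic group as a power map -/
theorem exists_pow (C : Subgroup G) [IsCyclic C] (x : G) (hx : ∀ c ∈ C, x * c * x⁻¹ ∈ C) :
    ∃ u : ℕ, ∀ c ∈ C, x * c * x⁻¹ = c ^ u := by
  obtain ⟨c, hc⟩ := IsCyclic.exists_monoid_generator (α := C)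
  obtain ⟨u, hu⟩ := (Submonoid.mem_powers_iff _ _).1 (hc ⟨x * (c : G) * x⁻¹, hx _ c.2⟩)
  have hu' : (c : G) ^ u = x * (c : G) * x⁻¹ := by
    have := congrArg (Subtype.val) hu
    simpa using this
  refine ⟨u, fun d hd => ?_⟩
  obtain ⟨j, hj⟩ := (Submonoid.mem_powers_iff _ _).1 (hc ⟨d, hd⟩)
  have hj' : (c : G) ^ j = d := by
    have := congrArg (Subtype.val) hj
    simpa using this
  rw [← hj', ← conj_pow, ← hu', ← pow_mul, ← pow_mul, mul_comm]

/-- an element of a normalised cyclic group is a power of each of its conjugates -/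
theorem mem_powers_conj (C : Subgroup G) [IsCyclic C] (x : G) (hx : ∀ c ∈ C, x * c * x⁻¹ ∈ C)
    (c : G) (hc : c ∈ C) : ∃ j : ℕ, c = (x * c * x⁻¹) ^ j := by
  obtain ⟨u, hu⟩ := exists_pow C x hx
  have h1 : x * c * x⁻¹ ∈ Subgroup.zpowers c := by
    rw [hu c hc]
    exact Subgroup.pow_mem _ (Subgroup.mem_zpowers c) u
  have hord : orderOf (x * c * x⁻¹) = orderOf c := by
    have := orderOf_injective (MulAut.conj x).toMonoidHom (MulAut.conj x).injective c
    simpa [MulAut.conj_apply] using this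
  have h2 : Subgroup.zpowers (x * c * x⁻¹) = Subgroup.zpowers c := by
    apply Subgroup.eq_of_le_of_card_ge
    · rw [Subgroup.zpowers_le]
      exact h1
    · rw [Nat.card_zpowers, Nat.card_zpowers, hord]
  have h3 : c ∈ Subgroup.zpowers (x * c * x⁻¹) := h2 ▸ Subgroup.mem_zpowers c
  obtain ⟨j, hj⟩ := (Submonoid.mem_powers_iff _ _).1 (mem_powers_iff_mem_zpowers.2 h3)
  exact ⟨j, hj.symm⟩

/-- `τ ^ e` commutes with `x`, if `q - 1 ∣ e`, `x` has `q`-power order, `τ` has `p`-power order -/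
theorem comm_pow (C : Subgroup G) [IsCyclic C] (τ : G) (hτ : ∀ c ∈ C, τ * c * τ⁻¹ ∈ C)
    (p q n b e : ℕ) (hp : p.Prime) (hq : q.Prime) (hqp : q ≠ p) (hpow : τ ^ (p ^ n) = 1)
    (he : q - 1 ∣ e) (x : G) (hx : x ∈ C) (hxq : orderOf x = q ^ b) :
    τ ^ e * x = x * τ ^ e := by
  obtain ⟨u, hu⟩ := exists_pow C τ hτ
  have hconj := hu x hx
  have hk : ∀ k : ℕ, τ ^ k * x * (τ ^ k)⁻¹ = x ^ (u ^ k) := by
    intro k
    induction k with
    | zero => simp
    | succ k ih =>
      have : τ ^ (k + 1) * x * (τ ^ (k + 1))⁻¹ = τ * (τ ^ k * x * (τ ^ k)⁻¹) * τ⁻¹ := by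
        rw [pow_succ']
        group
      rw [this, ih, ← conj_pow, hconj, ← pow_mul, ← pow_succ']
  have hcomm : ∀ k : ℕ, x ^ (u ^ k) = x → τ ^ k * x = x * τ ^ k := by
    intro k h
    have := (hk k).trans h
    rw [mul_inv_eq_iff_eq_mul] at this
    exact this
  by_cases hx1 : x = 1
  · subst hx1
    simp
  have hcc : x ^ (u ^ (p ^ n)) = x := by
    rw [← hk (p ^ n), hpow]
    simp
  have hb0 : b ≠ 0 := by
    rintro rfl
    exact hx1 (orderOf_eq_one_iff.1 (by simpa using hxq))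
  have hmod : u ^ (p ^ n) ≡ 1 [MOD q ^ b] := by
    rw [← hxq]
    apply (pow_eq_pow_iff_modEq).1
    rw [hcc, pow_one]
  have hpn : p ^ n ≠ 0 := pow_ne_zero n hp.ne_zero
  have hcop : Nat.Coprime u (q ^ b) := by
    have h1 : Nat.Coprime (u ^ (p ^ n)) (q ^ b) := by
      have := hmod.gcd_eq
      rw [Nat.Coprime, this, Nat.gcd_one_left]
    exact Nat.Coprime.coprime_dvd_left (dvd_pow_self u hpn) h1
  set v : (ZMod (q ^ b))ˣ := ZMod.unitOfCoprime u hcop with hv
  have hv1 : v ^ (p ^ n) = 1 := by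
    apply Units.ext
    have := (ZMod.natCast_eq_natCast_iff _ _ _).2 hmod
    simpa [hv] using this
  have hv2 : v ^ (q ^ (b - 1) * (q - 1)) = 1 := by
    have := ZMod.pow_totient v
    rwa [Nat.totient_prime_pow hq (Nat.pos_of_ne_zero hb0)] at this
  have hv3 : v ^ e = 1 := by
    have h1 := orderOf_dvd_of_pow_eq_one hv1
    have h2 := orderOf_dvd_of_pow_eq_one hv2
    have h3 : Nat.Coprime (orderOf v) (q ^ (b - 1)) :=
      Nat.Coprime.coprime_dvd_left h1 (Nat.coprime_pow_primes _ _ hp hq (Ne.symm hqp))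
    exact orderOf_dvd_iff_pow_eq_one.1 ((h3.dvd_of_dvd_mul_left h2).trans he)
  have hmod2 : u ^ e ≡ 1 [MOD q ^ b] := by
    apply (ZMod.natCast_eq_natCast_iff _ _ _).1
    have := congrArg (Units.val) hv3
    simpa [hv] using this
  apply hcomm
  rw [← hxq] at hmod2
  have := (pow_eq_pow_iff_modEq (x := x)).2 hmod2
  rwa [pow_one] at this

/-- a cyclic group not contained in `R` has an element of prime power order outside `R` -/
theorem exists_primary (R C : Subgroup G) [R.Normal] [IsCyclic C] (hC : ¬ C ≤ R) :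
    ∃ q : ℕ, q.Prime ∧ q ∣ Nat.card C ∧ q - 1 ∣ R.index.factorial ∧ ∃ y ∈ C, y ∉ R ∧
      ∃ b : ℕ, orderOf y = q ^ b := by
  obtain ⟨c, hc⟩ := IsCyclic.exists_monoid_generator (α := C)
  have hcR : (c : G) ∉ R := by
    intro h
    apply hC
    intro d hd
    obtain ⟨j, hj⟩ := (Submonoid.mem_powers_iff _ _).1 (hc ⟨d, hd⟩)
    have hj' : (c : G) ^ j = d := by
      have := congrArg (Subtype.val) hj
      simpa using this
    rw [← hj']
    exact Subgroup.pow_mem _ h j
  set k := orderOf (QuotientGroup.mk (c : G) : G ⧸ R) with hk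
  have hk1 : k ≠ 1 := by
    intro h
    rw [hk, orderOf_eq_one_iff, QuotientGroup.eq_one_iff] at h
    exact hcR h
  set q := k.minFac with hqdef
  have hq : q.Prime := Nat.minFac_prime hk1
  have hqk : q ∣ k := Nat.minFac_dvd k
  have hkidx : k ∣ R.index := by
    rw [hk, Subgroup.index]
    exact orderOf_dvd_natCard _
  have hkN : k ∣ orderOf (c : G) := by
    apply orderOf_dvd_of_pow_eq_one
    rw [← QuotientGroup.mk_pow, pow_orderOf_eq_one]
    rfl
  have hNcard : orderOf (c : G) ∣ Nat.card C := by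
    have h1 : orderOf c ∣ Nat.card C := orderOf_dvd_natCard _
    have h2 : orderOf (c : G) = orderOf c := (Subgroup.orderOf_coe c)
    rw [h2]
    exact h1
  have hidx0 : R.index ≠ 0 := Subgroup.FiniteIndex.index_ne_zero
  have hN0 : orderOf (c : G) ≠ 0 := (orderOf_pos (c : G)).ne'
  obtain ⟨b, m, hm, hNm⟩ := Nat.exists_eq_pow_mul_and_not_dvd hN0 q hq.ne_one
  refine ⟨q, hq, hqk.trans (hkN.trans hNcard), ?_, (c : G) ^ m, Subgroup.pow_mem _ c.2 m, ?_, b, ?_⟩
  · apply Nat.dvd_factorial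
    · have := hq.two_le
      omega
    · have := Nat.le_of_dvd (Nat.pos_of_ne_zero hidx0) (hqk.trans hkidx)
      omega
  · intro h
    apply hm
    apply hqk.trans
    rw [hk]
    apply orderOf_dvd_of_pow_eq_one
    rw [← QuotientGroup.mk_pow, QuotientGroup.eq_one_iff]
    exact h
  · have hm0 : m ≠ 0 := by
      rintro rfl
      exact hm (dvd_zero q)
    rw [orderOf_pow_of_dvd hm0 (by rw [hNm]; exact dvd_mul_left m _), hNm,
      Nat.mul_div_cancel _ (Nat.pos_of_ne_zero hm0)]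

end IGRP

theorem IGRP_thm : StarkC.Stmt_IGRP := by
  intro G X _ _ _ R₁ R₂ R₃ e₂ e₃ hR1 h32 h21 he2 he3 he32 hinv2 hinv3 W hW hFK3 hFK2 hTOR p hp
    H C hCH hnorm hcyc hcop hexp hCR w hw h hh hhw hhR x hx
  have := hR1
  have := hcyc
  have hnx : ∀ y ∈ H, ∀ c ∈ C, y * c * y⁻¹ ∈ C := fun y hy c hc => hnorm y hy c hc
  have fixpow : ∀ (z : G) (v : X), z • v = v → ∀ j : ℕ, z ^ j • v = v := by
    intro z v hz j
    induction j with
    | zero => simp
    | succ j ih => rw [pow_succ, mul_smul, hz, ih]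
  -- case A
  have caseA : ∀ c ∈ C, c • w = w → c ∉ R₁ → e₂ (x • w) w := by
    intro c hc hcw hcR
    obtain ⟨j, hj⟩ := IGRP.mem_powers_conj C x (hnx x hx) c hc
    have h1 : (x * c * x⁻¹) • (x • w) = x • w := by
      rw [mul_smul, mul_smul, inv_smul_smul, hcw]
    have h2 : c • (x • w) = x • w := by
      conv_lhs => rw [hj]
      exact fixpow _ _ h1 j
    by_contra hne
    have hne3 : ¬ e₃ (x • w) w := fun h' => hne (he32 _ _ h')
    exact hcR (h21 (h32 (hFK3 c (x • w) (hW x w hw) w hw h2 hcw hne3)))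
  obtain ⟨n, hn⟩ := hexp
  rcases hp with rfl | hp
  · have := hn h hh
    rw [one_pow, pow_one] at this
    exact caseA h this hhw hhR
  -- the order of `h`
  have hN0 : orderOf h ≠ 0 := (orderOf_pos h).ne'
  obtain ⟨a, m, hm, hNm⟩ := Nat.exists_eq_pow_mul_and_not_dvd hN0 p hp.ne_one
  have hcopm : Nat.Coprime (p ^ a) m := Nat.Coprime.pow_left a ((Nat.Prime.coprime_iff_not_dvd hp).2 hm)
  have hor : h ^ (p ^ a) ∉ R₁ ∨ h ^ m ∉ R₁ := by
    by_contra hcon
    push Not at hcon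
    obtain ⟨h1, h2⟩ := hcon
    apply hhR
    have hbez : ((p ^ a : ℕ) : ℤ) * Nat.gcdA (p ^ a) m + (m : ℤ) * Nat.gcdB (p ^ a) m = 1 := by
      rw [← Nat.gcd_eq_gcd_ab, hcopm]
      rfl
    have hh1 : h = (h ^ (p ^ a)) ^ (Nat.gcdA (p ^ a) m) * (h ^ m) ^ (Nat.gcdB (p ^ a) m) := by
      rw [← zpow_natCast, ← zpow_natCast, ← zpow_mul, ← zpow_mul, ← zpow_add, hbez, zpow_one]
    rw [hh1]
    exact Subgroup.mul_mem _ (Subgroup.zpow_mem _ h1 _) (Subgroup.zpow_mem _ h2 _)
  rcases hor with h1 | h1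
  · -- `h ^ (p ^ a)` lies in `C`
    have hz : (h ^ (p ^ a)) ^ m = 1 := by
      rw [← pow_mul, ← hNm, pow_orderOf_eq_one]
    have hcopn : Nat.Coprime (p ^ n) m :=
      Nat.Coprime.pow_left n ((Nat.Prime.coprime_iff_not_dvd hp).2 hm)
    have hmemC : h ^ (p ^ a) ∈ C := by
      have hbez : ((p ^ n : ℕ) : ℤ) * Nat.gcdA (p ^ n) m + (m : ℤ) * Nat.gcdB (p ^ n) m = 1 := by
        rw [← Nat.gcd_eq_gcd_ab, hcopn]
        rfl
      have hh1 : h ^ (p ^ a) = ((h ^ (p ^ a)) ^ (p ^ n)) ^ (Nat.gcdA (p ^ n) m) *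
          ((h ^ (p ^ a)) ^ m) ^ (Nat.gcdB (p ^ n) m) := by
        rw [← zpow_natCast (h ^ (p ^ a)) (p ^ n), ← zpow_natCast (h ^ (p ^ a)) m, ← zpow_mul,
          ← zpow_mul, ← zpow_add, hbez, zpow_one]
      rw [hh1, hz, one_zpow, mul_one]
      exact Subgroup.zpow_mem _ (hn _ (Subgroup.pow_mem _ hh _)) _
    exact caseA _ hmemC (fixpow _ _ hhw _) h1
  · -- case B
    set τ := h ^ m with hτ
    have hτH : τ ∈ H := Subgroup.pow_mem _ hh _
    have hτw : τ • w = w := fixpow _ _ hhw _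
    have hτp : τ ^ (p ^ a) = 1 := by
      rw [hτ, ← pow_mul, mul_comm, ← hNm, pow_orderOf_eq_one]
    obtain ⟨q, hq, hqC, hq1, y, hyC, hyR, b, hyb⟩ := IGRP.exists_primary R₁ C hCR
    have hqp : q ≠ p := by
      rintro rfl
      exact (Nat.Prime.coprime_iff_not_dvd hp).1 hcop hqC
    have hcomm := IGRP.comm_pow C τ (hnx τ hτH) p q a b R₁.index.factorial hp hq hqp hτp hq1 y hyC hyb
    set ρ := τ ^ R₁.index.factorial with hρ
    have hρw : ρ • w = w := fixpow _ _ hτw _
    have hρy : ρ • (y • w) = y • w := by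
      rw [← mul_smul, hcomm, mul_smul, hρw]
    have hey : e₃ (y • w) w := by
      by_contra hne
      have hρ3 : ρ ∈ R₃ := hFK3 ρ (y • w) (hW y w hw) w hw hρy hρw hne
      apply h1
      apply hTOR τ w hw _ hρ3
      rw [hτw]
      exact he3.refl w
    obtain ⟨j, hj⟩ := IGRP.mem_powers_conj C x (hnx x hx) y hyC
    have hz1 : e₃ ((x * y * x⁻¹) • (x • w)) (x • w) := by
      have : (x * y * x⁻¹) • (x • w) = x • (y • w) := by
        rw [mul_smul, mul_smul, inv_smul_smul]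
      rw [this]
      exact hinv3 x _ _ hey
    have hz2 : ∀ i : ℕ, e₃ ((x * y * x⁻¹) ^ i • (x • w)) (x • w) := by
      intro i
      induction i with
      | zero =>
        rw [pow_zero, one_smul]
        exact he3.refl _
      | succ i ih =>
        rw [pow_succ', mul_smul]
        exact he3.trans (hinv3 _ _ _ ih) hz1
    have hz3 : e₃ (y • (x • w)) (x • w) := by
      have := hz2 j
      rwa [← hj] at this
    by_contra hne
    exact hyR (h21 (hFK2 y (x • w) (hW x w hw) w hw hz3 hey hne))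

end StarkC
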