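import Pool.Agent.StarkI.Stmts

/-!
# Module IINV: involutions in decomposition groups

Over a large field an involution in the decomposition group of a prime above `l` fixes the square
roots of `-1`.
-/

open NumberField IsDedekindDomain Polynomial
open scoped Classical

namespace StarkC

namespace IINV

/-- the polynomial with the roots `(± √k ± i)^(1/2)` -/
noncomputable def G (k : ℕ) : Polynomial ℚ := (X ^ 4 - C ((k : ℚ) - 1)) ^ 2 + C (4 * (k : ℚ))

/-- the product of the polynomials used for the numbers up to `n` -/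
noncomputable def P (n : ℕ) : Polynomial ℚ :=
  ∏ k ∈ Finset.range (n + 1), ((X ^ 2 - C (k : ℚ)) * G k)

/-- the polynomial used for `l` -/
noncomputable def Q (l : ℕ) : Polynomial ℚ :=
  (X ^ 2 + C (((8 * l ^ 2 - 1 : ℕ) : ℚ))) * P (8 * l ^ 2 - 1)

lemma G_monic (k : ℕ) : (G k).Monic := by
  unfold G
  have h1 : ((X ^ 4 - C ((k : ℚ) - 1)) ^ 2 : Polynomial ℚ).Monic :=
    (monic_X_pow_sub_C _ (by norm_num)).pow 2
  refine h1.add_of_left ?_
  have h2 : ((X ^ 4 - C ((k : ℚ) - 1)) ^ 2 : Polynomial ℚ).natDegree = 8 := by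
    rw [natDegree_pow, natDegree_X_pow_sub_C]
  rw [degree_eq_natDegree h1.ne_zero, h2]
  exact lt_of_le_of_lt degree_C_le (by norm_num)

lemma P_monic (n : ℕ) : (P n).Monic := by
  unfold P
  refine monic_prod_of_monic _ _ fun k _ => ?_
  exact (monic_X_pow_sub_C _ (by norm_num)).mul (G_monic k)

lemma Q_monic (l : ℕ) : (Q l).Monic := by
  unfold Q
  exact (monic_X_pow_add_C _ (by norm_num)).mul (P_monic _)

variable {N : Type} [Field N] [NumberField N]

omit [NumberField N] in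
lemma exists_sq {f : Polynomial N} (hf : f.Splits) (hf0 : f ≠ 0) (a : N) (h : X ^ 2 - C a ∣ f) :
    ∃ b : N, b ^ 2 = a := by
  have h1 : (X ^ 2 - C a : Polynomial N).Splits := hf.of_dvd hf0 h
  have h2 : (X ^ 2 - C a : Polynomial N).degree ≠ 0 := by
    rw [degree_X_pow_sub_C (by norm_num)]
    norm_num
  obtain ⟨b, hb⟩ := h1.exists_eval_eq_zero h2
  refine ⟨b, ?_⟩
  simpa [sub_eq_zero] using hb

/-- the square roots of `k` are fixed, for `k ≤ n` -/
lemma sqrt_fixed (n : ℕ) (hP : ((P n).map (algebraMap ℚ N)).Splits) (σ : N ≃ₐ[ℚ] N)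
    (hσ : σ * σ = 1) (i : N) (hi : i ^ 2 = -1) (hσi : σ i = -i) :
    ∀ k : ℕ, k ≤ n → ∀ r : N, r ^ 2 = (k : N) → σ r = r := by
  have hP0 : (P n).map (algebraMap ℚ N) ≠ 0 := ((P_monic n).map _).ne_zero
  have hdvd : ∀ k ≤ n, ((X ^ 2 - C (k : ℚ)) * G k) ∣ P n := fun k hk =>
    Finset.dvd_prod_of_mem _ (Finset.mem_range.2 (by omega))
  have hmap1 : ∀ k : ℕ, (X ^ 2 - C (k : ℚ) : Polynomial ℚ).map (algebraMap ℚ N) =
      X ^ 2 - C (k : N) := by
    intro k
    simp
  have hmap2 : ∀ k : ℕ, (G k).map (algebraMap ℚ N) =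
      (X ^ 4 - C ((k : N) - 1)) ^ 2 + C (4 * (k : N)) := by
    intro k
    simp [G]
  intro k
  induction k with
  | zero =>
    intro _ r hr
    have : r = 0 := by simpa using hr
    rw [this, map_zero]
  | succ k ih =>
    intro hk r hr
    -- the square root of `k`
    obtain ⟨s, hs⟩ : ∃ s : N, s ^ 2 = (k : N) := by
      refine exists_sq hP hP0 _ ?_
      rw [← hmap1]
      exact Polynomial.map_dvd _ ((dvd_mul_right _ _).trans (hdvd k (by omega)))
    have hσs : σ s = s := ih (by omega) s hs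
    obtain ⟨b, hb⟩ : ∃ b : N, b ^ 2 = s + i := by
      refine exists_sq hP hP0 _ ?_
      have h1 : (G k).map (algebraMap ℚ N) ∣ (P n).map (algebraMap ℚ N) :=
        Polynomial.map_dvd _ ((dvd_mul_left _ _).trans (hdvd k (by omega)))
      refine dvd_trans ?_ h1
      rw [hmap2]
      refine ⟨(X ^ 2 + C (s + i)) * (X ^ 4 - C ((k : N) - 1) + C (2 * s * i)), ?_⟩
      have e1 : (C i : Polynomial N) ^ 2 = -1 := by rw [← C_pow, hi]; simp
      have e2 : (C s : Polynomial N) ^ 2 = C (k : N) := by rw [← C_pow, hs]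
      simp only [C_add, C_mul, C_sub, C_1]
      have e3 : (C (2 : N) : Polynomial N) = 2 := rfl
      have e4 : (C (4 : N) : Polynomial N) = 4 := rfl
      rw [e3, e4, ← e2]
      linear_combination (4 * C s ^ 2 + X ^ 4 - C s ^ 2 + 1 + 2 * C s * C i) * e1
    have h1 : (b * σ b) ^ 2 = r ^ 2 := by
      have h2 : (σ b) ^ 2 = s - i := by
        rw [← map_pow, hb, map_add, hσs, hσi, sub_eq_add_neg]
      rw [mul_pow, hb, h2, hr]
      push_cast
      linear_combination hs - hi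
    have h3 : σ (b * σ b) = b * σ b := by
      rw [map_mul]
      have : σ (σ b) = b := by
        have := DFunLike.congr_fun hσ b
        simpa using this
      rw [this, mul_comm]
    rcases sq_eq_sq_iff_eq_or_eq_neg.1 h1 with h | h
    · rw [← h, h3]
    · have : r = -(b * σ b) := by rw [h, neg_neg]
      rw [this, map_neg, h3]

/-- the square roots of `1 - 8 l²` are fixed by the decomposition groups above `l` -/
lemma sqrt_fixed_dec (l : ℕ) (hl : l.Prime) (σ : N ≃ₐ[ℚ] N) (w : HeightOneSpectrum (𝓞 N))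
    (hlw : (l : 𝓞 N) ∈ w.asIdeal) (hw : Dec w σ) (s : N) (hs : s ^ 2 = 1 - 8 * (l : N) ^ 2) :
    σ s = s := by
  have h1 : (σ s) ^ 2 = s ^ 2 := by
    rw [← map_pow, hs]
    simp only [map_sub, map_mul, map_pow, map_one, map_natCast, map_ofNat]
  rcases sq_eq_sq_iff_eq_or_eq_neg.1 h1 with h | h
  · exact h
  exfalso
  set v := w.valuation N with hv
  have hx : v (s - 1) = v (s + 1) := by
    have h2 := RB.val_dec hw (s - 1)
    rw [map_sub, h, map_one] at h2
    rw [← h2, ← Valuation.map_neg]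
    congr 1
    ring
  have hl1 : v (l : N) < 1 := by
    have := (HeightOneSpectrum.valuation_lt_one_iff_mem (K := N) w (l : 𝓞 N)).2 hlw
    simpa using this
  have h21 : v (2 : N) ≤ 1 := by
    have h : v (algebraMap (𝓞 N) N ((2 : ℕ) : 𝓞 N)) ≤ 1 :=
      HeightOneSpectrum.valuation_le_one (K := N) w ((2 : ℕ) : 𝓞 N)
    have h' : (algebraMap (𝓞 N) N) ((2 : ℕ) : 𝓞 N) = (2 : N) := by
      rw [map_natCast]
      norm_num
    rw [h'] at h
    exact h
  have hprod : v (s - 1) * v (s + 1) = v 2 ^ 3 * v (l : N) ^ 2 := by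
    rw [← map_mul, ← map_pow, ← map_pow, ← map_mul, ← Valuation.map_neg]
    congr 1
    linear_combination -hs
  have h2 : v (2 : N) ≤ v (s - 1) := by
    have : (2 : N) = (s + 1) - (s - 1) := by ring
    rw [this]
    refine (Valuation.map_sub _ _ _).trans ?_
    rw [hx, max_self]
  rw [← hx] at hprod
  set x := v (s - 1) with hxdef
  have hl0 : (l : N) ≠ 0 := by exact_mod_cast hl.ne_zero
  have h20 : v (2 : N) ≠ 0 := by
    rw [Valuation.ne_zero_iff]
    norm_num
  have hx0 : x ≠ 0 := fun h0 => by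
    rw [h0] at h2
    exact h20 (le_zero_iff.1 h2)
  have hx1 : x ≤ 1 := by
    by_contra hc
    have hc := not_le.1 hc
    have h3 : (1 : WithZero (Multiplicative ℤ)) < x * x := one_lt_mul'' hc hc
    rw [hprod] at h3
    exact absurd h3 (not_lt.2 (mul_le_one' (pow_le_one' h21 3) (pow_le_one' hl1.le 2)))
  have h4 : x * x ≤ x * x * v (l : N) ^ 2 := by
    calc x * x = v 2 ^ 3 * v (l : N) ^ 2 := hprod
      _ ≤ x ^ 3 * v (l : N) ^ 2 := by gcongr
      _ ≤ x * x * v (l : N) ^ 2 := by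
        gcongr
        rw [pow_succ, pow_two]
        exact mul_le_of_le_one_right' hx1
  have h5 : x * x * v (l : N) ^ 2 < x * x := by
    have hxx : 0 < x * x := zero_lt_iff.2 (mul_ne_zero hx0 hx0)
    have h6 : v (l : N) ^ 2 < 1 := pow_lt_one₀ zero_le hl1 (by norm_num)
    calc x * x * v (l : N) ^ 2 < x * x * 1 := by
          exact mul_lt_mul_of_pos_left h6 hxx
      _ = x * x := mul_one _
  exact absurd h5 (not_lt.2 h4)

end IINV

/-- MODULE IINV. -/
theorem IINV_thm : Stmt_IINV := by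
  intro T
  refine ⟨∏ l ∈ T, IINV.Q l, (monic_prod_of_monic _ _ fun l _ => IINV.Q_monic l).ne_zero, ?_⟩
  intro N _ _ hF σ w hT hw hσ i hi
  obtain ⟨l, hlT, hl, hlw⟩ := hT
  have hF0 : (∏ l ∈ T, IINV.Q l).map (algebraMap ℚ N) ≠ 0 :=
    ((monic_prod_of_monic _ _ fun l _ => IINV.Q_monic l).map _).ne_zero
  have hQd : (IINV.Q l).map (algebraMap ℚ N) ∣ (∏ l ∈ T, IINV.Q l).map (algebraMap ℚ N) :=
    Polynomial.map_dvd _ (Finset.dvd_prod_of_mem _ hlT)
  have hQ : ((IINV.Q l).map (algebraMap ℚ N)).Splits := hF.of_dvd hF0 hQd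
  have hQ0 : (IINV.Q l).map (algebraMap ℚ N) ≠ 0 := ((IINV.Q_monic l).map _).ne_zero
  have hP : ((IINV.P (8 * l ^ 2 - 1)).map (algebraMap ℚ N)).Splits :=
    hQ.of_dvd hQ0 (Polynomial.map_dvd _ (dvd_mul_left _ _))
  -- the square root of `1 - 8 l²`
  have hl2 : 1 ≤ 8 * l ^ 2 := by
    have := hl.one_lt
    nlinarith
  have hcast : (((8 * l ^ 2 - 1 : ℕ) : ℚ)) = 8 * (l : ℚ) ^ 2 - 1 := by
    push_cast [Nat.cast_sub hl2]
    ring
  have hcastN : (((8 * l ^ 2 - 1 : ℕ) : N)) = 8 * (l : N) ^ 2 - 1 := by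
    push_cast [Nat.cast_sub hl2]
    ring
  obtain ⟨s, hs⟩ : ∃ s : N, s ^ 2 = 1 - 8 * (l : N) ^ 2 := by
    refine IINV.exists_sq hQ hQ0 _ ?_
    have h1 : (X ^ 2 - C (1 - 8 * (l : N) ^ 2) : Polynomial N) =
        (X ^ 2 + C (((8 * l ^ 2 - 1 : ℕ) : ℚ)) : Polynomial ℚ).map (algebraMap ℚ N) := by
      rw [hcast]
      simp
      ring
    rw [h1]
    exact Polynomial.map_dvd _ (dvd_mul_right _ _)
  by_contra hne
  have hσi : σ i = -i := by
    have h1 : (σ i) ^ 2 = i ^ 2 := by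
      rw [← map_pow, hi]
      simp
    rcases sq_eq_sq_iff_eq_or_eq_neg.1 h1 with h | h
    · exact absurd h hne
    · exact h
  have hσs : σ s = s := IINV.sqrt_fixed_dec l hl σ w hlw hw s hs
  have hi0 : i ≠ 0 := by
    rintro rfl
    norm_num at hi
  have h3 : (s * i) ^ 2 = (((8 * l ^ 2 - 1 : ℕ) : N)) := by
    rw [hcastN, mul_pow, hs, hi]
    ring
  have h4 := IINV.sqrt_fixed (8 * l ^ 2 - 1) hP σ hσ i hi hσi (8 * l ^ 2 - 1) le_rfl (s * i) h3
  rw [map_mul, hσs, hσi] at h4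
  have h5 : s * i = 0 := by
    have : 2 * (s * i) = 0 := by linear_combination -h4
    exact (mul_eq_zero.1 this).resolve_left two_ne_zero
  rw [h5] at h3
  have h6 : ((8 * l ^ 2 - 1 : ℕ) : N) = 0 := by rw [← h3]; simp
  have h7 : 8 * l ^ 2 - 1 = 0 := by exact_mod_cast h6
  have := hl.one_lt
  have : 8 * 1 ^ 2 < 8 * l ^ 2 := by nlinarith
  omega

end StarkC
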