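import Pool.Agent.StarkI.Stmts
import Pool.Agent.Stark.RFKS
import Pool.Agent.Stark.AR3

set_option autoImplicit false

/-!
IKEY: the tower `N₁ ≤ N₂ ≤ N` (helper14).
-/

open NumberField IsDedekindDomain
open scoped TensorProduct Classical

namespace StarkC

namespace KEY

/-- The centraliser of a complex conjugation: the statement `Stmt_ART` of `StarkT/Stmts.lean`
(that file cannot be imported together with `Stark/RStmts.lean`). -/
def Stmt_ARTK : Prop :=
  ∀ (K L : Type) [Field K] [NumberField K] [Field L] [NumberField L] [Algebra K L] [IsGalois K L],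
    ∃ B : Finset L, ∀ (N : Type) [Field N] [NumberField N] [Algebra K N] [Algebra L N]
      [IsScalarTower K L N] [IsGalois K N],
      (∀ b ∈ B, ∃ y : N, y ^ 2 = algebraMap L N b) →
      ∀ (Φ : N →+* ℂ) (c u : N ≃ₐ[K] N), ComplexEmbedding.IsConj Φ c → u * c = c * u →
        AlgEquiv.restrictNormalHom L u = (1 : L ≃ₐ[K] L) ∨
          AlgEquiv.restrictNormalHom L u = (AlgEquiv.restrictNormalHom L c : L ≃ₐ[K] L)

/-- `T` and the primes below -/
theorem above_under {L N : Type} [Field L] [NumberField L] [Field N] [NumberField N]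
    [Algebra L N] (T : Finset ℕ) (w : HeightOneSpectrum (𝓞 N)) :
    Above T (w.under (𝓞 L)) ↔ Above T w := by
  constructor
  · rintro ⟨q, hq, hp, h⟩
    refine ⟨q, hq, hp, ?_⟩
    have h1 : algebraMap (𝓞 L) (𝓞 N) (q : 𝓞 L) ∈ w.asIdeal := h
    rwa [map_natCast] at h1
  · rintro ⟨q, hq, hp, h⟩
    refine ⟨q, hq, hp, ?_⟩
    show algebraMap (𝓞 L) (𝓞 N) (q : 𝓞 L) ∈ w.asIdeal
    rwa [map_natCast]

theorem above_mv {K N : Type} [Field K] [Field N] [NumberField N] [Algebra K N]
    (T : Finset ℕ) (w : HeightOneSpectrum (𝓞 N)) (g : N ≃ₐ[K] N) (h : Above T w) :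
    Above T (STB.mv (g : N ≃+* N) w) := by
  obtain ⟨q, hq, hp, hw⟩ := h
  refine ⟨q, hq, hp, ?_⟩
  have h1 := (RB.mv_eq_iff (g : N ≃+* N) w _).1 rfl _ hw
  have h2 : STB.oMap (g : N ≃+* N) (q : 𝓞 N) = (q : 𝓞 N) := map_natCast _ q
  rwa [h2] at h1

theorem finite_above (N : Type) [Field N] [NumberField N] (T : Finset ℕ) :
    {w : HeightOneSpectrum (𝓞 N) | Above T w}.Finite := by
  have h1 : {w : HeightOneSpectrum (𝓞 N) | Above T w} ⊆
      ⋃ q ∈ {q ∈ T | q.Prime}, {w : HeightOneSpectrum (𝓞 N) |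
        w.asIdeal ∣ Ideal.span {(q : 𝓞 N)}} := by
    rintro w ⟨q, hq, hp, h⟩
    simp only [Set.mem_iUnion]
    refine ⟨q, Finset.mem_filter.2 ⟨hq, hp⟩, ?_⟩
    show w.asIdeal ∣ Ideal.span {(q : 𝓞 N)}
    rw [Ideal.dvd_iff_le, Ideal.span_singleton_le_iff_mem]
    exact h
  refine Set.Finite.subset (Set.Finite.biUnion (Finset.finite_toSet _) fun q hq => ?_) h1
  apply Ideal.finite_factors
  rw [Ne, Ideal.zero_eq_bot, Ideal.span_singleton_eq_bot]
  have := (Finset.mem_filter.1 (Finset.mem_coe.1 hq)).2.ne_zero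
  exact_mod_cast this

/-- the property of F. K. Schmidt for the primes above `T` -/
def FK (K L N : Type) [Field K] [Field L] [NumberField L] [Algebra K L] [Normal K L]
    [Field N] [NumberField N] [Algebra K N] [Algebra L N] [IsScalarTower K L N]
    (T : Finset ℕ) : Prop :=
  ∀ (σ : N ≃ₐ[K] N) (P Q : HeightOneSpectrum (𝓞 N)), Dec P σ → Dec Q σ →
    Above T P → Above T Q → P.under (𝓞 L) ≠ Q.under (𝓞 L) →
    AlgEquiv.restrictNormalHom L σ = 1

section Tower

variable {K L M N : Type} [Field K] [NumberField K] [Field L] [NumberField L] [Algebra K L]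
  [IsGalois K L] [Field M] [NumberField M] [Algebra K M] [Algebra L M] [IsScalarTower K L M]
  [IsGalois K M] [Field N] [NumberField N] [Algebra K N] [Algebra L N] [IsScalarTower K L N]
  [Algebra M N] [IsScalarTower K M N] [IsScalarTower L M N] [IsGalois K N]

theorem res_res (g : N ≃ₐ[K] N) : AlgEquiv.restrictNormalHom L
    (AlgEquiv.restrictNormalHom M g : M ≃ₐ[K] M) = AlgEquiv.restrictNormalHom L g := by
  rw [← IsScalarTower.AlgEquiv.restrictNormalHom_comp_apply L M]

/-- FK for `L` passes to larger fields -/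
theorem FK.up {T : Finset ℕ} (h : FK K L M T) : FK K L N T := by
  intro σ P Q hP hQ aP aQ hne
  have h1 := h (AlgEquiv.restrictNormalHom M σ) (P.under (𝓞 M)) (Q.under (𝓞 M))
    (RB.dec_restrict hP) (RB.dec_restrict hQ) ((above_under T P).2 aP) ((above_under T Q).2 aQ)
    (by rwa [RB.under_under, RB.under_under])
  rwa [res_res] at h1

end Tower

/-- a field with FK -/
theorem exists_FK (h1 : Stmt_RFKS) (K L : Type) [Field K] [NumberField K] [Field L]
    [NumberField L] [Algebra K L] [IsGalois K L] (T : Finset ℕ) :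
    ∃ (N : Type) (_ : Field N) (_ : NumberField N) (_ : Algebra K N)
      (_ : Algebra L N) (_ : IsScalarTower K L N) (_ : IsGalois K N), FK K L N T := by
  obtain ⟨N, i1, i2, i3, i4, i5, i6, hN⟩ := h1 K L (finite_above L T).toFinset
  refine ⟨N, i1, i2, i3, i4, i5, i6, fun σ P Q hP hQ aP aQ hne => ?_⟩
  refine hN σ P Q hP hQ ?_ ?_ hne
  · rw [Set.Finite.mem_toFinset]
    exact (above_under T P).2 aP
  · rw [Set.Finite.mem_toFinset]
    exact (above_under T Q).2 aQ

/-- FK and the splitting of a polynomial -/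
theorem exists_two (h1 : Stmt_RFKS) (K L : Type) [Field K] [NumberField K] [Field L]
    [NumberField L] [Algebra K L] [IsGalois K L] (T : Finset ℕ) (F : Polynomial ℚ) :
    ∃ (N : Type) (_ : Field N) (_ : NumberField N) (_ : Algebra K N)
      (_ : Algebra L N) (_ : IsScalarTower K L N) (_ : IsGalois K N), FK K L N T ∧
      (F.map (algebraMap ℚ N)).Splits := by
  obtain ⟨M, _, _, _, _, _, _, hM⟩ := exists_FK h1 K L T
  obtain ⟨N, i1, i2, i3, algMN, i5, i6, hN⟩ := RFKS.split_ext K M (F.map (algebraMap ℚ M))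
  let algLN : Algebra L N := ((algebraMap M N).comp (algebraMap L M)).toAlgebra
  have t1 : IsScalarTower L M N := IsScalarTower.of_algebraMap_eq fun _ => rfl
  have t2 : IsScalarTower K L N := IsScalarTower.of_algebraMap_eq fun x => by
    rw [IsScalarTower.algebraMap_apply K M N, IsScalarTower.algebraMap_apply K L M,
      IsScalarTower.algebraMap_apply L M N]
  refine ⟨N, i1, i2, i3, algLN, t2, i6, FK.up (M := M) hM, ?_⟩
  rw [Polynomial.map_map] at hN
  have e : (algebraMap M N).comp (algebraMap ℚ M) = algebraMap ℚ N := Subsingleton.elim _ _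
  rwa [e] at hN

/-- FK and TOR -/
theorem exists_three (h1 : Stmt_RFKS) (h2 : Stmt_ITOR) (K L : Type) [Field K] [NumberField K]
    [Field L] [NumberField L] [Algebra K L] [IsGalois K L] (T : Finset ℕ) (e : ℕ) (he : 0 < e) :
    ∃ (N : Type) (_ : Field N) (_ : NumberField N) (_ : Algebra K N)
      (_ : Algebra L N) (_ : IsScalarTower K L N) (_ : IsGalois K N), FK K L N T ∧
      ∀ (σ : N ≃ₐ[K] N) (w : HeightOneSpectrum (𝓞 N)), Above T w → Dec w σ → σ ^ e = 1 →
        AlgEquiv.restrictNormalHom L σ = 1 := by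
  obtain ⟨M, _, _, _, _, _, _, hM⟩ := exists_FK h1 K L T
  obtain ⟨N, i1, i2, i3, algMN, i5, i6, hN⟩ := h2 K M T e he
  let algLN : Algebra L N := ((algebraMap M N).comp (algebraMap L M)).toAlgebra
  have t1 : IsScalarTower L M N := IsScalarTower.of_algebraMap_eq fun _ => rfl
  have t2 : IsScalarTower K L N := IsScalarTower.of_algebraMap_eq fun x => by
    rw [IsScalarTower.algebraMap_apply K M N, IsScalarTower.algebraMap_apply K L M,
      IsScalarTower.algebraMap_apply L M N]
  refine ⟨N, i1, i2, i3, algLN, t2, i6, FK.up (M := M) hM, fun σ w hw hd hσ => ?_⟩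
  rw [← res_res (L := L) (M := M), hN σ w hw hd hσ, map_one]

/-- FK and square roots -/
theorem exists_four (h1 : Stmt_RFKS) (K L : Type) [Field K] [NumberField K] [Field L]
    [NumberField L] [Algebra K L] [IsGalois K L] (T : Finset ℕ) (B : Finset L) :
    ∃ (N : Type) (_ : Field N) (_ : NumberField N) (_ : Algebra K N)
      (_ : Algebra L N) (_ : IsScalarTower K L N) (_ : IsGalois K N), FK K L N T ∧
      ∀ b ∈ B, ∃ y : N, y ^ 2 = algebraMap L N b := by
  obtain ⟨M, _, _, _, _, _, _, hM⟩ := exists_FK h1 K L T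
  obtain ⟨N, i1, i2, i3, algMN, i5, i6, hN⟩ := AR3_thm K M (B.image (algebraMap L M))
  let algLN : Algebra L N := ((algebraMap M N).comp (algebraMap L M)).toAlgebra
  have t1 : IsScalarTower L M N := IsScalarTower.of_algebraMap_eq fun _ => rfl
  have t2 : IsScalarTower K L N := IsScalarTower.of_algebraMap_eq fun x => by
    rw [IsScalarTower.algebraMap_apply K M N, IsScalarTower.algebraMap_apply K L M,
      IsScalarTower.algebraMap_apply L M N]
  refine ⟨N, i1, i2, i3, algLN, t2, i6, FK.up (M := M) hM, fun b hb => ?_⟩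
  obtain ⟨y, hy⟩ := hN _ (Finset.mem_image_of_mem _ hb)
  exact ⟨y, by rw [hy]; rfl⟩

end KEY

open KEY in
theorem IKEY_thm (h1 : Stmt_RFKS) (h2 : Stmt_ITOR) (h3 : Stmt_IINV) (h4 : Stmt_ARTK)
    (h5 : Stmt_IGRP) : Stmt_IKEY := by
  intro K N₁ _ _ _ _ _ _ T ⟨i, hi⟩
  obtain ⟨F, -, hF⟩ := h3 T
  obtain ⟨B, hB⟩ := h4 K N₁
  obtain ⟨N₂, _, _, _, _, _, _, hFK1, hspl⟩ := exists_two h1 K N₁ T F
  obtain ⟨N₃, _, _, _, _, _, _, hFK2, hTOR⟩ := exists_three h1 h2 K N₂ T
    (Nat.card (N₁ ≃ₐ[K] N₁)).factorial (Nat.factorial_pos _)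
  obtain ⟨N, _, _, _, _, _, _, hFK3, hsq⟩ := exists_four h1 K N₃ T
    (B.image ((algebraMap N₂ N₃).comp (algebraMap N₁ N₂)))
  let alg13 : Algebra N₁ N₃ := ((algebraMap N₂ N₃).comp (algebraMap N₁ N₂)).toAlgebra
  have t123 : IsScalarTower N₁ N₂ N₃ := IsScalarTower.of_algebraMap_eq fun _ => rfl
  have tK13 : IsScalarTower K N₁ N₃ := IsScalarTower.of_algebraMap_eq fun x => by
    rw [IsScalarTower.algebraMap_apply K N₂ N₃, IsScalarTower.algebraMap_apply K N₁ N₂,
      IsScalarTower.algebraMap_apply N₁ N₂ N₃]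
  let alg2 : Algebra N₂ N := ((algebraMap N₃ N).comp (algebraMap N₂ N₃)).toAlgebra
  have t23 : IsScalarTower N₂ N₃ N := IsScalarTower.of_algebraMap_eq fun _ => rfl
  have tK2 : IsScalarTower K N₂ N := IsScalarTower.of_algebraMap_eq fun x => by
    rw [IsScalarTower.algebraMap_apply K N₃ N, IsScalarTower.algebraMap_apply K N₂ N₃,
      IsScalarTower.algebraMap_apply N₂ N₃ N]
  let alg1 : Algebra N₁ N := ((algebraMap N₃ N).comp (algebraMap N₁ N₃)).toAlgebra
  have t13 : IsScalarTower N₁ N₃ N := IsScalarTower.of_algebraMap_eq fun _ => rfl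
  have tK1 : IsScalarTower K N₁ N := IsScalarTower.of_algebraMap_eq fun x => by
    rw [IsScalarTower.algebraMap_apply K N₃ N, IsScalarTower.algebraMap_apply K N₁ N₃,
      IsScalarTower.algebraMap_apply N₁ N₃ N]
  have t12 : IsScalarTower N₁ N₂ N := IsScalarTower.of_algebraMap_eq fun _ => rfl
  refine ⟨N₂, inferInstance, inferInstance, inferInstance, inferInstance, inferInstance,
    inferInstance, N, inferInstance, inferInstance, inferInstance, alg1, tK1, alg2, tK2, t12,
    inferInstance, hFK1, ?_, ?_, ?_⟩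
  · -- complex conjugations
    intro c P hc hP hd
    have hcc := CMB.isCC_sq hc
    have h6 := hF N₂ hspl (c.restrictScalars ℚ) P hP hd (by
      ext x
      exact DFunLike.congr_fun hcc x) (algebraMap N₁ N₂ i) (by rw [← map_pow, hi]; simp)
    obtain ⟨Φ, hΦ⟩ := hc
    have h7 : Φ (c (algebraMap N₁ N₂ i)) = star (Φ (algebraMap N₁ N₂ i)) := (hΦ.eq _)
    have h8 : c (algebraMap N₁ N₂ i) = algebraMap N₁ N₂ i := h6
    rw [h8] at h7
    have h9 : Φ (algebraMap N₁ N₂ i) ^ 2 = -1 := by
      rw [← map_pow, ← map_pow, hi]; simp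
    have h10 : (Φ (algebraMap N₁ N₂ i)).im = 0 := by
      have := congrArg Complex.im h7
      simp only [Complex.star_def, Complex.conj_im] at this
      linarith
    have h11 := congrArg Complex.re h9
    simp only [pow_two, Complex.mul_re, h10, Complex.neg_re, Complex.one_re] at h11
    nlinarith [sq_nonneg (Φ (algebraMap N₁ N₂ i)).re]
  · -- the centraliser of a complex conjugation
    intro c u ⟨Φ, hΦ⟩ hcomm
    refine hB N ?_ Φ c u hΦ hcomm
    intro b hb
    obtain ⟨y, hy⟩ := hsq _ (Finset.mem_image_of_mem _ hb)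
    exact ⟨y, hy⟩
  · -- the group theoretic part
    letI act : MulAction (N ≃ₐ[K] N) (HeightOneSpectrum (𝓞 N)) :=
      { smul := fun g w => STB.mv (g : N ≃+* N) w
        one_smul := RB.mv_one
        mul_smul := RB.mv_mul }
    have smul_def : ∀ (g : N ≃ₐ[K] N) (w : HeightOneSpectrum (𝓞 N)),
        g • w = STB.mv (g : N ≃+* N) w := fun _ _ => rfl
    intro p hp H C hCH hCn hCc hCp hexp hC w h hw hh hdec hne x hx
    obtain ⟨c₀, hc₀, hc₀'⟩ := hC
    have hidx : ((AlgEquiv.restrictNormalHom N₁ : (N ≃ₐ[K] N) →* (N₁ ≃ₐ[K] N₁)).ker).index =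
        Nat.card (N₁ ≃ₐ[K] N₁) := by
      rw [Subgroup.index_ker]
      exact Nat.card_congr ((Equiv.setCongr (by
        rw [MonoidHom.range_eq_top.2 (AlgEquiv.restrictNormalHom_surjective N)]
        rfl)).trans (Equiv.Set.univ _))
    have key := h5 (N ≃ₐ[K] N) (HeightOneSpectrum (𝓞 N))
      (AlgEquiv.restrictNormalHom N₁ : (N ≃ₐ[K] N) →* (N₁ ≃ₐ[K] N₁)).ker
      (AlgEquiv.restrictNormalHom N₂ : (N ≃ₐ[K] N) →* (N₂ ≃ₐ[K] N₂)).ker
      (AlgEquiv.restrictNormalHom N₃ : (N ≃ₐ[K] N) →* (N₃ ≃ₐ[K] N₃)).ker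
      (fun x y => x.under (𝓞 N₂) = y.under (𝓞 N₂)) (fun x y => x.under (𝓞 N₃) = y.under (𝓞 N₃))
      inferInstance
      (fun g hg => by
        rw [MonoidHom.mem_ker] at hg ⊢
        rw [← res_res (L := N₂) (M := N₃), hg, map_one])
      (fun g hg => by
        rw [MonoidHom.mem_ker] at hg ⊢
        rw [← res_res (L := N₁) (M := N₂), hg, map_one])
      ⟨fun _ => rfl, fun h => h.symm, fun h h' => h.trans h'⟩
      ⟨fun _ => rfl, fun h => h.symm, fun h h' => h.trans h'⟩
      (fun x y hxy => by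
        rw [← RB.under_under (L := N₂) (L₁ := N₃), hxy, RB.under_under])
      (fun g x y hxy => by
        rw [smul_def, smul_def, RB.mv_under, RB.mv_under, hxy])
      (fun g x y hxy => by
        rw [smul_def, smul_def, RB.mv_under, RB.mv_under, hxy])
      {w | Above T w} (fun g x hx => above_mv T x g hx)
      (fun g x hx y hy h6 h7 hne => by
        rw [MonoidHom.mem_ker]
        exact hFK3 g x y ((RB.dec_iff x g).2 h6) ((RB.dec_iff y g).2 h7) hx hy hne)
      (fun g x hx y hy h6 h7 hne => by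
        rw [MonoidHom.mem_ker, ← res_res (L := N₂) (M := N₃)]
        refine hFK2 _ (x.under (𝓞 N₃)) (y.under (𝓞 N₃)) (RB.dec_of_under h6)
          (RB.dec_of_under h7) ((above_under T x).2 hx) ((above_under T y).2 hy) ?_
        rw [RB.under_under, RB.under_under]
        exact hne)
      (fun g x hx h6 h7 => by
        rw [hidx, MonoidHom.mem_ker, map_pow] at h7
        rw [MonoidHom.mem_ker, ← res_res (L := N₁) (M := N₂), ← res_res (L := N₂) (M := N₃),
          hTOR _ (x.under (𝓞 N₃)) ((above_under T x).2 hx) (RB.dec_of_under h6) h7, map_one])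
      p hp H C hCH hCn hCc hCp hexp
      (fun hle => hc₀' (MonoidHom.mem_ker.1 (hle hc₀))) w hw h hh
      ((RB.dec_iff w h).1 hdec) (fun hk => hne (MonoidHom.mem_ker.1 hk)) x hx
    exact RB.dec_of_under key

end StarkC
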