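import Pool.Agent.StarkI.Stmts

/-!
# The pull back of an induced character (Mackey)
-/

open scoped Classical

namespace StarkC
namespace IPULL

variable {H D : Type} [Group H] [Fintype H] [Group D] [Fintype D] (r : H →* D) (B : Subgroup D)
  (ν : B →* ℂˣ)

/-- The function `F`. -/
noncomputable def F (h : H) (x : D) : ℂ := extZ ν (x⁻¹ * r h * x)

omit [Fintype D] in
lemma extZ_conj (b : B) (z : D) : extZ ν ((b : D) * z * (b : D)⁻¹) = extZ ν z := by
  unfold extZ
  have hiff : (b : D) * z * (b : D)⁻¹ ∈ B ↔ z ∈ B := by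
    constructor
    · intro h
      have h2 := B.mul_mem (B.mul_mem (B.inv_mem b.2) h) b.2
      have h3 : (b : D)⁻¹ * ((b : D) * z * (b : D)⁻¹) * (b : D) = z := by group
      rwa [h3] at h2
    · intro h
      exact B.mul_mem (B.mul_mem b.2 h) (B.inv_mem b.2)
  by_cases hz : z ∈ B
  · rw [dif_pos (hiff.2 hz), dif_pos hz]
    congr 1
    have h4 : (⟨(b : D) * z * (b : D)⁻¹, hiff.2 hz⟩ : B) = b * ⟨z, hz⟩ * b⁻¹ := by
      ext; simp
    rw [h4, map_mul, map_mul, map_inv, mul_comm (ν b), mul_assoc, mul_inv_cancel, mul_one]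
  · rw [dif_neg (fun h => hz (hiff.1 h)), dif_neg hz]

omit [Fintype H] [Fintype D] in
lemma F_mul_right (h : H) (x : D) (b : B) : F r B ν h (x * (b : D)⁻¹) = F r B ν h x := by
  unfold F
  have h1 : (x * (b : D)⁻¹)⁻¹ * r h * (x * (b : D)⁻¹) = (b : D) * (x⁻¹ * r h * x) * (b : D)⁻¹ := by
    group
  rw [h1, extZ_conj]

omit [Fintype H] in
lemma indFun_left (h : H) :
    indFun B (extZ ν) (r h) = (∑ x : D, F r B ν h x) / (Nat.card B : ℂ) := by
  unfold indFun
  congr 1
  refine Finset.sum_congr rfl fun x _ => ?_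
  unfold F
  split_ifs with hx
  · rfl
  · unfold extZ
    rw [dif_neg hx]

lemma indFun_right (x : D) (h : H) :
    indFun (B.comap (cj r x)) (extZ (ν.comp ((cj r x).subgroupComap B))) h =
      (∑ y : H, F r B ν h (r y * x)) / (Nat.card (B.comap (cj r x)) : ℂ) := by
  unfold indFun
  congr 1
  refine Finset.sum_congr rfl fun y _ => ?_
  have hcj : cj r x (y⁻¹ * h * y) = (r y * x)⁻¹ * r h * (r y * x) := by
    simp [cj, mul_assoc]
  have hmem : y⁻¹ * h * y ∈ B.comap (cj r x) ↔ (r y * x)⁻¹ * r h * (r y * x) ∈ B := by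
    rw [Subgroup.mem_comap, hcj]
  unfold F
  by_cases hx : y⁻¹ * h * y ∈ B.comap (cj r x)
  · rw [if_pos hx]
    unfold extZ
    rw [dif_pos hx, dif_pos (hmem.1 hx)]
    congr 1
    rw [MonoidHom.comp_apply]
    congr 1
    ext
    simp only [MonoidHom.subgroupComap, MonoidHom.submonoidComap]
    exact hcj
  · rw [if_neg hx]
    unfold extZ
    rw [dif_neg (fun h' => hx (hmem.2 h'))]

/-- The action of `H × B` on `D`. -/
@[instance_reducible]
def act : MulAction (H × B) D where
  smul g x := r g.1 * x * (g.2 : D)⁻¹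
  one_smul x := by
    change r 1 * x * ((1 : B) : D)⁻¹ = x
    simp
  mul_smul g g' x := by
    change r (g.1 * g'.1) * x * ((g.2 * g'.2 : B) : D)⁻¹ =
      r g.1 * (r g'.1 * x * (g'.2 : D)⁻¹) * (g.2 : D)⁻¹
    simp [mul_assoc]

lemma sum_orbit {G X : Type} [Group G] [Fintype G] [Fintype X] [MulAction G X] (f : X → ℂ)
    (x : X) : ∑ g : G, f (g • x) =
      (Nat.card (MulAction.stabilizer G x) : ℂ) *
        ∑ y ∈ Finset.univ.filter (fun y : X => y ∈ MulAction.orbit G x), f y := by
  have h1 : ∑ g : G, f (g • x) =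
      ∑ y : X, ∑ g ∈ Finset.univ.filter (fun g : G => g • x = y), f (g • x) :=
    (Finset.sum_fiberwise Finset.univ (fun g : G => g • x) (fun g => f (g • x))).symm
  rw [h1, Finset.mul_sum, Finset.sum_filter]
  refine Finset.sum_congr rfl fun y _ => ?_
  split_ifs with hy
  · obtain ⟨g₀, hg₀⟩ := hy
    simp only at hg₀
    have h2 : ∑ g ∈ Finset.univ.filter (fun g : G => g • x = y), f (g • x) =
        ∑ g ∈ Finset.univ.filter (fun g : G => g • x = y), f y :=
      Finset.sum_congr rfl fun g hg => by rw [(Finset.mem_filter.1 hg).2]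
    rw [h2, Finset.sum_const, nsmul_eq_mul]
    congr 2
    rw [Nat.card_eq_fintype_card, Fintype.card_subtype]
    refine Finset.card_bij (fun g _ => g₀⁻¹ * g) ?_ ?_ ?_
    · intro g hg
      simp only [Finset.mem_filter, Finset.mem_univ, true_and] at hg ⊢
      rw [MulAction.mem_stabilizer_iff, mul_smul, hg, ← hg₀, inv_smul_smul]
    · intro g _ g' _ hgg
      exact mul_left_cancel hgg
    · intro g hg
      simp only [Finset.mem_filter, Finset.mem_univ, true_and] at hg ⊢
      refine ⟨g₀ * g, ?_, by group⟩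
      rw [MulAction.mem_stabilizer_iff] at hg
      rw [mul_smul, hg, hg₀]
  · refine Finset.sum_eq_zero fun g hg => ?_
    exact absurd ⟨g, (Finset.mem_filter.1 hg).2⟩ hy

lemma card_stab (x : D) :
    letI := act r B
    Nat.card (MulAction.stabilizer (H × B) x) = Nat.card (B.comap (cj r x)) := by
  letI := act r B
  have hcj : ∀ y : H, cj r x y = x⁻¹ * r y * x := fun y => by simp [cj]
  refine Nat.card_congr
    { toFun := fun g => ⟨g.1.1, ?_⟩
      invFun := fun y => ⟨(y.1, ⟨cj r x y.1, y.2⟩), ?_⟩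
      left_inv := ?_
      right_inv := ?_ }
  · have hg := g.2
    rw [MulAction.mem_stabilizer_iff] at hg
    change r g.1.1 * x * (g.1.2 : D)⁻¹ = x at hg
    rw [Subgroup.mem_comap, hcj]
    have h2 : r g.1.1 * x = x * (g.1.2 : D) := by
      rw [mul_inv_eq_iff_eq_mul] at hg
      exact hg
    have h3 : x⁻¹ * r g.1.1 * x = (g.1.2 : D) := by
      rw [mul_assoc, h2]; group
    rw [h3]
    exact g.1.2.2
  · rw [MulAction.mem_stabilizer_iff]
    change r y.1 * x * (cj r x y.1)⁻¹ = x
    rw [hcj]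
    group
  · intro g
    have hg := g.2
    rw [MulAction.mem_stabilizer_iff] at hg
    change r g.1.1 * x * (g.1.2 : D)⁻¹ = x at hg
    have h2 : r g.1.1 * x = x * (g.1.2 : D) := by
      rw [mul_inv_eq_iff_eq_mul] at hg
      exact hg
    have h3 : x⁻¹ * r g.1.1 * x = (g.1.2 : D) := by
      rw [mul_assoc, h2]; group
    apply Subtype.ext
    refine Prod.ext rfl ?_
    apply Subtype.ext
    change cj r x g.1.1 = (g.1.2 : D)
    rw [hcj, h3]
  · intro y
    rfl

lemma sum_orbit_F (h : H) (x : D) :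
    letI := act r B
    ∑ y ∈ Finset.univ.filter (fun y : D => y ∈ MulAction.orbit (H × B) x), F r B ν h y =
      (Nat.card B : ℂ) *
        indFun (B.comap (cj r x)) (extZ (ν.comp ((cj r x).subgroupComap B))) h := by
  letI := act r B
  have h1 := sum_orbit (G := H × B) (F r B ν h) x
  have h2 : ∑ g : H × B, F r B ν h (g • x) =
      (Nat.card B : ℂ) * ∑ y : H, F r B ν h (r y * x) := by
    rw [Fintype.sum_prod_type, Finset.mul_sum]
    refine Finset.sum_congr rfl fun y _ => ?_
    have h3 : ∀ b : B, F r B ν h ((y, b) • x) = F r B ν h (r y * x) := fun b =>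
      F_mul_right r B ν h (r y * x) b
    rw [Finset.sum_congr rfl fun b _ => h3 b, Finset.sum_const, nsmul_eq_mul,
      Finset.card_univ, Nat.card_eq_fintype_card]
  rw [h2, card_stab r B x] at h1
  rw [indFun_right]
  have h4 : (Nat.card (B.comap (cj r x)) : ℂ) ≠ 0 := by
    exact_mod_cast Nat.card_pos.ne'
  rw [mul_div_assoc', h1]
  field_simp

lemma key (h : H) :
    letI := act r B
    indFun B (extZ ν) (r h) = ∑ ω : MulAction.orbitRel.Quotient (H × B) D,
      indFun (B.comap (cj r ω.out)) (extZ (ν.comp ((cj r ω.out).subgroupComap B))) h := by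
  letI := act r B
  rw [indFun_left]
  have hB : (Nat.card B : ℂ) ≠ 0 := by
    exact_mod_cast Nat.card_pos.ne'
  rw [div_eq_iff hB, Finset.sum_mul]
  rw [← Finset.sum_fiberwise Finset.univ
    (fun x : D => (Quotient.mk _ x : MulAction.orbitRel.Quotient (H × B) D)) (F r B ν h)]
  refine Finset.sum_congr rfl fun ω _ => ?_
  rw [mul_comm, ← sum_orbit_F r B ν h ω.out]
  refine Finset.sum_congr ?_ fun _ _ => rfl
  ext y
  simp only [Finset.mem_filter, Finset.mem_univ, true_and]
  rw [← MulAction.orbitRel_apply]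
  constructor
  · intro hy
    rw [← Quotient.eq, hy]
    exact (Quotient.out_eq ω).symm
  · intro hy
    rw [← Quotient.out_eq ω]
    exact Quotient.sound hy

end IPULL

theorem IPULL_thm : Stmt_IPULL := by
  intro H D _ _ _ _ r B ν
  letI := IPULL.act r B
  have h1 : (fun h : H => indFun B (extZ ν) (r h)) =
      ∑ ω : MulAction.orbitRel.Quotient (H × B) D,
        indFun (B.comap (cj r ω.out)) (extZ (ν.comp ((cj r ω.out).subgroupComap B))) := by
    funext h
    rw [IPULL.key r B ν h, Finset.sum_apply]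
  rw [h1]
  exact Submodule.sum_mem _ fun ω _ => Submodule.subset_span ⟨ω.out, rfl⟩

end StarkC
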