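import Pool.Agent.StarkI.SStmts
import Pool.Agent.Stark.RFKS

/-!
# Stark's conjecture, sharper integral reduction: S_COMP (module STS_COMP)
-/

open NumberField IsDedekindDomain Polynomial
open scoped TensorProduct Classical

namespace StarkC

theorem SCOMP_thm : Stmt_SCOMP := by
  intro E L _ _ _ _
  let pb : PowerBasis ℚ L := Field.powerBasisOfFiniteOfSeparable ℚ L
  let m : Polynomial ℚ := minpoly ℚ pb.gen
  obtain ⟨N, i1, i2, i3, i4, i5, i6, hs⟩ :=
    RFKS.split_ext ℚ E ((m * (X ^ 2 + 1)).map (algebraMap ℚ E))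
  have hi3 : i3 = DivisionRing.toRatAlgebra := Subsingleton.elim _ _
  subst hi3
  have hcomp : (algebraMap E N).comp (algebraMap ℚ E) = algebraMap ℚ N := Subsingleton.elim _ _
  rw [Polynomial.map_map, hcomp] at hs
  have hm0 : m ≠ 0 := minpoly.ne_zero pb.isIntegral_gen
  have hX : (X ^ 2 + 1 : Polynomial ℚ) ≠ 0 := by
    have : (X ^ 2 + 1 : Polynomial ℚ).Monic := by monicity!
    exact this.ne_zero
  have hmap0 : ((m * (X ^ 2 + 1)).map (algebraMap ℚ N)) ≠ 0 :=
    (Polynomial.map_ne_zero_iff (algebraMap ℚ N).injective).2 (mul_ne_zero hm0 hX)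
  have hs1 : (m.map (algebraMap ℚ N)).Splits :=
    Polynomial.Splits.of_dvd hs hmap0 (Polynomial.map_dvd _ (dvd_mul_right _ _))
  have hs2 : ((X ^ 2 + 1 : Polynomial ℚ).map (algebraMap ℚ N)).Splits :=
    Polynomial.Splits.of_dvd hs hmap0 (Polynomial.map_dvd _ (dvd_mul_left _ _))
  have hd1 : (m.map (algebraMap ℚ N)).degree ≠ 0 := by
    rw [Polynomial.degree_map]
    exact (minpoly.degree_pos pb.isIntegral_gen).ne'
  have hd2 : ((X ^ 2 + 1 : Polynomial ℚ).map (algebraMap ℚ N)).degree ≠ 0 := by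
    rw [Polynomial.degree_map]
    have : (X ^ 2 + 1 : Polynomial ℚ).degree = 2 := by compute_degree!
    rw [this]
    norm_num
  obtain ⟨y, hy⟩ := hs1.exists_eval_eq_zero hd1
  obtain ⟨i, hi⟩ := hs2.exists_eval_eq_zero hd2
  rw [Polynomial.eval_map_algebraMap] at hy hi
  let φ : L →ₐ[ℚ] N := pb.lift y hy
  refine ⟨N, i1, i2, i4, φ.toRingHom.toAlgebra, i6, i, ?_⟩
  have h3 : i ^ 2 + 1 = 0 := by simpa using hi
  exact eq_neg_of_add_eq_zero_left h3

end StarkC
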