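import Pool.Agent.StarkI.SMAIN
import Pool.Agent.StarkU.FAITH

/-!
# Theorem S: reduction to faithful characters, `S = ∅`
-/

open NumberField IsDedekindDomain
open scoped TensorProduct Classical

namespace StarkC

/-- Stark's assertion for the linear character `ψ`, all `φ`, `σ`, with `S = ∅`. -/
def StarkInf (K L : Type) [Field K] [NumberField K] [Field L] [NumberField L] [Algebra K L]
    (ψ : (L ≃ₐ[K] L) →* ℂˣ) : Prop :=
  ∀ (φ : XQ L (aboveSet K L (∅ : Finset (HeightOneSpectrum (𝓞 K)))) ≃ₗ[ℚ]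
      QU L (aboveSet K L (∅ : Finset (HeightOneSpectrum (𝓞 K)))))
    (Θ : XC L (aboveSet K L (∅ : Finset (HeightOneSpectrum (𝓞 K)))) →ₗ[ℂ]
      XC L (aboveSet K L (∅ : Finset (HeightOneSpectrum (𝓞 K))))) (σ : ℂ ≃+* ℂ),
    IsPhiTheta K (aboveSet K L (∅ : Finset (HeightOneSpectrum (𝓞 K)))) φ Θ →
    StarkAt ((∅ : Finset (HeightOneSpectrum (𝓞 K))) : Set (HeightOneSpectrum (𝓞 K)))
      (aboveSet K L (∅ : Finset (HeightOneSpectrum (𝓞 K)))) Θ (linRep ψ) (linRep (twist σ ψ)) σ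

/-- There is a Galois extension `M/K` which contains `E`, such that every element of `Gal(M/K)`
induces an automorphism of `p`-power order on `E`. -/
def PExt (p : ℕ) (E K : Type) [Field E] [Field K] : Prop :=
  ∃ (M : Type) (_ : Field M) (_ : Algebra K M) (_ : Algebra E M), IsGalois K M ∧
    ∀ g : M ≃ₐ[K] M, ∃ k : ℕ, ∀ x : E, (g ^ (p ^ k)) (algebraMap E M x) = algebraMap E M x

/-- class (A): everywhere unramified extensions of totally complex fields in which the primes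
above `T` split completely, faithful characters -/
def ClsA (T : Finset ℕ) (K L : Type) [Field K] [NumberField K] [Field L] [NumberField L]
    [Algebra K L] : Prop :=
  IsTotallyComplex K →
    (∀ (w : HeightOneSpectrum (𝓞 L)) (g : L ≃ₐ[K] L), FrobPow L w 1 g → g = 1) →
    (∀ (w : HeightOneSpectrum (𝓞 L)), (∃ p ∈ T, p.Prime ∧ (p : 𝓞 L) ∈ w.asIdeal) →
      ∀ g : L ≃ₐ[K] L, Dec w g → g = 1) →
    ∀ ψ : (L ≃ₐ[K] L) →* ℂˣ, Function.Injective ψ → StarkInf K L ψ

/-- class (B): faithful characters of order `p^n` over totally complex fields `K` such that `EK/K`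
is a `p`-extension -/
def ClsB (E : Type) [Field E] (K L : Type) [Field K] [NumberField K] [Field L] [NumberField L]
    [Algebra K L] : Prop :=
  IsTotallyComplex K → ∀ (p n : ℕ), p.Prime → PExt p E K →
    ∀ ψ : (L ≃ₐ[K] L) →* ℂˣ, Function.Injective ψ → ψ ^ (p ^ n) = 1 → StarkInf K L ψ

/-- class (C): faithful characters of order `2^n`, odd at all real places of `K`, where `K` has
few real places and `EK/K` is a 2-extension -/
def ClsC (E : Type) [Field E] (ε : ℝ) (K L : Type) [Field K] [NumberField K] [Field L]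
    [NumberField L] [Algebra K L] : Prop :=
  (InfinitePlace.nrRealPlaces K : ℝ) ≤ ε * (Module.finrank ℚ K : ℝ) → PExt 2 E K →
    ∀ (ψ : (L ≃ₐ[K] L) →* ℂˣ) (n : ℕ), Function.Injective ψ → ψ ^ (2 ^ n) = 1 →
    (∀ (Φ : L →+* ℂ) (c : L ≃ₐ[K] L), ComplexEmbedding.IsConj Φ c → (ψ c : ℂ) = -1) →
    StarkInf K L ψ

/-- class (D): totally odd faithful characters of totally real fields -/
def ClsD (K L : Type) [Field K] [NumberField K] [Field L] [NumberField L]
    [Algebra K L] : Prop :=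
  IsTotallyReal K → ∀ ψ : (L ≃ₐ[K] L) →* ℂˣ, Function.Injective ψ →
    (∀ (Φ : L →+* ℂ) (c : L ≃ₐ[K] L), ComplexEmbedding.IsConj Φ c → (ψ c : ℂ) = -1) →
    StarkInf K L ψ

namespace SFAITH

/-- from the field cut out by `ψ` and `S = ∅` to `N` and any `S` -/
theorem up (hI : Stmt_INFL) (hE : Stmt_EXPH) (hS : Stmt_SINDP) (hL : Stmt_LINF)
    (F L N : Type) [Field F] [NumberField F] [Field L] [NumberField L] [Field N] [NumberField N]
    [Algebra F L] [Algebra F N] [Algebra L N] [IsScalarTower F L N] [IsGalois F L] [IsGalois F N]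
    (ψ' : (L ≃ₐ[F] L) →* ℂˣ) (h : StarkInf F L ψ') (ψ : (N ≃ₐ[F] N) →* ℂˣ)
    (hψ : ∀ g : N ≃ₐ[F] N, ψ' (AlgEquiv.restrictNormalHom L g : L ≃ₐ[F] L) = ψ g) :
    StarkLinear F N ψ := by
  have hψ2 : ψ = ψ'.comp (AlgEquiv.restrictNormalHom L) := by
    refine MonoidHom.ext fun g => ?_
    exact (hψ g).symm
  subst hψ2
  intro S φ Θ σ hφ
  obtain ⟨φ₀, Θ₀, h₀⟩ := hE F L ∅
  have hst := h φ₀ Θ₀ σ h₀
  obtain ⟨φ₁, Θ₁, h₁, hReg⟩ := hI F L N ∅ φ₀ Θ₀ h₀
  obtain ⟨f, f', hf, hf', hEq⟩ := hst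
  have h2 : StarkAt
      ((∅ : Finset (HeightOneSpectrum (𝓞 F))) : Set (HeightOneSpectrum (𝓞 F)))
      (aboveSet F N (∅ : Finset (HeightOneSpectrum (𝓞 F)))) Θ₁
      (linRep (ψ'.comp (AlgEquiv.restrictNormalHom L)))
      (linRep (twist σ (ψ'.comp (AlgEquiv.restrictNormalHom L)))) σ := by
    refine ⟨f, f', ⟨hf.1, fun s hs => ?_⟩, ⟨hf'.1, fun s hs => ?_⟩, ?_⟩
    · rw [hf.2 s hs, BASEQ.linRep_comp, MAIN.logL_infl hL]
    · rw [hf'.2 s hs]
      have h1 := MAIN.logL_infl hL F L N ℂ (linRep (twist σ ψ'))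
        ((∅ : Finset (HeightOneSpectrum (𝓞 F))) : Set (HeightOneSpectrum (𝓞 F))) s
      rw [← h1]
      rfl
    · have h1 := hReg ℂ (linRep ψ')
      have h2 := hReg ℂ (linRep (twist σ ψ'))
      rw [← h1, ← h2] at hEq
      exact hEq
  exact (SMAIN.starkAt_of_one _ _ _ _ _ _).1 (hS F N (ψ'.comp (AlgEquiv.restrictNormalHom L)) σ 1
    ∅ S φ₁ Θ₁ φ Θ h₁ hφ ((SMAIN.starkAt_of_one _ _ _ _ _ _).2 h2))

section

variable (F L N : Type) [Field F] [NumberField F] [Field L] [NumberField L] [Field N]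
  [NumberField N] [Algebra F L] [Algebra F N] [Algebra L N] [IsScalarTower F L N] [IsGalois F L]
  [IsGalois F N] {ψ' : (L ≃ₐ[F] L) →* ℂˣ} {ψ : (N ≃ₐ[F] N) →* ℂˣ}

theorem pow_down
    (hψ : ∀ g : N ≃ₐ[F] N, ψ' (AlgEquiv.restrictNormalHom L g : L ≃ₐ[F] L) = ψ g) {m : ℕ}
    (h : ψ ^ m = 1) : ψ' ^ m = 1 := by
  refine MonoidHom.ext fun a => ?_
  obtain ⟨g, rfl⟩ := AlgEquiv.restrictNormalHom_surjective (F := F) (K₁ := L) N a
  rw [MonoidHom.pow_apply, hψ, MonoidHom.one_apply]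
  have h1 := DFunLike.congr_fun h g
  rwa [MonoidHom.pow_apply, MonoidHom.one_apply] at h1

theorem odd_down
    (hψ : ∀ g : N ≃ₐ[F] N, ψ' (AlgEquiv.restrictNormalHom L g : L ≃ₐ[F] L) = ψ g)
    (h1 : ∀ (Φ : N →+* ℂ) (c : N ≃ₐ[F] N), ComplexEmbedding.IsConj Φ c → (ψ c : ℂ) = -1)
    (Φ' : L →+* ℂ) (c' : L ≃ₐ[F] L) (hc' : ComplexEmbedding.IsConj Φ' c') :
    (ψ' c' : ℂ) = -1 := by
  -- extend `Φ'` to `N`
  let Φ : N →+* ℂ := ComplexEmbedding.lift N Φ'
  have hΦ : Φ.comp (algebraMap L N) = Φ' := ComplexEmbedding.lift_comp_algebraMap N Φ'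
  have hreal : (ComplexEmbedding.conjugate Φ).comp (algebraMap F N) =
      Φ.comp (algebraMap F N) := by
    ext x
    have e1 : algebraMap F N x = algebraMap L N (algebraMap F L x) :=
      IsScalarTower.algebraMap_apply F L N x
    have e2 : ∀ y : L, Φ (algebraMap L N y) = Φ' y := fun y => RingHom.congr_fun hΦ y
    have e3 : (starRingEnd ℂ) (Φ' (algebraMap F L x)) = Φ' (c' (algebraMap F L x)) :=
      RingHom.congr_fun hc' (algebraMap F L x)
    show (starRingEnd ℂ) (Φ (algebraMap F N x)) = Φ (algebraMap F N x)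
    rw [e1, e2, e3, c'.commutes]
  obtain ⟨ν, hν⟩ := NumberField.ComplexEmbedding.exists_comp_symm_eq_of_comp_eq (k := F) Φ
    (ComplexEmbedding.conjugate Φ) hreal.symm
  have hc : ComplexEmbedding.IsConj Φ ν.symm := hν.symm
  have h3 := CMB.isConj_restrict (L := L) hc
  rw [hΦ] at h3
  have h4 : c' = AlgEquiv.restrictNormalHom L ν.symm := hc'.ext h3
  rw [h4, hψ]
  exact h1 Φ ν.symm hc

end

variable (hI : Stmt_INFL) (hE : Stmt_EXPH) (hS : Stmt_SINDP) (hL : Stmt_LINF)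

include hI hE hS hL

theorem ofA {T : Finset ℕ}
    (hA : ∀ (K L : Type) [Field K] [NumberField K] [Field L] [NumberField L] [Algebra K L]
      [IsGalois K L], ClsA T K L) : StarkUnramified T := by
  intro F N _ _ _ _ _ _ ψ hF h1 h2
  obtain ⟨L, _, _, _, _, _, _, ψ', hinj, hψ'⟩ := FAITH.exists_field F N ψ
  have hgal : IsGalois L N := IsGalois.tower_top_of_isGalois F L N
  refine up hI hE hS hL F L N ψ' (hA F L hF ?_ ?_ ψ' hinj) ψ hψ'
  · intro w g hg
    obtain ⟨W, rfl⟩ := FAITH.exists_above (N := N) w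
    obtain ⟨g', hg', hF'⟩ := LINF.lift_frobPow (K := F) W 0 g (by rwa [pow_zero])
    rw [pow_zero] at hF'
    apply hinj
    rw [map_one, ← hg', hψ']
    exact h1 W g' hF'
  · intro w hw g hg
    obtain ⟨W, rfl⟩ := FAITH.exists_above (N := N) w
    obtain ⟨g₁, hg₁⟩ := AlgEquiv.restrictNormalHom_surjective (F := F) (K₁ := L) N g
    obtain ⟨τ, hτ⟩ := UREAL.trans (L := L) (STB.mv (g₁ : N ≃+* N) W) W (by
      rw [RB.mv_under, hg₁]
      exact (RB.dec_iff _ _).1 hg)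
    have h3 : AlgEquiv.restrictNormalHom L (τ.restrictScalars F) = (1 : L ≃ₐ[F] L) := by
      ext x
      apply (algebraMap L N).injective
      have h2 := AlgEquiv.restrictNormal_commutes (τ.restrictScalars F) L x
      show algebraMap L N ((τ.restrictScalars F).restrictNormal L x) = algebraMap L N x
      rw [h2]
      exact τ.commutes x
    have h4 : Dec W (τ.restrictScalars F * g₁ : N ≃ₐ[F] N) := by
      rw [RB.dec_iff, RB.mv_mul]
      exact hτ
    obtain ⟨p, hp, hpp, hpw⟩ := hw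
    have h5 := h2 W ⟨p, hp, hpp, by rwa [RB.natCast_mem_under] at hpw⟩ _ h4
    apply hinj
    rw [map_one, ← hg₁]
    have h6 : (AlgEquiv.restrictNormalHom L g₁ : L ≃ₐ[F] L) =
        AlgEquiv.restrictNormalHom L (τ.restrictScalars F * g₁) := by
      rw [map_mul, h3, one_mul]
    rw [h6, hψ']
    exact h5

theorem ofB {E : Type} [Field E]
    (hB : ∀ (K L : Type) [Field K] [NumberField K] [Field L] [NumberField L] [Algebra K L]
      [IsGalois K L], ClsB E K L) : StarkPrimePowerExt E := by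
  intro F N _ _ _ _ _ _ _ ψ hF ⟨p, n, hp, hn, hg⟩
  obtain ⟨L, _, _, _, _, _, _, ψ', hinj, hψ'⟩ := FAITH.exists_field F N ψ
  exact up hI hE hS hL F L N ψ' (hB F L hF p n hp ⟨N, inferInstance, inferInstance, inferInstance,
    inferInstance, hg⟩ ψ' hinj (pow_down F L N hψ' hn)) ψ hψ'

theorem ofC {E : Type} [Field E] {ε : ℝ}
    (hC : ∀ (K L : Type) [Field K] [NumberField K] [Field L] [NumberField L] [Algebra K L]
      [IsGalois K L], ClsC E ε K L) : StarkTwoPowerOddExt E ε := by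
  intro F N _ _ _ _ _ _ _ ψ hF ⟨n, hn⟩ hg ho
  obtain ⟨L, _, _, _, _, _, _, ψ', hinj, hψ'⟩ := FAITH.exists_field F N ψ
  exact up hI hE hS hL F L N ψ' (hC F L hF ⟨N, inferInstance, inferInstance, inferInstance,
    inferInstance, hg⟩ ψ' n hinj (pow_down F L N hψ' hn) (odd_down F L N hψ' ho)) ψ hψ'

theorem ofD
    (hD : ∀ (K L : Type) [Field K] [NumberField K] [Field L] [NumberField L] [Algebra K L]
      [IsGalois K L], ClsD K L) : StarkTotallyOdd := by
  intro F N _ _ _ _ _ _ ψ hF ho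
  obtain ⟨L, _, _, _, _, _, _, ψ', hinj, hψ'⟩ := FAITH.exists_field F N ψ
  exact up hI hE hS hL F L N ψ' (hD F L hF ψ' hinj (odd_down F L N hψ' ho)) ψ hψ'

end SFAITH

/-- Theorem S, with faithful characters and `S = ∅`. -/
def Stmt_SMAINF : Prop :=
  ∀ (T : Finset ℕ) (E : Type) [Field E] [NumberField E] [IsGalois ℚ E] (ε : ℝ), 0 < ε →
    (StarkConjecture ↔
      (∀ (K L : Type) [Field K] [NumberField K] [Field L] [NumberField L] [Algebra K L]
        [IsGalois K L], ClsA T K L) ∧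
      (∀ (K L : Type) [Field K] [NumberField K] [Field L] [NumberField L] [Algebra K L]
        [IsGalois K L], ClsB E K L) ∧
      (∀ (K L : Type) [Field K] [NumberField K] [Field L] [NumberField L] [Algebra K L]
        [IsGalois K L], ClsC E ε K L) ∧
      (∀ (K L : Type) [Field K] [NumberField K] [Field L] [NumberField L] [Algebra K L]
        [IsGalois K L], ClsD K L))

theorem SMAINF_thm (hI : Stmt_INFL) (hE : Stmt_EXPH) (hS : Stmt_SINDP) (hL : Stmt_LINF)
    (hM : Stmt_SMAIN) : Stmt_SMAINF := by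
  intro T E _ _ _ ε hε
  constructor
  · intro h
    have key : ∀ (K L : Type) [Field K] [NumberField K] [Field L] [NumberField L] [Algebra K L]
        [IsGalois K L] (ψ : (L ≃ₐ[K] L) →* ℂˣ), StarkInf K L ψ := by
      intro K L _ _ _ _ _ _ ψ φ Θ σ hφ
      refine h K L ∅ φ Θ ℂ ℂ (linRep ψ) (linRep (twist σ ψ)) σ hφ ?_
      intro g
      rw [MAIN.linRep_character, MAIN.linRep_character]
      rfl
    exact ⟨fun K L _ _ _ _ _ _ _ _ _ ψ _ => key K L ψ,
      fun K L _ _ _ _ _ _ _ _ _ _ _ ψ _ _ => key K L ψ,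
      fun K L _ _ _ _ _ _ _ _ ψ _ _ _ _ => key K L ψ,
      fun K L _ _ _ _ _ _ _ ψ _ _ => key K L ψ⟩
  · rintro ⟨hA, hB, hC, hD⟩
    exact (hM T E ε hε).2 ⟨SFAITH.ofA hI hE hS hL hA, SFAITH.ofB hI hE hS hL hB,
      SFAITH.ofC hI hE hS hL hC, SFAITH.ofD hI hE hS hL hD⟩

end StarkC
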