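import Pool.Agent.StarkI.SStmts
import Pool.Agent.StarkI.PULL

/-!
# SLAM: class functions vanishing on the 2-elements of a 2-quasi-elementary group
-/

open scoped Classical

namespace StarkC

namespace SLAM

/-! ### A transfer lemma -/

section transfer

open Subgroup MulAction

theorem transfer_eq {A : Type} [Group A] [Finite A] (H : Subgroup A) [hH : H.Normal] (ϕ : H →* ℂˣ)
    (hϕ : ∀ (a : A) (h h' : H), (h' : A) = a⁻¹ * h * a → ϕ h' = ϕ h) (g : A) :
    MonoidHom.transfer ϕ g = ϕ ⟨g ^ H.index, Subgroup.pow_index_mem H g⟩ := by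
  have : Fintype (Quotient (orbitRel (zpowers g) (A ⧸ H))) := Fintype.ofFinite _
  have hk : ∀ q : Quotient (orbitRel (zpowers g) (A ⧸ H)),
      g ^ Function.minimalPeriod (g • ·) q.out ∈ H := by
    intro q
    have h1 := QuotientGroup.out_conj_pow_minimalPeriod_mem H g q.out
    have h2 := hH.conj_mem _ h1 q.out.out
    have e : q.out.out * (q.out.out⁻¹ * g ^ Function.minimalPeriod (g • ·) q.out * q.out.out) *
        q.out.out⁻¹ = g ^ Function.minimalPeriod (g • ·) q.out := by group
    rwa [e] at h2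
  rw [MonoidHom.transfer_eq_prod_quotient_orbitRel_zpowers_quot]
  have h3 : ∀ q : Quotient (orbitRel (zpowers g) (A ⧸ H)),
      ϕ ⟨q.out.out⁻¹ * g ^ Function.minimalPeriod (g • ·) q.out * q.out.out,
            QuotientGroup.out_conj_pow_minimalPeriod_mem H g q.out⟩ =
        ϕ ⟨g ^ Function.minimalPeriod (g • ·) q.out, hk q⟩ := by
    intro q
    exact hϕ q.out.out _ _ rfl
  rw [Finset.prod_congr rfl fun q _ => h3 q]
  have h4 : ∀ s : Finset (Quotient (orbitRel (zpowers g) (A ⧸ H))),
      ∃ h : g ^ (∑ q ∈ s, Function.minimalPeriod (g • ·) q.out) ∈ H,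
        ∏ q ∈ s, ϕ ⟨g ^ Function.minimalPeriod (g • ·) q.out, hk q⟩ =
          ϕ ⟨g ^ (∑ q ∈ s, Function.minimalPeriod (g • ·) q.out), h⟩ := by
    intro s
    induction s using Finset.induction_on with
    | empty =>
      refine ⟨by simp, ?_⟩
      rw [Finset.prod_empty, ← map_one ϕ]
      congr 1
      apply Subtype.ext
      simp
    | insert q s hq ih =>
      obtain ⟨h, ih⟩ := ih
      refine ⟨?_, ?_⟩
      · rw [Finset.sum_insert hq, pow_add]
        exact H.mul_mem (hk q) h
      · rw [Finset.prod_insert hq, ih, ← map_mul]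
        congr 1
        apply Subtype.ext
        show g ^ _ * g ^ _ = g ^ _
        rw [Finset.sum_insert hq, pow_add]
  obtain ⟨h5, h6⟩ := h4 Finset.univ
  rw [h6]
  congr 1
  apply Subtype.ext
  show _ = g ^ H.index
  rw [index_eq_sum_minimalPeriod H g]

end transfer

/-! ### Sums over orbits -/

section orbit

variable {G I : Type} [Group G] [Fintype G] [MulAction G I] [Fintype I]

theorem sum_orbit (F : I → ℂ) (i : I) :
    ∑ x : G, F (x • i) =
      (Nat.card (MulAction.stabilizer G i) : ℂ) *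
        ∑ j ∈ Finset.univ.filter (fun j => (Quotient.mk'' j : MulAction.orbitRel.Quotient G I) =
          Quotient.mk'' i), F j := by
  rw [← Finset.sum_fiberwise_of_maps_to (s := (Finset.univ : Finset G))
    (t := Finset.univ.filter (fun j => (Quotient.mk'' j : MulAction.orbitRel.Quotient G I) =
          Quotient.mk'' i)) (g := fun x => x • i) (fun x _ => by
            simp only [Finset.mem_filter, Finset.mem_univ, true_and]
            rw [Quotient.eq'']
            exact ⟨x, rfl⟩), Finset.mul_sum]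
  refine Finset.sum_congr rfl fun j hj => ?_
  simp only [Finset.mem_filter, Finset.mem_univ, true_and] at hj
  rw [Quotient.eq''] at hj
  obtain ⟨y, hy⟩ := hj
  have hy' : y • i = j := hy
  have h1 : ∑ x ∈ Finset.univ.filter (fun x : G => x • i = j), F (x • i) =
      ∑ x ∈ Finset.univ.filter (fun x : G => x • i = j), F j :=
    Finset.sum_congr rfl fun x hx => by rw [(Finset.mem_filter.mp hx).2]
  rw [h1, Finset.sum_const, nsmul_eq_mul]
  congr 2
  have h2 : (Finset.univ.filter (fun x : G => x • i = j)).card =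
      Fintype.card {x : G // x • i = j} := by
    rw [Fintype.card_subtype]
  rw [h2, ← Nat.card_eq_fintype_card]
  refine Nat.card_congr ⟨fun x => ⟨y⁻¹ * x.1, ?_⟩, fun s => ⟨y * s.1, ?_⟩, fun x => ?_, fun s => ?_⟩
  · rw [MulAction.mem_stabilizer_iff, mul_smul, x.2, ← hy', inv_smul_smul]
  · rw [mul_smul, s.2, hy']
  · exact Subtype.ext (mul_inv_cancel_left _ _)
  · exact Subtype.ext (inv_mul_cancel_left _ _)

/-- A function given by fixed points, equivariantly, is a sum of induced functions. -/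
theorem sum_fixed (t : G → I → ℂ)
    (ht : ∀ (g x : G) (i : I), (x⁻¹ * g * x) • i = i → t (x⁻¹ * g * x) i = t g (x • i)) (g : G) :
    ∑ i : I, (if g • i = i then t g i else 0) =
      ∑ w : MulAction.orbitRel.Quotient G I,
        indFun (MulAction.stabilizer G w.out) (fun x => t x w.out) g := by
  have h1 : ∀ w : MulAction.orbitRel.Quotient G I,
      indFun (MulAction.stabilizer G w.out) (fun x => t x w.out) g =
        ∑ j ∈ Finset.univ.filter (fun j => (Quotient.mk'' j : MulAction.orbitRel.Quotient G I) = w),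
          (if g • j = j then t g j else 0) := by
    intro w
    have e : indFun (MulAction.stabilizer G w.out) (fun x => t x w.out) g =
        (∑ x : G, (fun j => if g • j = j then t g j else 0) (x • w.out)) /
          (Nat.card (MulAction.stabilizer G w.out) : ℂ) := by
      unfold indFun
      congr 1
      refine Finset.sum_congr rfl fun x _ => ?_
      have h3 : x⁻¹ * g * x ∈ MulAction.stabilizer G w.out ↔ g • (x • w.out) = x • w.out := by
        rw [MulAction.mem_stabilizer_iff, mul_smul, mul_smul, inv_smul_eq_iff]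
      by_cases h4 : g • (x • w.out) = x • w.out
      · rw [if_pos (h3.mpr h4)]
        simp only [if_pos h4]
        exact ht g x _ (MulAction.mem_stabilizer_iff.mp (h3.mpr h4))
      · rw [if_neg (fun h => h4 (h3.mp h))]
        simp only [if_neg h4]
    rw [e, sum_orbit (fun j => if g • j = j then t g j else 0) w.out]
    have h5 : (Nat.card (MulAction.stabilizer G w.out) : ℂ) ≠ 0 := by
      exact_mod_cast Nat.card_pos.ne'
    rw [mul_div_cancel_left₀ _ h5]
    have h6 : (Quotient.mk'' w.out : MulAction.orbitRel.Quotient G I) = w := Quotient.out_eq' w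
    rw [h6]
  rw [Finset.sum_congr rfl fun w _ => h1 w]
  exact (Finset.sum_fiberwise Finset.univ
    (fun j => (Quotient.mk'' j : MulAction.orbitRel.Quotient G I)) _).symm

end orbit

/-! ### Characters of the normal subgroup -/

section main

variable {G : Type} [Group G] [Fintype G] (C : Subgroup G)

/-- The action of `G` on the characters of the normal subgroup `C`. -/
@[reducible] noncomputable def act [hC : C.Normal] : MulAction G (C →* ℂˣ) where
  smul g l := l.comp (MulAut.conjNormal g⁻¹ : MulAut C).toMonoidHom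
  one_smul l := by
    show l.comp (MulAut.conjNormal (1 : G)⁻¹ : MulAut C).toMonoidHom = l
    rw [inv_one, map_one]
    rfl
  mul_smul g h l := by
    show l.comp (MulAut.conjNormal (g * h)⁻¹ : MulAut C).toMonoidHom =
      (l.comp (MulAut.conjNormal h⁻¹ : MulAut C).toMonoidHom).comp
        (MulAut.conjNormal g⁻¹ : MulAut C).toMonoidHom
    rw [mul_inv_rev, map_mul]
    rfl

theorem smul_apply [hC : C.Normal] (g : G) (l : C →* ℂˣ) (x y : C)
    (hy : (y : G) = g⁻¹ * x * g) :
    letI := act C
    (g • l) x = l y := by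
  show l ((MulAut.conjNormal g⁻¹ : MulAut C) x) = l y
  congr 1
  apply Subtype.ext
  rw [MulAut.conjNormal_apply, hy, inv_inv]

/-- `λ(g^N)`, `N` the index of `C`. -/
noncomputable def nu [hC : C.Normal] (l : C →* ℂˣ) (g : G) : ℂˣ :=
  l ⟨g ^ C.index, C.pow_index_mem g⟩

theorem nu_conj [hC : C.Normal] (l : C →* ℂˣ) (g x : G) :
    letI := act C
    nu C l (x⁻¹ * g * x) = nu C (x • l) g := by
  symm
  refine smul_apply C x l _ _ ?_
  show (x⁻¹ * g * x) ^ C.index = x⁻¹ * g ^ C.index * x
  have := conj_pow (i := C.index) (a := x⁻¹) (b := g)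
  rwa [inv_inv] at this

theorem nu_mul [hC : C.Normal] (l : C →* ℂˣ) (g h : G)
    (hg : letI := act C; g • l = l) (hh : letI := act C; h • l = l) :
    nu C l (g * h) = nu C l g * nu C l h := by
  letI := act C
  set A := MulAction.stabilizer G l with hA
  set H := C.subgroupOf A with hH
  have hHn : H.Normal := inferInstance
  let ϕ : H →* ℂˣ :=
    { toFun := fun x => l ⟨((x : A) : G), x.2⟩
      map_one' := by
        rw [← map_one l]
        rfl
      map_mul' := fun x y => by
        rw [← map_mul]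
        rfl }
  have hϕ : ∀ (a : A) (h h' : H), (h' : A) = a⁻¹ * h * a → ϕ h' = ϕ h := by
    intro a h h' hh'
    have ha : ((a : G)) • l = l := a.2
    have h1 := smul_apply C (a : G) l ⟨((h : A) : G), h.2⟩ ⟨((h' : A) : G), h'.2⟩ (by
      show ((h' : A) : G) = (a : G)⁻¹ * ((h : A) : G) * (a : G)
      rw [hh']
      rfl)
    show l _ = l _
    rw [← h1, ha]
  obtain ⟨k, hk⟩ : H.index ∣ C.index := Subgroup.relIndex_dvd_index_of_normal C A
  have key : ∀ a : A, nu C l (a : G) = (MonoidHom.transfer ϕ a) ^ k := by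
    intro a
    rw [transfer_eq H ϕ hϕ a, ← map_pow]
    show l _ = l _
    congr 1
    apply Subtype.ext
    show (a : G) ^ C.index = ((a : G) ^ H.index) ^ k
    rw [hk, pow_mul]
  have h1 := key (⟨g, hg⟩ * ⟨h, hh⟩ : A)
  rw [map_mul, mul_pow, ← key, ← key] at h1
  exact h1

/-- `ν_λ` as a character of the stabiliser. -/
noncomputable def nuHom [hC : C.Normal] (l : C →* ℂˣ) :
    letI := act C
    (MulAction.stabilizer G l) →* ℂˣ :=
  letI := act C
  MonoidHom.mk' (fun g => nu C l (g : G)) fun g h => nu_mul C l (g : G) (h : G) g.2 h.2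

/-- The sum of the `λ(g^N)` vanishes if `g` is not of 2-power order. -/
theorem sum_nu [hC : C.Normal] [Fintype (C →* ℂˣ)] (hcyc : IsCyclic C) (hodd : Odd (Nat.card C))
    (n : ℕ) (hn : C.index = 2 ^ n) (g : G) (hg : ¬ PElt 2 g) :
    letI := act C
    ∑ l : C →* ℂˣ, (if g • l = l then ((nu C l g : ℂˣ) : ℂ) else 0) = 0 := by
  letI := act C
  set c : C := ⟨g ^ C.index, C.pow_index_mem g⟩ with hc
  have hc1 : c ≠ 1 := by
    intro h
    apply hg
    refine ⟨n, ?_⟩
    rw [← hn]
    exact congrArg Subtype.val h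
  obtain ⟨μ, hμ⟩ : ∃ μ : C →* ℂˣ, μ c ≠ 1 := by
    letI : CommGroup C := hcyc.commGroup
    exact CommGroup.exists_apply_ne_one_of_hasEnoughRootsOfUnity C ℂ hc1
  -- the norm of `μ`
  set l₀ : C →* ℂˣ := ∏ i ∈ Finset.range C.index, (g ^ i) • μ with hl₀
  have hsm : ∀ (x : G) (a b : C →* ℂˣ), x • (a * b) = (x • a) * (x • b) := fun x a b => rfl
  have hsm1 : ∀ (x : G), x • (1 : C →* ℂˣ) = 1 := fun x => rfl
  have hsp : ∀ (x : G) (s : Finset ℕ) (a : ℕ → (C →* ℂˣ)),
      x • (∏ i ∈ s, a i) = ∏ i ∈ s, x • a i := by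
    intro x s a
    induction s using Finset.induction_on with
    | empty => simp [hsm1]
    | insert i s hi ih => rw [Finset.prod_insert hi, Finset.prod_insert hi, hsm, ih]
  have htriv : ∀ a : C →* ℂˣ, (g ^ C.index) • a = a := by
    intro a
    refine MonoidHom.ext fun x => ?_
    refine smul_apply C (g ^ C.index) a x x ?_
    have h1 : c * x = x * c := by
      letI : CommGroup C := hcyc.commGroup
      exact mul_comm c x
    have h2 : g ^ C.index * (x : G) = x * g ^ C.index := congrArg Subtype.val h1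
    rw [mul_assoc, ← h2, inv_mul_cancel_left]
  have hinv : g • l₀ = l₀ := by
    rw [hl₀, hsp]
    have h1 : ∀ i, g • (g ^ i) • μ = (g ^ (i + 1)) • μ := fun i => by
      rw [← mul_smul, pow_succ']
    rw [Finset.prod_congr rfl fun i _ => h1 i]
    have h2 := Finset.prod_range_succ (fun i => (g ^ i) • μ) C.index
    have h3 := Finset.prod_range_succ' (fun i => (g ^ i) • μ) C.index
    rw [h2, htriv, pow_zero, one_smul] at h3
    exact (mul_right_cancel h3).symm
  have hval : l₀ c = (μ c) ^ C.index := by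
    rw [hl₀, MonoidHom.finsetProd_apply]
    have h1 : ∀ i, ((g ^ i) • μ) c = μ c := by
      intro i
      refine smul_apply C (g ^ i) μ c c ?_
      show g ^ C.index = (g ^ i)⁻¹ * g ^ C.index * g ^ i
      rw [mul_assoc, ← pow_add, add_comm, pow_add, inv_mul_cancel_left]
    rw [Finset.prod_congr rfl fun i _ => h1 i, Finset.prod_const, Finset.card_range]
  have hne : l₀ c ≠ 1 := by
    rw [hval]
    intro h
    have h1 : (μ c) ^ (Nat.card C) = 1 := by
      rw [← map_pow, pow_card_eq_one', map_one]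
    have h2 : orderOf (μ c) ∣ Nat.gcd C.index (Nat.card C) :=
      Nat.dvd_gcd (orderOf_dvd_of_pow_eq_one h) (orderOf_dvd_of_pow_eq_one h1)
    have h3 : Nat.Coprime C.index (Nat.card C) := by
      rw [hn]
      exact (Nat.coprime_two_left.mpr hodd).pow_left n
    rw [h3, Nat.dvd_one, orderOf_eq_one_iff] at h2
    exact hμ h2
  have hne' : ((l₀ c : ℂˣ) : ℂ) ≠ 1 := fun h => hne (Units.ext h)
  have h5 : ∑ l : C →* ℂˣ, (if g • l = l then ((nu C l g : ℂˣ) : ℂ) else 0) =
      ((l₀ c : ℂˣ) : ℂ) * ∑ l : C →* ℂˣ, (if g • l = l then ((nu C l g : ℂˣ) : ℂ) else 0) := by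
    rw [Finset.mul_sum]
    symm
    refine Fintype.sum_equiv (Equiv.mulLeft l₀) _ _ fun l => ?_
    show _ = if g • (l₀ * l) = l₀ * l then ((nu C (l₀ * l) g : ℂˣ) : ℂ) else 0
    have h6 : g • (l₀ * l) = l₀ * l ↔ g • l = l := by
      rw [hsm, hinv]
      exact mul_right_inj l₀
    by_cases h7 : g • l = l
    · rw [if_pos h7, if_pos (h6.mpr h7)]
      show _ = (((l₀ * l) c : ℂˣ) : ℂ)
      rw [MonoidHom.mul_apply, Units.val_mul]
      rfl
    · rw [if_neg h7, if_neg (fun h => h7 (h6.mp h)), mul_zero]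
  by_contra hS
  apply hne'
  have h8 : (((l₀ c : ℂˣ) : ℂ) - 1) *
      ∑ l : C →* ℂˣ, (if g • l = l then ((nu C l g : ℂˣ) : ℂ) else 0) = 0 := by
    rw [sub_mul, one_mul, ← h5, sub_self]
  rcases mul_eq_zero.mp h8 with h9 | h9
  · exact sub_eq_zero.mp h9
  · exact absurd h9 hS

end main

/-! ### Products of induced characters -/

section prod

variable {G : Type} [Group G] [Fintype G]

theorem ind_map (B : Subgroup G) (ν : B →* ℂˣ) (J : Subgroup B) (κ : J →* ℂˣ)
    (P : Subgroup G → Prop) (hP : P (J.map B.subtype)) :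
    indFun B (fun g => if h : g ∈ B then indFun J (extZ κ) ⟨g, h⟩ * ((ν ⟨g, h⟩ : ℂˣ) : ℂ) else 0) ∈
      CMB.GS (G := G) fun B _ => P B := by
  let e : J.map B.subtype →* J :=
    (J.equivMapOfInjective B.subtype B.subtype_injective).symm.toMonoidHom
  let κ' : J.map B.subtype →* ℂˣ := (κ * ν.comp J.subtype).comp e
  have hκ' : ∀ y : B, extZ κ' (y : G) = extZ κ y * ((ν y : ℂˣ) : ℂ) := by
    intro y
    by_cases hy : y ∈ J
    · have h1 : (y : G) ∈ J.map B.subtype := ⟨y, hy, rfl⟩
      have h2 : e ⟨(y : G), h1⟩ = ⟨y, hy⟩ := by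
        apply (J.equivMapOfInjective B.subtype B.subtype_injective).injective
        show (J.equivMapOfInjective B.subtype B.subtype_injective)
          ((J.equivMapOfInjective B.subtype B.subtype_injective).symm _) = _
        rw [MulEquiv.apply_symm_apply]
        rfl
      unfold extZ
      rw [dif_pos h1, dif_pos hy]
      show (((κ * ν.comp J.subtype) (e ⟨(y : G), h1⟩) : ℂˣ) : ℂ) = _
      rw [h2, MonoidHom.mul_apply, Units.val_mul]
      rfl
    · have h1 : (y : G) ∉ J.map B.subtype := by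
        rintro ⟨z, hz, hz2⟩
        exact hy ((Subtype.ext hz2 : z = y) ▸ hz)
      unfold extZ
      rw [dif_neg h1, dif_neg hy, zero_mul]
  have h3 : indFun B (fun g => if h : g ∈ B then
      indFun J (extZ κ) ⟨g, h⟩ * ((ν ⟨g, h⟩ : ℂˣ) : ℂ) else 0) =
      indFun (J.map B.subtype) (extZ κ') := by
    funext g
    refine CMB.indFun_trans B J (extZ κ') _ (fun h => ?_) g
    rw [dif_pos h.2]
    unfold indFun
    rw [div_mul_eq_mul_div, Finset.sum_mul]
    congr 1
    refine Finset.sum_congr rfl fun x _ => ?_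
    have h4 : ((ν (x⁻¹ * h * x) : ℂˣ) : ℂ) = ((ν h : ℂˣ) : ℂ) := by
      rw [map_mul, map_mul, map_inv, mul_comm, ← mul_assoc, mul_inv_cancel, one_mul]
    by_cases h5 : x⁻¹ * h * x ∈ J
    · rw [if_pos h5, if_pos h5]
      show _ = extZ κ' ((x⁻¹ * h * x : B) : G)
      rw [hκ', h4]
    · rw [if_neg h5, if_neg h5, zero_mul]
  rw [h3]
  exact CMB.mem_GS_of _ _ hP

theorem prod_ind (H B : Subgroup G) (ψ : H →* ℂˣ) (ν : B →* ℂˣ) (P : Subgroup G → Prop)
    (hP : ∀ J, J ≤ B → P J) :
    (fun g => indFun H (extZ ψ) g * indFun B (extZ ν) g) ∈ CMB.GS (G := G) fun B _ => P B := by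
  have hpull := IPULL_thm B G B.subtype H ψ
  -- the linear map
  let Λ : (B → ℂ) →ₗ[ℤ] (G → ℂ) :=
    { toFun := fun E => indFun B (fun g => if h : g ∈ B then E ⟨g, h⟩ * ((ν ⟨g, h⟩ : ℂˣ) : ℂ) else 0)
      map_add' := fun E E' => by
        funext g
        rw [Pi.add_apply]
        unfold indFun
        rw [← add_div, ← Finset.sum_add_distrib]
        congr 1
        refine Finset.sum_congr rfl fun x _ => ?_
        by_cases hx : x⁻¹ * g * x ∈ B
        · simp only [if_pos hx, dif_pos hx, Pi.add_apply, add_mul]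
        · simp only [if_neg hx, add_zero]
      map_smul' := fun m E => by
        funext g
        have e : ∀ a : ℂ, m • a = (m : ℂ) * a := fun a => zsmul_eq_mul a m
        rw [RingHom.id_apply, Pi.smul_apply, e]
        unfold indFun
        rw [← mul_div_assoc, Finset.mul_sum]
        congr 1
        refine Finset.sum_congr rfl fun x _ => ?_
        by_cases hx : x⁻¹ * g * x ∈ B
        · simp only [if_pos hx, dif_pos hx, Pi.smul_apply, e]
          rw [mul_assoc]
        · simp only [if_neg hx, mul_zero] }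
  have h1 : (fun g => indFun H (extZ ψ) g * indFun B (extZ ν) g) =
      Λ (fun h : B => indFun H (extZ ψ) (B.subtype h)) := by
    funext g
    show _ = (∑ x : G, if x⁻¹ * g * x ∈ B then (fun g => if h : g ∈ B then
      indFun H (extZ ψ) (B.subtype ⟨g, h⟩) * ((ν ⟨g, h⟩ : ℂˣ) : ℂ) else 0) (x⁻¹ * g * x) else 0) /
        (Nat.card B : ℂ)
    rw [show indFun B (extZ ν) g = (∑ x : G, if x⁻¹ * g * x ∈ B then extZ ν (x⁻¹ * g * x) else 0) /
      (Nat.card B : ℂ) from rfl, ← mul_div_assoc, Finset.mul_sum]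
    congr 1
    refine Finset.sum_congr rfl fun x _ => ?_
    by_cases hx : x⁻¹ * g * x ∈ B
    · rw [if_pos hx, if_pos hx]
      simp only [dif_pos hx]
      have h2 : indFun H (extZ ψ) (B.subtype ⟨x⁻¹ * g * x, hx⟩) = indFun H (extZ ψ) g := by
        show indFun H (extZ ψ) (x⁻¹ * g * x) = _
        unfold indFun
        congr 1
        refine Fintype.sum_equiv (Equiv.mulLeft x) _ _ fun y => ?_
        have e : y⁻¹ * (x⁻¹ * g * x) * y = (x * y)⁻¹ * g * (x * y) := by group
        rw [e]
        rfl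
      rw [h2]
      congr 1
      unfold extZ
      rw [dif_pos hx]
    · rw [if_neg hx, if_neg hx, mul_zero]
  rw [h1]
  have h3 : ∀ E ∈ Submodule.span ℤ (Set.range fun x : G =>
        indFun (H.comap (cj B.subtype x)) (extZ (ψ.comp ((cj B.subtype x).subgroupComap H)))),
      Λ E ∈ CMB.GS (G := G) fun B _ => P B := by
    intro E hE
    induction hE using Submodule.span_induction with
    | mem E hE =>
      obtain ⟨x, rfl⟩ := hE
      refine ind_map B ν _ _ P (hP _ ?_)
      rintro _ ⟨y, -, rfl⟩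
      exact y.2
    | zero => rw [map_zero]; exact Submodule.zero_mem _
    | add a b _ _ ha hb => rw [map_add]; exact Submodule.add_mem _ ha hb
    | smul m a _ ha => rw [map_smul]; exact Submodule.smul_mem _ _ ha
  exact h3 _ hpull

theorem prod_GS (f : G → ℂ) (hf : IsMonComb f) (B : Subgroup G) (ν : B →* ℂˣ)
    (P : Subgroup G → Prop) (hP : ∀ J, J ≤ B → P J) :
    (fun g => f g * indFun B (extZ ν) g) ∈ CMB.GS (G := G) fun B _ => P B := by
  obtain ⟨m, H, ψ, n, hf⟩ := hf
  have h1 : (fun g => f g * indFun B (extZ ν) g) =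
      ∑ i, n i • (fun g => indFun (H i) (extZ (ψ i)) g * indFun B (extZ ν) g) := by
    funext g
    rw [hf g, Finset.sum_mul, Finset.sum_apply]
    refine Finset.sum_congr rfl fun i _ => ?_
    rw [Pi.smul_apply, zsmul_eq_mul, mul_assoc]
  rw [h1]
  exact Submodule.sum_mem _ fun i _ => Submodule.smul_mem _ _ (prod_ind _ _ _ _ P hP)

end prod

end SLAM

theorem SLAM_thm : Stmt_SLAM := by
  intro G _ _ C hC hcyc hodd ⟨n, hn⟩ f hf h0
  letI := SLAM.act C
  have hfin : Finite (C →* ℂˣ) := inferInstance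
  letI : Fintype (C →* ℂˣ) := Fintype.ofFinite _
  set F : G → ℂ := fun g => ∑ l : C →* ℂˣ, (if g • l = l then ((SLAM.nu C l g : ℂˣ) : ℂ) else 0)
    with hF
  have hFe : ∀ g, F g = ∑ w : MulAction.orbitRel.Quotient G (C →* ℂˣ),
      indFun (MulAction.stabilizer G w.out) (extZ (SLAM.nuHom C w.out)) g := by
    intro g
    refine Eq.trans ?_ ((SLAM.sum_fixed (fun g l => ((SLAM.nu C l g : ℂˣ) : ℂ)) (fun g x l _ => by
      rw [SLAM.nu_conj]) g).trans ?_)
    · rw [hF]
      refine Finset.sum_congr rfl fun l _ => ?_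
      by_cases hh : g • l = l
      · rw [if_pos hh, if_pos hh]
      · rw [if_neg hh, if_neg hh]
    refine Finset.sum_congr rfl fun w _ => ?_
    apply congrFun
    apply CMB.indFun_congr
    intro x hx
    unfold extZ
    rw [dif_pos hx]
    rfl
  set w₁ : MulAction.orbitRel.Quotient G (C →* ℂˣ) := Quotient.mk'' 1 with hw₁
  have hout : ∀ w : MulAction.orbitRel.Quotient G (C →* ℂˣ), w.out = 1 ↔ w = w₁ := by
    intro w
    constructor
    · intro h
      rw [hw₁, ← h]
      exact (Quotient.out_eq' w).symm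
    · intro h
      have h1 : (Quotient.mk'' w.out : MulAction.orbitRel.Quotient G (C →* ℂˣ)) =
          Quotient.mk'' 1 := (Quotient.out_eq' w).trans h
      rw [Quotient.eq''] at h1
      obtain ⟨x, hx⟩ := h1
      exact hx.symm
  have hone : ∀ g, indFun (MulAction.stabilizer G w₁.out) (extZ (SLAM.nuHom C w₁.out)) g = 1 := by
    intro g
    have h1 : w₁.out = 1 := (hout w₁).mpr rfl
    have h2 : ∀ x : G, x ∈ MulAction.stabilizer G w₁.out := by
      intro x
      rw [h1]
      exact (rfl : x • (1 : C →* ℂˣ) = 1)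
    have h3 : ∀ x, extZ (SLAM.nuHom C w₁.out) x = 1 := by
      intro x
      unfold extZ
      rw [dif_pos (h2 x)]
      show ((SLAM.nu C w₁.out x : ℂˣ) : ℂ) = 1
      rw [h1]
      rfl
    have h4 : Nat.card (MulAction.stabilizer G w₁.out) = Fintype.card G := by
      have : MulAction.stabilizer G w₁.out = ⊤ := by
        rw [eq_top_iff]
        exact fun x _ => h2 x
      rw [this, Subgroup.card_top, Nat.card_eq_fintype_card]
    unfold indFun
    rw [h4, Finset.sum_congr rfl fun x _ => by rw [if_pos (h2 _), h3], Finset.sum_const,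
      Finset.card_univ, nsmul_eq_mul, mul_one]
    exact div_self (by exact_mod_cast Fintype.card_ne_zero)
  have hfF : ∀ g, f g * F g = 0 := by
    intro g
    by_cases hg : PElt 2 g
    · rw [h0 g hg, zero_mul]
    · have := SLAM.sum_nu C hcyc hodd n hn g hg
      rw [show F g = 0 from this, mul_zero]
  have hdec : f = - ∑ w ∈ Finset.univ.erase w₁,
      (fun g => f g * indFun (MulAction.stabilizer G w.out) (extZ (SLAM.nuHom C w.out)) g) := by
    funext g
    have h1 := hfF g
    rw [hFe, ← Finset.add_sum_erase _ _ (Finset.mem_univ w₁), hone, mul_add, mul_one,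
      Finset.mul_sum] at h1
    rw [Pi.neg_apply, Finset.sum_apply]
    exact eq_neg_of_add_eq_zero_left h1
  rw [hdec]
  refine Submodule.neg_mem _ (Submodule.sum_mem _ fun w hw => ?_)
  refine SLAM.prod_GS f hf _ _ (fun B => ∀ b ∈ B, ∃ x ∈ C, b * x * b⁻¹ ≠ x⁻¹) ?_
  intro J hJ b hb
  by_contra hcon
  push Not at hcon
  have hl : w.out ≠ 1 := fun h => (Finset.mem_erase.mp hw).1 ((hout w).mp h)
  apply hl
  have hbs : b • w.out = w.out := hJ hb
  refine MonoidHom.ext fun x => ?_
  have h1 : w.out x = w.out x⁻¹ := by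
    have h2 : (x : G) = b⁻¹ * ((x⁻¹ : C) : G) * b := by
      have h3 := hcon x x.2
      have h4 : ((x⁻¹ : C) : G) = (x : G)⁻¹ := rfl
      rw [h4, ← h3]
      group
    have h5 := SLAM.smul_apply C b w.out x⁻¹ x h2
    rw [← h5, hbs]
  rw [map_inv] at h1
  have h6 : (w.out x) ^ 2 = 1 := by
    rw [pow_two]
    nth_rewrite 2 [h1]
    exact mul_inv_cancel _
  have h7 : (w.out x) ^ (Nat.card C) = 1 := by
    rw [← map_pow, pow_card_eq_one', map_one]
  have h8 : orderOf (w.out x) ∣ Nat.gcd 2 (Nat.card C) :=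
    Nat.dvd_gcd (orderOf_dvd_of_pow_eq_one h6) (orderOf_dvd_of_pow_eq_one h7)
  rw [Nat.coprime_two_left.mpr hodd, Nat.dvd_one, orderOf_eq_one_iff] at h8
  exact h8

end StarkC
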