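import Pool.Agent.StarkI.Stmts
import Pool.Agent.Stark.SOL

/-!
# Solomon's induction theorem, `p`-local form (module STI_SOL)
-/

open scoped Classical

namespace StarkC

namespace ISOL

open SOL (fxq cnt fix_iff card_fix fxq_map fxq_quot sylow_fix)

/-- `p`-quasi-elementary groups are stable under injections -/
lemma qe_inj {p : ℕ} (hp : p = 1 ∨ p.Prime) {K G : Type} [Group K] [Group G] [Finite G]
    (f : K →* G) (hf : Function.Injective f) (h : IsQE p G) : IsQE p K := by
  obtain ⟨C, hn, hc, hd, n, hi⟩ := h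
  have : Finite K := Finite.of_injective f hf
  let φ : C.comap f →* C := f.subgroupComap C
  have hφ : Function.Injective φ := by
    intro a b hab
    apply Subtype.ext
    apply hf
    exact congrArg Subtype.val hab
  refine ⟨C.comap f, inferInstance, isCyclic_of_injective φ hφ, ?_, ?_⟩
  · exact Nat.Coprime.coprime_dvd_right (Subgroup.card_dvd_of_injective φ hφ) hd
  · have h1 : (C.comap f).index ∣ p ^ n := by
      rw [Subgroup.index_comap, ← hi]
      exact Subgroup.relIndex_dvd_index_of_normal C f.range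
    rcases hp with rfl | hp
    · rw [one_pow, Nat.dvd_one] at h1
      exact ⟨0, by rw [h1, one_pow]⟩
    · obtain ⟨k, _, hk⟩ := (Nat.dvd_prime_pow hp).1 h1
      exact ⟨k, hk⟩

lemma qe_le {p : ℕ} (hp : p = 1 ∨ p.Prime) {G : Type} [Group G] [Finite G] {H K : Subgroup G}
    (h : K ≤ H) (hH : IsQE p H) : IsQE p K :=
  qe_inj hp (Subgroup.inclusion h) (Subgroup.inclusion_injective h) hH

lemma qe_stab {p : ℕ} (hp : p = 1 ∨ p.Prime) {G : Type} [Group G] [Finite G] {H : Subgroup G}
    (hH : IsQE p H) (y : G ⧸ H) : IsQE p (MulAction.stabilizer G y) := by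
  obtain ⟨x, rfl⟩ := QuotientGroup.mk_surjective y
  have key : ∀ g : MulAction.stabilizer G (QuotientGroup.mk x : G ⧸ H),
      x⁻¹ * (g : G) * x ∈ H := fun g => (fix_iff H g x).1 g.2
  let f : MulAction.stabilizer G (QuotientGroup.mk x : G ⧸ H) →* H :=
    { toFun := fun g => ⟨x⁻¹ * (g : G) * x, key g⟩
      map_one' := by
        apply Subtype.ext
        simp
      map_mul' := by
        intro a b
        apply Subtype.ext
        simp only [Subgroup.coe_mul]
        group }
  refine qe_inj hp f ?_ hH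
  intro a b hab
  have h1 : x⁻¹ * (a : G) * x = x⁻¹ * (b : G) * x := congrArg Subtype.val hab
  apply Subtype.ext
  have h2 := mul_right_cancel h1
  exact mul_left_cancel h2

/-- the additive group generated by the permutation characters -/
def A (p : ℕ) (G : Type) [Group G] : AddSubgroup (G → ℤ) :=
  AddSubgroup.closure {f | ∃ H : Subgroup G, IsQE p H ∧ f = fun g => (fxq H g : ℤ)}

lemma fxq_mem {p : ℕ} {G : Type} [Group G] {H : Subgroup G} (h : IsQE p H) :
    (fun g => (fxq H g : ℤ)) ∈ A p G :=
  AddSubgroup.subset_closure ⟨H, h, rfl⟩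

lemma fix_mem {p : ℕ} {G Y : Type} [Group G] [Finite G] [Finite Y] [MulAction G Y]
    (h : ∀ y : Y, IsQE p (MulAction.stabilizer G y)) :
    (fun g : G => (Nat.card {y : Y // g • y = y} : ℤ)) ∈ A p G := by
  have : Finite (MulAction.orbitRel.Quotient G Y) := Quotient.finite _
  have := Fintype.ofFinite (MulAction.orbitRel.Quotient G Y)
  have e : (fun g : G => (Nat.card {y : Y // g • y = y} : ℤ)) =
      ∑ ω : MulAction.orbitRel.Quotient G Y,
        fun g => (fxq (MulAction.stabilizer G ω.out) g : ℤ) := by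
    ext g
    rw [card_fix, finsum_eq_sum_of_fintype, Finset.sum_apply]
    push_cast
    rfl
  rw [e]
  exact sum_mem fun ω _ => fxq_mem (h _)

lemma mul_mem_A {p : ℕ} (hp : p = 1 ∨ p.Prime) {G : Type} [Group G] [Finite G] {f f' : G → ℤ}
    (hf : f ∈ A p G) (hf' : f' ∈ A p G) : f * f' ∈ A p G := by
  unfold A at hf hf'
  induction hf using AddSubgroup.closure_induction with
  | mem f hf =>
    obtain ⟨H, hH, rfl⟩ := hf
    induction hf' using AddSubgroup.closure_induction with
    | mem f' hf' =>
      obtain ⟨H', hH', rfl⟩ := hf'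
      have e : ((fun g => (fxq H g : ℤ)) * fun g => (fxq H' g : ℤ)) =
          fun g : G => (Nat.card {y : (G ⧸ H) × (G ⧸ H') // g • y = y} : ℤ) := by
        ext g
        have e1 : Nat.card {y : (G ⧸ H) × (G ⧸ H') // g • y = y} = fxq H g * fxq H' g := by
          unfold fxq
          rw [← Nat.card_prod]
          refine Nat.card_congr (Equiv.trans (Equiv.subtypeEquivRight ?_)
            (Equiv.subtypeProdEquivProd (p := fun a : G ⧸ H => g • a = a)
              (q := fun b : G ⧸ H' => g • b = b)))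
          intro y
          rw [Prod.ext_iff]
          rfl
        rw [e1]
        simp
      rw [e]
      refine fix_mem fun y => ?_
      refine qe_le hp (H := MulAction.stabilizer G y.1) ?_ (qe_stab hp hH y.1)
      intro g hg
      exact congrArg Prod.fst (MulAction.mem_stabilizer_iff.1 hg)
    | zero => rw [mul_zero]; exact zero_mem _
    | add a b _ _ ha hb => rw [mul_add]; exact add_mem ha hb
    | neg a _ ha => rw [mul_neg]; exact neg_mem ha
  | zero => rw [zero_mul]; exact zero_mem _
  | add a b _ _ ha hb => rw [add_mul]; exact add_mem ha hb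
  | neg a _ ha => rw [neg_mul]; exact neg_mem ha

/-- the key point of Banaschewski's proof -/
lemma exists_qe {G : Type} [Group G] [Finite G] (x : G) (p : ℕ) (hp : p.Prime) :
    ∃ H : Subgroup G, IsQE p H ∧ ¬ p ∣ fxq H x := by
  have : Fact p.Prime := ⟨hp⟩
  obtain ⟨a, m, hm, ho⟩ := Nat.exists_eq_pow_mul_and_not_dvd (orderOf_pos x).ne' p hp.ne_one
  have hcop : Nat.Coprime (p ^ a) m := Nat.Coprime.pow_left _ ((Nat.Prime.coprime_iff_not_dvd hp).2 hm)
  set c : G := x ^ p ^ a with hc
  have hcm : orderOf c = m := by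
    rw [hc, orderOf_pow_of_dvd (pow_pos hp.pos a).ne' (by rw [ho]; exact dvd_mul_right _ _), ho]
    exact Nat.mul_div_cancel_left m (pow_pos hp.pos a)
  set C : Subgroup G := Subgroup.zpowers c with hC
  have hCcard : Nat.card C = m := by rw [hC, Nat.card_zpowers, hcm]
  set N : Subgroup G := Subgroup.normalizer (C : Set G) with hN
  have hCN : C ≤ N := Subgroup.le_normalizer
  have hxN : x ∈ N := by
    rw [hN, Subgroup.mem_normalizer_iff]
    intro h
    have hcomm : ∀ k ∈ C, x * k * x⁻¹ = k := by
      intro k hk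
      obtain ⟨i, rfl⟩ := Subgroup.mem_zpowers_iff.1 hk
      have : Commute x (c ^ i) := by
        apply Commute.zpow_right
        rw [hc]
        exact (Commute.refl x).pow_right _
      rw [this.eq, mul_inv_cancel_right]
    constructor
    · intro hh
      rw [hcomm h hh]
      exact hh
    · intro hh
      have h1 := hcomm _ hh
      have h2 : h = x * h * x⁻¹ := by
        have h3 : x * (x * h * x⁻¹) * x⁻¹ = x * h * x⁻¹ := h1
        have h4 := mul_left_cancel (mul_right_cancel h3)
        exact h4.symm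
      rw [h2]
      exact hh
  let C' : Subgroup N := C.subgroupOf N
  have : C'.Normal := Subgroup.normal_in_normalizer
  let x' : N := ⟨x, hxN⟩
  have hx'pow : ((x' : N ⧸ C')) ^ p ^ a = 1 := by
    rw [← QuotientGroup.mk_pow, QuotientGroup.eq_one_iff]
    change ((x' ^ p ^ a : N) : G) ∈ C
    rw [Subgroup.coe_pow]
    exact Subgroup.mem_zpowers _
  have hpg : IsPGroup p (Subgroup.zpowers (x' : N ⧸ C')) := by
    refine IsPGroup.of_card (n := ?_) ?_
    · exact Nat.log p (Nat.card (Subgroup.zpowers (x' : N ⧸ C')))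
    · rw [Nat.card_zpowers]
      obtain ⟨k, _, hk⟩ := (Nat.dvd_prime_pow hp).1 (orderOf_dvd_of_pow_eq_one hx'pow)
      rw [hk, Nat.log_pow hp.one_lt]
  obtain ⟨P, _⟩ := hpg.exists_le_sylow
  let H' : Subgroup N := (P : Subgroup (N ⧸ C')).comap (QuotientGroup.mk' C')
  -- elements of `H'` of order prime to `p` lie in `C`
  have hkey : ∀ y : N, y ∈ H' → y ^ m = 1 → (y : G) ∈ C := by
    intro y hy hym
    have h1 : ((y : N ⧸ C')) ∈ (P : Subgroup (N ⧸ C')) := hy
    obtain ⟨k, hk⟩ := P.2 ⟨(y : N ⧸ C'), h1⟩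
    have hk' : ((y : N ⧸ C')) ^ p ^ k = 1 := congrArg Subtype.val hk
    have hm' : ((y : N ⧸ C')) ^ m = 1 := by
      rw [← QuotientGroup.mk_pow, hym]
      rfl
    have h2 : orderOf (y : N ⧸ C') = 1 := by
      have d1 := orderOf_dvd_of_pow_eq_one hk'
      have d2 := orderOf_dvd_of_pow_eq_one hm'
      have : Nat.Coprime (p ^ k) m :=
        Nat.Coprime.pow_left _ ((Nat.Prime.coprime_iff_not_dvd hp).2 hm)
      exact Nat.eq_one_of_dvd_coprimes this d1 d2
    rw [orderOf_eq_one_iff, QuotientGroup.eq_one_iff] at h2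
    exact h2
  have hHN : ∀ g : G, g⁻¹ * (x' : G) * g ∈ H'.map N.subtype → g ∈ N := by
    intro g hg
    obtain ⟨y, hy, hyg⟩ := hg
    have hyg' : (y : G) = g⁻¹ * x * g := hyg
    have hy2 : ((y ^ p ^ a : N) : G) = g⁻¹ * c * g := by
      rw [Subgroup.coe_pow, hyg']
      have := conj_pow (i := p ^ a) (a := g⁻¹) (b := x)
      rw [inv_inv] at this
      rw [this]
    have hy3 : ((y ^ p ^ a : N) : G) ∈ C := by
      apply hkey
      · exact pow_mem hy _
      · rw [← pow_mul]
        apply Subtype.ext
        rw [Subgroup.coe_pow, hyg']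
        have := conj_pow (i := p ^ a * m) (a := g⁻¹) (b := x)
        rw [inv_inv] at this
        rw [this, ← ho, pow_orderOf_eq_one]
        simp
    rw [hy2] at hy3
    have hinv : g⁻¹ ∈ N := by
      rw [hN]
      apply Subgroup.mem_normalizer_fintype
      intro n hn
      obtain ⟨i, rfl⟩ := Subgroup.mem_zpowers_iff.1 hn
      have := conj_zpow (i := i) (a := g⁻¹) (b := c)
      rw [← this]
      apply zpow_mem
      rw [inv_inv]
      exact hy3
    have := inv_mem hinv
    rwa [inv_inv] at this
  refine ⟨H'.map N.subtype, ?_, ?_⟩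
  · -- quasi-elementary
    have e : H'.map N.subtype ≃* H' :=
      (H'.equivMapOfInjective N.subtype N.subtype_injective).symm
    refine qe_inj (Or.inr hp) e.toMonoidHom e.injective ?_
    let f : H' →* N ⧸ C' := (QuotientGroup.mk' C').comp H'.subtype
    have hfk : ∀ y : f.ker, ((y : H') : N).1 ∈ C := by
      intro y
      have h1 : f (y : H') = 1 := y.2
      exact (QuotientGroup.eq_one_iff (N := C') ((y : H') : N)).1 h1
    let ψ : f.ker →* C :=
      { toFun := fun y => ⟨((y : H') : N).1, hfk y⟩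
        map_one' := rfl
        map_mul' := fun a b => rfl }
    have hψ : Function.Injective ψ := by
      intro a b hab
      have h1 : ((a : H') : N).1 = ((b : H') : N).1 := congrArg (fun z : C => (z : G)) hab
      exact Subtype.ext (Subtype.ext (Subtype.ext h1))
    have : IsCyclic C := by rw [hC]; infer_instance
    refine ⟨f.ker, inferInstance, isCyclic_of_injective ψ hψ, ?_, ?_⟩
    · refine (Nat.Prime.coprime_iff_not_dvd hp).2 ?_
      intro hdiv
      have h1 := hdiv.trans (Subgroup.card_dvd_of_injective ψ hψ)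
      rw [hCcard] at h1
      exact hm h1
    · rw [Subgroup.index_ker]
      have h1 : f.range ≤ (P : Subgroup (N ⧸ C')) := by
        rintro _ ⟨y, rfl⟩
        exact y.2
      have h2 := Subgroup.card_dvd_of_le h1
      obtain ⟨n, hn⟩ := P.2.exists_card_eq
      have hn' : Nat.card (P : Subgroup (N ⧸ C')) = p ^ n := hn
      rw [hn'] at h2
      obtain ⟨k, _, hk⟩ := (Nat.dvd_prime_pow hp).1 h2
      exact ⟨k, hk⟩
  · have h1 : fxq (H'.map N.subtype) x = fxq (P : Subgroup (N ⧸ C')) (x' : N ⧸ C') := by
      have h2 := fxq_map N H' x' hHN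
      rw [fxq_quot] at h2
      exact h2
    rw [h1]
    exact sylow_fix P _ hpg

/-- for each `x` there is a `p`-quasi-elementary subgroup with a number of fixed points which is
positive and prime to `p` -/
lemma exists_good {G : Type} [Group G] [Finite G] {p : ℕ} (hp : p = 1 ∨ p.Prime) (x : G) :
    ∃ H : Subgroup G, IsQE p H ∧ Nat.Coprime p (fxq H x) ∧ 0 < fxq H x := by
  rcases hp with rfl | hp
  · refine ⟨Subgroup.zpowers x, ?_, Nat.coprime_one_left _, ?_⟩
    · refine ⟨⊤, inferInstance, ?_, Nat.coprime_one_left _, 0, ?_⟩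
      · exact isCyclic_of_injective (⊤ : Subgroup (Subgroup.zpowers x)).subtype
          (Subgroup.subtype_injective _)
      · rw [Subgroup.index_top, pow_zero]
    · have hfix : x • (QuotientGroup.mk (1 : G) : G ⧸ Subgroup.zpowers x) =
          QuotientGroup.mk (1 : G) := by
        rw [fix_iff]
        simp
      unfold fxq
      have : Nonempty {y : G ⧸ Subgroup.zpowers x // x • y = y} := ⟨⟨_, hfix⟩⟩
      exact Nat.card_pos
  · obtain ⟨H, hH, hx⟩ := exists_qe x p hp
    refine ⟨H, hH, (Nat.Prime.coprime_iff_not_dvd hp).2 hx, ?_⟩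
    rcases Nat.eq_zero_or_pos (fxq H x) with h | h
    · exact absurd (h ▸ dvd_zero p) hx
    · exact h

lemma const_mem_A (G : Type) [Group G] [Fintype G] {p : ℕ} (hp : p = 1 ∨ p.Prime) :
    ∃ M : ℕ, 0 < M ∧ Nat.Coprime p M ∧ (fun _ => (M : ℤ)) ∈ A p G := by
  choose H hH hcop hpos using fun x : G => exists_good (G := G) hp x
  let F : G → G → ℤ := fun x g => (fxq (H x) g : ℤ)
  have hF : ∀ x, F x ∈ A p G := fun x => fxq_mem (hH x)
  let c : G → ℤ := fun x => (fxq (H x) x : ℤ)
  have key : ∀ s : Finset G,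
      (fun _ => ∏ x ∈ s, c x) - ∏ x ∈ s, ((fun _ => c x) - F x) ∈ A p G := by
    intro s
    induction s using Finset.induction_on with
    | empty =>
      have e : ((fun _ => ∏ x ∈ (∅ : Finset G), c x) -
          ∏ x ∈ (∅ : Finset G), ((fun _ => c x) - F x) : G → ℤ) = 0 := by
        ext g
        simp
      rw [e]
      exact zero_mem _
    | insert x s hx ih =>
      set P : G → ℤ := ∏ y ∈ s, ((fun _ => c y) - F y) with hP
      have e : ((fun _ => ∏ y ∈ insert x s, c y) -
          ∏ y ∈ insert x s, ((fun _ => c y) - F y) : G → ℤ) =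
          c x • ((fun _ => ∏ y ∈ s, c y) - P) +
            ((∏ y ∈ s, c y) • F x - F x * ((fun _ => ∏ y ∈ s, c y) - P)) := by
        rw [Finset.prod_insert hx, Finset.prod_insert hx, ← hP]
        ext g
        simp only [Pi.sub_apply, Pi.mul_apply, Pi.add_apply, Pi.smul_apply, smul_eq_mul]
        ring
      rw [e]
      exact add_mem (zsmul_mem ih _) (sub_mem (zsmul_mem (hF x) _) (mul_mem_A hp (hF x) ih))
  have h1 : ∏ x : G, ((fun _ => c x) - F x) = 0 := by
    ext g
    rw [Finset.prod_apply]
    apply Finset.prod_eq_zero (Finset.mem_univ g)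
    simp [c, F]
  have h2 := key Finset.univ
  rw [h1, sub_zero] at h2
  refine ⟨∏ x : G, fxq (H x) x, Finset.prod_pos fun x _ => hpos x,
    Nat.Coprime.prod_right fun x _ => hcop x, ?_⟩
  have e : (fun _ => ((∏ x : G, fxq (H x) x : ℕ) : ℤ) : G → ℤ) = fun _ => ∏ x : G, c x := by
    ext g
    simp [c]
  rw [e]
  exact h2

end ISOL

/-- Solomon's induction theorem, `p`-local form -/
theorem ISOL_thm : Stmt_ISOL := by
  intro p hp G _ _
  have key : ∀ f : G → ℤ, f ∈ ISOL.A p G → ∃ (m : ℕ) (H : Fin m → Subgroup G) (n : Fin m → ℤ),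
      (∀ i, IsQE p (H i)) ∧
        ∀ g, (f g : ℂ) = ∑ i, (n i : ℂ) * indFun (H i) (fun _ => 1) g := by
    intro f hf
    unfold ISOL.A at hf
    induction hf using AddSubgroup.closure_induction with
    | mem f hf =>
      obtain ⟨H, hH, rfl⟩ := hf
      refine ⟨1, fun _ => H, fun _ => 1, fun _ => hH, fun g => ?_⟩
      rw [Fin.sum_univ_one, SOL.indFun_eq]
      push_cast
      ring
    | zero => exact ⟨0, Fin.elim0, Fin.elim0, fun i => i.elim0, fun g => by simp⟩
    | add a b _ _ ha hb =>
      obtain ⟨m, H, n, h1, h2⟩ := ha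
      obtain ⟨m', H', n', h1', h2'⟩ := hb
      refine ⟨m + m', Fin.append H H', Fin.append n n', ?_, ?_⟩
      · intro i
        refine Fin.addCases (fun i => ?_) (fun i => ?_) i
        · rw [Fin.append_left]; exact h1 i
        · rw [Fin.append_right]; exact h1' i
      · intro g
        rw [Fin.sum_univ_add]
        simp only [Fin.append_left, Fin.append_right]
        rw [← h2 g, ← h2' g]
        simp
    | neg a _ ha =>
      obtain ⟨m, H, n, h1, h2⟩ := ha
      refine ⟨m, H, fun i => - n i, h1, fun g => ?_⟩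
      have e : ((-a) g : ℤ) = - (a g) := rfl
      rw [e]
      push_cast
      rw [h2 g, ← Finset.sum_neg_distrib]
      refine Finset.sum_congr rfl fun i _ => ?_
      ring
  obtain ⟨M, hM0, hMp, hMA⟩ := ISOL.const_mem_A G hp
  obtain ⟨m, H, n, h1, h2⟩ := key _ hMA
  refine ⟨M, m, H, n, hM0, hMp, h1, fun g => ?_⟩
  have := h2 g
  simpa using this

end StarkC
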