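import Pool.Agent.StarkI.SStmts
import Pool.Agent.Stark.SOL

/-!
# Module SP: the indicator function of the `p`-elements

Let `A` be the additive group generated by the permutation characters of `G / Q`, `Q` a
`p`-subgroup.  `A` is closed under products, its elements vanish outside the `p`-elements, and for
the Sylow character `F` the value `F x` at a `p`-element `x` is prime to `p`.  Hence
`∏ F x - ∏ (F x - F)` (products over all `p`-elements `x`) is in `A`; it is `∏ F x` at the
`p`-elements and `0` elsewhere.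
-/

open scoped Classical

namespace StarkC

namespace SP

open SOL (fxq fix_iff card_fix sylow_fix indFun_eq)

/-- all elements of `H` have `p`-power order -/
def PS (p : ℕ) {G : Type} [Group G] (H : Subgroup G) : Prop := ∀ g ∈ H, PElt p g

lemma ps_stab {p : ℕ} {G : Type} [Group G] {H : Subgroup G} (hH : PS p H) (y : G ⧸ H) :
    PS p (MulAction.stabilizer G y) := by
  obtain ⟨x, rfl⟩ := QuotientGroup.mk_surjective y
  intro g hg
  have h1 : x⁻¹ * g * x ∈ H := (fix_iff H g x).1 hg
  obtain ⟨k, hk⟩ := hH _ h1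
  refine ⟨k, ?_⟩
  have h2 : (x⁻¹ * g * x) ^ p ^ k = x⁻¹ * g ^ p ^ k * x := by
    have := conj_pow (i := p ^ k) (a := x⁻¹) (b := g)
    rwa [inv_inv] at this
  rw [h2] at hk
  have h3 : g ^ p ^ k = x * (x⁻¹ * g ^ p ^ k * x) * x⁻¹ := by group
  rw [h3, hk, mul_one, mul_inv_cancel]

/-- the additive group generated by the permutation characters -/
def A (p : ℕ) (G : Type) [Group G] : AddSubgroup (G → ℤ) :=
  AddSubgroup.closure {f | ∃ H : Subgroup G, PS p H ∧ f = fun g => (fxq H g : ℤ)}

lemma fxq_mem {p : ℕ} {G : Type} [Group G] {H : Subgroup G} (h : PS p H) :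
    (fun g => (fxq H g : ℤ)) ∈ A p G :=
  AddSubgroup.subset_closure ⟨H, h, rfl⟩

lemma fix_mem {p : ℕ} {G Y : Type} [Group G] [Finite G] [Finite Y] [MulAction G Y]
    (h : ∀ y : Y, PS p (MulAction.stabilizer G y)) :
    (fun g : G => (Nat.card {y : Y // g • y = y} : ℤ)) ∈ A p G := by
  have : Finite (MulAction.orbitRel.Quotient G Y) := Quotient.finite _
  have := Fintype.ofFinite (MulAction.orbitRel.Quotient G Y)
  have e : (fun g : G => (Nat.card {y : Y // g • y = y} : ℤ)) =
      ∑ ω : MulAction.orbitRel.Quotient G Y,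
        fun g => (fxq (MulAction.stabilizer G ω.out) g : ℤ) := by
    ext g
    rw [card_fix, finsum_eq_sum_of_fintype, Finset.sum_apply]
    push_cast
    rfl
  rw [e]
  exact sum_mem fun ω _ => fxq_mem (h _)

lemma mul_mem_A {p : ℕ} {G : Type} [Group G] [Finite G]
    {f f' : G → ℤ} (hf : f ∈ A p G) (hf' : f' ∈ A p G) : f * f' ∈ A p G := by
  unfold A at hf hf'
  induction hf using AddSubgroup.closure_induction with
  | mem f hf =>
    obtain ⟨H, hH, rfl⟩ := hf
    induction hf' using AddSubgroup.closure_induction with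
    | mem f' hf' =>
      obtain ⟨H', hH', rfl⟩ := hf'
      have e : ((fun g => (fxq H g : ℤ)) * fun g => (fxq H' g : ℤ)) =
          fun g : G => (Nat.card {y : (G ⧸ H) × (G ⧸ H') // g • y = y} : ℤ) := by
        ext g
        have e1 : Nat.card {y : (G ⧸ H) × (G ⧸ H') // g • y = y} = fxq H g * fxq H' g := by
          unfold fxq
          rw [← Nat.card_prod]
          refine Nat.card_congr (Equiv.trans (Equiv.subtypeEquivRight ?_)
            (Equiv.subtypeProdEquivProd (p := fun a : G ⧸ H => g • a = a)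
              (q := fun b : G ⧸ H' => g • b = b)))
          intro y
          rw [Prod.ext_iff]
          rfl
        rw [e1]
        simp
      rw [e]
      refine fix_mem fun y => ?_
      intro g hg
      exact ps_stab hH y.1 g (congrArg Prod.fst (MulAction.mem_stabilizer_iff.1 hg))
    | zero => rw [mul_zero]; exact zero_mem _
    | add a b _ _ ha hb => rw [mul_add]; exact add_mem ha hb
    | neg a _ ha => rw [mul_neg]; exact neg_mem ha
  | zero => rw [zero_mul]; exact zero_mem _
  | add a b _ _ ha hb => rw [add_mul]; exact add_mem ha hb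
  | neg a _ ha => rw [neg_mul]; exact neg_mem ha

/-- the permutation character vanishes outside the `p`-elements -/
lemma fxq_zero {p : ℕ} {G : Type} [Group G] {H : Subgroup G} (hH : PS p H) {g : G}
    (hg : ¬ PElt p g) : fxq H g = 0 := by
  unfold fxq
  have : IsEmpty {y : G ⧸ H // g • y = y} := by
    refine ⟨fun y => hg ?_⟩
    exact ps_stab hH y.1 g y.2
  exact Nat.card_of_isEmpty

/-- the product formula -/
lemma prod_mem {p : ℕ} {G : Type} [Group G] [Finite G] {F : G → ℤ} (hF : F ∈ A p G)
    (s : Finset G) :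
    (fun g => (∏ x ∈ s, F x) - ∏ x ∈ s, (F x - F g)) ∈ A p G := by
  induction s using Finset.induction_on with
  | empty =>
    have : (fun g : G => (∏ x ∈ (∅ : Finset G), F x) - ∏ x ∈ (∅ : Finset G), (F x - F g)) = 0 := by
      ext g; simp
    rw [this]
    exact zero_mem _
  | insert x s hx ih =>
    set E : G → ℤ := fun g => (∏ x ∈ s, F x) - ∏ x ∈ s, (F x - F g) with hE
    have e : (fun g => (∏ x ∈ insert x s, F x) - ∏ x ∈ insert x s, (F x - F g)) =
        F x • E + ((∏ x ∈ s, F x) • F - F * E) := by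
      ext g
      rw [Finset.prod_insert hx, Finset.prod_insert hx]
      simp only [hE, Pi.add_apply, Pi.smul_apply, Pi.sub_apply, Pi.mul_apply, smul_eq_mul]
      ring
    rw [e]
    exact add_mem ((A p G).zsmul_mem ih _)
      (sub_mem ((A p G).zsmul_mem hF _) (mul_mem_A hF ih))

lemma comb {p : ℕ} {G : Type} [Group G] [Fintype G] : ∀ f : G → ℤ, f ∈ A p G →
    ∃ (m : ℕ) (H : Fin m → Subgroup G) (n : Fin m → ℤ),
      (∀ i, PS p (H i)) ∧
        ∀ g, (f g : ℂ) = ∑ i, (n i : ℂ) * indFun (H i) (fun _ => 1) g := by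
  intro f hf
  unfold A at hf
  induction hf using AddSubgroup.closure_induction with
  | mem f hf =>
    obtain ⟨H, hH, rfl⟩ := hf
    refine ⟨1, fun _ => H, fun _ => 1, fun _ => hH, fun g => ?_⟩
    rw [Fin.sum_univ_one, SOL.indFun_eq]
    push_cast
    ring
  | zero => exact ⟨0, Fin.elim0, Fin.elim0, fun i => i.elim0, fun g => by simp⟩
  | add a b _ _ ha hb =>
    obtain ⟨m, H, n, h1, h2⟩ := ha
    obtain ⟨m', H', n', h1', h2'⟩ := hb
    refine ⟨m + m', Fin.append H H', Fin.append n n', ?_, ?_⟩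
    · intro i
      refine Fin.addCases (fun i => ?_) (fun i => ?_) i
      · rw [Fin.append_left]; exact h1 i
      · rw [Fin.append_right]; exact h1' i
    · intro g
      rw [Fin.sum_univ_add]
      simp only [Fin.append_left, Fin.append_right]
      rw [← h2 g, ← h2' g]
      simp
  | neg a _ ha =>
    obtain ⟨m, H, n, h1, h2⟩ := ha
    refine ⟨m, H, fun i => - n i, h1, fun g => ?_⟩
    have e : ((-a) g : ℤ) = - (a g) := rfl
    rw [e]
    push_cast
    rw [h2 g, ← Finset.sum_neg_distrib]
    refine Finset.sum_congr rfl fun i _ => ?_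
    ring

end SP

/-- MODULE SP. -/
theorem SP_thm : Stmt_SP := by
  intro p hp G _ _
  have : Fact p.Prime := ⟨hp⟩
  obtain ⟨S⟩ : Nonempty (Sylow p G) := inferInstance
  have hS : SP.PS p (S : Subgroup G) := by
    intro g hg
    obtain ⟨k, hk⟩ := S.isPGroup' ⟨g, hg⟩
    exact ⟨k, congrArg Subtype.val hk⟩
  set F : G → ℤ := fun g => (SOL.fxq (S : Subgroup G) g : ℤ) with hF
  have hFm : F ∈ SP.A p G := SP.fxq_mem hS
  have hFx : ∀ x : G, PElt p x → ¬ p ∣ SOL.fxq (S : Subgroup G) x := by
    intro x hx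
    refine SOL.sylow_fix S x ?_
    obtain ⟨k, hk⟩ := hx
    rintro ⟨y, hy⟩
    obtain ⟨i, rfl⟩ := Subgroup.mem_zpowers_iff.1 hy
    refine ⟨k, Subtype.ext ?_⟩
    change (x ^ i) ^ p ^ k = 1
    rw [← zpow_natCast, ← zpow_mul, mul_comm, zpow_mul, zpow_natCast, hk, one_zpow]
  set P : Finset G := Finset.univ.filter fun x => PElt p x with hP
  set M : ℕ := ∏ x ∈ P, SOL.fxq (S : Subgroup G) x with hM
  have hcop : Nat.Coprime p M := by
    rw [hM]
    refine Nat.Coprime.prod_right fun x hx => ?_
    exact (Nat.Prime.coprime_iff_not_dvd hp).2 (hFx x (Finset.mem_filter.1 hx).2)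
  have hMpos : 0 < M := by
    rw [hM]
    refine Finset.prod_pos fun x hx => Nat.pos_of_ne_zero fun h => ?_
    exact hFx x (Finset.mem_filter.1 hx).2 (by rw [h]; exact dvd_zero p)
  obtain ⟨m, Q, n, hQ, hsum⟩ := SP.comb _ (SP.prod_mem hFm P)
  refine ⟨M, m, Q, n, hMpos, hcop, hQ, fun g => ?_⟩
  rw [← hsum g]
  have hMF : (∏ x ∈ P, F x) = (M : ℤ) := by
    rw [hM, hF]
    push_cast
    rfl
  by_cases hg : PElt p g
  · have h0 : ∏ x ∈ P, (F x - F g) = 0 :=
      Finset.prod_eq_zero (Finset.mem_filter.2 ⟨Finset.mem_univ g, hg⟩) (sub_self _)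
    rw [if_pos hg, h0, sub_zero, hMF]
    norm_num
  · have h0 : F g = 0 := by
      rw [hF]
      have := SP.fxq_zero hS hg
      simp [this]
    rw [if_neg hg]
    have h1 : ∏ x ∈ P, (F x - F g) = ∏ x ∈ P, F x := by
      refine Finset.prod_congr rfl fun x _ => ?_
      rw [h0, sub_zero]
    rw [h1, sub_self]
    norm_num

end StarkC
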