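import Pool.Agent.StarkI.SStmts

/-!
# Product of a combination of induced characters with a permutation character

Module STS_PROD.
-/

open scoped Classical

namespace StarkC
namespace SPROD

variable {G : Type} [Group G] [Fintype G]

/-- The induction of `ν φ` from `B` as an additive map. -/
noncomputable def Phi (B : Subgroup G) (ν : B →* ℂˣ) : (B → ℂ) →ₗ[ℤ] (G → ℂ) where
  toFun φ := indFun B (fun z => if hz : z ∈ B then extZ ν z * φ ⟨z, hz⟩ else 0)
  map_add' := by
    intro φ φ'
    funext g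
    simp only [Pi.add_apply]
    unfold indFun
    rw [← add_div, ← Finset.sum_add_distrib]
    congr 1
    refine Finset.sum_congr rfl fun x _ => ?_
    by_cases hx : x⁻¹ * g * x ∈ B
    · simp only [if_pos hx, dif_pos hx, mul_add]
    · simp only [if_neg hx, add_zero]
  map_smul' := by
    intro n φ
    funext g
    simp only [Pi.smul_apply, zsmul_eq_mul, eq_intCast, Int.cast_eq]
    unfold indFun
    rw [mul_div_assoc', Finset.mul_sum]
    congr 1
    refine Finset.sum_congr rfl fun x _ => ?_
    by_cases hx : x⁻¹ * g * x ∈ B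
    · simp only [if_pos hx, dif_pos hx, mul_left_comm]
    · simp only [if_neg hx, mul_zero]

theorem Phi_apply (B : Subgroup G) (ν : B →* ℂˣ) (φ : B → ℂ) :
    Phi B ν φ = indFun B (fun z => if hz : z ∈ B then extZ ν z * φ ⟨z, hz⟩ else 0) := rfl

theorem indFun_conj (Q : Subgroup G) (f : G → ℂ) (x g : G) :
    indFun Q f (x⁻¹ * g * x) = indFun Q f g := by
  unfold indFun
  congr 1
  refine Fintype.sum_equiv (Equiv.mulLeft x) _ _ (fun y => ?_)
  have e : y⁻¹ * (x⁻¹ * g * x) * y = (x * y)⁻¹ * g * (x * y) := by group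
  simp only [Equiv.coe_mulLeft, e]

theorem Phi_class (B : Subgroup G) (ν : B →* ℂˣ) (F : G → ℂ)
    (hF : ∀ x g : G, F (x⁻¹ * g * x) = F g) :
    Phi B ν (fun b => F b) = fun g => indFun B (extZ ν) g * F g := by
  rw [Phi_apply]
  funext g
  unfold indFun
  rw [div_mul_eq_mul_div, Finset.sum_mul]
  congr 1
  refine Finset.sum_congr rfl fun x _ => ?_
  by_cases hx : x⁻¹ * g * x ∈ B
  · simp only [if_pos hx, dif_pos hx, hF]
  · simp only [if_neg hx, zero_mul]

theorem Phi_ind (B : Subgroup G) (ν : B →* ℂˣ) (J : Subgroup B) (hJ : J.map B.subtype ≤ B) :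
    Phi B ν (indFun J (fun _ => 1)) =
      indFun (J.map B.subtype) (extZ (ν.comp (Subgroup.inclusion hJ))) := by
  rw [CMB.indFun_restrict, Phi_apply]
  funext g
  refine CMB.indFun_trans B J (extZ ν) _ (fun h => ?_) g
  rw [dif_pos h.2]
  rw [CMB.indFun_class J (fun y : B => extZ ν (y : G))]
  intro x y
  exact CMB.extZ_class ν _ _ x.2 y.2

theorem indFun_extZ_one (Q : Subgroup G) (φ : Q →* ℂˣ) (hφ : ∀ q, φ q = 1) :
    indFun Q (extZ φ) = indFun Q (fun _ => 1) := by
  apply CMB.indFun_congr
  intro g hg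
  rw [show g = ((⟨g, hg⟩ : Q) : G) from rfl, CMB.extZ_apply, hφ]
  simp

end SPROD

open SPROD in
theorem SPROD_thm (h : Stmt_IPULL) : Stmt_SPROD := by
  intro G _ _ P hP f hf Q
  -- the product map
  let M : (G → ℂ) →ₗ[ℤ] (G → ℂ) :=
    { toFun := fun f g => f g * indFun Q (fun _ => 1) g
      map_add' := by
        intro a b
        funext g
        simp [add_mul]
      map_smul' := by
        intro n a
        funext g
        simp [mul_assoc] }
  have hM : CMB.GS P ≤ (CMB.GS P).comap M := by
    refine Submodule.span_le.2 ?_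
    rintro _ ⟨⟨⟨B, ν⟩, hB⟩, rfl⟩
    show (fun g => indFun B (extZ ν) g * indFun Q (fun _ => 1) g) ∈ CMB.GS P
    rw [← Phi_class B ν (indFun Q (fun _ => 1)) (fun x g => indFun_conj Q _ x g)]
    have h1 := h B G B.subtype Q 1
    rw [indFun_extZ_one Q 1 (fun _ => rfl)] at h1
    have h2 : Submodule.span ℤ (Set.range fun x : G =>
        indFun (Q.comap (cj B.subtype x))
          (extZ ((1 : Q →* ℂˣ).comp ((cj B.subtype x).subgroupComap Q)))) ≤
        (CMB.GS P).comap (Phi B ν) := by
      refine Submodule.span_le.2 ?_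
      rintro _ ⟨x, rfl⟩
      show Phi B ν (indFun (Q.comap (cj B.subtype x)) _) ∈ CMB.GS P
      have hJ : (Q.comap (cj B.subtype x)).map B.subtype ≤ B := by
        rintro _ ⟨y, _, rfl⟩
        exact y.2
      rw [indFun_extZ_one _ _ (fun _ => rfl), Phi_ind B ν _ hJ]
      exact CMB.mem_GS_of _ _ (hP B _ hJ ν hB)
    exact h2 h1
  exact hM hf

end StarkC
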