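import Pool.Agent.StarkI.SStmts

/-!
# Stark's conjecture, sharper integral reduction: `M χ` is in the span (module SSPAN)
-/

open NumberField IsDedekindDomain
open scoped TensorProduct Classical

namespace StarkC
namespace SSPAN

open CMB

section grp

variable {G : Type} [Group G] [Fintype G]

omit [Fintype G] in
/-- Transport of a linear character of a subgroup of a subgroup. -/
theorem extZ_map (H : Subgroup G) (J : Subgroup H) (ψ : J →* ℂˣ) :
    ∃ ψ' : J.map H.subtype →* ℂˣ, ∀ y : H, extZ ψ' (y : G) = extZ ψ y := by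
  let e := J.equivMapOfInjective H.subtype H.subtype_injective
  refine ⟨ψ.comp e.symm.toMonoidHom, fun y => ?_⟩
  unfold extZ
  by_cases hy : y ∈ J
  · have hy' : (y : G) ∈ J.map H.subtype := ⟨y, hy, rfl⟩
    rw [dif_pos hy', dif_pos hy]
    have h1 : (⟨(y : G), hy'⟩ : J.map H.subtype) = e ⟨y, hy⟩ := Subtype.ext rfl
    show ((ψ (e.symm ⟨(y : G), hy'⟩) : ℂˣ) : ℂ) = _
    rw [h1, MulEquiv.symm_apply_apply]
  · rw [dif_neg, dif_neg hy]
    rintro ⟨z, hz, hz2⟩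
    have : z = y := Subtype.ext hz2
    exact hy (this ▸ hz)

theorem GS_mono {P Q : ∀ H : Subgroup G, (H →* ℂˣ) → Prop}
    (h : ∀ H ψ, P H ψ → Q H ψ) : GS P ≤ GS Q := by
  apply Submodule.span_le.2
  rintro _ ⟨⟨⟨H, ψ⟩, hP⟩, rfl⟩
  exact mem_GS_of H ψ (h _ _ hP)

theorem indFun_one (H : Subgroup G) : indFun H (extZ (1 : H →* ℂˣ)) = indFun H (fun _ => 1) := by
  apply indFun_congr
  intro g hg
  have := extZ_apply (1 : H →* ℂˣ) ⟨g, hg⟩
  rw [show ((⟨g, hg⟩ : H) : G) = g from rfl] at this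
  rw [this]
  simp

/-- All monomial combinations. -/
abbrev MC (G : Type) [Group G] [Fintype G] : Submodule ℤ (G → ℂ) :=
  GS (G := G) fun _ _ => True

theorem mc_of_comb {f : G → ℂ} (h : IsMonComb f) : f ∈ MC G := by
  obtain ⟨m, H, ψ, n, h⟩ := h
  have e : f = ∑ i, n i • indFun (H i) (extZ (ψ i)) := by
    funext g
    rw [h g, Finset.sum_apply]
    refine Finset.sum_congr rfl fun i _ => ?_
    rw [Pi.smul_apply, zsmul_eq_mul]
  rw [e]
  exact Submodule.sum_mem _ fun i _ => Submodule.smul_mem _ _ (mem_GS_of _ _ trivial)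

theorem comb_of_mc {f : G → ℂ} (h : f ∈ MC G) : IsMonComb f := by
  obtain ⟨m, H, ψ, n, -, h⟩ := of_mem_GS h
  exact ⟨m, H, ψ, n, h⟩

theorem indFun_conj (H : Subgroup G) (f : G → ℂ) (x g : G) :
    indFun H f (x⁻¹ * g * x) = indFun H f g := by
  unfold indFun
  congr 1
  refine Fintype.sum_equiv (Equiv.mulLeft x) _ _ fun y => ?_
  have e : y⁻¹ * (x⁻¹ * g * x) * y = (x * y)⁻¹ * g * (x * y) := by
    simp [mul_assoc]
  simp only [Equiv.coe_mulLeft, e]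

theorem class_of_mc {f : G → ℂ} (h : f ∈ MC G) (x g : G) : f (x⁻¹ * g * x) = f g := by
  obtain ⟨m, H, ψ, n, -, h⟩ := of_mem_GS h
  rw [h, h]
  exact Finset.sum_congr rfl fun i _ => by rw [indFun_conj]

/-- Induction of combinations from a subgroup. -/
theorem ind_stage (H : Subgroup G) {P : ∀ J : Subgroup G, (J →* ℂˣ) → Prop}
    (hP : ∀ (J : Subgroup G) (ψ : J →* ℂˣ), J ≤ H → P J ψ) (f : G → ℂ)
    (hf : (fun h : H => f h) ∈ MC H) : indFun H f ∈ GS P := by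
  obtain ⟨m, J, ψ, n, -, h⟩ := of_mem_GS hf
  choose ψ' hψ' using fun i => extZ_map H (J i) (ψ i)
  have e : indFun H f = ∑ i, n i • indFun ((J i).map H.subtype) (extZ (ψ' i)) := by
    funext g
    let F : Fin m → G → ℂ := fun i x =>
      if hx : x ∈ H then indFun (J i) (extZ (ψ i)) ⟨x, hx⟩ else 0
    have hF : ∀ i (y : H), F i (y : G) = indFun (J i) (fun y : H => extZ (ψ' i) (y : G)) y := by
      intro i y
      have h1 : (fun y : H => extZ (ψ' i) (y : G)) = extZ (ψ i) := funext (hψ' i)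
      rw [h1]
      show (if hx : (y : G) ∈ H then indFun (J i) (extZ (ψ i)) ⟨(y : G), hx⟩ else 0) = _
      rw [dif_pos y.2]
    have h1 : indFun H f = indFun H (fun x => ∑ i, (n i : ℂ) * F i x) := by
      apply indFun_congr
      intro x hx
      have h2 := h ⟨x, hx⟩
      have h3 : f x = f ((⟨x, hx⟩ : H) : G) := rfl
      rw [h3, h2]
      refine Finset.sum_congr rfl fun i _ => ?_
      show _ = (n i : ℂ) * (if hx : x ∈ H then indFun (J i) (extZ (ψ i)) ⟨x, hx⟩ else 0)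
      rw [dif_pos hx]
    rw [h1, indFun_sum, Finset.sum_apply]
    refine Finset.sum_congr rfl fun i _ => ?_
    rw [Pi.smul_apply, zsmul_eq_mul, indFun_trans H (J i) (extZ (ψ' i)) (F i) (hF i)]
  rw [e]
  refine Submodule.sum_mem _ fun i _ => Submodule.smul_mem _ _ ?_
  exact mem_GS_of _ _ (hP _ _ (Subgroup.map_subtype_le _))

/-- Pull back of monomial combinations. -/
theorem pull_mem (hPULL : Stmt_IPULL) {H : Type} [Group H] [Fintype H] (r : H →* G) {f : G → ℂ}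
    (hf : f ∈ MC G) : (fun h => f (r h)) ∈ MC H := by
  obtain ⟨m, J, ψ, n, -, h⟩ := of_mem_GS hf
  have e : (fun h => f (r h)) = ∑ i, n i • fun h : H => indFun (J i) (extZ (ψ i)) (r h) := by
    funext g
    rw [h (r g), Finset.sum_apply]
    refine Finset.sum_congr rfl fun i _ => ?_
    rw [Pi.smul_apply, zsmul_eq_mul]
  rw [e]
  refine Submodule.sum_mem _ fun i _ => Submodule.smul_mem _ _ ?_
  have h1 := hPULL H G r (J i) (ψ i)
  refine Submodule.span_le.2 ?_ h1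
  rintro _ ⟨x, rfl⟩
  exact mem_GS_of _ _ trivial

/-- The product with a permutation character. -/
theorem mul_ind_mem (hPULL : Stmt_IPULL) (Q : Subgroup G)
    {P : ∀ J : Subgroup G, (J →* ℂˣ) → Prop}
    (hP : ∀ (J : Subgroup G) (ψ : J →* ℂˣ), J ≤ Q → P J ψ) {f : G → ℂ} (hf : f ∈ MC G) :
    (fun g => f g * indFun Q (fun _ => 1) g) ∈ GS P := by
  have e : (fun g => f g * indFun Q (fun _ => 1) g) = indFun Q f := by
    funext g
    rw [indFun_class Q f (class_of_mc hf)]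
  rw [e]
  exact ind_stage Q hP f (pull_mem hPULL Q.subtype hf)

/-- The product with the pull back of a permutation character. -/
theorem mul_pull_mem (hPULL : Stmt_IPULL) (hPROD : Stmt_SPROD) {D : Type} [Group D] [Fintype D]
    (r : D →* G) (P : ∀ B : Subgroup D, (B →* ℂˣ) → Prop)
    (hP : ∀ (B J : Subgroup D) (hJ : J ≤ B) (ν : B →* ℂˣ), P B ν →
      P J (ν.comp (Subgroup.inclusion hJ))) {f : D → ℂ} (hf : f ∈ GS P) (Q : Subgroup G) :
    (fun d => f d * indFun Q (fun _ => 1) (r d)) ∈ GS P := by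
  have h1 := hPULL D G r Q 1
  rw [indFun_one] at h1
  have h2 : ∀ u ∈ Submodule.span ℤ (Set.range fun x : G =>
      indFun (Q.comap (cj r x)) (extZ ((1 : Q →* ℂˣ).comp ((cj r x).subgroupComap Q)))),
      (fun d => f d * u d) ∈ GS P := by
    intro u hu
    induction hu using Submodule.span_induction with
    | mem u hu =>
      obtain ⟨x, rfl⟩ := hu
      have e : (1 : Q →* ℂˣ).comp ((cj r x).subgroupComap Q) = 1 := by
        ext d; simp
      simp only [e, indFun_one]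
      exact hPROD D P hP f hf _
    | zero =>
      have e : (fun d => f d * (0 : D → ℂ) d) = 0 := by funext d; simp
      rw [e]; exact Submodule.zero_mem _
    | add u v _ _ hu hv =>
      have e : (fun d => f d * (u + v) d) = (fun d => f d * u d) + fun d => f d * v d := by
        funext d; simp [mul_add]
      rw [e]; exact Submodule.add_mem _ hu hv
    | smul c u _ hu =>
      have e : (fun d => f d * (c • u) d) = c • fun d => f d * u d := by
        funext d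
        rw [Pi.smul_apply, Pi.smul_apply, zsmul_eq_mul, zsmul_eq_mul]
        ring
      rw [e]; exact Submodule.smul_mem _ _ hu
  exact h2 _ h1

/-- Inflation. -/
theorem infl_mem {G' : Type} [Group G'] [Fintype G'] (r : G' →* G) (hr : Function.Surjective r)
    {P : ∀ H : Subgroup G, (H →* ℂˣ) → Prop} {P' : ∀ H : Subgroup G', (H →* ℂˣ) → Prop}
    (h : ∀ (H : Subgroup G) (ψ : H →* ℂˣ), P H ψ → P' (H.comap r) (ψ.comp (r.subgroupComap H)))
    {f : G → ℂ} (hf : f ∈ GS P) : (fun g => f (r g)) ∈ GS P' := by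
  obtain ⟨m, H, ψ, n, hP, hf⟩ := of_mem_GS hf
  have e : (fun g => f (r g)) =
      ∑ i, n i • indFun ((H i).comap r) (extZ ((ψ i).comp (r.subgroupComap (H i)))) := by
    funext g
    rw [hf (r g), Finset.sum_apply]
    refine Finset.sum_congr rfl fun i _ => ?_
    rw [Pi.smul_apply, zsmul_eq_mul, indFun_infl r hr]
    rfl
  rw [e]
  exact Submodule.sum_mem _ fun i _ => Submodule.smul_mem _ _ (mem_GS_of _ _ (h _ _ (hP i)))

/-- A function times a natural number. -/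
theorem nat_mul_mem {P : ∀ H : Subgroup G, (H →* ℂˣ) → Prop} {f : G → ℂ} (hf : f ∈ GS P) (k : ℕ) :
    (fun g => (k : ℂ) * f g) ∈ GS P := by
  have e : (fun g => (k : ℂ) * f g) = (k : ℤ) • f := by
    funext g
    rw [Pi.smul_apply, zsmul_eq_mul]
    simp
  rw [e]
  exact Submodule.smul_mem _ _ hf

/-- Splitting of a combination into two parts. -/
theorem split (hSP : Stmt_SP) (hPULL : Stmt_IPULL) (hPROD : Stmt_SPROD) (p : ℕ) (hp : p.Prime)
    {f : G → ℂ} (hf : f ∈ MC G) :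
    ∃ (M : ℕ) (A B : G → ℂ), 0 < M ∧ Nat.Coprime p M ∧ (∀ g, (M : ℂ) * f g = A g + B g) ∧
      (∀ P : ∀ J : Subgroup G, (J →* ℂˣ) → Prop,
        (∀ (J : Subgroup G) (ψ : J →* ℂˣ), (∀ g ∈ J, PElt p g) → P J ψ) → A ∈ GS P) ∧
      B ∈ MC G ∧ (∀ g, PElt p g → B g = 0) ∧ (∀ g, f g = 0 → B g = 0) ∧
      ∀ (D : Type) [Group D] [Fintype D] (r : D →* G) (P : ∀ B : Subgroup D, (B →* ℂˣ) → Prop),
        (∀ (B J : Subgroup D) (hJ : J ≤ B) (ν : B →* ℂˣ), P B ν →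
          P J (ν.comp (Subgroup.inclusion hJ))) →
        (fun d => f (r d)) ∈ GS P → (fun d => B (r d)) ∈ GS P := by
  obtain ⟨M, m, Q, n, hM, hcop, hQ, h⟩ := hSP p hp G
  have hA : ∀ P : ∀ J : Subgroup G, (J →* ℂˣ) → Prop,
      (∀ (J : Subgroup G) (ψ : J →* ℂˣ), (∀ g ∈ J, PElt p g) → P J ψ) →
      (fun g => f g * (if PElt p g then (M : ℂ) else 0)) ∈ GS P := by
    intro P hP
    have e : (fun g => f g * (if PElt p g then (M : ℂ) else 0)) =
        ∑ i, n i • fun g => f g * indFun (Q i) (fun _ => 1) g := by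
      funext g
      rw [h g, Finset.sum_apply, Finset.mul_sum]
      refine Finset.sum_congr rfl fun i _ => ?_
      rw [Pi.smul_apply, zsmul_eq_mul]
      ring
    rw [e]
    refine Submodule.sum_mem _ fun i _ => Submodule.smul_mem _ _ ?_
    exact mul_ind_mem hPULL (Q i) (fun J ψ hJ => hP J ψ fun g hg => hQ i g (hJ hg)) hf
  refine ⟨M, fun g => f g * (if PElt p g then (M : ℂ) else 0),
    fun g => (M : ℂ) * f g - f g * (if PElt p g then (M : ℂ) else 0), hM, hcop, ?_, hA, ?_, ?_, ?_,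
    ?_⟩
  · intro g; ring
  · exact Submodule.sub_mem _ (nat_mul_mem hf M) (hA _ fun _ _ _ => trivial)
  · intro g hg
    simp only [hg, if_true]
    ring
  · intro g hg
    simp only [hg]
    ring
  · intro D _ _ r P hP hfr
    have e : (fun d => (M : ℂ) * f (r d) - f (r d) * (if PElt p (r d) then (M : ℂ) else 0)) =
        (fun d => (M : ℂ) * f (r d)) -
          ∑ i, n i • fun d => f (r d) * indFun (Q i) (fun _ => 1) (r d) := by
      funext d
      rw [h (r d), Pi.sub_apply, Finset.sum_apply, Finset.mul_sum]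
      congr 1
      refine Finset.sum_congr rfl fun i _ => ?_
      rw [Pi.smul_apply, zsmul_eq_mul]
      ring
    rw [e]
    refine Submodule.sub_mem _ (nat_mul_mem hfr M) ?_
    refine Submodule.sum_mem _ fun i _ => Submodule.smul_mem _ _ ?_
    exact mul_pull_mem hPULL hPROD r P hP hfr (Q i)

end grp

section types

/-- Type 1 for groups of elements of `p`-power order. -/
theorem ty1_of_p (p : ℕ) (hp : p.Prime) (E : Type) [Field E] {K N : Type} [Field K] [Field N]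
    [Algebra K N] [Algebra E N] [Finite (N ≃ₐ[K] N)] (H : Subgroup (N ≃ₐ[K] N)) (ψ : H →* ℂˣ)
    (h : ∀ g ∈ H, PElt p g) : Ty1S p E H ψ := by
  haveI : Fact p.Prime := ⟨hp⟩
  have h1 : IsPGroup p H := by
    intro g
    obtain ⟨k, hk⟩ := h g g.2
    exact ⟨k, Subtype.ext (by rw [Subgroup.coe_pow, hk]; rfl)⟩
  obtain ⟨a, ha⟩ := IsPGroup.iff_card.1 h1
  refine ⟨⟨a, ?_⟩, ?_⟩
  · refine MonoidHom.ext fun x => ?_
    rw [MonoidHom.pow_apply, MonoidHom.one_apply, ← map_pow, ← ha, pow_card_eq_one', map_one]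
  · intro g hg
    obtain ⟨k, hk⟩ := h g hg
    exact ⟨k, fun x => by rw [hk]; rfl⟩

theorem comp_pow_eq {A B : Type} [Group A] [Group B] (r : A →* B) (ψ : B →* ℂˣ) {n : ℕ}
    (h : ψ ^ n = 1) : (ψ.comp r) ^ n = 1 := by
  refine MonoidHom.ext fun x => ?_
  have := DFunLike.congr_fun h (r x)
  rw [MonoidHom.pow_apply, MonoidHom.one_apply] at this ⊢
  exact this

variable {E N₀ N : Type} [Field E] [Field N₀] [NumberField N₀] [Field N] [NumberField N]
  [Algebra E N₀] [Algebra N₀ N] [Algebra E N] [IsScalarTower E N₀ N] [IsGalois ℚ N₀]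
  [IsGalois ℚ N]

/-- Type 1 is inherited by inflation. -/
theorem ty1_infl (p : ℕ) (H : Subgroup (N₀ ≃ₐ[ℚ] N₀)) (ψ : H →* ℂˣ) (h : Ty1S p E H ψ) :
    Ty1S p E (H.comap (AlgEquiv.restrictNormalHom N₀ : (N ≃ₐ[ℚ] N) →* (N₀ ≃ₐ[ℚ] N₀)))
      (ψ.comp ((AlgEquiv.restrictNormalHom N₀ : (N ≃ₐ[ℚ] N) →* (N₀ ≃ₐ[ℚ] N₀)).subgroupComap
        H)) := by
  obtain ⟨⟨a, ha⟩, h2⟩ := h
  refine ⟨⟨a, comp_pow_eq _ ψ ha⟩, ?_⟩
  intro g hg
  obtain ⟨k, hk⟩ := h2 _ hg
  refine ⟨k, fun x => ?_⟩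
  have h3 := AlgEquiv.restrictNormal_commutes (g ^ (p ^ k)) N₀ (algebraMap E N₀ x)
  have h4 : (g ^ (p ^ k)).restrictNormal N₀ (algebraMap E N₀ x) = algebraMap E N₀ x := by
    have h5 := hk x
    rw [← map_pow] at h5
    exact h5
  rw [h4, ← IsScalarTower.algebraMap_apply E N₀ N] at h3
  exact h3.symm

/-- Type 3 is inherited by inflation. -/
theorem ty3_infl (H : Subgroup (N₀ ≃ₐ[ℚ] N₀)) (ψ : H →* ℂˣ) (h : Ty3 H ψ) :
    Ty3 (H.comap (AlgEquiv.restrictNormalHom N₀ : (N ≃ₐ[ℚ] N) →* (N₀ ≃ₐ[ℚ] N₀)))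
      (ψ.comp ((AlgEquiv.restrictNormalHom N₀ : (N ≃ₐ[ℚ] N) →* (N₀ ≃ₐ[ℚ] N₀)).subgroupComap
        H)) := by
  intro c hc
  exact h _ (CMB.isCC_restrict hc)

omit [NumberField N] [NumberField N₀] [IsGalois ℚ N₀] [IsGalois ℚ N] in
theorem ty1_mono (p : ℕ) {K : Type} [Field K] [Algebra K N] (H : Subgroup (N ≃ₐ[K] N))
    (ψ : H →* ℂˣ) (h : Ty1S p N₀ H ψ) : Ty1S p E H ψ := by
  obtain ⟨h1, h2⟩ := h
  refine ⟨h1, fun g hg => ?_⟩
  obtain ⟨k, hk⟩ := h2 g hg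
  refine ⟨k, fun x => ?_⟩
  have := hk (algebraMap E N₀ x)
  rwa [← IsScalarTower.algebraMap_apply E N₀ N] at this

theorem res_res [NumberField E] [IsGalois ℚ E] (g : N ≃ₐ[ℚ] N) :
    AlgEquiv.restrictNormalHom E (AlgEquiv.restrictNormalHom N₀ g : N₀ ≃ₐ[ℚ] N₀) =
      (AlgEquiv.restrictNormalHom E g : E ≃ₐ[ℚ] E) := by
  ext x
  apply (algebraMap E N).injective
  have h1 := AlgEquiv.restrictNormal_commutes g E x
  have h2 := AlgEquiv.restrictNormal_commutes g N₀ (algebraMap E N₀ x)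
  have h3 := AlgEquiv.restrictNormal_commutes (g.restrictNormal N₀) E x
  show algebraMap E N ((g.restrictNormal N₀).restrictNormal E x) =
    algebraMap E N (g.restrictNormal E x)
  rw [h1, IsScalarTower.algebraMap_apply E N₀ N, h3, h2, ← IsScalarTower.algebraMap_apply E N₀ N]

end types

end SSPAN

open SSPAN CMB

theorem SSPAN_thm (h1 : StarkC.Stmt_SP) (h2 : StarkC.Stmt_SPROD) (h3 : StarkC.Stmt_IPULL)
    (h4 : StarkC.Stmt_SSTEP) (h5 : StarkC.Stmt_SLOC) (h6 : StarkC.Stmt_SCOMP) :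
    StarkC.Stmt_SSPAN := by
  intro p hp T E _ _ _ L _ _ _ f hf
  -- level N₀
  obtain ⟨N₀, _, _, _, _, _, hi₀⟩ := h6 E L
  have hf' : (fun g : N₀ ≃ₐ[ℚ] N₀ => f (AlgEquiv.restrictNormalHom L g)) ∈ MC (N₀ ≃ₐ[ℚ] N₀) :=
    infl_mem (AlgEquiv.restrictNormalHom L : (N₀ ≃ₐ[ℚ] N₀) →* (L ≃ₐ[ℚ] L))
      (AlgEquiv.restrictNormalHom_surjective N₀) (fun _ _ _ => trivial) (mc_of_comb hf)
  obtain ⟨M₀, A₀, f₂, hM₀, hc₀, e₀, hA₀, hf₂, hf₂0, -, -⟩ := split h1 h3 h2 p hp hf'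
  -- level N₁
  obtain ⟨N₁, _, _, _, _, T₀, M₁, f₁, hT, hM₁, hc₁, hi₁, hf₁, hV, hB₁⟩ :=
    h4 p hp T N₀ f₂ (comb_of_mc hf₂) hf₂0
  obtain ⟨M₂, A₂, f₃, hM₂, hc₂, e₂, hA₂, hf₃, hf₃0, hf₃1, hf₃2⟩ :=
    split h1 h3 h2 p hp (mc_of_comb hf₁)
  have hV₃ : ∀ W, VAt T₀ f₃ W := by
    intro W
    obtain ⟨hV1, hV2⟩ := hV W
    refine ⟨fun hW g hg => hf₃1 g (hV1 hW g hg), fun hW => ?_⟩
    refine hf₃2 _ (decGrp ℚ W).subtype _ ?_ (hV2 hW)
    intro B J hJ ν hν b hb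
    exact hν (Subgroup.inclusion hJ b) hb
  -- level N
  obtain ⟨N, iF, iNF, iA, iA₁, iT, iG, M₃, hM₃, hc₃, hC⟩ :=
    h5 p hp T T₀ hT ℚ N₁ f₃ hi₁ (comb_of_mc hf₃) hf₃0 hV₃
  have hiA : iA = DivisionRing.toRatAlgebra := Subsingleton.elim _ _
  subst hiA
  letI : Algebra E N₁ := ((algebraMap N₀ N₁).comp (algebraMap E N₀)).toAlgebra
  haveI : IsScalarTower E N₀ N₁ := IsScalarTower.of_algebraMap_eq fun _ => rfl
  letI : Algebra L N₁ := ((algebraMap N₀ N₁).comp (algebraMap L N₀)).toAlgebra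
  haveI : IsScalarTower L N₀ N₁ := IsScalarTower.of_algebraMap_eq fun _ => rfl
  letI : Algebra N₀ N := ((algebraMap N₁ N).comp (algebraMap N₀ N₁)).toAlgebra
  haveI : IsScalarTower N₀ N₁ N := IsScalarTower.of_algebraMap_eq fun _ => rfl
  letI : Algebra E N := ((algebraMap N₁ N).comp (algebraMap E N₁)).toAlgebra
  haveI : IsScalarTower E N₁ N := IsScalarTower.of_algebraMap_eq fun _ => rfl
  haveI : IsScalarTower E N₀ N := IsScalarTower.of_algebraMap_eq fun _ => rfl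
  letI : Algebra L N := ((algebraMap N₁ N).comp (algebraMap L N₁)).toAlgebra
  haveI : IsScalarTower L N₀ N := IsScalarTower.of_algebraMap_eq fun _ => rfl
  refine ⟨N, iF, iNF, inferInstance, inferInstance, iG, M₃ * M₂ * M₁ * M₀, ?_, ?_, ?_⟩
  · positivity
  · exact ((hc₃.mul_right hc₂).mul_right hc₁).mul_right hc₀
  set P : ∀ H : Subgroup (N ≃ₐ[ℚ] N), (H →* ℂˣ) → Prop := fun H ψ =>
    (∃ q : ℕ, q.Prime ∧ Ty1S q E H ψ) ∨ Ty2 T H ψ ∨ Ty3 H ψ with hPdef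
  have k1 : (fun g : N ≃ₐ[ℚ] N => A₀ (AlgEquiv.restrictNormalHom N₀ g)) ∈ GS P := by
    refine infl_mem (P := fun H ψ => Ty1S p E H ψ)
      (AlgEquiv.restrictNormalHom N₀ : (N ≃ₐ[ℚ] N) →* (N₀ ≃ₐ[ℚ] N₀))
      (AlgEquiv.restrictNormalHom_surjective N) ?_ (hA₀ _ fun J ψ hJ => ty1_of_p p hp E J ψ hJ)
    intro H ψ h
    exact Or.inl ⟨p, hp, ty1_infl p H ψ h⟩
  have k2 : (fun g : N ≃ₐ[ℚ] N => A₂ (AlgEquiv.restrictNormalHom N₁ g)) ∈ GS P := by
    refine infl_mem (P := fun H ψ => Ty1S p E H ψ)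
      (AlgEquiv.restrictNormalHom N₁ : (N ≃ₐ[ℚ] N) →* (N₁ ≃ₐ[ℚ] N₁))
      (AlgEquiv.restrictNormalHom_surjective N) ?_ (hA₂ _ fun J ψ hJ => ty1_of_p p hp E J ψ hJ)
    intro H ψ h
    exact Or.inl ⟨p, hp, ty1_infl p H ψ h⟩
  have k3 : (fun g : N ≃ₐ[ℚ] N => (M₁ : ℂ) * f₂ (AlgEquiv.restrictNormalHom N₀
      (AlgEquiv.restrictNormalHom N₁ g : N₁ ≃ₐ[ℚ] N₁)) -
        f₁ (AlgEquiv.restrictNormalHom N₁ g)) ∈ GS P := by
    refine infl_mem (P := fun H ψ => Ty3 H ψ)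
      (AlgEquiv.restrictNormalHom N₁ : (N ≃ₐ[ℚ] N) →* (N₁ ≃ₐ[ℚ] N₁))
      (AlgEquiv.restrictNormalHom_surjective N) ?_ hB₁
    intro H ψ h
    exact Or.inr (Or.inr (ty3_infl H ψ h))
  have k4 : (fun g : N ≃ₐ[ℚ] N => (M₃ : ℂ) * f₃ (AlgEquiv.restrictNormalHom N₁ g)) ∈ GS P := by
    refine GS_mono ?_ hC
    rintro H ψ (h | h)
    · exact Or.inl ⟨2, Nat.prime_two, ty1_mono (N₀ := N₁) 2 H ψ h⟩
    · exact Or.inr (Or.inl h)
  have key : (fun g : N ≃ₐ[ℚ] N => ((M₃ * M₂ * M₁ * M₀ : ℕ) : ℂ) *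
      f (AlgEquiv.restrictNormalHom L g)) =
      (fun g : N ≃ₐ[ℚ] N => ((M₃ * M₂ * M₁ : ℕ) : ℂ) * A₀ (AlgEquiv.restrictNormalHom N₀ g)) +
      (fun g : N ≃ₐ[ℚ] N => ((M₃ * M₂ : ℕ) : ℂ) *
        ((M₁ : ℂ) * f₂ (AlgEquiv.restrictNormalHom N₀
          (AlgEquiv.restrictNormalHom N₁ g : N₁ ≃ₐ[ℚ] N₁)) -
            f₁ (AlgEquiv.restrictNormalHom N₁ g))) +
      (fun g : N ≃ₐ[ℚ] N => (M₃ : ℂ) * A₂ (AlgEquiv.restrictNormalHom N₁ g)) +
      (fun g : N ≃ₐ[ℚ] N => (M₃ : ℂ) * f₃ (AlgEquiv.restrictNormalHom N₁ g)) := by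
    funext g
    simp only [Pi.add_apply]
    have r1 : AlgEquiv.restrictNormalHom N₀ (AlgEquiv.restrictNormalHom N₁ g : N₁ ≃ₐ[ℚ] N₁) =
        (AlgEquiv.restrictNormalHom N₀ g : N₀ ≃ₐ[ℚ] N₀) := res_res g
    have r2 : AlgEquiv.restrictNormalHom L (AlgEquiv.restrictNormalHom N₀ g : N₀ ≃ₐ[ℚ] N₀) =
        (AlgEquiv.restrictNormalHom L g : L ≃ₐ[ℚ] L) := res_res g
    have r3 := e₀ (AlgEquiv.restrictNormalHom N₀ g)
    have r4 := e₂ (AlgEquiv.restrictNormalHom N₁ g)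
    simp only [r2] at r3
    rw [r1]
    push_cast
    linear_combination ((M₃ : ℂ) * M₂ * M₁) * r3 + (M₃ : ℂ) * r4
  rw [key]
  exact Submodule.add_mem _ (Submodule.add_mem _ (Submodule.add_mem _ (nat_mul_mem k1 _)
    (nat_mul_mem k3 _)) (nat_mul_mem k2 _)) k4

end StarkC
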