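import Pool.Agent.StarkI.Stmts
import Pool.Agent.Stark.RFKS

/-!
# ITOR: decomposition groups have no torsion, finite level
-/

open NumberField IsDedekindDomain
open scoped TensorProduct Classical IntermediateField

namespace StarkC

namespace ITOR

/-- a number field with a square root of `-1` is totally complex -/
theorem totallyComplex {E : Type} [Field E] [NumberField E] (j : E) (hj : j ^ 2 = -1) :
    IsTotallyComplex E := by
  refine ⟨fun v => ?_⟩
  rw [← InfinitePlace.not_isReal_iff_isComplex]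
  rintro ⟨φ, hφ, -⟩
  have h1 : (starRingEnd ℂ) (φ j) = φ j := by
    have := DFunLike.congr_fun (ComplexEmbedding.isReal_iff.1 hφ) j
    exact this
  have h2 : (φ j) ^ 2 = -1 := by rw [← map_pow, hj, map_neg, map_one]
  have h3 : (φ j).im = 0 := Complex.conj_eq_iff_im.1 h1
  have h4 := congrArg Complex.re h2
  rw [sq, Complex.mul_re, h3] at h4
  simp only [mul_zero, sub_zero, Complex.neg_re, Complex.one_re] at h4
  nlinarith [mul_self_nonneg (φ j).re]

theorem pow_apply_eq {E K N : Type} [Field E] [Field K] [Field N] [Algebra E N] [Algebra K N]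
    (σ : N ≃ₐ[K] N) (τ : N ≃ₐ[E] N) (h : ∀ x, τ x = σ x) (n : ℕ) (x : N) :
    (τ ^ n) x = (σ ^ n) x := by
  induction n generalizing x with
  | zero => rfl
  | succ n ih =>
    rw [pow_succ, pow_succ, AlgEquiv.mul_apply, AlgEquiv.mul_apply, h, ih]

/-- the field generated by a square root of `-1` -/
theorem exists_base (K L : Type) [Field K] [NumberField K] [Field L] [NumberField L]
    [Algebra K L] [IsGalois K L] (j : L) (hj : j ^ 2 = -1) :
    ∃ (E : Type) (_ : Field E) (_ : NumberField E) (_ : Algebra K E) (_ : Algebra E L)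
      (_ : IsScalarTower K E L), IsGalois E L ∧ IsTotallyComplex E ∧
      ∀ r : E, algebraMap E L r ∈ K⟮j⟯ := by
  have hEf : FiniteDimensional K K⟮j⟯ := inferInstance
  have hEn : NumberField K⟮j⟯ := NumberField.of_module_finite K K⟮j⟯
  refine ⟨K⟮j⟯, inferInstance, hEn, inferInstance, inferInstance, inferInstance, inferInstance,
    ?_, fun r => r.2⟩
  exact totallyComplex (⟨j, IntermediateField.mem_adjoin_simple_self K j⟩ : K⟮j⟯) (Subtype.ext hj)

end ITOR

theorem ITOR_thm (h1 : Stmt_RTOR) (h2 : Stmt_IINV) : Stmt_ITOR := by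
  intro K L _ _ _ _ _ _ T e he
  obtain ⟨F, hF0, hF⟩ := h2 T
  -- the field `L₂`
  let P : Polynomial ℚ := F * (Polynomial.X ^ 2 + 1)
  have hq0 : (Polynomial.X ^ 2 + 1 : Polynomial ℚ) ≠ 0 := by
    intro h
    have := congrArg (Polynomial.eval 0) h
    simp at this
  have hP0 : P ≠ 0 := mul_ne_zero hF0 hq0
  obtain ⟨L₂, _, _, _, _, _, _, hs⟩ := RFKS.split_ext K L (P.map (algebraMap ℚ L))
  have hs' : (P.map (algebraMap ℚ L₂)).Splits := by
    rw [Polynomial.map_map] at hs
    have : (algebraMap L L₂).comp (algebraMap ℚ L) = algebraMap ℚ L₂ := Subsingleton.elim _ _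
    rwa [this] at hs
  have hPm0 : P.map (algebraMap ℚ L₂) ≠ 0 :=
    (Polynomial.map_ne_zero_iff (algebraMap ℚ L₂).injective).2 hP0
  have hFs : (F.map (algebraMap ℚ L₂)).Splits :=
    hs'.of_dvd hPm0 (Polynomial.map_dvd _ (Dvd.intro _ rfl))
  obtain ⟨j, hj⟩ : ∃ j : L₂, j ^ 2 = -1 := by
    have hqs : ((Polynomial.X ^ 2 + 1 : Polynomial ℚ).map (algebraMap ℚ L₂)).Splits :=
      hs'.of_dvd hPm0 (Polynomial.map_dvd _ (Dvd.intro_left _ rfl))
    have hdeg : ((Polynomial.X ^ 2 + 1 : Polynomial ℚ).map (algebraMap ℚ L₂)).degree ≠ 0 := by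
      have e1 : (Polynomial.X ^ 2 + 1 : Polynomial ℚ).map (algebraMap ℚ L₂) =
          Polynomial.X ^ 2 + Polynomial.C 1 := by simp
      rw [e1, Polynomial.degree_X_pow_add_C two_pos]
      norm_num
    obtain ⟨j, hj⟩ := Polynomial.Splits.exists_eval_eq_zero hqs hdeg
    refine ⟨j, ?_⟩
    simp only [Polynomial.map_add, Polynomial.map_pow, Polynomial.map_X, Polynomial.map_one,
      Polynomial.eval_add, Polynomial.eval_pow, Polynomial.eval_X, Polynomial.eval_one] at hj
    linear_combination hj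
  -- the field `E = K(j)`
  obtain ⟨E, _, _, _, _, _, _, hEc, hEj⟩ := ITOR.exists_base K L₂ j hj
  obtain ⟨N₀, _, _, _, _, _, _, hT⟩ := h1 E L₂ hEc e he
  let algKN₀ : Algebra K N₀ := ((algebraMap E N₀).comp (algebraMap K E)).toAlgebra
  have t1 : IsScalarTower K E N₀ := IsScalarTower.of_algebraMap_eq fun _ => rfl
  have t2 : IsScalarTower K L₂ N₀ := IsScalarTower.of_algebraMap_eq fun x => by
    rw [IsScalarTower.algebraMap_apply K E N₀, IsScalarTower.algebraMap_apply E L₂ N₀,
      ← IsScalarTower.algebraMap_apply K E L₂]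
  obtain ⟨N, _, _, _, _, _, _, -⟩ := RFKS.split_ext K N₀ (1 : Polynomial N₀)
  let algL₂N : Algebra L₂ N := ((algebraMap N₀ N).comp (algebraMap L₂ N₀)).toAlgebra
  have t3 : IsScalarTower L₂ N₀ N := IsScalarTower.of_algebraMap_eq fun _ => rfl
  have t4 : IsScalarTower K L₂ N := IsScalarTower.of_algebraMap_eq fun x => by
    rw [IsScalarTower.algebraMap_apply K N₀ N, IsScalarTower.algebraMap_apply L₂ N₀ N,
      IsScalarTower.algebraMap_apply K L₂ N₀]
  let algLN : Algebra L N := ((algebraMap L₂ N).comp (algebraMap L L₂)).toAlgebra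
  have t5 : IsScalarTower L L₂ N := IsScalarTower.of_algebraMap_eq fun _ => rfl
  have t6 : IsScalarTower K L N := IsScalarTower.of_algebraMap_eq fun x => by
    rw [IsScalarTower.algebraMap_apply K L₂ N, IsScalarTower.algebraMap_apply L L₂ N,
      IsScalarTower.algebraMap_apply K L L₂]
  let algEN : Algebra E N := ((algebraMap N₀ N).comp (algebraMap E N₀)).toAlgebra
  have t7 : IsScalarTower E N₀ N := IsScalarTower.of_algebraMap_eq fun _ => rfl
  -- elements which fix `j` and have order dividing `e` are trivial on `L₂`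
  have claim : ∀ σ : N ≃ₐ[K] N, σ (algebraMap L₂ N j) = algebraMap L₂ N j → σ ^ e = 1 →
      ∀ x : L₂, σ (algebraMap L₂ N x) = algebraMap L₂ N x := by
    intro σ hσj hσe
    have hE : ∀ r : E, σ (algebraMap E N r) = algebraMap E N r := by
      intro r
      have e1 : algebraMap E N r = algebraMap L₂ N (algebraMap E L₂ r) := by
        rw [IsScalarTower.algebraMap_apply E N₀ N, IsScalarTower.algebraMap_apply L₂ N₀ N,
          IsScalarTower.algebraMap_apply E L₂ N₀]
      rw [e1]
      have hr : algebraMap E L₂ r ∈ K⟮j⟯ := hEj r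
      generalize algebraMap E L₂ r = y at hr
      induction hr using IntermediateField.adjoin_induction with
      | mem x hx =>
        rw [Set.mem_singleton_iff] at hx
        rw [hx]; exact hσj
      | algebraMap x =>
        rw [← IsScalarTower.algebraMap_apply K L₂ N]
        exact σ.commutes x
      | add x y _ _ hx hy => rw [map_add, map_add, hx, hy]
      | inv x _ hx => rw [map_inv₀, map_inv₀, hx]
      | mul x y _ _ hx hy => rw [map_mul, map_mul, hx, hy]
    let σ' : N ≃ₐ[E] N := AlgEquiv.ofRingEquiv (f := (σ : N ≃+* N)) hE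
    have hσ' : ∀ x, σ' x = σ x := fun _ => rfl
    have hσ'e : σ' ^ e = 1 := by
      ext x
      rw [ITOR.pow_apply_eq σ σ' hσ' e x, hσe]
      rfl
    have h3 := hT (AlgEquiv.restrictNormalHom N₀ σ') (by rw [← map_pow, hσ'e, map_one])
    intro x
    have h4 : algebraMap L₂ N₀ (AlgEquiv.restrictNormalHom L₂
        (AlgEquiv.restrictNormalHom N₀ σ' : N₀ ≃ₐ[E] N₀) x) =
        (AlgEquiv.restrictNormalHom N₀ σ' : N₀ ≃ₐ[E] N₀) (algebraMap L₂ N₀ x) :=
      AlgEquiv.restrictNormal_commutes _ L₂ x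
    have h5 : algebraMap N₀ N ((AlgEquiv.restrictNormalHom N₀ σ' : N₀ ≃ₐ[E] N₀)
        (algebraMap L₂ N₀ x)) = σ' (algebraMap N₀ N (algebraMap L₂ N₀ x)) :=
      AlgEquiv.restrictNormal_commutes σ' N₀ (algebraMap L₂ N₀ x)
    rw [h3] at h4
    rw [← h4] at h5
    exact h5.symm
  have hres : ∀ σ : N ≃ₐ[K] N, (∀ x : L₂, σ (algebraMap L₂ N x) = algebraMap L₂ N x) →
      (AlgEquiv.restrictNormalHom L₂ σ : L₂ ≃ₐ[K] L₂) = 1 := by
    intro σ hσ
    ext x
    apply (algebraMap L₂ N).injective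
    have h4 : algebraMap L₂ N ((AlgEquiv.restrictNormalHom L₂ σ : L₂ ≃ₐ[K] L₂) x) =
        σ (algebraMap L₂ N x) := AlgEquiv.restrictNormal_commutes σ L₂ x
    rw [h4, hσ]
    rfl
  refine ⟨N, inferInstance, inferInstance, inferInstance, algLN, t6, inferInstance, ?_⟩
  intro σ w hw hdec hσe
  have hjN : (σ (algebraMap L₂ N j)) ^ 2 = (algebraMap L₂ N j) ^ 2 := by
    rw [← map_pow, ← map_pow, hj, map_neg, map_one, map_neg, map_one]
  rcases sq_eq_sq_iff_eq_or_eq_neg.1 hjN with hp | hn
  · have h3 := hres σ (claim σ hp hσe)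
    rw [IsScalarTower.AlgEquiv.restrictNormalHom_comp_apply L L₂, h3, map_one]
  · exfalso
    have h3 : (σ * σ) (algebraMap L₂ N j) = algebraMap L₂ N j := by
      rw [AlgEquiv.mul_apply, hn, map_neg, hn, neg_neg]
    have h4 := hres (σ * σ) (claim (σ * σ) h3 (by rw [← pow_two, ← pow_mul, mul_comm, pow_mul,
      hσe, one_pow]))
    rw [map_mul] at h4
    let τ : L₂ ≃ₐ[K] L₂ := AlgEquiv.restrictNormalHom L₂ σ
    have hτ : τ * τ = 1 := h4
    let τq : L₂ ≃ₐ[ℚ] L₂ := τ.restrictScalars ℚ
    have hτq : τq * τq = 1 := by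
      ext x
      exact DFunLike.congr_fun hτ x
    have hdec2 : Dec (w.under (𝓞 L₂)) (τq : L₂ → L₂) := by
      have := RB.dec_restrict (L := L₂) hdec
      exact this
    have hab : Above T (w.under (𝓞 L₂)) := by
      obtain ⟨q, hq, hqp, hqw⟩ := hw
      exact ⟨q, hq, hqp, (RB.natCast_mem_under (L := L₂) w q).2 hqw⟩
    have h5 := hF L₂ hFs τq (w.under (𝓞 L₂)) hab hdec2 hτq j hj
    have h6 : algebraMap L₂ N (τ j) = σ (algebraMap L₂ N j) :=
      AlgEquiv.restrictNormal_commutes σ L₂ j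
    have h7 : τ j = j := h5
    rw [h7, hn] at h6
    have h8 : (algebraMap L₂ N j) = 0 := by
      have h9 : (2 : N) * algebraMap L₂ N j = 0 := by linear_combination h6
      rcases mul_eq_zero.1 h9 with h | h
      · norm_num at h
      · exact h
    have h10 : j = 0 := (algebraMap L₂ N).injective (by rw [h8, map_zero])
    rw [h10] at hj
    norm_num at hj

end StarkC
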