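import Pool.Agent.StarkI.SStmts
import Pool.Agent.Stark.RKEY
import Pool.Agent.Stark.QE
import Pool.Agent.Stark.RFIN

/-!
# Stark's conjecture, sharper integral reduction: the local analysis (module SLOC)
-/

set_option linter.unusedSectionVars false

open NumberField IsDedekindDomain
open scoped TensorProduct Classical

namespace StarkC

namespace SLOC

section grp

theorem cj_apply {H D : Type} [Group H] [Group D] (r : H →* D) (x : D) (h : H) :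
    cj r x h = x⁻¹ * r h * x := by
  simp [cj]

theorem indFun_conj {G : Type} [Group G] [Fintype G] (H : Subgroup G) (F : G → ℂ) (x g : G) :
    indFun H F (x⁻¹ * g * x) = indFun H F g := by
  unfold indFun
  congr 1
  refine Fintype.sum_equiv (Equiv.mulLeft x) _ _ fun y => ?_
  have e : y⁻¹ * (x⁻¹ * g * x) * y = ((Equiv.mulLeft x) y)⁻¹ * g * (Equiv.mulLeft x) y := by
    simp [mul_assoc]
  rw [e]

theorem monComb_conj {G : Type} [Group G] [Fintype G] {f : G → ℂ} (hf : IsMonComb f) (x g : G) :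
    f (x⁻¹ * g * x) = f g := by
  obtain ⟨m, H, ψ, n, h⟩ := hf
  rw [h, h]
  refine Finset.sum_congr rfl fun i _ => ?_
  rw [indFun_conj]

theorem monComb_mem {G : Type} [Group G] [Fintype G] {f : G → ℂ} (hf : IsMonComb f) :
    f ∈ CMB.GS (G := G) (fun _ _ => True) := by
  obtain ⟨m, H, ψ, n, h⟩ := hf
  have e : f = ∑ i, n i • indFun (H i) (extZ (ψ i)) := by
    funext g
    rw [h, Finset.sum_apply]
    refine Finset.sum_congr rfl fun i _ => ?_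
    rw [Pi.smul_apply, zsmul_eq_mul]
  rw [e]
  exact Submodule.sum_mem _ fun i _ => Submodule.smul_mem _ _ (CMB.mem_GS_of _ _ trivial)

theorem mem_monComb {G : Type} [Group G] [Fintype G] {f : G → ℂ}
    {P : ∀ B : Subgroup G, (B →* ℂˣ) → Prop} (hf : f ∈ CMB.GS (G := G) P) : IsMonComb f := by
  obtain ⟨m, H, ψ, n, _, h⟩ := CMB.of_mem_GS hf
  exact ⟨m, H, ψ, n, h⟩

/-- Induction from a subgroup of the spans. -/
theorem ind_mem {G : Type} [Group G] [Fintype G] (H : Subgroup G)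
    (P : ∀ B : Subgroup G, (B →* ℂˣ) → Prop) (P' : ∀ B : Subgroup H, (B →* ℂˣ) → Prop)
    (hP : ∀ (J : Subgroup H) (μ : J →* ℂˣ), P' J μ →
      ∀ μ' : J.map H.subtype →* ℂˣ, (∀ (j : H) (hj : j ∈ J) (hj' : (j : G) ∈ J.map H.subtype),
        μ' ⟨j, hj'⟩ = μ ⟨j, hj⟩) → P (J.map H.subtype) μ')
    (F : G → ℂ) (hF : (fun h : H => F h) ∈ CMB.GS (G := H) P') : indFun H F ∈ CMB.GS P := by
  obtain ⟨m, J, μ, n, hJ, hF⟩ := CMB.of_mem_GS hF
  -- the transported characters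
  let μ' : ∀ i, (J i).map H.subtype →* ℂˣ := fun i =>
    (μ i).comp ((J i).equivMapOfInjective H.subtype H.subtype_injective).symm.toMonoidHom
  have hμ' : ∀ (i : Fin m) (j : H) (hj : j ∈ J i) (hj' : (j : G) ∈ (J i).map H.subtype),
      μ' i ⟨j, hj'⟩ = μ i ⟨j, hj⟩ := by
    intro i j hj hj'
    show μ i (((J i).equivMapOfInjective H.subtype H.subtype_injective).symm ⟨j, hj'⟩) = _
    congr 1
    rw [MulEquiv.symm_apply_eq]
    rfl
  have hext : ∀ (i : Fin m) (h : H), extZ (μ' i) (h : G) = extZ (μ i) h := by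
    intro i h
    unfold extZ
    by_cases hh : h ∈ J i
    · have hh' : (h : G) ∈ (J i).map H.subtype := ⟨h, hh, rfl⟩
      rw [dif_pos hh, dif_pos hh', hμ' i h hh hh']
    · rw [dif_neg hh, dif_neg]
      rintro ⟨z, hz, hz2⟩
      have : z = h := Subtype.ext hz2
      exact hh (this ▸ hz)
  have e1 : ∀ i, ∃ F₀ : G → ℂ, ∀ h : H, F₀ h = indFun (J i) (extZ (μ i)) h := by
    intro i
    refine ⟨fun x => if hx : x ∈ H then indFun (J i) (extZ (μ i)) ⟨x, hx⟩ else 0, ?_⟩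
    intro h
    simp
  choose F₀ hF₀ using e1
  have e2 : ∀ i g, indFun H (F₀ i) g = indFun ((J i).map H.subtype) (extZ (μ' i)) g := by
    intro i g
    refine CMB.indFun_trans H (J i) (extZ (μ' i)) (F₀ i) ?_ g
    intro h
    rw [hF₀]
    congr 1
    funext y
    exact (hext i y).symm
  have e3 : indFun H F = ∑ i, n i • indFun ((J i).map H.subtype) (extZ (μ' i)) := by
    have h3 : indFun H F = indFun H (fun x => ∑ i, (n i : ℂ) * F₀ i x) := by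
      apply CMB.indFun_congr
      intro g hg
      have := hF ⟨g, hg⟩
      simp only at this
      rw [this]
      refine Finset.sum_congr rfl fun i _ => ?_
      rw [← hF₀]
    rw [h3]
    funext g
    rw [CMB.indFun_sum, Finset.sum_apply]
    refine Finset.sum_congr rfl fun i _ => ?_
    rw [Pi.smul_apply, zsmul_eq_mul, e2]
  rw [e3]
  refine Submodule.sum_mem _ fun i _ => Submodule.smul_mem _ _ ?_
  exact CMB.mem_GS_of _ _ (hP (J i) (μ i) (hJ i) (μ' i) (hμ' i))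

/-- Pull back of a span along a homomorphism `r : H → D`, followed by induction to `G`. -/
theorem pull_mem (hPull : Stmt_IPULL) {G D : Type} [Group G] [Fintype G] [Group D] [Fintype D]
    (H : Subgroup G) (r : H →* D) (PD : ∀ B : Subgroup D, (B →* ℂˣ) → Prop)
    (P : ∀ J : Subgroup G, (J →* ℂˣ) → Prop)
    (hPP : ∀ (B : Subgroup D) (ν : B →* ℂˣ), PD B ν → ∀ (x : D) (J : Subgroup G) (μ : J →* ℂˣ),
      J ≤ H → (∀ h : H, (h : G) ∈ J ↔ x⁻¹ * r h * x ∈ B) →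
      (∀ (h : H) (hJ : (h : G) ∈ J) (hb : x⁻¹ * r h * x ∈ B),
        μ ⟨h, hJ⟩ = ν ⟨x⁻¹ * r h * x, hb⟩) → P J μ)
    (F : D → ℂ) (hF : F ∈ CMB.GS PD) (F' : G → ℂ) (hF' : ∀ h : H, F' h = F (r h)) :
    indFun H F' ∈ CMB.GS P := by
  obtain ⟨m, B, ν, n, hB, hFe⟩ := CMB.of_mem_GS hF
  refine ind_mem H P (fun J μ => ∃ (i : Fin m) (x : D), J = (B i).comap (cj r x) ∧
    ∀ (h : H) (hJ : h ∈ J) (hb : x⁻¹ * r h * x ∈ B i), μ ⟨h, hJ⟩ = ν i ⟨x⁻¹ * r h * x, hb⟩)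
    ?_ F' ?_
  · rintro J μ ⟨i, x, rfl, hμ⟩ μ' hμ'
    refine hPP (B i) (ν i) (hB i) x _ μ' (Subgroup.map_subtype_le _) ?_ ?_
    · intro h
      constructor
      · rintro ⟨z, hz, hz2⟩
        have : z = h := Subtype.ext hz2
        subst this
        have hz' : cj r x z ∈ B i := hz
        have e : cj r x z = x⁻¹ * r z * x := cj_apply r x z
        rwa [e] at hz'
      · intro hh
        refine ⟨h, ?_, rfl⟩
        show cj r x h ∈ B i
        have e : cj r x h = x⁻¹ * r h * x := cj_apply r x h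
        rwa [e]
    · intro h hJ hb
      have hJ' : h ∈ (B i).comap (cj r x) := by
        show cj r x h ∈ B i
        have e : cj r x h = x⁻¹ * r h * x := cj_apply r x h
        rwa [e]
      rw [hμ' h hJ' hJ, hμ h hJ' hb]
  · have e1 : (fun h : H => F' h) = ∑ i, n i • (fun h : H => indFun (B i) (extZ (ν i)) (r h)) := by
      funext h
      rw [hF', hFe, Finset.sum_apply]
      refine Finset.sum_congr rfl fun i _ => ?_
      rw [Pi.smul_apply, zsmul_eq_mul]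
    rw [e1]
    refine Submodule.sum_mem _ fun i _ => Submodule.smul_mem _ _ ?_
    have h2 := hPull H D r (B i) (ν i)
    refine (Submodule.span_le.2 ?_) h2
    rintro _ ⟨x, rfl⟩
    refine CMB.mem_GS_of _ _ ⟨i, x, rfl, ?_⟩
    intro h hJ hb
    show ν i ((cj r x).subgroupComap (B i) ⟨h, hJ⟩) = _
    congr 1
    apply Subtype.ext
    exact cj_apply r x h

theorem monComb_comp (hPull : Stmt_IPULL) {H D : Type} [Group H] [Fintype H] [Group D]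
    [Fintype D] (r : H →* D) {f : D → ℂ} (hf : IsMonComb f) : IsMonComb (fun h : H => f (r h)) := by
  obtain ⟨m, B, ν, n, h⟩ := hf
  refine mem_monComb (P := fun _ _ => True) ?_
  have e1 : (fun h : H => f (r h)) = ∑ i, n i • (fun h : H => indFun (B i) (extZ (ν i)) (r h)) := by
    funext x
    rw [h, Finset.sum_apply]
    refine Finset.sum_congr rfl fun i _ => ?_
    rw [Pi.smul_apply, zsmul_eq_mul]
  rw [e1]
  refine Submodule.sum_mem _ fun i _ => Submodule.smul_mem _ _ ?_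
  refine (Submodule.span_le.2 ?_) (hPull H D r (B i) (ν i))
  rintro _ ⟨x, rfl⟩
  exact CMB.mem_GS_of _ _ trivial

end grp

section arith

variable {K N₁ N₂ N : Type} [Field K] [NumberField K] [Field N₁] [NumberField N₁] [Algebra K N₁]
  [IsGalois K N₁] [Field N₂] [NumberField N₂] [Algebra K N₂] [Algebra N₁ N₂]
  [IsScalarTower K N₁ N₂] [IsGalois K N₂] [Field N] [NumberField N] [Algebra K N] [Algebra N₁ N]
  [IsScalarTower K N₁ N] [Algebra N₂ N] [IsScalarTower K N₂ N] [IsScalarTower N₁ N₂ N]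
  [IsGalois K N]

/-- conjugates of inertia elements -/
theorem frob_conj {w : HeightOneSpectrum (𝓞 N₁)} {g x : N₁ ≃ₐ[K] N₁} (hx : Dec w x)
    (hg : FrobPow N₁ w 1 g) : FrobPow N₁ w 1 (x⁻¹ * g * x : N₁ ≃ₐ[K] N₁) := by
  intro a b hb
  -- `a' = x a`
  have h1 := hg (STB.oMap (x : N₁ ≃+* N₁) a) (STB.oMap (x : N₁ ≃+* N₁) b) (by
    show x (b : N₁) = g (x (a : N₁))
    rw [hb]
    show x ((x⁻¹ * g * x : N₁ ≃ₐ[K] N₁) (a : N₁)) = _
    rw [AlgEquiv.mul_apply, AlgEquiv.mul_apply]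
    exact AlgEquiv.apply_symm_apply x _)
  rw [pow_one] at h1 ⊢
  have hx' := RB.dec_inv hx
  refine hx' _ _ ?_ h1
  show ((b - a : 𝓞 N₁) : N₁) = x⁻¹ (x (b : N₁) - x (a : N₁))
  rw [map_sub]
  have e : ∀ y : N₁, x⁻¹ (x y) = y := fun y => AlgEquiv.symm_apply_apply x y
  rw [e, e]
  rfl

theorem above_under (T : Finset ℕ) (w : HeightOneSpectrum (𝓞 N)) :
    Above T (w.under (𝓞 N₁)) ↔ Above T w := by
  unfold Above
  refine exists_congr fun q => and_congr_right fun _ => and_congr_right fun _ => ?_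
  exact RB.natCast_mem_under w q

theorem above_mono {T T' : Finset ℕ} (h : T ⊆ T') {w : HeightOneSpectrum (𝓞 N)}
    (hw : Above T w) : Above T' w := by
  obtain ⟨q, hq, h1⟩ := hw
  exact ⟨q, h hq, h1⟩

theorem restrict_restrict (g : N ≃ₐ[K] N) :
    AlgEquiv.restrictNormalHom N₁ (AlgEquiv.restrictNormalHom N₂ g : N₂ ≃ₐ[K] N₂) =
      (AlgEquiv.restrictNormalHom N₁ g : N₁ ≃ₐ[K] N₁) := by
  rw [← IsScalarTower.AlgEquiv.restrictNormalHom_comp_apply N₁ N₂]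

/-- The types of the pairs without ramification. -/
theorem ty2_of (T : Finset ℕ) (J : Subgroup (N ≃ₐ[K] N)) (μ : J →* ℂˣ)
    (h1 : ∀ c ∈ J, ¬ IsCC c)
    (h2 : ∀ g : J, AlgEquiv.restrictNormalHom N₁ (g : N ≃ₐ[K] N) = (1 : N₁ ≃ₐ[K] N₁) → μ g = 1)
    (h3 : ∀ (w : HeightOneSpectrum (𝓞 N)), ∀ g ∈ J, FrobPow N w 1 (g : N ≃ₐ[K] N) →
      AlgEquiv.restrictNormalHom N₁ g = (1 : N₁ ≃ₐ[K] N₁))
    (h4 : ∀ (w : HeightOneSpectrum (𝓞 N)), Above T w → ∀ g ∈ J, Dec w (g : N ≃ₐ[K] N) →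
      AlgEquiv.restrictNormalHom N₁ g = (1 : N₁ ≃ₐ[K] N₁)) : Ty2 T J μ :=
  ⟨h1, fun w g hg => h2 g (h3 w g g.2 hg), fun w hw g hg => h2 g (h4 w hw g g.2 hg)⟩

/-- Case 1: all of `H` fixes a prime `w₂` of `N₂`. -/
theorem case1 (hPull : Stmt_IPULL) (T T₀ T₁ : Finset ℕ) (hT : T ⊆ T₀) (hT01 : T₀ ⊆ T₁)
    (hRam : ∀ (w : HeightOneSpectrum (𝓞 N₁)) (g : N₁ ≃ₐ[K] N₁), g ≠ 1 → FrobPow N₁ w 1 g →
      Above T₁ w)
    (f : (N₁ ≃ₐ[K] N₁) → ℂ) (hV : ∀ W, VAt T₀ f W)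
    (hFK : ∀ (σ : N₂ ≃ₐ[K] N₂) (P Q : HeightOneSpectrum (𝓞 N₂)), Dec P σ → Dec Q σ →
        Above T₁ P → Above T₁ Q → P.under (𝓞 N₁) ≠ Q.under (𝓞 N₁) →
        AlgEquiv.restrictNormalHom N₁ σ = 1)
    (hFKI : ∀ (c : N₂ ≃ₐ[K] N₂) (P : HeightOneSpectrum (𝓞 N₂)), IsCC c → Above T₁ P → ¬ Dec P c)
    (H : Subgroup (N ≃ₐ[K] N)) (w₂ : HeightOneSpectrum (𝓞 N₂)) (hw₂ : Above T₁ w₂)
    (hdec : ∀ x ∈ H, Dec w₂ (AlgEquiv.restrictNormalHom N₂ x : N₂ ≃ₐ[K] N₂)) :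
    indFun H (fun g => f (AlgEquiv.restrictNormalHom N₁ g)) ∈
      CMB.GS (G := N ≃ₐ[K] N) (fun H ψ => Ty1S 2 N₁ H ψ ∨ Ty2 T H ψ) := by
  set w₁ := w₂.under (𝓞 N₁) with hw₁
  have hdec₁ : ∀ x ∈ H, Dec w₁ (AlgEquiv.restrictNormalHom N₁ x : N₁ ≃ₐ[K] N₁) := by
    intro x hx
    have h1 := RB.dec_restrict (L := N₁) (hdec x hx)
    rwa [restrict_restrict] at h1
  by_cases hT0 : Above T₀ w₁
  · have h0 : indFun H (fun g => f (AlgEquiv.restrictNormalHom N₁ g)) = 0 := by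
      funext g
      apply CMB.indFun_zero
      intro x hx
      exact (hV w₁).1 hT0 _ (hdec₁ x hx)
    rw [h0]
    exact Submodule.zero_mem _
  -- the uniqueness of the bad prime
  have huniq : ∀ (w' : HeightOneSpectrum (𝓞 N)), ∀ h ∈ H, Above T₁ w' → Dec w' h →
      AlgEquiv.restrictNormalHom N₁ h ≠ (1 : N₁ ≃ₐ[K] N₁) → w'.under (𝓞 N₁) = w₁ := by
    intro w' h hh hab hd hne
    by_contra hcon
    apply hne
    rw [← restrict_restrict (N₂ := N₂)]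
    refine hFK _ (w'.under (𝓞 N₂)) w₂ (RB.dec_restrict hd) (hdec h hh)
      ((above_under T₁ w').2 hab) hw₂ ?_
    rwa [RB.under_under]
  let r : H →* decGrp K w₁ := ((AlgEquiv.restrictNormalHom N₁ :
    (N ≃ₐ[K] N) →* (N₁ ≃ₐ[K] N₁)).comp H.subtype).codRestrict (decGrp K w₁)
      (fun h => hdec₁ h h.2)
  have hr : ∀ h : H, ((r h : decGrp K w₁) : N₁ ≃ₐ[K] N₁) =
      AlgEquiv.restrictNormalHom N₁ (h : N ≃ₐ[K] N) := fun h => rfl
  refine pull_mem hPull H r _ _ ?_ _ ((hV w₁).2 hT0) _ (fun h => rfl)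
  intro B ν hν x J μ hJH hJ hμ
  right
  have hμ1 : ∀ (g : J), AlgEquiv.restrictNormalHom N₁ (g : N ≃ₐ[K] N) = (1 : N₁ ≃ₐ[K] N₁) →
      μ g = 1 := by
    intro g hg
    have hb := (hJ ⟨g, hJH g.2⟩).1 g.2
    have h1 := hμ ⟨g, hJH g.2⟩ g.2 hb
    have h2 : r ⟨g, hJH g.2⟩ = 1 := Subtype.ext hg
    have h3 : (⟨x⁻¹ * r ⟨g, hJH g.2⟩ * x, hb⟩ : B) = 1 := by
      apply Subtype.ext
      show x⁻¹ * r ⟨g, hJH g.2⟩ * x = 1
      rw [h2, mul_one, inv_mul_cancel]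
    rw [h3, map_one] at h1
    exact h1
  refine ⟨?_, ?_, ?_⟩
  · intro c hc hcc
    have h1 : IsCC (AlgEquiv.restrictNormalHom N₂ c : N₂ ≃ₐ[K] N₂) := CMB.isCC_restrict hcc
    exact hFKI _ w₂ h1 hw₂ (hdec c (hJH hc))
  · intro w' g hg
    by_cases hne : AlgEquiv.restrictNormalHom N₁ (g : N ≃ₐ[K] N) = (1 : N₁ ≃ₐ[K] N₁)
    · exact hμ1 g hne
    · have h1 := RB.frob_restrict (L := N₁) hg
      have hab : Above T₁ w' := (above_under (N₁ := N₁) T₁ w').1 (hRam _ _ hne h1)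
      have h2 := huniq w' g (hJH g.2) hab (RB.dec_of_frob hg) hne
      rw [h2] at h1
      have hb := (hJ ⟨g, hJH g.2⟩).1 g.2
      have h3 := hμ ⟨g, hJH g.2⟩ g.2 hb
      refine h3.trans (hν _ ?_)
      exact frob_conj x.2 h1
  · intro w' hw' g hg
    by_cases hne : AlgEquiv.restrictNormalHom N₁ (g : N ≃ₐ[K] N) = (1 : N₁ ≃ₐ[K] N₁)
    · exact hμ1 g hne
    · exfalso
      have hab : Above T₀ w' := above_mono hT hw'
      have h2 := huniq w' g (hJH g.2) (above_mono hT01 hab) hg hne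
      apply hT0
      rw [← h2]
      exact (above_under (N₁ := N₁) T₀ w').2 hab

/-- Case 2: no ramification on `H` and no complex conjugation in `H`. -/
theorem case2 (hPull : Stmt_IPULL) (T : Finset ℕ) (f : (N₁ ≃ₐ[K] N₁) → ℂ) (hf : IsMonComb f)
    (H : Subgroup (N ≃ₐ[K] N)) (h1 : ∀ c ∈ H, ¬ IsCC c)
    (h3 : ∀ (w : HeightOneSpectrum (𝓞 N)), ∀ g ∈ H, FrobPow N w 1 (g : N ≃ₐ[K] N) →
      AlgEquiv.restrictNormalHom N₁ g = (1 : N₁ ≃ₐ[K] N₁))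
    (h4 : ∀ (w : HeightOneSpectrum (𝓞 N)), Above T w → ∀ g ∈ H, Dec w (g : N ≃ₐ[K] N) →
      AlgEquiv.restrictNormalHom N₁ g = (1 : N₁ ≃ₐ[K] N₁)) :
    indFun H (fun g => f (AlgEquiv.restrictNormalHom N₁ g)) ∈
      CMB.GS (G := N ≃ₐ[K] N) (fun H ψ => Ty1S 2 N₁ H ψ ∨ Ty2 T H ψ) := by
  refine pull_mem hPull H ((AlgEquiv.restrictNormalHom N₁ :
    (N ≃ₐ[K] N) →* (N₁ ≃ₐ[K] N₁)).comp H.subtype) _ _ ?_ f (monComb_mem hf) _ (fun h => rfl)
  intro B ν _ x J μ hJH hJ hμ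
  right
  refine ty2_of (N₁ := N₁) T J μ (fun c hc => h1 c (hJH hc)) ?_ (fun w g hg => h3 w g (hJH hg))
    (fun w hw g hg => h4 w hw g (hJH hg))
  intro g hg
  have hb := (hJ ⟨g, hJH g.2⟩).1 g.2
  refine (hμ ⟨g, hJH g.2⟩ g.2 hb).trans ?_
  have h2 : ((AlgEquiv.restrictNormalHom N₁ :
    (N ≃ₐ[K] N) →* (N₁ ≃ₐ[K] N₁)).comp H.subtype) ⟨g, hJH g.2⟩ = 1 := hg
  have h5 : (⟨_, hb⟩ : B) = 1 := by
    apply Subtype.ext
    show x⁻¹ * ((AlgEquiv.restrictNormalHom N₁ :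
      (N ≃ₐ[K] N) →* (N₁ ≃ₐ[K] N₁)).comp H.subtype) ⟨g, hJH g.2⟩ * x = 1
    rw [h2, mul_one, inv_mul_cancel]
  rw [h5, map_one]

theorem cc_restrict_ne (hi : ∃ i : N₁, i ^ 2 = -1) {c : N ≃ₐ[K] N} (hc : IsCC c) :
    AlgEquiv.restrictNormalHom N₁ c ≠ (1 : N₁ ≃ₐ[K] N₁) := by
  obtain ⟨Φ, hΦ⟩ := CMB.isCC_restrict (L := N₁) hc
  obtain ⟨i, hi⟩ := hi
  intro h
  rw [h] at hΦ
  have h1 : Φ i = star (Φ i) := hΦ.eq i
  have h2 : (Φ i) ^ 2 = -1 := by rw [← map_pow, hi, map_neg, map_one]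
  have h3 : (Φ i).im = 0 := by
    have := congrArg Complex.im h1
    simp only [Complex.star_def, Complex.conj_im] at this
    linarith
  have h4 := congrArg Complex.re h2
  rw [pow_two, Complex.mul_re, h3] at h4
  simp only [mul_zero, sub_zero, Complex.neg_re, Complex.one_re] at h4
  nlinarith [mul_self_nonneg (Φ i).re]

theorem cc_restrict_sq {c : N ≃ₐ[K] N} (hc : IsCC c) :
    (AlgEquiv.restrictNormalHom N₁ c : N₁ ≃ₐ[K] N₁) ^ 2 = 1 := by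
  rw [pow_two, ← map_mul, CMB.isCC_sq hc, map_one]

/-- Case 3 for odd `p`: `H` has a central complex conjugation. -/
theorem case3odd (hPull : Stmt_IPULL) (f : (N₁ ≃ₐ[K] N₁) → ℂ) (hf : IsMonComb f) (T : Finset ℕ)
    (H : Subgroup (N ≃ₐ[K] N))
    (hsq : ∀ h ∈ H, (AlgEquiv.restrictNormalHom N₁ h : N₁ ≃ₐ[K] N₁) ^ 2 = 1) :
    indFun H (fun g => f (AlgEquiv.restrictNormalHom N₁ g)) ∈
      CMB.GS (G := N ≃ₐ[K] N) (fun H ψ => Ty1S 2 N₁ H ψ ∨ Ty2 T H ψ) := by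
  refine pull_mem hPull H ((AlgEquiv.restrictNormalHom N₁ :
    (N ≃ₐ[K] N) →* (N₁ ≃ₐ[K] N₁)).comp H.subtype) _ _ ?_ f (monComb_mem hf) _ (fun h => rfl)
  intro B ν _ x J μ hJH hJ hμ
  left
  refine ⟨⟨1, ?_⟩, ?_⟩
  · refine MonoidHom.ext fun g => ?_
    rw [MonoidHom.pow_apply, MonoidHom.one_apply, pow_one]
    have hb := (hJ ⟨g, hJH g.2⟩).1 g.2
    have h1 := hμ ⟨g, hJH g.2⟩ g.2 hb
    have h2 : μ g = μ ⟨g, g.2⟩ := rfl
    rw [h2, h1, ← map_pow]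
    have h5 : (⟨_, hb⟩ : B) ^ 2 = 1 := by
      apply Subtype.ext
      show (x⁻¹ * AlgEquiv.restrictNormalHom N₁ (g : N ≃ₐ[K] N) * x) ^ 2 = 1
      have e : (x⁻¹ * AlgEquiv.restrictNormalHom N₁ (g : N ≃ₐ[K] N) * x) ^ 2 =
          x⁻¹ * (AlgEquiv.restrictNormalHom N₁ (g : N ≃ₐ[K] N)) ^ 2 * x := by
        rw [pow_two, pow_two]
        group
      rw [e, hsq g (hJH g.2), mul_one, inv_mul_cancel]
    rw [h5, map_one]
  · intro h hh
    refine ⟨1, fun y => ?_⟩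
    have h1 := hsq h (hJH hh)
    rw [← map_pow] at h1
    have h2 : algebraMap N₁ N ((AlgEquiv.restrictNormalHom N₁ (h ^ 2) : N₁ ≃ₐ[K] N₁) y) =
        (h ^ 2) (algebraMap N₁ N y) := AlgEquiv.restrictNormal_commutes (h ^ 2) N₁ y
    rw [h1] at h2
    rw [pow_one]
    exact h2.symm

/-- Case 3 for `p = 2`. -/
theorem case3two (hPull : Stmt_IPULL) (hLAM : Stmt_SLAM) (T : Finset ℕ)
    (f : (N₁ ≃ₐ[K] N₁) → ℂ) (hf : IsMonComb f) (hi : ∃ i : N₁, i ^ 2 = -1)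
    (hpe : ∀ g, PElt 2 g → f g = 0)
    (hCEN : ∀ c u : N ≃ₐ[K] N, IsCC c → u * c = c * u →
        AlgEquiv.restrictNormalHom N₁ u = (1 : N₁ ≃ₐ[K] N₁) ∨
          AlgEquiv.restrictNormalHom N₁ u = (AlgEquiv.restrictNormalHom N₁ c : N₁ ≃ₐ[K] N₁))
    (H : Subgroup (N ≃ₐ[K] N)) (C : Subgroup H) (hCn : C.Normal) (hCc : IsCyclic C)
    (hC2 : Odd (Nat.card C)) (n : ℕ) (hCi : C.index = 2 ^ n)
    (h3 : ∀ (w : HeightOneSpectrum (𝓞 N)), ∀ g ∈ H, FrobPow N w 1 (g : N ≃ₐ[K] N) →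
      AlgEquiv.restrictNormalHom N₁ g = (1 : N₁ ≃ₐ[K] N₁))
    (h4 : ∀ (w : HeightOneSpectrum (𝓞 N)), Above T w → ∀ g ∈ H, Dec w (g : N ≃ₐ[K] N) →
      AlgEquiv.restrictNormalHom N₁ g = (1 : N₁ ≃ₐ[K] N₁)) :
    indFun H (fun g => f (AlgEquiv.restrictNormalHom N₁ g)) ∈
      CMB.GS (G := N ≃ₐ[K] N) (fun H ψ => Ty1S 2 N₁ H ψ ∨ Ty2 T H ψ) := by
  set r : H →* (N₁ ≃ₐ[K] N₁) := (AlgEquiv.restrictNormalHom N₁ :
    (N ≃ₐ[K] N) →* (N₁ ≃ₐ[K] N₁)).comp H.subtype with hr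
  have hrv : ∀ h : H, r h = AlgEquiv.restrictNormalHom N₁ (h : N ≃ₐ[K] N) := fun h => rfl
  let r' : H →* r.range := r.rangeRestrict
  have hr's : Function.Surjective r' := r.rangeRestrict_surjective
  have hr'v : ∀ h : H, ((r' h : r.range) : N₁ ≃ₐ[K] N₁) = r h := fun h => rfl
  let Cb : Subgroup r.range := C.map r'
  have hCbn : Cb.Normal := hCn.map r' hr's
  have hCbc : IsCyclic Cb := by
    let φ : C →* Cb := (r'.subgroupMap C)
    exact isCyclic_of_surjective φ (r'.subgroupMap_surjective C)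
  have hCb2 : Odd (Nat.card Cb) := Odd.of_dvd_nat hC2 (Subgroup.card_map_dvd C r')
  have hCbi : ∃ n : ℕ, Cb.index = 2 ^ n := by
    have h1 : Cb.index ∣ 2 ^ n := hCi ▸ Subgroup.index_map_dvd C hr's
    obtain ⟨k, _, hk⟩ := (Nat.dvd_prime_pow Nat.prime_two).1 h1
    exact ⟨k, hk⟩
  -- complex conjugations invert
  have hinv : ∀ c : H, IsCC (c : N ≃ₐ[K] N) → ∀ z ∈ C, r (c * z * c⁻¹ * z) = 1 := by
    intro c hc z hz
    have hcc : c * c = 1 := Subtype.ext (CMB.isCC_sq hc)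
    have hci : c⁻¹ = c := inv_eq_of_mul_eq_one_right hcc
    have hz' : c * z * c⁻¹ ∈ C := hCn.conj_mem z hz c
    have hcomm : ∀ a ∈ C, ∀ b ∈ C, a * b = b * a := by
      intro a ha b hb
      let _ : CommGroup C := IsCyclic.commGroup
      have := mul_comm (⟨a, ha⟩ : C) ⟨b, hb⟩
      exact congrArg Subtype.val this
    set u : H := c * z * c⁻¹ * z with hu
    have huC : u ∈ C := C.mul_mem hz' hz
    have huc : u * c = c * u := by
      have e1 : u * c = (c * z * c⁻¹) * z * c := rfl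
      have e2 : c * u = c * ((c * z * c⁻¹) * z) := rfl
      rw [e1, e2, hcomm _ hz' _ hz]
      rw [hci]
      have : c * (z * (c * z * c)) = c * z * c * z * c := by group
      rw [this]
      have h6 : c * z * c * z = z * (c * z * c) := by
        have := hcomm _ hz' _ hz
        rwa [hci] at this
      rw [h6]
    have h7 := hCEN (c : N ≃ₐ[K] N) (u : N ≃ₐ[K] N) hc (congrArg Subtype.val huc)
    rcases h7 with h7 | h7
    · exact h7
    · exfalso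
      have h8 : u ^ Nat.card C = 1 := by
        have h9 : (⟨u, huC⟩ : C) ^ Nat.card C = 1 := pow_card_eq_one'
        exact congrArg Subtype.val h9
      have h10 : r u ^ Nat.card C = 1 := by rw [← map_pow, h8, map_one]
      have h11 : (r u) ^ (2 ^ 1) = 1 := by
        rw [hrv, h7, pow_one]
        exact cc_restrict_sq hc
      have h12 := QE.eq_one_of_two hC2 h10 h11
      rw [hrv, h7] at h12
      exact cc_restrict_ne hi hc h12
  have hF := hLAM r.range Cb hCbn hCbc hCb2 hCbi (fun g => f (r.range.subtype g))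
    (monComb_comp hPull r.range.subtype hf) (by
      rintro g ⟨k, hk⟩
      refine hpe _ ⟨k, ?_⟩
      rw [← map_pow, hk, map_one])
  refine pull_mem hPull H r' _ _ ?_ _ hF _ (fun h => rfl)
  intro B ν hB x J μ hJH hJ hμ
  right
  refine ty2_of (N₁ := N₁) T J μ ?_ ?_ (fun w g hg => h3 w g (hJH hg))
    (fun w hw g hg => h4 w hw g (hJH hg))
  · intro c hc hcc
    have hb := (hJ ⟨c, hJH hc⟩).1 hc
    obtain ⟨y, hy, hne⟩ := hB _ hb
    apply hne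
    set c' : H := ⟨c, hJH hc⟩ with hc'
    -- `x y x⁻¹` is in `Cb`
    have hy' : x * y * x⁻¹ ∈ Cb := hCbn.conj_mem y hy x
    obtain ⟨z, hz, hz2⟩ := hy'
    have h5 : r' (c' * z * c'⁻¹ * z) = 1 := Subtype.ext (hinv c' hcc z hz)
    rw [map_mul, map_mul, map_mul, map_inv, hz2] at h5
    have h6 : r' c' * (x * y * x⁻¹) * (r' c')⁻¹ = (x * y * x⁻¹)⁻¹ := eq_inv_of_mul_eq_one_left h5
    have h7 : x⁻¹ * r' c' * x * y * (x⁻¹ * r' c' * x)⁻¹ =
        x⁻¹ * (r' c' * (x * y * x⁻¹) * (r' c')⁻¹) * x := by group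
    rw [h7, h6]
    group
  · intro g hg
    have hb := (hJ ⟨g, hJH g.2⟩).1 g.2
    refine (hμ ⟨g, hJH g.2⟩ g.2 hb).trans ?_
    have h2 : r' ⟨g, hJH g.2⟩ = 1 := Subtype.ext hg
    have h5 : (⟨_, hb⟩ : B) = 1 := by
      apply Subtype.ext
      show x⁻¹ * r' ⟨g, hJH g.2⟩ * x = 1
      rw [h2, mul_one, inv_mul_cancel]
    rw [h5, map_one]

/-- All cases together. -/
theorem main (hPull : Stmt_IPULL) (hLAM : Stmt_SLAM) (p : ℕ) (hp : p.Prime)
    (T T₀ T₁ : Finset ℕ) (hT : T ⊆ T₀) (hT01 : T₀ ⊆ T₁)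
    (hRam : ∀ (w : HeightOneSpectrum (𝓞 N₁)) (g : N₁ ≃ₐ[K] N₁), g ≠ 1 → FrobPow N₁ w 1 g →
      Above T₁ w)
    (f : (N₁ ≃ₐ[K] N₁) → ℂ) (hf : IsMonComb f) (hi : ∃ i : N₁, i ^ 2 = -1)
    (hpe : ∀ g, PElt p g → f g = 0) (hV : ∀ W, VAt T₀ f W)
    (hFK : ∀ (σ : N₂ ≃ₐ[K] N₂) (P Q : HeightOneSpectrum (𝓞 N₂)), Dec P σ → Dec Q σ →
        Above T₁ P → Above T₁ Q → P.under (𝓞 N₁) ≠ Q.under (𝓞 N₁) →
        AlgEquiv.restrictNormalHom N₁ σ = 1)
    (hFKI : ∀ (c : N₂ ≃ₐ[K] N₂) (P : HeightOneSpectrum (𝓞 N₂)), IsCC c → Above T₁ P → ¬ Dec P c)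
    (hCEN : ∀ c u : N ≃ₐ[K] N, IsCC c → u * c = c * u →
        AlgEquiv.restrictNormalHom N₁ u = (1 : N₁ ≃ₐ[K] N₁) ∨
          AlgEquiv.restrictNormalHom N₁ u = (AlgEquiv.restrictNormalHom N₁ c : N₁ ≃ₐ[K] N₁))
    (hKEY : ∀ p : ℕ, p = 1 ∨ p.Prime → ∀ H C : Subgroup (N ≃ₐ[K] N), C ≤ H →
        (∀ h ∈ H, ∀ c ∈ C, h * c * h⁻¹ ∈ C) → IsCyclic C → Nat.Coprime p (Nat.card C) →
        (∃ n : ℕ, ∀ h ∈ H, h ^ (p ^ n) ∈ C) →
        (∃ c ∈ C, AlgEquiv.restrictNormalHom N₁ c ≠ (1 : N₁ ≃ₐ[K] N₁)) →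
        ∀ (w : HeightOneSpectrum (𝓞 N)) (h : N ≃ₐ[K] N), Above T₁ w → h ∈ H → Dec w h →
          AlgEquiv.restrictNormalHom N₁ h ≠ (1 : N₁ ≃ₐ[K] N₁) →
          ∀ x ∈ H, Dec (w.under (𝓞 N₂)) (AlgEquiv.restrictNormalHom N₂ x : N₂ ≃ₐ[K] N₂))
    (H : Subgroup (N ≃ₐ[K] N)) (hH : IsQE p H) :
    indFun H (fun g => f (AlgEquiv.restrictNormalHom N₁ g)) ∈
      CMB.GS (G := N ≃ₐ[K] N) (fun H ψ => Ty1S 2 N₁ H ψ ∨ Ty2 T H ψ) := by
  obtain ⟨C, hCn, hCc, hcop, n, hidx⟩ := hH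
  have hpow : ∀ h : H, h ^ (p ^ n) ∈ C := by
    intro h
    have := hCn
    exact hidx ▸ Subgroup.pow_index_mem C h
  by_cases hC : ∀ c ∈ C, AlgEquiv.restrictNormalHom N₁ (c : N ≃ₐ[K] N) = (1 : N₁ ≃ₐ[K] N₁)
  · -- Case 0
    have h0 : indFun H (fun g => f (AlgEquiv.restrictNormalHom N₁ g)) = 0 := by
      funext g
      apply CMB.indFun_zero
      intro x hx
      refine hpe _ ⟨n, ?_⟩
      have h1 := hC _ (hpow ⟨x, hx⟩)
      rw [Subgroup.coe_pow, map_pow] at h1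
      exact h1
    rw [h0]
    exact Submodule.zero_mem _
  push Not at hC
  obtain ⟨c₀, hc₀, hc₀1⟩ := hC
  by_cases hbad : ∃ (w : HeightOneSpectrum (𝓞 N)) (h : N ≃ₐ[K] N), h ∈ H ∧ Dec w h ∧ Above T₁ w ∧
      AlgEquiv.restrictNormalHom N₁ h ≠ (1 : N₁ ≃ₐ[K] N₁)
  · -- Case 1
    obtain ⟨w, h, hhH, hdec, hab, hne⟩ := hbad
    have hk := hKEY p (Or.inr hp) H (C.map H.subtype) (Subgroup.map_subtype_le _) ?_ ?_ ?_ ?_ ?_
      w h hab hhH hdec hne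
    · exact case1 hPull T T₀ T₁ hT hT01 hRam f hV hFK hFKI H (w.under (𝓞 N₂))
        ((above_under (N₁ := N₂) T₁ w).2 hab) hk
    · rintro x hx _ ⟨c, hc, rfl⟩
      exact ⟨(⟨x, hx⟩ : H) * c * (⟨x, hx⟩ : H)⁻¹, hCn.conj_mem c hc _, rfl⟩
    · exact isCyclic_of_surjective _
        (C.equivMapOfInjective H.subtype H.subtype_injective).surjective
    · rwa [← Nat.card_congr (C.equivMapOfInjective H.subtype H.subtype_injective).toEquiv]
    · exact ⟨n, fun x hx => ⟨_, hpow ⟨x, hx⟩, rfl⟩⟩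
    · exact ⟨c₀, ⟨c₀, hc₀, rfl⟩, hc₀1⟩
  push Not at hbad
  have h3 : ∀ (w : HeightOneSpectrum (𝓞 N)), ∀ g ∈ H, FrobPow N w 1 (g : N ≃ₐ[K] N) →
      AlgEquiv.restrictNormalHom N₁ g = (1 : N₁ ≃ₐ[K] N₁) := by
    intro w g hg hfr
    by_contra hne
    exact hne (hbad w g hg (RB.dec_of_frob hfr)
      ((above_under (N₁ := N₁) T₁ w).1 (hRam _ _ hne (RB.frob_restrict hfr))))
  have h4 : ∀ (w : HeightOneSpectrum (𝓞 N)), Above T w → ∀ g ∈ H, Dec w (g : N ≃ₐ[K] N) →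
      AlgEquiv.restrictNormalHom N₁ g = (1 : N₁ ≃ₐ[K] N₁) := by
    intro w hw g hg hd
    exact hbad w g hg hd (above_mono (hT.trans hT01) hw)
  by_cases hcc : ∀ c ∈ H, ¬ IsCC c
  · exact case2 hPull T f hf H hcc h3 h4
  push Not at hcc
  obtain ⟨c', hc'H, hc'⟩ := hcc
  rcases hp.eq_two_or_odd' with rfl | hodd
  · exact case3two hPull hLAM T f hf hi hpe hCEN H C hCn hCc (Nat.coprime_two_left.1 hcop) n
      hidx h3 h4
  · refine case3odd hPull f hf T H ?_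
    have hc2 : c' ^ 2 = 1 := by rw [pow_two]; exact CMB.isCC_sq hc'
    have hc'C : (⟨c', hc'H⟩ : H) ∈ C := by
      have h5 := hpow ⟨c', hc'H⟩
      have h6 : (⟨c', hc'H⟩ : H) ^ (p ^ n) = ⟨c', hc'H⟩ := by
        obtain ⟨k, hk⟩ := hodd.pow (n := n)
        rw [hk, pow_succ, pow_mul]
        have h7 : (⟨c', hc'H⟩ : H) ^ 2 = 1 := Subtype.ext hc2
        rw [h7, one_pow, one_mul]
      rwa [h6] at h5
    have hc'1 : c' ≠ 1 := by
      rintro rfl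
      exact cc_restrict_ne (N₁ := N₁) hi hc' (map_one _)
    intro h hh
    have hcomm : h * c' = c' * h := by
      have h8 : (⟨h, hh⟩ : H) * ⟨c', hc'H⟩ * (⟨h, hh⟩ : H)⁻¹ ∈ C := hCn.conj_mem _ hc'C _
      have h9 : (⟨_, h8⟩ : C) = ⟨_, hc'C⟩ := by
        refine QE.unique_two ?_ ?_ ?_ ?_
        · apply Subtype.ext
          apply Subtype.ext
          show (h * c' * h⁻¹) ^ 2 = 1
          rw [conj_pow, hc2, mul_one, mul_inv_cancel]
        · apply Subtype.ext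
          apply Subtype.ext
          exact hc2
        · intro he
          apply hc'1
          have h10 : h * c' * h⁻¹ = 1 := congrArg (fun z : C => ((z : H) : N ≃ₐ[K] N)) he
          rw [mul_inv_eq_one] at h10
          exact mul_eq_left.1 h10
        · intro he
          apply hc'1
          exact congrArg (fun z : C => ((z : H) : N ≃ₐ[K] N)) he
      have h11 : h * c' * h⁻¹ = c' := congrArg (fun z : C => ((z : H) : N ≃ₐ[K] N)) h9
      rwa [mul_inv_eq_iff_eq_mul] at h11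
    rcases hCEN c' h hc' hcomm with h12 | h12
    · rw [h12, one_pow]
    · rw [h12]
      exact cc_restrict_sq hc'

end arith

end SLOC

end StarkC
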