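import Pool.Agent.StarkI.SMAIN
import Pool.Agent.StarkI.SFAITH
import Pool.Agent.StarkI.SSPAN
import Pool.Agent.StarkI.SP
import Pool.Agent.StarkI.SPROD
import Pool.Agent.StarkI.SLAM
import Pool.Agent.StarkI.SOL
import Pool.Agent.StarkI.PULL
import Pool.Agent.StarkI.KEY
import Pool.Agent.StarkI.INV
import Pool.Agent.StarkI.TOR
import Pool.Agent.StarkI.GRP
import Pool.Agent.StarkI.SCOMP
import Pool.Agent.StarkU.SSTEP
import Pool.Agent.StarkU.SREAL
import Pool.Agent.StarkU.UEXT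
import Pool.Agent.StarkU.UHATS
import Pool.Agent.StarkU.UKILQ
import Pool.Agent.StarkU.SDATA
import Pool.Agent.StarkT.BASEQ
import Pool.Agent.StarkT.SIND
import Pool.Agent.StarkT.SREG
import Pool.Agent.StarkT.PHIR
import Pool.Agent.StarkT.SLF
import Pool.Agent.StarkT.LEULZ
import Pool.Agent.StarkT.EXPH
import Pool.Agent.StarkT.INDREP
import Pool.Agent.StarkT.DOWNL
import Pool.Agent.StarkT.INDP
import Pool.Agent.StarkT.GALQ
import Pool.Agent.StarkT.ART
import Pool.Agent.Stark.RFULL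

/-!
# Stark's conjecture, sharper integral reduction: all modules together
-/

open NumberField IsDedekindDomain
open scoped TensorProduct Classical

namespace StarkC

namespace SFULL

theorem exph : Stmt_EXPH :=
  EXPH_thm RFULL.infl XRAT_thm UNIT_thm (THE_thm XRAT_thm UNIT_thm)

theorem sindp : Stmt_SINDP := SINDP_thm PHIR_thm SREG_thm SLF_thm LEULZ_thm exph

theorem downl : Stmt_DOWNL :=
  DOWNL_thm RFULL.lb (LC_thm LA_thm) TRD_thm (RGT_thm RTR_thm) STB_thm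
    (THC_thm XRAT_thm) (THB_thm XRAT_thm UNIT_thm)

theorem indp : Stmt_INDP :=
  INDP_thm LA_thm RFULL.lb (LIND_thm LA_thm RFULL.lb (LC_thm LA_thm)) TRD_thm (RGT_thm RTR_thm)
    STB_thm (THC_thm XRAT_thm) (THB_thm XRAT_thm UNIT_thm)

theorem bra : Stmt_BRA := BRA_thm SOL_thm MON_thm

theorem baseq : Stmt_BASEQ :=
  BASEQ_thm bra indp GALQ_thm RFULL.infl exph INDREP_thm downl sindp LINF_thm

theorem rfks : Stmt_RFKS := RFKS_thm RPOLY_thm

theorem ikey : Stmt_IKEY :=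
  IKEY_thm rfks (ITOR_thm (RTOR_thm (RAS_thm RSSQ_thm)) IINV_thm) IINV_thm ART_thm IGRP_thm

theorem sloc : Stmt_SLOC := SLOC_thm ISOL_thm IPULL_thm ikey SLAM_thm RFIN_thm

theorem sdata : Stmt_SDATA := SDATA_thm UHATS_thm UKILQ_thm UCOMP_thm UEXT_thm URAM_thm

theorem sstep : Stmt_SSTEP :=
  SSTEP_thm (SREAL_thm sdata SP_thm IPULL_thm) UCOMP_thm UEXT_thm URAM_thm IPULL_thm

theorem sspan : Stmt_SSPAN :=
  SSPAN_thm SP_thm (SPROD_thm IPULL_thm) IPULL_thm sstep sloc SCOMP_thm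

theorem smain : Stmt_SMAIN :=
  SMAIN_thm bra RFULL.infl RFULL.ind LINF_thm (SSPANZ_thm sspan SCOMP_thm)
    (STY1_thm AR2_thm AR3_thm) SEPS_thm SCOMP_thm baseq

/-- Theorem S. -/
theorem smainf : Stmt_SMAINF := SMAINF_thm RFULL.infl exph sindp LINF_thm smain

end SFULL

end StarkC
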