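import Pool.Agent.Stark.PBridgeN
import Pool.Agent.StarkI.PDefsI
import Pool.Agent.StarkI.SFULL

/-!
# Bridge between the two forms of the definitions: Theorem S
-/

open NumberField IsDedekindDomain
open scoped TensorProduct Classical

namespace StarkB

theorem starkLin_iff {K L : Type} [Field K] [NumberField K] [Field L] [NumberField L]
    [Algebra K L] [IsGalois K L] (ψ : (L ≃ₐ[K] L) →* ℂˣ) :
    StarkP.StarkLin ∅ ψ ↔ StarkC.StarkInf K L ψ := by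
  unfold StarkP.StarkLin StarkC.StarkInf
  rw [aboveSet_eq]
  constructor
  · intro h φ Θ σ hφ
    exact (starkAt_iff' ((∅ : Finset (HeightOneSpectrum (𝓞 K))) : Set (HeightOneSpectrum (𝓞 K)))
      (∅ : Finset (HeightOneSpectrum (𝓞 K))).finite_toSet (StarkC.linRep ψ)
      (StarkC.linRep (StarkC.twist σ ψ)) σ).1 (fun Θ' hΘ' => h Θ' σ hΘ') φ Θ hφ
  · intro h Θ σ hΘ
    exact (starkAt_iff' ((∅ : Finset (HeightOneSpectrum (𝓞 K))) : Set (HeightOneSpectrum (𝓞 K)))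
      (∅ : Finset (HeightOneSpectrum (𝓞 K))).finite_toSet (StarkC.linRep ψ)
      (StarkC.linRep (StarkC.twist σ ψ)) σ).2 (fun φ Θ' hφ => h φ Θ' σ hφ) Θ hΘ

/-- Theorem S in printable form. -/
theorem starkFour_main (T : Finset ℕ) (E : Type) [Field E] [NumberField E] [IsGalois ℚ E]
    (ε : ℝ) (hε : 0 < ε) : StarkP.StarkConjecture ↔ StarkP.StarkFour T E ε := by
  rw [starkConjecture_iff, StarkC.SFULL.smainf T E ε hε]
  constructor
  · rintro ⟨hA, hB, hC, hD⟩ K L _ _ _ _ _ _ ψ hψ h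
    rw [starkLin_iff]
    rcases h with ⟨hK, h1, h2⟩ | ⟨hK, p, n, hp, hP, hn⟩ | ⟨hK, hP, ⟨n, hn⟩, ho⟩ | ⟨hK, ho⟩
    · exact hA K L hK h1 h2 ψ hψ
    · exact hB K L hK p n hp hP ψ hψ hn
    · exact hC K L hK hP ψ n hψ hn ho
    · exact hD K L hK ψ hψ ho
  · intro h
    refine ⟨?_, ?_, ?_, ?_⟩
    · intro K L _ _ _ _ _ _ hK h1 h2 ψ hψ
      exact (starkLin_iff ψ).1 (h K L ψ hψ (Or.inl ⟨hK, h1, h2⟩))
    · intro K L _ _ _ _ _ _ hK p n hp hP ψ hψ hn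
      exact (starkLin_iff ψ).1 (h K L ψ hψ (Or.inr (Or.inl ⟨hK, p, n, hp, hP, hn⟩)))
    · intro K L _ _ _ _ _ _ hK hP ψ n hψ hn ho
      exact (starkLin_iff ψ).1 (h K L ψ hψ (Or.inr (Or.inr (Or.inl ⟨hK, hP, ⟨n, hn⟩, ho⟩))))
    · intro K L _ _ _ _ _ _ hK ψ hψ ho
      exact (starkLin_iff ψ).1 (h K L ψ hψ (Or.inr (Or.inr (Or.inr ⟨hK, ho⟩))))

end StarkB
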