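import Pool.Agent.StarkI.Stmts

/-!
# Integral unramified reduction: lifting spans from a subgroup
-/

open NumberField IsDedekindDomain
open scoped TensorProduct Classical

namespace StarkC
namespace LOC

section Grp

variable {G : Type} [Group G] [Fintype G]

/-- The linear character of `J.map H.subtype` given by a linear character of `J ≤ H`. -/
noncomputable def mapChar {H : Subgroup G} (J : Subgroup H) (ν : J →* ℂˣ) :
    J.map H.subtype →* ℂˣ :=
  ν.comp (J.equivMapOfInjective H.subtype H.subtype_injective).symm.toMonoidHom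

omit [Fintype G] in
theorem mapChar_apply {H : Subgroup G} (J : Subgroup H) (ν : J →* ℂˣ) (b : J)
    (h : ((b : H) : G) ∈ J.map H.subtype) : mapChar J ν ⟨((b : H) : G), h⟩ = ν b := by
  unfold mapChar
  rw [MonoidHom.comp_apply]
  congr 1
  show (J.equivMapOfInjective H.subtype H.subtype_injective).symm _ = b
  rw [MulEquiv.symm_apply_eq]
  rfl

omit [Fintype G] in
theorem exists_rep {H : Subgroup G} (J : Subgroup H) (y : J.map H.subtype) :
    ∃ b : J, ((b : H) : G) = y ∧ ∀ ν : J →* ℂˣ, mapChar J ν y = ν b := by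
  obtain ⟨y, b, hb, rfl⟩ := y
  exact ⟨⟨b, hb⟩, rfl, fun ν => mapChar_apply J ν ⟨b, hb⟩ _⟩

omit [Fintype G] in
theorem extZ_mapChar {H : Subgroup G} (J : Subgroup H) (ν : J →* ℂˣ) (y : H) :
    extZ (mapChar J ν) (y : G) = extZ ν y := by
  unfold extZ
  by_cases h : y ∈ J
  · have h' : (y : G) ∈ J.map H.subtype := ⟨y, h, rfl⟩
    rw [dif_pos h, dif_pos h']
    rw [mapChar_apply J ν ⟨y, h⟩ h']
  · have h' : ¬ (y : G) ∈ J.map H.subtype := by
      rintro ⟨z, hz, hzy⟩
      exact h (by rwa [← Subtype.ext hzy])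
    rw [dif_neg h, dif_neg h']

/-- A function on `H` in the span of induced characters, induced to `G`. -/
theorem lift_GS (H : Subgroup G) (F : G → ℂ) (P : ∀ H : Subgroup G, (H →* ℂˣ) → Prop)
    (hF : (fun h : H => F h) ∈ CMB.GS (G := H) (fun J ν => P (J.map H.subtype) (mapChar J ν))) :
    indFun H F ∈ CMB.GS P := by
  obtain ⟨m, J, ν, n, hP, hE⟩ := CMB.of_mem_GS hF
  have e1 : ∀ i, ∃ Fi : G → ℂ, ∀ h : H, Fi h = indFun (J i) (extZ (ν i)) h := by
    intro i
    refine ⟨fun x => if hx : x ∈ H then indFun (J i) (extZ (ν i)) ⟨x, hx⟩ else 0, ?_⟩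
    intro h
    simp
  choose Fi hFi using e1
  have e2 : indFun H F = ∑ i, n i • indFun ((J i).map H.subtype) (extZ (mapChar (J i) (ν i))) := by
    funext g
    have e3 : indFun H F = indFun H (fun x => ∑ i, (n i : ℂ) * Fi i x) := by
      apply CMB.indFun_congr
      intro x hx
      have := hE ⟨x, hx⟩
      rw [show F x = F ((⟨x, hx⟩ : H) : G) from rfl, this]
      exact Finset.sum_congr rfl fun i _ => by rw [← hFi i ⟨x, hx⟩]
    rw [e3, CMB.indFun_sum, Finset.sum_apply]
    refine Finset.sum_congr rfl fun i _ => ?_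
    rw [Pi.smul_apply, zsmul_eq_mul]
    congr 1
    refine CMB.indFun_trans H (J i) (extZ (mapChar (J i) (ν i))) (Fi i) ?_ g
    intro h
    rw [hFi]
    congr 1
    funext y
    exact (extZ_mapChar (J i) (ν i) y).symm
  rw [e2]
  exact Submodule.sum_mem _ fun i _ => Submodule.smul_mem _ _ (CMB.mem_GS_of _ _ (hP i))

theorem GS_mono {P Q : ∀ H : Subgroup G, (H →* ℂˣ) → Prop} (h : ∀ H ψ, P H ψ → Q H ψ)
    {f : G → ℂ} (hf : f ∈ CMB.GS P) : f ∈ CMB.GS Q := by
  obtain ⟨m, H, ψ, n, hP, hE⟩ := CMB.of_mem_GS hf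
  have e : f = ∑ i, n i • indFun (H i) (extZ (ψ i)) := by
    funext g
    rw [hE, Finset.sum_apply]
    exact Finset.sum_congr rfl fun i _ => by rw [Pi.smul_apply, zsmul_eq_mul]
  rw [e]
  exact Submodule.sum_mem _ fun i _ => Submodule.smul_mem _ _ (CMB.mem_GS_of _ _ (h _ _ (hP i)))

/-- The pull back of a function in a span. -/
theorem pull_GS (hM : Stmt_IPULL) {H D : Type} [Group H] [Fintype H] [Group D] [Fintype D]
    (r : H →* D) {P : ∀ B : Subgroup D, (B →* ℂˣ) → Prop}
    {Q : ∀ J : Subgroup H, (J →* ℂˣ) → Prop}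
    (hPQ : ∀ (B : Subgroup D) (ν : B →* ℂˣ) (x : D), P B ν →
      Q (B.comap (cj r x)) (ν.comp ((cj r x).subgroupComap B)))
    {f : D → ℂ} (hf : f ∈ CMB.GS P) : (fun h : H => f (r h)) ∈ CMB.GS Q := by
  obtain ⟨m, B, ν, n, hP, hE⟩ := CMB.of_mem_GS hf
  have e : (fun h : H => f (r h)) =
      ∑ i, n i • fun h : H => indFun (B i) (extZ (ν i)) (r h) := by
    funext g
    rw [hE, Finset.sum_apply]
    exact Finset.sum_congr rfl fun i _ => by rw [Pi.smul_apply, zsmul_eq_mul]
  rw [e]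
  refine Submodule.sum_mem _ fun i _ => Submodule.smul_mem _ _ ?_
  refine (Submodule.span_le.2 ?_) (hM H D r (B i) (ν i))
  rintro _ ⟨x, rfl⟩
  exact CMB.mem_GS_of _ _ (hPQ _ _ x (hP i))

theorem monComb_GS {f : G → ℂ} (hf : IsMonComb f) : f ∈ CMB.GS (G := G) fun _ _ => True := by
  obtain ⟨m, H, ψ, n, hE⟩ := hf
  have e : f = ∑ i, n i • indFun (H i) (extZ (ψ i)) := by
    funext g
    rw [hE, Finset.sum_apply]
    exact Finset.sum_congr rfl fun i _ => by rw [Pi.smul_apply, zsmul_eq_mul]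
  rw [e]
  exact Submodule.sum_mem _ fun i _ => Submodule.smul_mem _ _ (CMB.mem_GS_of _ _ trivial)

/-- The sum of an integral combination of induced linear characters is divisible by the order of
the group. -/
theorem sum_GS {P : ∀ H : Subgroup G, (H →* ℂˣ) → Prop} {f : G → ℂ} (hf : f ∈ CMB.GS P) :
    ∃ a : ℤ, ∑ g, f g = (a : ℂ) * (Nat.card G : ℂ) := by
  have hG : (Nat.card G : ℂ) ≠ 0 := by
    exact_mod_cast Nat.card_pos.ne'
  unfold CMB.GS at hf
  induction hf using Submodule.span_induction with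
  | mem f hf =>
    obtain ⟨⟨⟨H, ψ⟩, hP⟩, rfl⟩ := hf
    have hH : (Nat.card H : ℂ) ≠ 0 := by
      exact_mod_cast Nat.card_pos.ne'
    have e1 : (∑ g, indFun H (extZ ψ) g) = (∑ h : H, ((ψ h : ℂˣ) : ℂ)) / (Nat.card H : ℂ) *
        (Nat.card G : ℂ) := by
      unfold indFun
      rw [← Finset.sum_div, Finset.sum_comm]
      have e2 : ∀ x : G, (∑ g : G, if x⁻¹ * g * x ∈ H then extZ ψ (x⁻¹ * g * x) else 0) =
          ∑ h : H, ((ψ h : ℂˣ) : ℂ) := by
        intro x
        have e3 : (∑ g : G, if x⁻¹ * g * x ∈ H then extZ ψ (x⁻¹ * g * x) else 0) =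
            ∑ g : G, if g ∈ H then extZ ψ g else 0 := by
          refine Fintype.sum_equiv (MulAut.conj x⁻¹).toEquiv _ _ fun g => ?_
          simp [MulAut.conj_apply]
        rw [e3, ← Finset.sum_filter]
        rw [Finset.sum_subtype (p := fun g => g ∈ H) (Finset.univ.filter (fun g => g ∈ H))
          (by simp) (fun g => extZ ψ g)]
        exact Finset.sum_congr rfl fun h _ => CMB.extZ_apply ψ h
      simp only [e2]
      rw [Finset.sum_const, Finset.card_univ, nsmul_eq_mul, ← Nat.card_eq_fintype_card]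
      field_simp
    show ∃ a : ℤ, ∑ g, indFun H (extZ ψ) g = (a : ℂ) * (Nat.card G : ℂ)
    rw [e1]
    by_cases h1 : ψ = 1
    · refine ⟨1, ?_⟩
      subst h1
      simp only [MonoidHom.one_apply, Units.val_one, Finset.sum_const, Finset.card_univ,
        nsmul_eq_mul, mul_one, ← Nat.card_eq_fintype_card]
      rw [div_self hH]
      simp
    · refine ⟨0, ?_⟩
      have h2 : ((Units.coeHom ℂ).comp ψ : H →* ℂ) ≠ 1 := by
        intro h
        apply h1
        ext g
        exact DFunLike.congr_fun h g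
      have h3 := sum_hom_units_eq_zero ((Units.coeHom ℂ).comp ψ) h2
      have h4 : (∑ h : H, ((ψ h : ℂˣ) : ℂ)) = 0 := h3
      rw [h4]
      simp
  | zero => exact ⟨0, by simp⟩
  | add f g _ _ hf hg =>
    obtain ⟨a, ha⟩ := hf
    obtain ⟨b, hb⟩ := hg
    refine ⟨a + b, ?_⟩
    simp only [Pi.add_apply, Finset.sum_add_distrib, ha, hb]
    push_cast
    ring
  | smul n f _ hf =>
    obtain ⟨a, ha⟩ := hf
    refine ⟨n * a, ?_⟩
    simp only [Pi.smul_apply, zsmul_eq_mul]
    rw [← Finset.mul_sum, ha]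
    push_cast
    ring

end Grp

end LOC
end StarkC
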