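import Pool.Agent.StarkI.SStmts
import Pool.Agent.StarkI.LOC1
import Pool.Agent.Stark.QE
import Pool.Agent.Stark.RKEY

/-!
# The local-global step: the cases for one quasi-elementary subgroup
-/

open NumberField IsDedekindDomain
open scoped TensorProduct Classical

namespace StarkC
namespace LOC

section Grp

variable {G : Type} [Group G] [Fintype G]

theorem indFun_conj (H : Subgroup G) (f : G → ℂ) (x g : G) :
    indFun H f (x⁻¹ * g * x) = indFun H f g := by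
  unfold indFun
  congr 1
  refine Fintype.sum_equiv (Equiv.mulLeft x) _ _ fun y => ?_
  have h : y⁻¹ * (x⁻¹ * g * x) * y = (x * y)⁻¹ * g * (x * y) := by group
  rw [h]
  rfl

theorem monComb_class {f : G → ℂ} (hf : IsMonComb f) (x g : G) : f (x⁻¹ * g * x) = f g := by
  obtain ⟨m, H, ψ, n, hE⟩ := hf
  rw [hE, hE]
  exact Finset.sum_congr rfl fun i _ => by rw [indFun_conj]

theorem monComb_of_GS {P : ∀ H : Subgroup G, (H →* ℂˣ) → Prop} {f : G → ℂ}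
    (hf : f ∈ CMB.GS P) : IsMonComb f := by
  obtain ⟨m, H, ψ, n, _, hE⟩ := CMB.of_mem_GS hf
  exact ⟨m, H, ψ, n, hE⟩

theorem assemble {F : G → ℂ} (hF : ∀ x g : G, F (x⁻¹ * g * x) = F g) {M m : ℕ}
    (H : Fin m → Subgroup G) (n : Fin m → ℤ)
    (h1 : ∀ g, (M : ℂ) = ∑ i, (n i : ℂ) * indFun (H i) (fun _ => 1) g)
    {P : ∀ H : Subgroup G, (H →* ℂˣ) → Prop}
    (hP : ∀ i, (fun h : H i => F h) ∈
      CMB.GS (G := H i) (fun J ν => P (J.map (H i).subtype) (mapChar J ν))) :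
    (fun g => (M : ℂ) * F g) ∈ CMB.GS P := by
  have e : (fun g => (M : ℂ) * F g) = ∑ i, n i • indFun (H i) F := by
    funext g
    rw [Finset.sum_apply]
    simp only [Pi.smul_apply, zsmul_eq_mul]
    rw [h1 g, Finset.sum_mul]
    exact Finset.sum_congr rfl fun i _ => by rw [CMB.indFun_class (H i) F hF g]; ring
  rw [e]
  exact Submodule.sum_mem _ fun i _ => Submodule.smul_mem _ _ (lift_GS (H i) F P (hP i))

omit [Fintype G] in
theorem pulled_one {H : Type} [Group H] (r : H →* G) (B : Subgroup G) (ν : B →* ℂˣ) (x : G)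
    (b : B.comap (cj r x)) (hb : r b = 1) :
    (ν.comp ((cj r x).subgroupComap B)) b = 1 := by
  rw [MonoidHom.comp_apply]
  have : ((cj r x).subgroupComap B) b = 1 := by
    apply Subtype.ext
    show (cj r x) b = 1
    unfold cj
    simp [hb]
  rw [this, map_one]

omit [Fintype G] in
theorem cj_apply {H : Type} [Group H] (r : H →* G) (x : G) (h : H) :
    cj r x h = x⁻¹ * r h * x := by
  unfold cj
  simp

end Grp

section Arith

variable {K N₁ N : Type} [Field K] [NumberField K] [Field N₁] [NumberField N₁] [Field N]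
  [NumberField N] [Algebra K N₁] [Algebra K N] [Algebra N₁ N] [IsScalarTower K N₁ N]
  [IsGalois K N₁] [IsGalois K N]

omit [NumberField K] [IsGalois K N] in
theorem ty2_map {T : Finset ℕ} {H : Subgroup (N ≃ₐ[K] N)} {J : Subgroup H} {ν : J →* ℂˣ}
    (h1 : ∀ b : J, ¬ IsCC ((b : H) : N ≃ₐ[K] N))
    (h2 : ∀ (w : HeightOneSpectrum (𝓞 N)) (b : J), FrobPow N w 1 ((b : H) : N ≃ₐ[K] N) → ν b = 1)
    (h3 : ∀ w : HeightOneSpectrum (𝓞 N), Above T w → ∀ b : J, Dec w ((b : H) : N ≃ₐ[K] N) →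
      ν b = 1) :
    Ty2 T (J.map H.subtype) (mapChar J ν) := by
  refine ⟨?_, ?_, ?_⟩
  · rintro c ⟨b, hb, rfl⟩
    exact h1 ⟨b, hb⟩
  · intro w g hg
    obtain ⟨b, hb, hν⟩ := exists_rep J g
    rw [hν]
    exact h2 w b (by rw [hb]; exact hg)
  · intro w hw g hg
    obtain ⟨b, hb, hν⟩ := exists_rep J g
    rw [hν]
    exact h3 w hw b (by rw [hb]; exact hg)

variable (N₁) in
/-- A bad prime `w` of `H`, with the element `h` which shows this. -/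
def Bad (T : Finset ℕ) (H : Subgroup (N ≃ₐ[K] N)) (w : HeightOneSpectrum (𝓞 N))
    (h : N ≃ₐ[K] N) : Prop :=
  h ∈ H ∧ AlgEquiv.restrictNormalHom N₁ h ≠ (1 : N₁ ≃ₐ[K] N₁) ∧
    (FrobPow N w 1 h ∨ (Above T w ∧ Dec w h))

/-- The restriction of `H` to `N₁`. -/
noncomputable def rH (N₁ : Type) [Field N₁] [Algebra K N₁] [Algebra N₁ N] [IsScalarTower K N₁ N]
    [Normal K N₁] (H : Subgroup (N ≃ₐ[K] N)) : H →* (N₁ ≃ₐ[K] N₁) :=
  (AlgEquiv.restrictNormalHom N₁).comp H.subtype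

omit [NumberField K] [IsGalois K N] [NumberField N₁] in
theorem ty2_of_notBad {T : Finset ℕ} {H : Subgroup (N ≃ₐ[K] N)}
    (hnb : ∀ w h, ¬ Bad N₁ T H w h) {J : Subgroup H} {ν : J →* ℂˣ}
    (h1 : ∀ b : J, ¬ IsCC ((b : H) : N ≃ₐ[K] N))
    (h2 : ∀ b : J, rH N₁ H b = 1 → ν b = 1) :
    Ty2 T (J.map H.subtype) (mapChar J ν) := by
  refine ty2_map h1 ?_ ?_
  · intro w b hb
    apply h2
    by_contra h
    exact hnb w _ ⟨(b : H).2, h, Or.inl hb⟩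
  · intro w hw b hb
    apply h2
    by_contra h
    exact hnb w _ ⟨(b : H).2, h, Or.inr ⟨hw, hb⟩⟩

omit [IsGalois K N] in
/-- Case 2: no bad primes and no complex conjugations. -/
theorem case2 (hM : Stmt_IPULL) {T : Finset ℕ} {H : Subgroup (N ≃ₐ[K] N)}
    (hnb : ∀ w h, ¬ Bad N₁ T H w h) (hcc : ∀ c ∈ H, ¬ IsCC c) {f : (N₁ ≃ₐ[K] N₁) → ℂ}
    (hf : IsMonComb f) :
    (fun h : H => f (rH N₁ H h)) ∈
      CMB.GS (G := H) fun J ν => Ty2 T (J.map H.subtype) (mapChar J ν) := by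
  refine pull_GS hM (rH N₁ H) (P := fun _ _ => True) ?_ (monComb_GS hf)
  intro B ν x _
  exact ty2_of_notBad hnb (fun b => hcc _ (b : H).2) fun b hb => pulled_one _ _ _ _ _ hb

/-- a complex conjugation is nontrivial on a field which contains a square root of `-1`. -/
theorem cc_ne_one (hi : ∃ i : N₁, i ^ 2 = -1) {c : N ≃ₐ[K] N} (hc : IsCC c) :
    AlgEquiv.restrictNormalHom N₁ c ≠ (1 : N₁ ≃ₐ[K] N₁) := by
  intro h
  obtain ⟨Φ, hΦ⟩ := CMB.isCC_restrict (L := N₁) hc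
  rw [h] at hΦ
  obtain ⟨i, hi⟩ := hi
  have h1 : (starRingEnd ℂ) (Φ i) = Φ i := by
    have := hΦ.eq i
    simpa using this.symm
  have h2 : (Φ i) ^ 2 = -1 := by
    rw [← map_pow, hi, map_neg, map_one]
  obtain ⟨y, hy⟩ := Complex.conj_eq_iff_real.1 h1
  rw [hy] at h2
  have h3 : y ^ 2 = -1 := by exact_mod_cast h2
  nlinarith [sq_nonneg y]

/-! ### Case 1: bad primes -/

section Tower

variable {N₂ : Type} [Field N₂] [NumberField N₂] [Algebra K N₂] [Algebra N₁ N₂]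
  [IsScalarTower K N₁ N₂] [IsGalois K N₂] [Algebra N₂ N] [IsScalarTower K N₂ N]
  [IsScalarTower N₁ N₂ N]

omit [NumberField K] [NumberField N₁] [NumberField N] [IsGalois K N] [NumberField N₂] in
theorem res_res (g : N ≃ₐ[K] N) : AlgEquiv.restrictNormalHom N₁
    (AlgEquiv.restrictNormalHom N₂ g : N₂ ≃ₐ[K] N₂) =
      (AlgEquiv.restrictNormalHom N₁ g : N₁ ≃ₐ[K] N₁) := by
  rw [← IsScalarTower.AlgEquiv.restrictNormalHom_comp_apply N₁ N₂]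

/-- The consequences of a bad prime. -/
theorem bad_consequences {T T₀ T₁ : Finset ℕ} (hT : T ⊆ T₀) (hT₁ : T₀ ⊆ T₁)
    (ram : ∀ (w : HeightOneSpectrum (𝓞 N₁)) (g : N₁ ≃ₐ[K] N₁), g ≠ 1 → FrobPow N₁ w 1 g →
      Above T₁ w)
    (key1 : ∀ (σ : N₂ ≃ₐ[K] N₂) (P Q : HeightOneSpectrum (𝓞 N₂)), Dec P σ → Dec Q σ →
        Above T₁ P → Above T₁ Q → P.under (𝓞 N₁) ≠ Q.under (𝓞 N₁) →
        AlgEquiv.restrictNormalHom N₁ σ = 1)
    (key2 : ∀ (c : N₂ ≃ₐ[K] N₂) (P : HeightOneSpectrum (𝓞 N₂)), IsCC c → Above T₁ P →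
      ¬ Dec P c)
    {H : Subgroup (N ≃ₐ[K] N)}
    (keyH : ∀ (w : HeightOneSpectrum (𝓞 N)) (h : N ≃ₐ[K] N), Above T₁ w → h ∈ H → Dec w h →
          AlgEquiv.restrictNormalHom N₁ h ≠ (1 : N₁ ≃ₐ[K] N₁) →
          ∀ x ∈ H, Dec (w.under (𝓞 N₂)) (AlgEquiv.restrictNormalHom N₂ x : N₂ ≃ₐ[K] N₂))
    {w₀ : HeightOneSpectrum (𝓞 N)} {h₀ : N ≃ₐ[K] N} (hb : Bad N₁ T H w₀ h₀) :
    (∀ x ∈ H, Dec (w₀.under (𝓞 N₁)) (AlgEquiv.restrictNormalHom N₁ x : N₁ ≃ₐ[K] N₁)) ∧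
    (∀ c ∈ H, ¬ IsCC c) ∧
    (∀ (w : HeightOneSpectrum (𝓞 N)) (g : N ≃ₐ[K] N), Bad N₁ T H w g →
      w.under (𝓞 N₁) = w₀.under (𝓞 N₁)) := by
  have habove : ∀ (w : HeightOneSpectrum (𝓞 N)) (g : N ≃ₐ[K] N), Bad N₁ T H w g →
      Above T₁ w ∧ ∀ x ∈ H, Dec (w.under (𝓞 N₂))
        (AlgEquiv.restrictNormalHom N₂ x : N₂ ≃ₐ[K] N₂) := by
    intro w g hg
    obtain ⟨hgH, hg1, hg2⟩ := hg
    have hA : Above T₁ w := by
      rcases hg2 with h | h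
      · obtain ⟨q, hq, hqp, hqw⟩ := ram (w.under (𝓞 N₁)) _ hg1 (RB.frob_restrict h)
        exact ⟨q, hq, hqp, (RB.natCast_mem_under w q).1 hqw⟩
      · obtain ⟨q, hq, hqp, hqw⟩ := h.1
        exact ⟨q, hT₁ (hT hq), hqp, hqw⟩
    have hD : Dec w g := by
      rcases hg2 with h | h
      · exact RB.dec_of_frob h
      · exact h.2
    exact ⟨hA, keyH w g hA hgH hD hg1⟩
  have hA2 : ∀ w : HeightOneSpectrum (𝓞 N), Above T₁ w → Above T₁ (w.under (𝓞 N₂)) := by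
    rintro w ⟨q, hq, hqp, hqw⟩
    exact ⟨q, hq, hqp, (RB.natCast_mem_under w q).2 hqw⟩
  obtain ⟨a0, d0⟩ := habove w₀ h₀ hb
  refine ⟨?_, ?_, ?_⟩
  · intro x hx
    have h1 := RB.dec_restrict (L := N₁) (d0 x hx)
    rw [RB.under_under, res_res] at h1
    exact h1
  · intro c hc hcc
    exact key2 _ _ (CMB.isCC_restrict (L := N₂) hcc) (hA2 _ a0) (d0 c hc)
  · intro w g hg
    obtain ⟨a1, d1⟩ := habove w g hg
    by_contra hne
    apply hg.2.1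
    have h1 := key1 (AlgEquiv.restrictNormalHom N₂ g) (w.under (𝓞 N₂)) (w₀.under (𝓞 N₂))
      (d1 g hg.1) (d0 g hg.1) (hA2 _ a1) (hA2 _ a0)
      (by rw [RB.under_under, RB.under_under]; exact hne)
    rw [res_res] at h1
    exact h1

end Tower

/-- The restriction of `H` to the decomposition group of `w₁`. -/
noncomputable def rD {H : Subgroup (N ≃ₐ[K] N)} {w₁ : HeightOneSpectrum (𝓞 N₁)}
    (hD : ∀ x ∈ H, Dec w₁ (AlgEquiv.restrictNormalHom N₁ x : N₁ ≃ₐ[K] N₁)) :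
    H →* decGrp K w₁ :=
  (rH N₁ H).codRestrict (decGrp K w₁) fun x => hD x x.2

omit [NumberField K] [IsGalois K N] in
/-- The pieces of case 1. -/
theorem case1_piece {T T₀ : Finset ℕ} (hT : T ⊆ T₀) {H : Subgroup (N ≃ₐ[K] N)}
    {w₁ : HeightOneSpectrum (𝓞 N₁)}
    (hD : ∀ x ∈ H, Dec w₁ (AlgEquiv.restrictNormalHom N₁ x : N₁ ≃ₐ[K] N₁))
    (hcc : ∀ c ∈ H, ¬ IsCC c)
    (hun : ∀ (w : HeightOneSpectrum (𝓞 N)) (g : N ≃ₐ[K] N), Bad N₁ T H w g →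
      w.under (𝓞 N₁) = w₁)
    (B : Subgroup (decGrp K w₁)) (ν : B →* ℂˣ) (x : decGrp K w₁)
    (hν : ν = 1 ∨ ((∀ b : B, FrobPow N₁ w₁ 1 ((b : decGrp K w₁) : N₁ ≃ₐ[K] N₁) → ν b = 1) ∧
        ¬ Above T₀ w₁)) :
    Ty2 T ((B.comap (cj (rD hD) x)).map H.subtype)
      (mapChar (B.comap (cj (rD hD) x)) (ν.comp ((cj (rD hD) x).subgroupComap B))) := by
  rcases hν with rfl | ⟨hν, hA⟩
  · exact ty2_map (fun b => hcc _ (b : H).2) (fun w b _ => rfl) (fun w _ b _ => rfl)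
  have h1 : ∀ b : B.comap (cj (rD hD) x), rH N₁ H b = 1 →
      (ν.comp ((cj (rD hD) x).subgroupComap B)) b = 1 := by
    intro b hb
    refine pulled_one _ _ _ _ _ ?_
    apply Subtype.ext
    exact hb
  refine ty2_map (fun b => hcc _ (b : H).2) ?_ ?_
  · intro w b hb
    by_cases h : rH N₁ H b = 1
    · exact h1 b h
    · have h2 := hun w _ ⟨(b : H).2, h, Or.inl hb⟩
      rw [MonoidHom.comp_apply]
      apply hν
      have h3 : FrobPow N₁ w₁ 1 (rH N₁ H b : N₁ ≃ₐ[K] N₁) := by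
        have h3' : FrobPow N₁ (w.under (𝓞 N₁)) 1
            (AlgEquiv.restrictNormalHom N₁ ((b : H) : N ≃ₐ[K] N) : N₁ ≃ₐ[K] N₁) :=
          RB.frob_restrict hb
        exact h2 ▸ h3'
      have h4 : ((((cj (rD hD) x).subgroupComap B b : B) : decGrp K w₁) : N₁ ≃ₐ[K] N₁) =
          (x : N₁ ≃ₐ[K] N₁)⁻¹ * rH N₁ H b * x := by
        show ((cj (rD hD) x b : decGrp K w₁) : N₁ ≃ₐ[K] N₁) = _
        rw [cj_apply]
        rfl
      rw [h4]
      -- conjugation by an element of the decomposition group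
      have hx : STB.mv ((x : N₁ ≃ₐ[K] N₁) : N₁ ≃+* N₁) w₁ = w₁ := (RB.dec_iff _ _).1 x.2
      intro u v huv
      have e1 : (STB.oMap ((x : N₁ ≃ₐ[K] N₁) : N₁ ≃+* N₁) v : N₁) =
          rH N₁ H b ((STB.oMap ((x : N₁ ≃ₐ[K] N₁) : N₁ ≃+* N₁) u : 𝓞 N₁) : N₁) := by
        show (x : N₁ ≃ₐ[K] N₁) (v : N₁) = rH N₁ H b ((x : N₁ ≃ₐ[K] N₁) (u : N₁))
        rw [huv]
        show (x : N₁ ≃ₐ[K] N₁) ((x : N₁ ≃ₐ[K] N₁)⁻¹
          (rH N₁ H b ((x : N₁ ≃ₐ[K] N₁) (u : N₁)))) = _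
        exact AlgEquiv.apply_symm_apply _ _
      have e2 := h3 _ _ e1
      rw [← map_pow, ← map_sub] at e2
      have e3 := STB.mem_mv ((x : N₁ ≃ₐ[K] N₁) : N₁ ≃+* N₁) w₁
        (STB.oMap ((x : N₁ ≃ₐ[K] N₁) : N₁ ≃+* N₁) (v - u ^ 1))
      rw [hx, RingEquiv.symm_apply_apply] at e3
      exact e3.1 e2
  · intro w hw b hb
    by_cases h : rH N₁ H b = 1
    · exact h1 b h
    · exfalso
      have h2 := hun w _ ⟨(b : H).2, h, Or.inr ⟨hw, hb⟩⟩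
      apply hA
      obtain ⟨q, hq, hqp, hqw⟩ := hw
      rw [← h2]
      exact ⟨q, hT hq, hqp, (RB.natCast_mem_under w q).2 hqw⟩

/-- Case 1 -/
theorem case1 (hM : Stmt_IPULL) {T T₀ : Finset ℕ} (hT : T ⊆ T₀) {H : Subgroup (N ≃ₐ[K] N)}
    {w₁ : HeightOneSpectrum (𝓞 N₁)}
    (hD : ∀ x ∈ H, Dec w₁ (AlgEquiv.restrictNormalHom N₁ x : N₁ ≃ₐ[K] N₁))
    (hcc : ∀ c ∈ H, ¬ IsCC c)
    (hun : ∀ (w : HeightOneSpectrum (𝓞 N)) (g : N ≃ₐ[K] N), Bad N₁ T H w g →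
      w.under (𝓞 N₁) = w₁)
    {f : (N₁ ≃ₐ[K] N₁) → ℂ}
    (hf : (fun g : decGrp K w₁ => f g) ∈ CMB.GS (G := decGrp K w₁) fun B ν =>
      ν = 1 ∨ ((∀ b : B, FrobPow N₁ w₁ 1 ((b : decGrp K w₁) : N₁ ≃ₐ[K] N₁) → ν b = 1) ∧
        ¬ Above T₀ w₁)) :
    (fun h : H => f (rH N₁ H h)) ∈
      CMB.GS (G := H) fun J ν => Ty2 T (J.map H.subtype) (mapChar J ν) :=
  pull_GS hM (rD hD) (fun B ν x hB => case1_piece hT hD hcc hun B ν x hB) hf

end Arith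

end LOC
end StarkC
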