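import Pool.Agent.StarkI.LOC3

/-!
# SLOC: the local-global step for functions vanishing on `p`-elements
-/

open NumberField IsDedekindDomain
open scoped TensorProduct Classical

namespace StarkC

namespace LOC

/-- Enlarge `T₀` by the residue characteristics of the ramified primes. -/
theorem exists_T₁ (hFIN : Stmt_RFIN) (K N₁ : Type) [Field K] [NumberField K] [Field N₁]
    [NumberField N₁] [Algebra K N₁] [IsGalois K N₁] (T₀ : Finset ℕ) :
    ∃ T₁ : Finset ℕ, T₀ ⊆ T₁ ∧ ∀ (w : HeightOneSpectrum (𝓞 N₁)) (g : N₁ ≃ₐ[K] N₁), g ≠ 1 →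
      FrobPow N₁ w 1 g → Above T₁ w := by
  obtain ⟨W, hW⟩ := hFIN K N₁ T₀
  choose l hl1 hl2 using fun w : HeightOneSpectrum (𝓞 N₁) => RKEY.exists_prime_below w
  refine ⟨T₀ ∪ W.image l, Finset.subset_union_left, ?_⟩
  intro w g hg hF
  exact ⟨l w, Finset.mem_union_right _ (Finset.mem_image_of_mem l (hW w (Or.inl ⟨g, hg, hF⟩))),
    hl1 w, hl2 w⟩

end LOC

theorem SLOC_thm (hSOL : Stmt_ISOL) (hM : Stmt_IPULL) (hKEY : Stmt_IKEY) (hLAM : Stmt_SLAM)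
    (hFIN : Stmt_RFIN) : Stmt_SLOC := by
  intro p hp T T₀ hT K N₁ _ _ _ _ _ _ f hi hf hfp hV
  obtain ⟨T₁, hT₁, ram⟩ := LOC.exists_T₁ hFIN K N₁ T₀
  obtain ⟨N₂, _, _, _, _, _, _, N, _, _, _, _, _, _, _, _, _, key1, key2, cen, keyH⟩ :=
    hKEY K N₁ T₁ hi
  obtain ⟨M, m, H, n, hM0, hMp, hH, h1⟩ := hSOL p (Or.inr hp) (N ≃ₐ[K] N)
  refine ⟨N, inferInstance, inferInstance, inferInstance, inferInstance, inferInstance,
    inferInstance, M, hM0, hMp, ?_⟩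
  refine LOC.assemble (F := fun g : N ≃ₐ[K] N => f (AlgEquiv.restrictNormalHom N₁ g)) ?_ H n h1 ?_
  · intro x g
    show f (AlgEquiv.restrictNormalHom N₁ (x⁻¹ * g * x)) = f (AlgEquiv.restrictNormalHom N₁ g)
    rw [map_mul, map_mul, map_inv]
    exact LOC.monComb_class hf _ _
  · intro i
    rcases LOC.sloc_H0 hM hLAM hp hT hT₁ ram key1 key2 cen keyH hi hf hfp hV (H i) (hH i) with
      h | ⟨c, hc, htwo⟩
    · exact LOC.GS_mono (fun J ν h => Or.inr h) h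
    · exact LOC.GS_mono (fun J ν h => Or.inl h) (LOC.case3_odd hM hf hc htwo)

/-- SLOC for functions which also vanish at the complex conjugations: only type 2 occurs. -/
def Stmt_SLOC0 : Prop :=
  ∀ (p : ℕ), p.Prime → ∀ (T T₀ : Finset ℕ), T ⊆ T₀ →
  ∀ (K N₁ : Type) [Field K] [NumberField K] [Field N₁] [NumberField N₁] [Algebra K N₁]
    [IsGalois K N₁] (f : (N₁ ≃ₐ[K] N₁) → ℂ), (∃ i : N₁, i ^ 2 = -1) → IsMonComb f →
    (∀ g, PElt p g → f g = 0) → (∀ c : N₁ ≃ₐ[K] N₁, IsCC c → f c = 0) → (∀ W, VAt T₀ f W) →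
    ∃ (N : Type) (_ : Field N) (_ : NumberField N) (_ : Algebra K N)
      (_ : Algebra N₁ N) (_ : IsScalarTower K N₁ N) (_ : IsGalois K N) (M : ℕ),
      0 < M ∧ Nat.Coprime p M ∧
      (fun g : N ≃ₐ[K] N => (M : ℂ) * f (AlgEquiv.restrictNormalHom N₁ g)) ∈
        CMB.GS (G := N ≃ₐ[K] N) fun H ψ => Ty2 T H ψ

theorem SLOC0_thm (hSOL : Stmt_ISOL) (hM : Stmt_IPULL) (hKEY : Stmt_IKEY) (hLAM : Stmt_SLAM)
    (hFIN : Stmt_RFIN) : Stmt_SLOC0 := by
  intro p hp T T₀ hT K N₁ _ _ _ _ _ _ f hi hf hfp hfc hV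
  obtain ⟨T₁, hT₁, ram⟩ := LOC.exists_T₁ hFIN K N₁ T₀
  obtain ⟨N₂, _, _, _, _, _, _, N, _, _, _, _, _, _, _, _, _, key1, key2, cen, keyH⟩ :=
    hKEY K N₁ T₁ hi
  obtain ⟨M, m, H, n, hM0, hMp, hH, h1⟩ := hSOL p (Or.inr hp) (N ≃ₐ[K] N)
  refine ⟨N, inferInstance, inferInstance, inferInstance, inferInstance, inferInstance,
    inferInstance, M, hM0, hMp, ?_⟩
  refine LOC.assemble (F := fun g : N ≃ₐ[K] N => f (AlgEquiv.restrictNormalHom N₁ g)) ?_ H n h1 ?_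
  · intro x g
    show f (AlgEquiv.restrictNormalHom N₁ (x⁻¹ * g * x)) = f (AlgEquiv.restrictNormalHom N₁ g)
    rw [map_mul, map_mul, map_inv]
    exact LOC.monComb_class hf _ _
  · intro i
    rcases LOC.sloc_H0 hM hLAM hp hT hT₁ ram key1 key2 cen keyH hi hf hfp hV (H i) (hH i) with
      h | ⟨c, hc, htwo⟩
    · exact h
    · have e : (fun h : H i => f (AlgEquiv.restrictNormalHom N₁ (h : N ≃ₐ[K] N))) = 0 := by
        funext h
        rcases htwo h with h2 | h2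
        · show f (LOC.rH N₁ (H i) h) = 0
          rw [h2]
          exact hfp 1 ⟨0, one_pow _⟩
        · show f (LOC.rH N₁ (H i) h) = 0
          rw [h2]
          exact hfc _ (CMB.isCC_restrict (L := N₁) hc)
      rw [e]
      exact Submodule.zero_mem _

end StarkC
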