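import Pool.Agent.Stark.RDefs
import Pool.Agent.StarkT.Defs

/-!
# Stark's conjecture: the classes of the unramified reduction
-/

open NumberField IsDedekindDomain
open scoped TensorProduct Classical

namespace StarkC

/-- Stark's conjecture for the linear characters of odd prime power order over totally complex
base fields. -/
def StarkOddPrimePower : Prop :=
  ∀ (K L : Type) [Field K] [NumberField K] [Field L] [NumberField L] [Algebra K L] [IsGalois K L]
    (ψ : (L ≃ₐ[K] L) →* ℂˣ), IsTotallyComplex K →
    (∃ p n : ℕ, p.Prime ∧ Odd p ∧ ψ ^ (p ^ n) = 1) → StarkLinear K L ψ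

/-- Stark's conjecture for the linear characters `ψ` over totally complex base fields which are
unramified at all finite primes and trivial on the decomposition groups of all primes above the
prime numbers in `T` (characters of ideal class groups). -/
def StarkUnramified (T : Finset ℕ) : Prop :=
  ∀ (K L : Type) [Field K] [NumberField K] [Field L] [NumberField L] [Algebra K L] [IsGalois K L]
    (ψ : (L ≃ₐ[K] L) →* ℂˣ), IsTotallyComplex K →
    (∀ (w : HeightOneSpectrum (𝓞 L)) (g : L ≃ₐ[K] L), FrobPow L w 1 g → ψ g = 1) →
    (∀ w : HeightOneSpectrum (𝓞 L), (∃ p ∈ T, p.Prime ∧ (p : 𝓞 L) ∈ w.asIdeal) →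
      ∀ g : L ≃ₐ[K] L, Dec w g → ψ g = 1) →
    StarkLinear K L ψ

/-- Stark's conjecture for the totally odd linear characters of totally real fields (this is a
theorem of Siegel). -/
def StarkTotallyOdd : Prop :=
  ∀ (K L : Type) [Field K] [NumberField K] [Field L] [NumberField L] [Algebra K L] [IsGalois K L]
    (ψ : (L ≃ₐ[K] L) →* ℂˣ), IsTotallyReal K →
    (∀ (Φ : L →+* ℂ) (c : L ≃ₐ[K] L), ComplexEmbedding.IsConj Φ c → (ψ c : ℂ) = -1) →
    StarkLinear K L ψ

end StarkC
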