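import Pool.Agent.StarkI.LOC2

/-!
# The local-global step: quasi-elementary subgroups with a complex conjugation
-/

open NumberField IsDedekindDomain
open scoped TensorProduct Classical

namespace StarkC
namespace LOC

section Grp

/-- in a group `H` with a cyclic normal subgroup `C` of odd index, an involution is central -/
theorem invol_central {H : Type} [Group H] [Finite H] {C : Subgroup H} (hC : C.Normal)
    (hcyc : IsCyclic C) (hidx : Odd C.index) {c : H} (hc : c * c = 1) (hc1 : c ≠ 1) (h : H) :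
    h * c = c * h := by
  have := hC
  have := hcyc
  have hcC : c ∈ C := by
    have h1 : c ^ C.index ∈ C := Subgroup.pow_index_mem C c
    obtain ⟨k, hk⟩ := hidx
    rw [hk, pow_succ, pow_mul, pow_two, hc, one_pow, one_mul] at h1
    exact h1
  have h2 : h * c * h⁻¹ ∈ C := hC.conj_mem c hcC h
  have h3 : (⟨h * c * h⁻¹, h2⟩ : C) = ⟨c, hcC⟩ := by
    apply QE.unique_two
    · apply Subtype.ext
      show (h * c * h⁻¹) ^ 2 = 1
      rw [conj_pow, pow_two, hc, mul_one, mul_inv_cancel]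
    · apply Subtype.ext
      show c ^ 2 = 1
      rw [pow_two, hc]
    · intro h4
      have h5 : h * c * h⁻¹ = 1 := congrArg Subtype.val h4
      exact hc1 (conj_eq_one_iff.1 h5)
    · intro h4
      exact hc1 (congrArg Subtype.val h4)
  have h4 : h * c * h⁻¹ = c := congrArg Subtype.val h3
  rw [mul_inv_eq_iff_eq_mul] at h4
  exact h4

theorem conj_map {G : Type} [Group G] {H : Subgroup G} {C : Subgroup H} (hC : C.Normal) {y : H}
    (hy : y ∈ C) (h : H) : (h : G) * (y : G) * (h : G)⁻¹ ∈ C.map H.subtype := by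
  have h1 : h * y * h⁻¹ ∈ C := hC.conj_mem y hy h
  exact Subgroup.mem_map_of_mem H.subtype h1

end Grp

section Arith

variable {K N₁ N : Type} [Field K] [NumberField K] [Field N₁] [NumberField N₁] [Field N]
  [NumberField N] [Algebra K N₁] [Algebra K N] [Algebra N₁ N] [IsScalarTower K N₁ N]
  [IsGalois K N₁] [IsGalois K N]

/-- Case 3, `C` of odd index: the restriction to `N₁` has order at most two. -/
theorem case3_two {H : Subgroup (N ≃ₐ[K] N)} {C : Subgroup H} (hC : C.Normal)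
    (hcyc : IsCyclic C) (hidx : Odd C.index)
    (cen : ∀ c u : N ≃ₐ[K] N, IsCC c → u * c = c * u →
        AlgEquiv.restrictNormalHom N₁ u = (1 : N₁ ≃ₐ[K] N₁) ∨
          AlgEquiv.restrictNormalHom N₁ u = (AlgEquiv.restrictNormalHom N₁ c : N₁ ≃ₐ[K] N₁))
    (hi : ∃ i : N₁, i ^ 2 = -1) {c : H} (hc : IsCC (c : N ≃ₐ[K] N)) (h : H) :
    rH N₁ H h = 1 ∨ rH N₁ H h = rH N₁ H c := by
  have hcc : c * c = 1 := Subtype.ext (CMB.isCC_sq hc)
  have hc1 : c ≠ 1 := by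
    rintro rfl
    exact cc_ne_one hi hc (map_one _)
  have h1 := invol_central hC hcyc hidx hcc hc1 h
  exact cen c h hc (congrArg Subtype.val h1)

/-- Case 3, `p = 2`: the complex conjugations invert `C` on `N₁`. -/
theorem case3_inv {H : Subgroup (N ≃ₐ[K] N)} {C : Subgroup H} (hC : C.Normal)
    (hcyc : IsCyclic C) (hodd : Odd (Nat.card C))
    (cen : ∀ c u : N ≃ₐ[K] N, IsCC c → u * c = c * u →
        AlgEquiv.restrictNormalHom N₁ u = (1 : N₁ ≃ₐ[K] N₁) ∨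
          AlgEquiv.restrictNormalHom N₁ u = (AlgEquiv.restrictNormalHom N₁ c : N₁ ≃ₐ[K] N₁))
    {c : H} (hc : IsCC (c : N ≃ₐ[K] N)) {x : H} (hx : x ∈ C) :
    rH N₁ H c * rH N₁ H x * (rH N₁ H c)⁻¹ = (rH N₁ H x)⁻¹ := by
  have hcc : c * c = 1 := Subtype.ext (CMB.isCC_sq hc)
  have hcinv : c⁻¹ = c := inv_eq_of_mul_eq_one_left hcc
  have hx' : c * x * c⁻¹ ∈ C := hC.conj_mem x hx c
  have hcomm : ∀ a ∈ C, ∀ b ∈ C, a * b = b * a := by
    intro a ha b hb
    let _ := IsCyclic.commGroup (α := C)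
    exact congrArg Subtype.val (mul_comm (⟨a, ha⟩ : C) (⟨b, hb⟩ : C))
  set y : H := x * (c * x * c⁻¹) with hy
  have hyC : y ∈ C := C.mul_mem hx hx'
  have hyc : y * c = c * y := by
    have e1 : c * y * c⁻¹ = (c * x * c⁻¹) * x := by
      rw [hy]
      calc c * (x * (c * x * c⁻¹)) * c⁻¹ = (c * x * c⁻¹) * (c * c * x * (c * c)⁻¹) := by group
        _ = (c * x * c⁻¹) * x := by rw [hcc]; group
    rw [hcomm _ hx' _ hx, ← hy, mul_inv_eq_iff_eq_mul] at e1
    exact e1.symm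
  have h1 := cen c y hc (congrArg Subtype.val hyc)
  have h2 : rH N₁ H y = 1 := by
    rcases h1 with h1 | h1
    · exact h1
    · have h3 : rH N₁ H y ^ Nat.card C = 1 := by
        rw [← map_pow]
        have : y ^ Nat.card C = 1 := by
          have h4 : (⟨y, hyC⟩ : C) ^ Nat.card C = 1 := pow_card_eq_one'
          exact congrArg Subtype.val h4
        rw [this, map_one]
      refine QE.eq_one_of_two hodd h3 (n := 1) ?_
      show (rH N₁ H y) ^ (2 ^ 1) = 1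
      have h4 : rH N₁ H y = rH N₁ H c := h1
      rw [h4, pow_one, pow_two, ← map_mul, hcc, map_one]
  rw [hy, map_mul, map_mul, map_mul, map_inv] at h2
  exact eq_inv_of_mul_eq_one_right h2

/-- Case 3, `p = 2`. -/
theorem case3_even (hM : Stmt_IPULL) (hLAM : Stmt_SLAM) {T : Finset ℕ}
    (cen : ∀ c u : N ≃ₐ[K] N, IsCC c → u * c = c * u →
        AlgEquiv.restrictNormalHom N₁ u = (1 : N₁ ≃ₐ[K] N₁) ∨
          AlgEquiv.restrictNormalHom N₁ u = (AlgEquiv.restrictNormalHom N₁ c : N₁ ≃ₐ[K] N₁))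
    {f : (N₁ ≃ₐ[K] N₁) → ℂ} (hf : IsMonComb f) (hfp : ∀ g, PElt 2 g → f g = 0)
    {H : Subgroup (N ≃ₐ[K] N)} {C : Subgroup H} (hC : C.Normal) (hcyc : IsCyclic C)
    (hCodd : Odd (Nat.card C)) {n : ℕ} (hidx : C.index = 2 ^ n)
    (hbad : ∀ w h, ¬ Bad N₁ T H w h) :
    (fun h : H => f (rH N₁ H h)) ∈
      CMB.GS (G := H) fun J ν => Ty2 T (J.map H.subtype) (mapChar J ν) := by
  have := hC
  have := hcyc
  set r : H →* (N₁ ≃ₐ[K] N₁) := rH N₁ H with hr
  set r' : H →* r.range := r.rangeRestrict with hr'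
  have hsurj : Function.Surjective r' := r.rangeRestrict_surjective
  have hfR : IsMonComb (fun y : r.range => f y) := by
    refine monComb_of_GS (P := fun _ _ => True) ?_
    exact pull_GS hM r.range.subtype (P := fun _ _ => True) (fun _ _ _ _ => trivial)
      (monComb_GS hf)
  have hL := hLAM r.range (C.map r') (hC.map r' hsurj)
    (isCyclic_of_surjective _ (r'.subgroupMap_surjective C))
    (by
      have h3 : Nat.card (C.map r') ∣ Nat.card C :=
        Subgroup.card_dvd_of_surjective (r'.subgroupMap C) (r'.subgroupMap_surjective C)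
      exact Odd.of_dvd_nat hCodd h3)
    (by
      have h3 : (C.map r').index ∣ C.index := C.index_map_dvd hsurj
      rw [hidx] at h3
      obtain ⟨k, _, hk⟩ := (Nat.dvd_prime_pow Nat.prime_two).1 h3
      exact ⟨k, hk⟩)
    (fun y => f y) hfR
    (by
      rintro y ⟨k, hk⟩
      exact hfp _ ⟨k, congrArg Subtype.val hk⟩)
  refine pull_GS hM r' (Q := fun J ν => Ty2 T (J.map H.subtype) (mapChar J ν)) ?_ hL
  intro B ν x hB
  refine ty2_of_notBad hbad ?_ ?_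
  · intro b hbc
    obtain ⟨z, hz, hzz⟩ := hB (cj r' x b) b.2
    apply hzz
    -- `b` inverts
    obtain ⟨z', hz', hzx⟩ := (hC.map r' hsurj).conj_mem z hz x
    have hinv : r' b * r' z' * (r' b)⁻¹ = (r' z')⁻¹ := by
      apply Subtype.ext
      exact case3_inv (N₁ := N₁) hC hcyc hCodd cen hbc hz'
    rw [cj_apply]
    calc x⁻¹ * r' b * x * z * (x⁻¹ * r' b * x)⁻¹
        = x⁻¹ * (r' b * (x * z * x⁻¹) * (r' b)⁻¹) * x := by group
      _ = x⁻¹ * (x * z * x⁻¹)⁻¹ * x := by rw [← hzx, hinv]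
      _ = z⁻¹ := by group
  · intro b hb
    refine pulled_one _ _ _ _ _ ?_
    apply Subtype.ext
    exact hb

/-- Case 3, `p` odd. -/
theorem case3_odd (hM : Stmt_IPULL) {f : (N₁ ≃ₐ[K] N₁) → ℂ} (hf : IsMonComb f)
    {H : Subgroup (N ≃ₐ[K] N)} {c : H} (hcc : IsCC (c : N ≃ₐ[K] N))
    (htwo : ∀ h : H, rH N₁ H h = 1 ∨ rH N₁ H h = rH N₁ H c) :
    (fun h : H => f (rH N₁ H h)) ∈ CMB.GS (G := H) fun J ν =>
      Ty1S 2 N₁ (J.map H.subtype) (mapChar J ν) := by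
  have hsq : ∀ b : H, rH N₁ H b ^ 2 = 1 := by
    intro b
    rcases htwo b with h | h
    · rw [h, one_pow]
    · rw [h, pow_two, ← map_mul, show c * c = 1 from Subtype.ext (CMB.isCC_sq hcc), map_one]
  refine pull_GS hM (rH N₁ H) (P := fun _ _ => True) ?_ (monComb_GS hf)
  intro B ν x _
  constructor
  · refine ⟨1, ?_⟩
    ext y
    obtain ⟨b, hb, hν⟩ := exists_rep _ y
    rw [MonoidHom.pow_apply, hν, ← map_pow, pulled_one]
    · rfl
    · rw [Subgroup.coe_pow, map_pow, pow_one]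
      exact hsq _
  · rintro _ ⟨b, hb, rfl⟩
    refine ⟨1, fun x => ?_⟩
    have h5 : (AlgEquiv.restrictNormalHom N₁ ((b : N ≃ₐ[K] N) ^ 2) : N₁ ≃ₐ[K] N₁) = 1 := by
      rw [map_pow]
      exact hsq b
    have h6 := AlgEquiv.restrictNormal_commutes ((b : N ≃ₐ[K] N) ^ 2) N₁ x
    rw [pow_one]
    have h7 : AlgEquiv.restrictNormal ((b : N ≃ₐ[K] N) ^ 2) N₁ = (1 : N₁ ≃ₐ[K] N₁) := h5
    rw [h7, AlgEquiv.one_apply] at h6
    exact h6.symm

/-- The case distinction for one subgroup, `p` prime. -/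
theorem sloc_H0 (hM : Stmt_IPULL) (hLAM : Stmt_SLAM) {p : ℕ} (hp : p.Prime) {T T₀ T₁ : Finset ℕ}
    (hT : T ⊆ T₀) (hT₁ : T₀ ⊆ T₁)
    (ram : ∀ (w : HeightOneSpectrum (𝓞 N₁)) (g : N₁ ≃ₐ[K] N₁), g ≠ 1 → FrobPow N₁ w 1 g →
      Above T₁ w)
    {N₂ : Type} [Field N₂] [NumberField N₂] [Algebra K N₂] [Algebra N₁ N₂]
    [IsScalarTower K N₁ N₂] [IsGalois K N₂] [Algebra N₂ N] [IsScalarTower K N₂ N]
    [IsScalarTower N₁ N₂ N]
    (key1 : ∀ (σ : N₂ ≃ₐ[K] N₂) (P Q : HeightOneSpectrum (𝓞 N₂)), Dec P σ → Dec Q σ →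
        Above T₁ P → Above T₁ Q → P.under (𝓞 N₁) ≠ Q.under (𝓞 N₁) →
        AlgEquiv.restrictNormalHom N₁ σ = 1)
    (key2 : ∀ (c : N₂ ≃ₐ[K] N₂) (P : HeightOneSpectrum (𝓞 N₂)), IsCC c → Above T₁ P →
      ¬ Dec P c)
    (cen : ∀ c u : N ≃ₐ[K] N, IsCC c → u * c = c * u →
        AlgEquiv.restrictNormalHom N₁ u = (1 : N₁ ≃ₐ[K] N₁) ∨
          AlgEquiv.restrictNormalHom N₁ u = (AlgEquiv.restrictNormalHom N₁ c : N₁ ≃ₐ[K] N₁))
    (keyH : ∀ p : ℕ, p = 1 ∨ p.Prime → ∀ H C : Subgroup (N ≃ₐ[K] N), C ≤ H →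
        (∀ h ∈ H, ∀ c ∈ C, h * c * h⁻¹ ∈ C) → IsCyclic C → Nat.Coprime p (Nat.card C) →
        (∃ n : ℕ, ∀ h ∈ H, h ^ (p ^ n) ∈ C) →
        (∃ c ∈ C, AlgEquiv.restrictNormalHom N₁ c ≠ (1 : N₁ ≃ₐ[K] N₁)) →
        ∀ (w : HeightOneSpectrum (𝓞 N)) (h : N ≃ₐ[K] N), Above T₁ w → h ∈ H → Dec w h →
          AlgEquiv.restrictNormalHom N₁ h ≠ (1 : N₁ ≃ₐ[K] N₁) →
          ∀ x ∈ H, Dec (w.under (𝓞 N₂)) (AlgEquiv.restrictNormalHom N₂ x : N₂ ≃ₐ[K] N₂))
    (hi : ∃ i : N₁, i ^ 2 = -1) {f : (N₁ ≃ₐ[K] N₁) → ℂ} (hf : IsMonComb f)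
    (hfp : ∀ g, PElt p g → f g = 0) (hV : ∀ W, VAt T₀ f W)
    (H : Subgroup (N ≃ₐ[K] N)) (hH : IsQE p H) :
    (fun h : H => f (rH N₁ H h)) ∈
      CMB.GS (G := H) (fun J ν => Ty2 T (J.map H.subtype) (mapChar J ν)) ∨
    ∃ c : H, IsCC (c : N ≃ₐ[K] N) ∧ ∀ h : H, rH N₁ H h = 1 ∨ rH N₁ H h = rH N₁ H c := by
  obtain ⟨C, hC, hcyc, hcop, n, hidx⟩ := hH
  have := hC
  have := hcyc
  have hpow : ∀ h : H, h ^ (p ^ n) ∈ C := fun h => hidx ▸ Subgroup.pow_index_mem C h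
  by_cases hC1 : ∀ x ∈ C, rH N₁ H x = 1
  · -- case 0
    have e : (fun h : H => f (rH N₁ H h)) = 0 := by
      funext h
      apply hfp
      exact ⟨n, by rw [← map_pow]; exact hC1 _ (hpow h)⟩
    rw [e]
    exact Or.inl (Submodule.zero_mem _)
  push Not at hC1
  obtain ⟨x₀, hx₀, hx₁⟩ := hC1
  have keyH' := keyH p (Or.inr hp) H (C.map H.subtype)
    (by rintro _ ⟨y, _, rfl⟩; exact y.2)
    (by
      rintro h hh _ ⟨y, hy, rfl⟩
      exact conj_map hC hy ⟨h, hh⟩)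
    (by
      let e := C.equivMapOfInjective H.subtype H.subtype_injective
      exact isCyclic_of_surjective e e.surjective)
    (by
      let e := C.equivMapOfInjective H.subtype H.subtype_injective
      rw [← Nat.card_congr e.toEquiv]
      exact hcop)
    ⟨n, fun h hh => ⟨_, hpow ⟨h, hh⟩, rfl⟩⟩
    ⟨x₀, ⟨x₀, hx₀, rfl⟩, hx₁⟩
  by_cases hbad : ∃ w h, Bad N₁ T H w h
  · -- case 1
    left
    obtain ⟨w₀, h₀, hb⟩ := hbad
    obtain ⟨hD, hcc, hun⟩ := bad_consequences hT hT₁ ram key1 key2 keyH' hb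
    by_cases hA : Above T₀ (w₀.under (𝓞 N₁))
    · have e : (fun h : H => f (rH N₁ H h)) = 0 := by
        funext h
        exact (hV _).1 hA _ (hD h h.2)
      rw [e]
      exact Submodule.zero_mem _
    · refine case1 hM hT hD hcc hun (f := f) ?_
      exact GS_mono (fun B ν h => Or.inr ⟨h, hA⟩) ((hV _).2 hA)
  push Not at hbad
  by_cases hcc : ∀ c ∈ H, ¬ IsCC c
  · -- case 2
    exact Or.inl (case2 hM hbad hcc hf)
  push Not at hcc
  obtain ⟨c', hc', hcc'⟩ := hcc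
  rcases hp.eq_two_or_odd' with h2 | hodd
  · -- case 3, p = 2
    left
    subst h2
    exact case3_even hM hLAM cen hf hfp hC hcyc (Nat.coprime_two_left.1 hcop) hidx hbad
  · -- case 3, p odd
    right
    have hidxo : Odd C.index := by
      rw [hidx]
      exact hodd.pow
    exact ⟨⟨c', hc'⟩, hcc', case3_two (N₁ := N₁) hC hcyc hidxo cen hi hcc'⟩

end Arith

end LOC
end StarkC
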