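import Pool.Agent.StarkI.Defs

/-!
# Stark's conjecture: the classes of the sharper integral reduction
-/

open NumberField IsDedekindDomain
open scoped TensorProduct Classical

namespace StarkC

/-- Stark's conjecture for the linear characters `ψ` of prime power order `p^n` over totally
complex base fields `K` such that the elements of `Gal(L/K)` induce automorphisms of `p`-power
order on `E` (here `L` contains `E`; for `E` Galois over `ℚ` this means that `EK/K` is a
`p`-extension). -/
def StarkPrimePowerExt (E : Type) [Field E] : Prop :=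
  ∀ (K L : Type) [Field K] [NumberField K] [Field L] [NumberField L] [Algebra K L] [IsGalois K L]
    [Algebra E L] (ψ : (L ≃ₐ[K] L) →* ℂˣ), IsTotallyComplex K →
    (∃ p n : ℕ, p.Prime ∧ ψ ^ (p ^ n) = 1 ∧ ∀ g : L ≃ₐ[K] L, ∃ k : ℕ, ∀ x : E,
      (g ^ (p ^ k)) (algebraMap E L x) = algebraMap E L x) →
    StarkLinear K L ψ

/-- Stark's conjecture for the linear characters `ψ` of 2-power order which are odd at every real
place of the base field `K`, where `K` has at most `ε [K : ℚ]` real places and the elements of
`Gal(L/K)` induce automorphisms of 2-power order on `E` (here `L` contains `E`; for `E` Galois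
over `ℚ` this means that `EK/K` is a 2-extension). -/
def StarkTwoPowerOddExt (E : Type) [Field E] (ε : ℝ) : Prop :=
  ∀ (K L : Type) [Field K] [NumberField K] [Field L] [NumberField L] [Algebra K L] [IsGalois K L]
    [Algebra E L] (ψ : (L ≃ₐ[K] L) →* ℂˣ),
    (InfinitePlace.nrRealPlaces K : ℝ) ≤ ε * (Module.finrank ℚ K : ℝ) →
    (∃ n : ℕ, ψ ^ (2 ^ n) = 1) →
    (∀ g : L ≃ₐ[K] L, ∃ k : ℕ, ∀ x : E, (g ^ (2 ^ k)) (algebraMap E L x) = algebraMap E L x) →
    (∀ (Φ : L →+* ℂ) (c : L ≃ₐ[K] L), ComplexEmbedding.IsConj Φ c → (ψ c : ℂ) = -1) →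
    StarkLinear K L ψ

end StarkC
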