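import Pool.Agent.StarkI.SStmts
import Pool.Agent.Stark.SPARSEb

/-!
# Few real places
-/

open NumberField IsDedekindDomain Polynomial
open scoped TensorProduct Classical IntermediateField

namespace StarkC

namespace SEPS

theorem irr (l : ℕ) [Fact l.Prime] : Irreducible (X ^ l - C 2 : ℚ[X]) := by
  have hlp : l.Prime := Fact.out
  refine X_pow_sub_C_irreducible_of_prime hlp fun b => ?_
  refine SPARSE.not_pow (K := ℚ) ?_ b
  rw [Module.finrank_self]
  exact fun h => hlp.one_lt.ne' (Nat.dvd_one.1 h)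

/-- the `l`-th roots of `2` -/
def RR (l : ℕ) (K L : Type) [Field K] [Field L] [Algebra K L] : SubMulAction (L ≃ₐ[K] L) L where
  carrier := {x | x ^ l = 2}
  smul_mem' := by
    intro g x hx
    show (g x) ^ l = 2
    have hx' : x ^ l = 2 := hx
    rw [← map_pow, hx', map_ofNat]

theorem mem_RR {l : ℕ} {K L : Type} [Field K] [Field L] [Algebra K L] {x : L} :
    x ∈ RR l K L ↔ x ^ l = 2 := Iff.rfl

theorem carrier_eq (l : ℕ) [Fact l.Prime] (K L : Type) [Field K] [Field L] [NumberField L]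
    [Algebra K L] : ((RR l K L : SubMulAction (L ≃ₐ[K] L) L) : Set L) =
      (X ^ l - C 2 : ℚ[X]).rootSet L := by
  have hlp : l.Prime := Fact.out
  ext x
  rw [SetLike.mem_coe, mem_RR, mem_rootSet]
  constructor
  · intro h
    refine ⟨(irr l).ne_zero, ?_⟩
    rw [map_sub, map_pow, aeval_X, aeval_C, h, map_ofNat, sub_self]
  · rintro ⟨-, h⟩
    rw [map_sub, map_pow, aeval_X, aeval_C, map_ofNat] at h
    exact sub_eq_zero.1 h

theorem exists_fixed (l : ℕ) [Fact l.Prime] (hodd : Odd l) (E K L : Type) [Field E]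
    [NumberField E] [Field K] [NumberField K] [Field L] [NumberField L] [Algebra K L]
    [IsGalois K L] [Algebra E L] (hs : ((X ^ l - C 2 : ℚ[X]).map (algebraMap ℚ E)).Splits)
    (h : ∀ g : L ≃ₐ[K] L, ∃ k : ℕ, ∀ x : E,
      (g ^ (2 ^ k)) (algebraMap E L x) = algebraMap E L x) : ∃ α : K, α ^ l = 2 := by
  have hsL : ((X ^ l - C 2 : ℚ[X]).map (algebraMap ℚ L)).Splits := by
    have h1 := hs.map (algebraMap E L)
    rwa [Polynomial.map_map, show (algebraMap E L).comp (algebraMap ℚ E) = algebraMap ℚ L from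
      Subsingleton.elim _ _] at h1
  have himg : ∀ x : L, x ^ l = 2 → ∃ y : E, algebraMap E L y = x := by
    intro x hx
    have h1 : x ∈ (X ^ l - C 2 : ℚ[X]).rootSet L := by
      rw [← carrier_eq l K L]
      exact hx
    have h2 := hs.image_rootSet ((algebraMap E L).toRatAlgHom)
    rw [← h2] at h1
    obtain ⟨y, -, hy⟩ := h1
    exact ⟨y, hy⟩
  have hcard : Nat.card (RR l K L) = l := by
    have h1 := Polynomial.card_rootSet_eq_natDegree (K := L) (irr l).separable hsL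
    rw [natDegree_X_pow_sub_C] at h1
    have h2 : Nat.card (RR l K L) = Nat.card ((X ^ l - C 2 : ℚ[X]).rootSet L) :=
      Nat.card_congr (Equiv.setCongr (carrier_eq l K L))
    rw [h2, Nat.card_eq_fintype_card, h1]
  have hpos : 0 < l := (Fact.out : l.Prime).pos
  have hfin : Finite (RR l K L) := Nat.finite_of_card_ne_zero (by rw [hcard]; exact hpos.ne')
  have hP : IsPGroup 2 (MulAction.toPermHom (L ≃ₐ[K] L) (RR l K L)).range := by
    rintro ⟨-, g, rfl⟩
    obtain ⟨k, hk⟩ := h g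
    refine ⟨k, ?_⟩
    apply Subtype.ext
    show (MulAction.toPermHom (L ≃ₐ[K] L) (RR l K L) g) ^ 2 ^ k = 1
    rw [← map_pow]
    ext ⟨x, hx⟩
    obtain ⟨y, rfl⟩ := himg x hx
    exact hk y
  have h3 := hP.card_modEq_card_fixedPoints (RR l K L)
  have hne : (MulAction.fixedPoints (MulAction.toPermHom (L ≃ₐ[K] L) (RR l K L)).range
      (RR l K L)).Nonempty := by
    rw [Set.nonempty_iff_ne_empty]
    intro h4
    rw [h4, hcard, Nat.card_coe_set_eq, Set.ncard_empty] at h3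
    have h5 : l % 2 = 1 := Nat.odd_iff.1 hodd
    have h6 : l % 2 = 0 % 2 := h3
    omega
  obtain ⟨⟨x, hx⟩, hfix⟩ := hne
  have hx2 : ∀ g : L ≃ₐ[K] L, g x = x := by
    intro g
    have h7 := hfix ⟨MulAction.toPermHom (L ≃ₐ[K] L) (RR l K L) g, g, rfl⟩
    exact congrArg Subtype.val h7
  have hx3 : x ∈ (⊥ : IntermediateField K L) := by
    rw [IsGalois.mem_bot_iff_fixed]
    exact hx2
  obtain ⟨α, rfl⟩ := IntermediateField.mem_bot.1 hx3
  refine ⟨α, (algebraMap K L).injective ?_⟩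
  rw [map_pow, map_ofNat]
  exact hx

theorem count (l : ℕ) [Fact l.Prime] (hodd : Odd l) (K : Type) [Field K] [NumberField K] (α : K)
    (hα : α ^ l = 2) : InfinitePlace.nrRealPlaces K * l ≤ Module.finrank ℚ K := by
  have hlp : l.Prime := Fact.out
  have hmin : minpoly ℚ α = X ^ l - C 2 := by
    refine (minpoly.eq_of_irreducible_of_monic (irr l) ?_
      (monic_X_pow_sub_C _ hlp.ne_zero)).symm
    rw [map_sub, map_pow, aeval_X, hα, aeval_C, map_ofNat, sub_self]
  have hF : Module.finrank ℚ ℚ⟮α⟯ = l := by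
    rw [IntermediateField.adjoin.finrank (Algebra.IsIntegral.isIntegral α), hmin,
      natDegree_X_pow_sub_C]
  rw [← Module.finrank_mul_finrank ℚ ℚ⟮α⟯ K, hF, mul_comm]
  refine Nat.mul_le_mul_left _ ?_
  rcases Nat.eq_zero_or_pos (InfinitePlace.nrRealPlaces K) with h0 | h0
  · rw [h0]
    exact Nat.zero_le _
  · rw [← InfinitePlace.card_real_embeddings] at h0 ⊢
    obtain ⟨φ₀, h₀⟩ := Fintype.card_pos_iff.1 h0
    have hagree : ∀ φ : K →+* ℂ, ComplexEmbedding.IsReal φ → ∀ z : ℚ⟮α⟯,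
        φ (algebraMap ℚ⟮α⟯ K z) = φ₀ (algebraMap ℚ⟮α⟯ K z) := by
      intro φ hφ z
      have h1 : (φ.comp (algebraMap ℚ⟮α⟯ K)).toRatAlgHom =
          (φ₀.comp (algebraMap ℚ⟮α⟯ K)).toRatAlgHom := by
        refine IntermediateField.algHom_ext_of_eq_adjoin ℚ rfl ?_
        intro x hx
        rw [Set.mem_singleton_iff] at hx
        subst hx
        exact SPARSE.real_root hodd φ φ₀ hα hφ h₀
      exact DFunLike.congr_fun h1 z
    let _ : Algebra ℚ⟮α⟯ ℂ := (φ₀.comp (algebraMap ℚ⟮α⟯ K)).toAlgebra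
    have hc : Fintype.card (K →ₐ[ℚ⟮α⟯] ℂ) = Module.finrank ℚ⟮α⟯ K := AlgHom.card ℚ⟮α⟯ K ℂ
    rw [← hc]
    refine Fintype.card_le_of_injective
      (fun φ : {φ : K →+* ℂ // ComplexEmbedding.IsReal φ} =>
        ({ φ.1 with commutes' := fun r => hagree φ.1 φ.2 r } : K →ₐ[ℚ⟮α⟯] ℂ)) ?_
    rintro ⟨φ₁, h1⟩ ⟨φ₂, h2⟩ h
    apply Subtype.ext
    exact congrArg (fun f : K →ₐ[ℚ⟮α⟯] ℂ => (f : K →+* ℂ)) h

end SEPS

/-- S_EPS. -/
theorem SEPS_thm : Stmt_SEPS := by
  intro l hl hodd E K L _ _ _ _ _ _ _ _ _ hs h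
  have : Fact l.Prime := ⟨hl⟩
  obtain ⟨α, hα⟩ := SEPS.exists_fixed l hodd E K L hs h
  exact_mod_cast SEPS.count l hodd K α hα

end StarkC
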