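import Pool.Agent.StarkI.SStmts
import Pool.Agent.Stark.CMB

/-!
# Module STY1: characters of 2-power order, with control of the subgroups
-/

open NumberField IsDedekindDomain
open scoped TensorProduct Classical

namespace StarkC

namespace STY1

open CMB

theorem GS_mono {G : Type} [Group G] [Fintype G] {P Q : ∀ H : Subgroup G, (H →* ℂˣ) → Prop}
    (h : ∀ H ψ, P H ψ → Q H ψ) : GS P ≤ GS Q := by
  unfold GS
  refine Submodule.span_le.2 ?_
  rintro _ ⟨t, rfl⟩
  exact mem_GS_of t.1.1 t.1.2 (h _ _ t.2)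

section arith

variable {K L N : Type} [Field K] [NumberField K] [Field L] [NumberField L] [Field N]
  [NumberField N] [Algebra K L] [Algebra K N] [Algebra L N] [IsScalarTower K L N] [IsGalois K L]
  [IsGalois K N]

/-- The step `(ii)`: a linear character of 2-power order. -/
theorem step2 (H : Subgroup (N ≃ₐ[K] N)) (ψ : H →* ℂˣ) (a : ℕ) (hψ : ψ ^ (2 ^ a) = 1) (b : N)
    (hH : ∀ h : H, (h : N ≃ₐ[K] N) (b ^ 2) = b ^ 2)
    (hAR : ∀ (Φ : N →+* ℂ) (c : H), ComplexEmbedding.IsConj Φ (c : N ≃ₐ[K] N) →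
      (ψ c = 1 → (Φ (b ^ 2)).re < 0) ∧ (ψ c ≠ 1 → 0 < (Φ (b ^ 2)).re)) :
    indFun H (extZ ψ) ∈ GS (G := N ≃ₐ[K] N) (fun J χ => J ≤ H ∧ (∃ n : ℕ, χ ^ (2 ^ n) = 1) ∧
      ((∀ c ∈ J, ¬ IsCC c) ∨ ∀ c : J, IsCC (c : N ≃ₐ[K] N) → ((χ c : ℂˣ) : ℂ) = -1)) := by
  by_cases hno : ∀ c ∈ H, ¬ IsCC c
  · exact mem_GS_of _ _ ⟨le_rfl, ⟨a, hψ⟩, Or.inl hno⟩
  push Not at hno
  obtain ⟨c0, hc0, Φ0, hΦ0⟩ := hno
  have hb : b ≠ 0 := by
    rintro rfl
    have h := hAR Φ0 ⟨c0, hc0⟩ hΦ0
    by_cases h1 : ψ ⟨c0, hc0⟩ = 1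
    · simpa using h.1 h1
    · simpa using h.2 h1
  have hb2 : b ≠ -b := by
    intro h
    apply hb
    have h2 : (2 : N) * b = 0 := by rw [two_mul]; nth_rewrite 1 [h]; simp
    rcases mul_eq_zero.1 h2 with h3 | h3
    · norm_num at h3
    · exact h3
  have hpm : ∀ g : H, (g : N ≃ₐ[K] N) b = b ∨ (g : N ≃ₐ[K] N) b = -b := by
    intro g
    have h := hH g
    rw [map_pow] at h
    exact sq_eq_sq_iff_eq_or_eq_neg.1 h
  have hneu : (-1 : ℂˣ) ≠ 1 := by
    intro h
    have := congrArg (fun u : ℂˣ => (u : ℂ)) h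
    norm_num at this
  let eps : H →* ℂˣ :=
    { toFun := fun g => if (g : N ≃ₐ[K] N) b = b then 1 else -1
      map_one' := by
        rw [if_pos]
        rfl
      map_mul' := by
        intro g h
        have e : ((g * h : H) : N ≃ₐ[K] N) b = (g : N ≃ₐ[K] N) ((h : N ≃ₐ[K] N) b) := rfl
        rw [e]
        rcases hpm g with hg | hg <;> rcases hpm h with hh | hh
        · rw [hh, hg]; simp
        · rw [hh, map_neg, hg, if_neg hb2.symm, if_pos rfl]; simp
        · rw [hh, hg, if_neg hb2.symm, if_pos rfl]; simp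
        · rw [hh, map_neg, hg, neg_neg, if_pos rfl, if_neg hb2.symm]; simp }
  have heps1 : ∀ g : H, (g : N ≃ₐ[K] N) b = b → eps g = 1 := fun g hg => if_pos hg
  have heps2 : ∀ g : H, (g : N ≃ₐ[K] N) b = -b → eps g = -1 := by
    intro g hg
    show (if (g : N ≃ₐ[K] N) b = b then (1 : ℂˣ) else -1) = -1
    rw [if_neg]
    rw [hg]
    exact hb2.symm
  have hsq : ∀ c : H, IsCC (c : N ≃ₐ[K] N) → ∀ χ : H →* ℂˣ, χ c ≠ 1 → ((χ c : ℂˣ) : ℂ) = -1 := by
    intro c hc χ hχ
    have h1 : c * c = 1 := Subtype.ext (isCC_sq hc)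
    have h2 : χ c * χ c = 1 := by rw [← map_mul, h1, map_one]
    have h3 : ((χ c : ℂˣ) : ℂ) * ((χ c : ℂˣ) : ℂ) = 1 := by
      rw [← Units.val_mul, h2, Units.val_one]
    rcases mul_self_eq_one_iff.1 h3 with h4 | h4
    · exact absurd (Units.ext h4) hχ
    · exact h4
  -- sign of `Φ (b ^ 2)`
  have hpos : ∀ (Φ : N →+* ℂ) (c : H), ComplexEmbedding.IsConj Φ (c : N ≃ₐ[K] N) →
      (c : N ≃ₐ[K] N) b = b → ψ c ≠ 1 := by
    intro Φ c hΦ hcb h1
    have h2 := (hAR Φ c hΦ).1 h1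
    have h3 : Φ b = star (Φ b) := by
      have := hΦ.eq b
      rwa [hcb] at this
    have h4 : (Φ b).im = 0 := by
      have := congrArg Complex.im h3
      rw [Complex.star_def, Complex.conj_im] at this
      linarith
    rw [map_pow, sq, Complex.mul_re, h4] at h2
    nlinarith [mul_self_nonneg (Φ b).re]
  have hnegv : ∀ (Φ : N →+* ℂ) (c : H), ComplexEmbedding.IsConj Φ (c : N ≃ₐ[K] N) →
      (c : N ≃ₐ[K] N) b = -b → ψ c = 1 := by
    intro Φ c hΦ hcb
    by_contra h1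
    have h2 := (hAR Φ c hΦ).2 h1
    have h3 : Φ (-b) = star (Φ b) := by
      have := hΦ.eq b
      rwa [hcb] at this
    have h4 : (Φ b).re = 0 := by
      have := congrArg Complex.re h3
      rw [map_neg, Complex.neg_re, Complex.star_def, Complex.conj_re] at this
      linarith
    rw [map_pow, sq, Complex.mul_re, h4] at h2
    nlinarith [mul_self_nonneg (Φ b).im]
  by_cases hall : ∀ g : H, eps g = 1
  · refine mem_GS_of _ _ ⟨le_rfl, ⟨a, hψ⟩, Or.inr ?_⟩
    intro c hc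
    have hcb : (c : N ≃ₐ[K] N) b = b := by
      rcases hpm c with h | h
      · exact h
      · exact absurd ((heps2 c h).symm.trans (hall c)) hneu
    apply hsq c hc
    obtain ⟨Φ, hΦ⟩ := hc
    exact hpos Φ c hΦ hcb
  · push Not at hall
    obtain ⟨g0, hg0⟩ := hall
    have h12 : ∀ g, eps g = 1 ∨ eps g = -1 := by
      intro g
      rcases hpm g with h | h
      · exact Or.inl (heps1 g h)
      · exact Or.inr (heps2 g h)
    set J : Subgroup (N ≃ₐ[K] N) := eps.ker.map H.subtype with hJdef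
    have hle : J ≤ H := Subgroup.map_subtype_le _
    have key : indFun H (extZ ψ) = indFun J (extZ (ψ.comp (Subgroup.inclusion hle))) -
        indFun H (extZ (ψ * eps)) := by
      funext g
      rw [indFun_restrict, Pi.sub_apply]
      have e1 := indFun_trans H eps.ker (extZ ψ) (fun x => extZ ψ x + extZ (ψ * eps) x) (by
        intro h
        rw [indFun_class eps.ker (fun y : H => extZ ψ y)
          (fun x g => extZ_class ψ x g x.2 g.2) h, half eps h12 g0 hg0 h]
        show extZ ψ (h : N ≃ₐ[K] N) + extZ (ψ * eps) (h : N ≃ₐ[K] N) =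
          extZ ψ (h : N ≃ₐ[K] N) * (1 + (eps h : ℂ))
        rw [extZ_apply, extZ_apply, MonoidHom.mul_apply, Units.val_mul]
        ring) g
      rw [hJdef, ← e1]
      have e2 : indFun H (fun x => extZ ψ x + extZ (ψ * eps) x) g =
          indFun H (extZ ψ) g + indFun H (extZ (ψ * eps)) g := by
        have := indFun_sub H (fun x => extZ ψ x + extZ (ψ * eps) x) (extZ (ψ * eps)) g
        rw [sub_eq_iff_eq_add.1 this.symm]
        congr 2
        funext x
        ring
      rw [e2]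
      ring
    rw [key]
    refine Submodule.sub_mem _ (mem_GS_of _ _ ⟨hle, ⟨a, ?_⟩, Or.inr ?_⟩)
      (mem_GS_of _ _ ⟨le_rfl, ⟨a + 1, ?_⟩, Or.inr ?_⟩)
    · refine MonoidHom.ext fun x => ?_
      rw [MonoidHom.pow_apply, MonoidHom.one_apply, MonoidHom.comp_apply, ← MonoidHom.pow_apply,
        hψ, MonoidHom.one_apply]
    · intro c hc
      have h1 : eps (Subgroup.inclusion hle c) = 1 := by
        obtain ⟨c', hc', hcc'⟩ := c.2
        have : Subgroup.inclusion hle c = c' := Subtype.ext hcc'.symm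
        rw [this]
        exact hc'
      have hcb : (c : N ≃ₐ[K] N) b = b := by
        rcases hpm (Subgroup.inclusion hle c) with h | h
        · exact h
        · exact absurd ((heps2 _ h).symm.trans h1) hneu
      refine hsq (Subgroup.inclusion hle c) hc ψ ?_
      obtain ⟨Φ, hΦ⟩ := hc
      exact hpos Φ (Subgroup.inclusion hle c) hΦ hcb
    · refine MonoidHom.ext fun x => ?_
      rw [MonoidHom.pow_apply, MonoidHom.one_apply, MonoidHom.mul_apply, mul_pow]
      have e1 : (ψ x) ^ (2 ^ (a + 1)) = 1 := by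
        rw [pow_succ, pow_mul, ← MonoidHom.pow_apply, hψ, MonoidHom.one_apply, one_pow]
      have e2 : (eps x) ^ (2 ^ (a + 1)) = 1 := by
        rw [pow_succ', pow_mul]
        rcases h12 x with h | h <;> rw [h] <;> simp
      rw [e1, e2, mul_one]
    · intro c hc
      rcases hpm c with h | h
      · rw [MonoidHom.mul_apply, heps1 c h, mul_one]
        apply hsq c hc
        obtain ⟨Φ, hΦ⟩ := hc
        exact hpos Φ c hΦ h
      · obtain ⟨Φ, hΦ⟩ := hc
        rw [MonoidHom.mul_apply, heps2 c h, hnegv Φ c hΦ h, one_mul]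
        simp

end arith

end STY1

/-- MODULE STY1. -/
theorem STY1_thm (h1 : StarkC.Stmt_AR2) (h2 : StarkC.Stmt_AR3) : StarkC.Stmt_STY1 := by
  intro E N _ _ _ _ _ _ H ψ hψ
  obtain ⟨⟨a, ha⟩, hE⟩ := hψ
  obtain ⟨α, hα1, hα2⟩ := h1 ℚ N H ψ
  obtain ⟨N', iF, iN, iA, iL, iT, iG, hN⟩ := h2 ℚ N {α}
  obtain ⟨b, hb⟩ := hN α (Finset.mem_singleton_self α)
  obtain rfl : iA = DivisionRing.toRatAlgebra := Subsingleton.elim _ _
  let iE : Algebra E N' := ((algebraMap N N').comp (algebraMap E N)).toAlgebra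
  have iS : IsScalarTower E N N' := IsScalarTower.of_algebraMap_eq' rfl
  refine ⟨N', iF, iN, iL, iE, iS, iG, ?_⟩
  set r : (N' ≃ₐ[ℚ] N') →* (N ≃ₐ[ℚ] N) := AlgEquiv.restrictNormalHom N with hr
  have hsurj : Function.Surjective r := AlgEquiv.restrictNormalHom_surjective N'
  let χ : H.comap r →* ℂˣ := ψ.comp (r.subgroupComap H)
  have hlift : extZ χ = fun x => extZ ψ (r x) := rfl
  have e1 : (fun g : N' ≃ₐ[ℚ] N' => indFun H (extZ ψ) (r g)) = indFun (H.comap r) (extZ χ) := by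
    funext g
    rw [CMB.indFun_infl r hsurj, hlift]
  rw [e1]
  have hs2 := STY1.step2 (K := ℚ) (N := N') (H.comap r) χ a (by
      refine MonoidHom.ext fun x => ?_
      rw [MonoidHom.pow_apply, MonoidHom.one_apply]
      show (ψ _) ^ (2 ^ a) = 1
      rw [← MonoidHom.pow_apply, ha, MonoidHom.one_apply]) b (by
      intro h
      rw [hb]
      have e2 : algebraMap N N' (r h.1 α) = h.1 (algebraMap N N' α) :=
        AlgEquiv.restrictNormal_commutes h.1 N α
      rw [← e2, hα1 _ h.2]) (by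
      intro Φ c hΦ
      rw [hb]
      exact hα2 (Φ.comp (algebraMap N N')) (r c.1) c.2 (CMB.isConj_restrict hΦ))
  refine STY1.GS_mono ?_ hs2
  rintro J θ ⟨hJ, hn, hc⟩
  refine ⟨⟨hn, fun h hh => ?_⟩, hc⟩
  obtain ⟨k, hk⟩ := hE (r h) (hJ hh)
  refine ⟨k, fun x => ?_⟩
  have e3 : algebraMap E N' x = algebraMap N N' (algebraMap E N x) := rfl
  have e4 : algebraMap N N' (r (h ^ (2 ^ k)) (algebraMap E N x)) =
      (h ^ (2 ^ k)) (algebraMap N N' (algebraMap E N x)) :=
    AlgEquiv.restrictNormal_commutes (h ^ (2 ^ k)) N (algebraMap E N x)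
  rw [e3, ← e4, map_pow, hk x]

end StarkC
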