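import Pool.Agent.StarkI.SSPANZ
import Pool.Agent.StarkI.STY1
import Pool.Agent.StarkI.SEPS
import Pool.Agent.StarkI.SLOC
import Pool.Agent.StarkI.SLOCa
import Pool.Agent.Stark.EPS
import Pool.Agent.StarkT.StmtsI
import Pool.Agent.Stark.RFKS

/-!
# Stark's conjecture, sharper integral reduction: the assembly (module SMAIN)
-/

set_option linter.unusedSectionVars false

open NumberField IsDedekindDomain
open scoped TensorProduct Classical

namespace StarkC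

namespace SMAIN

/-- The final types. -/
def FinTy (T : Finset ℕ) (E : Type) [Field E] {N : Type} [Field N] [NumberField N] [Algebra E N]
    (H : Subgroup (N ≃ₐ[ℚ] N)) (ψ : H →* ℂˣ) : Prop :=
  (∃ q : ℕ, q.Prime ∧ Ty1S q E H ψ ∧ ((∀ c ∈ H, ¬ IsCC c) ∨
    (q = 2 ∧ ∀ c : H, IsCC (c : N ≃ₐ[ℚ] N) → ((ψ c : ℂˣ) : ℂ) = -1))) ∨ Ty2 T H ψ ∨ Ty3 H ψ

section infl

variable {E N N' : Type} [Field E] [NumberField E] [Field N] [NumberField N] [Field N']
  [NumberField N'] [Algebra E N] [Algebra E N'] [Algebra N N'] [IsGalois ℚ N] [IsGalois ℚ N']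

theorem finTy_infl
    (hE : ∀ x : E, ∃ y : E, algebraMap E N' x = algebraMap N N' (algebraMap E N y))
    (T : Finset ℕ) (H : Subgroup (N ≃ₐ[ℚ] N)) (ψ : H →* ℂˣ) (h : FinTy T E H ψ)
    (r : (N' ≃ₐ[ℚ] N') →* (N ≃ₐ[ℚ] N)) (hr : r = AlgEquiv.restrictNormalHom N) :
    FinTy T E (H.comap r) (ψ.comp (r.subgroupComap H)) := by
  rcases h with ⟨q, hq, h1, h2⟩ | h
  · refine Or.inl ⟨q, hq, ?_, ?_⟩
    · have h3 := SSPANZ.tys_infl (N' := N') hE T H ψ (Or.inl ⟨q, hq, h1⟩) r hr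
      subst hr
      obtain ⟨⟨a, ha⟩, hE'⟩ := h1
      refine ⟨⟨a, ?_⟩, ?_⟩
      · refine MonoidHom.ext fun x => ?_
        rw [MonoidHom.pow_apply, MonoidHom.one_apply, MonoidHom.comp_apply,
          ← MonoidHom.pow_apply, ha, MonoidHom.one_apply]
      · intro g hg
        obtain ⟨k, hk⟩ := hE' _ hg
        refine ⟨k, fun x => ?_⟩
        obtain ⟨y, hy⟩ := hE x
        have e2 : algebraMap N N' ((AlgEquiv.restrictNormalHom N (g ^ (q ^ k)) : N ≃ₐ[ℚ] N)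
            (algebraMap E N y)) = (g ^ (q ^ k)) (algebraMap N N' (algebraMap E N y)) :=
          AlgEquiv.restrictNormal_commutes (g ^ (q ^ k)) N (algebraMap E N y)
        rw [hy, ← e2, map_pow, hk y]
    · subst hr
      rcases h2 with h2 | ⟨h2, h3⟩
      · left
        intro c hc hcc
        exact h2 _ hc (CMB.isCC_restrict hcc)
      · refine Or.inr ⟨h2, ?_⟩
        intro c hcc
        exact h3 _ (CMB.isCC_restrict hcc)
  · have h3 := SSPANZ.tys_infl (N' := N') hE T H ψ (Or.inr h) r hr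
    rcases h3 with ⟨q, hq, h3⟩ | h3
    · -- the type of the inflated pair is decided by `h`
      subst hr
      rcases h with ⟨h1, h2, h4⟩ | h
      · refine Or.inr (Or.inl ⟨?_, ?_, ?_⟩)
        · intro c hc hcc
          exact h1 _ hc (CMB.isCC_restrict hcc)
        · intro w g hg
          exact h2 _ _ (RB.frob_restrict hg)
        · intro w hw g hg
          exact h4 _ ((SLOC.above_under (N₁ := N) T w).2 hw) _ (RB.dec_restrict hg)
      · refine Or.inr (Or.inr ?_)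
        intro c hcc
        obtain ⟨h5, h6⟩ := h _ (CMB.isCC_restrict hcc)
        exact ⟨h5, h6⟩
    · exact Or.inr h3

end infl

/-- Inflation of spans. -/
theorem infl_GSP {N N' : Type} [Field N] [NumberField N] [Field N'] [NumberField N']
    [Algebra N N'] [IsGalois ℚ N] [IsGalois ℚ N']
    {P : ∀ H : Subgroup (N ≃ₐ[ℚ] N), (H →* ℂˣ) → Prop}
    {Q : ∀ H : Subgroup (N' ≃ₐ[ℚ] N'), (H →* ℂˣ) → Prop}
    (r : (N' ≃ₐ[ℚ] N') →* (N ≃ₐ[ℚ] N)) (hr : r = AlgEquiv.restrictNormalHom N)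
    (hPQ : ∀ H ψ, P H ψ → Q (H.comap r) (ψ.comp (r.subgroupComap H)))
    {F : (N ≃ₐ[ℚ] N) → ℂ} (hF : F ∈ CMB.GS (G := N ≃ₐ[ℚ] N) P) :
    (fun g : N' ≃ₐ[ℚ] N' => F (r g)) ∈ CMB.GS (G := N' ≃ₐ[ℚ] N') Q := by
  obtain ⟨m, H, ψ, n, hP, hF'⟩ := CMB.of_mem_GS hF
  have hsurj : Function.Surjective r := by
    rw [hr]
    exact AlgEquiv.restrictNormalHom_surjective N'
  have e1 : (fun g : N' ≃ₐ[ℚ] N' => F (r g)) =
      ∑ i, n i • indFun ((H i).comap r) (extZ ((ψ i).comp (r.subgroupComap (H i)))) := by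
    funext g
    rw [hF', Finset.sum_apply]
    refine Finset.sum_congr rfl fun i _ => ?_
    rw [Pi.smul_apply, zsmul_eq_mul, CMB.indFun_infl r hsurj]
    rfl
  rw [e1]
  exact Submodule.sum_mem _ fun i _ => Submodule.smul_mem _ _
    (CMB.mem_GS_of _ _ (hPQ (H i) (ψ i) (hP i)))

/-- `F` is in the span of the final types over some larger field. -/
def FM (T : Finset ℕ) (E N : Type) [Field E] [NumberField E] [Field N] [NumberField N]
    [IsGalois ℚ N] (F : (N ≃ₐ[ℚ] N) → ℂ) : Prop :=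
  ∃ (N' : Type) (_ : Field N') (_ : NumberField N') (_ : Algebra N N') (_ : Algebra E N')
    (_ : IsGalois ℚ N'), (fun g : N' ≃ₐ[ℚ] N' => F (AlgEquiv.restrictNormalHom N g)) ∈
      CMB.GS (G := N' ≃ₐ[ℚ] N') (FinTy T E (N := N'))

theorem FM.add (hc : Stmt_SCOMP) {T : Finset ℕ} {E N : Type} [Field E] [NumberField E]
    [IsGalois ℚ E] [Field N] [NumberField N] [IsGalois ℚ N] {F₁ F₂ : (N ≃ₐ[ℚ] N) → ℂ}
    (h₁ : FM T E N F₁) (h₂ : FM T E N F₂) : FM T E N (F₁ + F₂) := by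
  obtain ⟨N₁, iF1, iN1, aL1, aE1, iG1, h1⟩ := h₁
  obtain ⟨N₂, iF2, iN2, aL2, aE2, iG2, h2⟩ := h₂
  obtain ⟨N', iF, iN, a1, a2, iG, h⟩ := SSPANZ.common hc N N₁ N₂
  let aL : Algebra N N' := ((algebraMap N₁ N').comp (algebraMap N N₁)).toAlgebra
  let aE : Algebra E N' := ((algebraMap N₁ N').comp (algebraMap E N₁)).toAlgebra
  refine ⟨N', iF, iN, aL, aE, iG, ?_⟩
  have g1 := infl_GSP (N := N₁) (N' := N') (Q := FinTy T E (N := N')) _ rfl
    (fun H ψ hP => finTy_infl (E := E) (N := N₁) (N' := N') (fun x => ⟨x, rfl⟩) T H ψ hP _ rfl) h1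
  have g2 := infl_GSP (N := N₂) (N' := N') (Q := FinTy T E (N := N')) _ rfl
    (fun H ψ hP => finTy_infl (E := E) (N := N₂) (N' := N')
      (fun x => SSPANZ.same_range ((algebraMap N₁ N').comp (algebraMap E N₁))
      ((algebraMap N₂ N').comp (algebraMap E N₂)) x) T H ψ hP _ rfl) h2
  have e : (fun g : N' ≃ₐ[ℚ] N' => (F₁ + F₂) (AlgEquiv.restrictNormalHom N g)) =
      (fun g : N' ≃ₐ[ℚ] N' => F₁ (AlgEquiv.restrictNormalHom N
        (AlgEquiv.restrictNormalHom N₁ g : N₁ ≃ₐ[ℚ] N₁))) +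
      (fun g : N' ≃ₐ[ℚ] N' => F₂ (AlgEquiv.restrictNormalHom N
        (AlgEquiv.restrictNormalHom N₂ g : N₂ ≃ₐ[ℚ] N₂))) := by
    funext g
    rw [Pi.add_apply, Pi.add_apply, SSPANZ.res_res (L := N) (N := N₁) (N' := N') (fun x => rfl),
      SSPANZ.res_res (L := N) (N := N₂) (N' := N') (fun x => (h x).symm)]
  rw [e]
  exact Submodule.add_mem _ g1 g2

theorem FM.smul {T : Finset ℕ} {E N : Type} [Field E] [NumberField E]
    [Field N] [NumberField N] [IsGalois ℚ N] {F : (N ≃ₐ[ℚ] N) → ℂ} (n : ℤ)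
    (h : FM T E N F) : FM T E N (n • F) := by
  obtain ⟨N₁, iF1, iN1, aL1, aE1, iG1, h1⟩ := h
  refine ⟨N₁, iF1, iN1, aL1, aE1, iG1, ?_⟩
  exact Submodule.smul_mem _ n h1

/-- A member of the span over `N` itself. -/
theorem FM.self {T : Finset ℕ} {E N : Type} [Field E] [NumberField E]
    [Field N] [NumberField N] [IsGalois ℚ N] [Algebra E N] {F : (N ≃ₐ[ℚ] N) → ℂ}
    (h : F ∈ CMB.GS (G := N ≃ₐ[ℚ] N) (FinTy T E (N := N))) : FM T E N F := by
  refine ⟨N, inferInstance, inferInstance, inferInstance, inferInstance, inferInstance, ?_⟩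
  have e : (fun g : N ≃ₐ[ℚ] N => F (AlgEquiv.restrictNormalHom N g)) = F := by
    funext g
    congr 1
    ext x
    exact AlgEquiv.restrictNormal_commutes g N x
  rw [e]
  exact h

/-- A complex conjugation moves `√-1`. -/
theorem cc_i {E N : Type} [Field E] [Field N] [Algebra ℚ N] [Algebra E N]
    {i : E} (hi : i ^ 2 = -1) {c : N ≃ₐ[ℚ] N} (hc : IsCC c) :
    c (algebraMap E N i) ≠ algebraMap E N i := by
  obtain ⟨Φ, hΦ⟩ := hc
  intro h
  have h1 := RingHom.congr_fun hΦ (algebraMap E N i)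
  have h2 : (starRingEnd ℂ) (Φ (algebraMap E N i)) = Φ (algebraMap E N i) := by
    have h3 : (starRingEnd ℂ) (Φ (algebraMap E N i)) = Φ (c (algebraMap E N i)) := h1
    rw [h3, h]
  have h4 : (Φ (algebraMap E N i)) ^ 2 = -1 := by
    rw [← map_pow, ← map_pow, hi, map_neg, map_neg, map_one, map_one]
  obtain ⟨r, hr⟩ := Complex.conj_eq_iff_real.1 h2
  rw [hr] at h4
  have h5 : ((r ^ 2 : ℝ) : ℂ) = ((-1 : ℝ) : ℂ) := by
    push_cast
    exact h4
  have h6 : r ^ 2 = -1 := Complex.ofReal_injective h5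
  nlinarith [sq_nonneg r]

theorem cc_sq {N : Type} [Field N] [Algebra ℚ N] {c : N ≃ₐ[ℚ] N} (hc : IsCC c) : c * c = 1 := by
  obtain ⟨Φ, hΦ⟩ := hc
  ext x
  apply Φ.injective
  have h1 := RingHom.congr_fun hΦ (c x)
  have h2 := RingHom.congr_fun hΦ x
  have h1' : (starRingEnd ℂ) (Φ (c x)) = Φ (c (c x)) := h1
  have h2' : (starRingEnd ℂ) (Φ x) = Φ (c x) := h2
  show Φ (c (c x)) = Φ x
  rw [← h1', ← h2', Complex.conj_conj]

/-- Odd prime power types have no complex conjugations. -/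
theorem noCC_odd {E N : Type} [Field E] [Field N] [NumberField N] [Algebra E N]
    (hi : ∃ i : E, i ^ 2 = -1) {q : ℕ} (hq : Odd q) {H : Subgroup (N ≃ₐ[ℚ] N)} {ψ : H →* ℂˣ}
    (h : Ty1S q E H ψ) : ∀ c ∈ H, ¬ IsCC c := by
  intro c hc hcc
  obtain ⟨i, hi⟩ := hi
  obtain ⟨k, hk⟩ := h.2 c hc
  have h1 : c ^ (q ^ k) = c := by
    obtain ⟨t, ht⟩ := hq.pow (n := k)
    rw [ht, pow_succ, pow_mul, pow_two, cc_sq hcc, one_pow, one_mul]
  rw [h1] at hk
  exact cc_i hi hcc (hk i)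

/-- Each generator is in the span of the final types. -/
theorem gen_FM (hTY : Stmt_STY1) (T : Finset ℕ) (E N : Type) [Field E] [NumberField E]
    [Field N] [NumberField N] [Algebra E N] [IsGalois ℚ N] (hi : ∃ i : E, i ^ 2 = -1)
    (H : Subgroup (N ≃ₐ[ℚ] N)) (ψ : H →* ℂˣ) (h : SSPANZ.Tys T E N H ψ) :
    FM T E N (indFun H (extZ ψ)) := by
  rcases h with ⟨q, hq, h⟩ | h
  · rcases hq.eq_two_or_odd' with rfl | hodd
    · obtain ⟨N', iF, iN, aN, aE, st, iG, hN'⟩ := hTY E N H ψ h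
      refine ⟨N', iF, iN, aN, aE, iG, ?_⟩
      refine Submodule.span_mono ?_ hN'
      rintro _ ⟨⟨⟨H', ψ'⟩, ⟨h1, h2⟩⟩, rfl⟩
      refine ⟨⟨⟨H', ψ'⟩, Or.inl ⟨2, Nat.prime_two, h1, ?_⟩⟩, rfl⟩
      rcases h2 with h2 | h2
      · exact Or.inl h2
      · exact Or.inr ⟨rfl, h2⟩
    · exact FM.self (CMB.mem_GS_of _ _ (Or.inl ⟨q, hq, h, Or.inl (noCC_odd hi hodd h)⟩))
  · exact FM.self (CMB.mem_GS_of _ _ (Or.inr h))

/-- From the three types to the final types. -/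
theorem span_FM (hc : Stmt_SCOMP) (hTY : Stmt_STY1) (T : Finset ℕ) (E N : Type) [Field E]
    [NumberField E] [IsGalois ℚ E]
    [Field N] [NumberField N] [Algebra E N] [IsGalois ℚ N] (hi : ∃ i : E, i ^ 2 = -1)
    {F : (N ≃ₐ[ℚ] N) → ℂ} (h : F ∈ CMB.GS (G := N ≃ₐ[ℚ] N) (SSPANZ.Tys T E N)) :
    FM T E N F := by
  refine Submodule.span_induction (p := fun F _ => FM T E N F) ?_ ?_ ?_ ?_ h
  · rintro _ ⟨⟨⟨H, ψ⟩, hP⟩, rfl⟩
    exact gen_FM hTY T E N hi H ψ hP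
  · exact FM.self (Submodule.zero_mem _)
  · intro x y _ _ hx hy
    exact FM.add hc hx hy
  · intro a x _ hx
    exact FM.smul a hx

/-! ### Stark's assertion for the final types -/

section good

variable {N : Type} [Field N] [NumberField N] [IsGalois ℚ N]

theorem symm_fun (H : Subgroup (N ≃ₐ[ℚ] N)) (τ : N ≃ₐ[IntermediateField.fixedField H] N) :
    ((((IntermediateField.subgroupEquivAlgEquiv H).symm τ : H) : N ≃ₐ[ℚ] N) : N → N) = τ := by
  funext x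
  exact GOOD.symm_apply H τ x

theorem totallyReal (H : Subgroup (N ≃ₐ[ℚ] N)) (hH : ∀ c : N ≃ₐ[ℚ] N, IsCC c → c ∈ H) :
    IsTotallyReal (IntermediateField.fixedField H) := by
  constructor
  intro v
  rw [InfinitePlace.isReal_iff, ComplexEmbedding.isReal_iff]
  obtain ⟨Φ, hΦ⟩ : ∃ Φ : N →+* ℂ,
      Φ.comp (algebraMap (IntermediateField.fixedField H) N) = v.embedding :=
    ⟨ComplexEmbedding.lift N v.embedding, ComplexEmbedding.lift_comp_algebraMap N v.embedding⟩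
  obtain ⟨τ, hτ⟩ := ComplexEmbedding.exists_comp_symm_eq_of_comp_eq (k := ℚ) Φ
    (ComplexEmbedding.conjugate Φ) (Subsingleton.elim _ _)
  have h3 : ComplexEmbedding.IsConj Φ τ.symm := by
    unfold ComplexEmbedding.IsConj
    exact hτ.symm
  have h4 := hH _ ⟨Φ, h3⟩
  rw [← hΦ]
  ext x
  have h5 := RingHom.congr_fun h3 (algebraMap (IntermediateField.fixedField H) N x)
  have h6 : (τ.symm) (algebraMap (IntermediateField.fixedField H) N x) =
      algebraMap (IntermediateField.fixedField H) N x := x.2 ⟨τ.symm, h4⟩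
  have h7 : (starRingEnd ℂ) (Φ (algebraMap (IntermediateField.fixedField H) N x)) =
      Φ (τ.symm (algebraMap (IntermediateField.fixedField H) N x)) := h5
  show (starRingEnd ℂ) (Φ (algebraMap (IntermediateField.fixedField H) N x)) =
    Φ (algebraMap (IntermediateField.fixedField H) N x)
  rw [h7, h6]

theorem pow_symm {E : Type} [Field E] [Algebra E N] {q : ℕ} (H : Subgroup (N ≃ₐ[ℚ] N))
    (h : ∀ h ∈ H, ∃ k : ℕ, ∀ x : E, (h ^ (q ^ k)) (algebraMap E N x) = algebraMap E N x)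
    (g : N ≃ₐ[IntermediateField.fixedField H] N) : ∃ k : ℕ, ∀ x : E,
      (g ^ (q ^ k)) (algebraMap E N x) = algebraMap E N x := by
  obtain ⟨k, hk⟩ := h _ (SetLike.coe_mem ((IntermediateField.subgroupEquivAlgEquiv H).symm g))
  refine ⟨k, fun x => ?_⟩
  have h1 := congrFun (symm_fun H (g ^ (q ^ k))) (algebraMap E N x)
  rw [← h1, map_pow, Subgroup.coe_pow]
  exact hk x

theorem pow_lift {H : Subgroup (N ≃ₐ[ℚ] N)} {ψ : H →* ℂˣ} {m : ℕ} (h : ψ ^ m = 1) :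
    (liftChar H ψ) ^ m = 1 := by
  ext g
  have h3 := DFunLike.congr_fun h ((IntermediateField.subgroupEquivAlgEquiv H).symm g)
  have h4 : ((liftChar H ψ) ^ m) g = 1 := h3
  rw [h4]
  rfl

/-- Stark's assertion for the final types. -/
theorem finTy_good (hEPS : Stmt_SEPS) {T : Finset ℕ} {E E' : Type} [Field E] [NumberField E]
    [Field E'] [NumberField E'] [Algebra E E'] {ε : ℝ} (hε : 0 < ε) {l : ℕ} (hl : l.Prime)
    (hlo : Odd l) (hlε : 1 ≤ ε * l)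
    (hsp : ((Polynomial.X ^ l - Polynomial.C 2 : Polynomial ℚ).map (algebraMap ℚ E')).Splits)
    (h2 : StarkUnramified T) (hB : StarkPrimePowerExt E) (hC : StarkTwoPowerOddExt E ε)
    (h3 : StarkTotallyOdd) [Algebra E' N] (H : Subgroup (N ≃ₐ[ℚ] N)) (ψ : H →* ℂˣ)
    (h : FinTy T E' H ψ) :
    StarkLinear (IntermediateField.fixedField H) N (liftChar H ψ) := by
  let aE : Algebra E N := ((algebraMap E' N).comp (algebraMap E E')).toAlgebra
  have hE : ∀ x : E, algebraMap E N x = algebraMap E' N (algebraMap E E' x) := fun x => rfl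
  rcases h with ⟨q, hq, ⟨⟨a, ha⟩, h5⟩, h4⟩ | ⟨h4, h5, h6⟩ | h
  · have h6 : ∀ g : N ≃ₐ[IntermediateField.fixedField H] N, ∃ k : ℕ, ∀ x : E,
        (g ^ (q ^ k)) (algebraMap E N x) = algebraMap E N x := by
      intro g
      obtain ⟨k, hk⟩ := pow_symm H h5 g
      exact ⟨k, fun x => by rw [hE]; exact hk _⟩
    rcases h4 with h4 | ⟨rfl, h4⟩
    · exact hB _ N _ (GOOD.totallyComplex H h4) ⟨q, a, hq, pow_lift ha, h6⟩
    · refine hC _ N _ ?_ ⟨a, pow_lift ha⟩ h6 ?_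
      · have h7 := hEPS l hl hlo E' (IntermediateField.fixedField H) N hsp (pow_symm H h5)
        have h8 : (0 : ℝ) ≤ InfinitePlace.nrRealPlaces (IntermediateField.fixedField H) :=
          Nat.cast_nonneg _
        nlinarith
      · intro Φ c hc
        exact h4 _ ⟨Φ, GOOD.isConj_symm H c Φ hc⟩
  · refine h2 _ N _ (GOOD.totallyComplex H h4) ?_ ?_
    · intro w g hg
      refine h5 w _ ?_
      show FrobPow N w 1 ((((IntermediateField.subgroupEquivAlgEquiv H).symm g : H) :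
        N ≃ₐ[ℚ] N) : N → N)
      rw [symm_fun]
      exact hg
    · intro w hw g hg
      refine h6 w hw _ ?_
      show Dec w ((((IntermediateField.subgroupEquivAlgEquiv H).symm g : H) :
        N ≃ₐ[ℚ] N) : N → N)
      rw [symm_fun]
      exact hg
  · refine h3 _ N _ (totallyReal H fun c hc => (h c hc).1) ?_
    intro Φ c hc
    obtain ⟨h4, h5⟩ := h _ ⟨Φ, GOOD.isConj_symm H c Φ hc⟩
    exact h5

end good

/-! ### The assembly -/

open Polynomial in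
theorem exists_E' (E : Type) [Field E] [NumberField E] (l : ℕ) (hl : 0 < l) :
    ∃ (E' : Type) (_ : Field E') (_ : NumberField E') (_ : Algebra E E') (_ : IsGalois ℚ E'),
      ((X ^ l - C 2 : Polynomial ℚ).map (algebraMap ℚ E')).Splits ∧ ∃ i : E', i ^ 2 = -1 := by
  obtain ⟨N, i1, i2, i3, i4, i5, i6, hs⟩ :=
    RFKS.split_ext ℚ E (((X ^ l - C 2) * (X ^ 2 + 1) : Polynomial ℚ).map (algebraMap ℚ E))
  have hi3 : i3 = DivisionRing.toRatAlgebra := Subsingleton.elim _ _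
  subst hi3
  have hcomp : (algebraMap E N).comp (algebraMap ℚ E) = algebraMap ℚ N := Subsingleton.elim _ _
  rw [Polynomial.map_map, hcomp] at hs
  have hm0 : (X ^ l - C 2 : Polynomial ℚ) ≠ 0 := (monic_X_pow_sub_C 2 hl.ne').ne_zero
  have hX : (X ^ 2 + 1 : Polynomial ℚ) ≠ 0 := by
    have : (X ^ 2 + 1 : Polynomial ℚ).Monic := by monicity!
    exact this.ne_zero
  have hmap0 : (((X ^ l - C 2) * (X ^ 2 + 1) : Polynomial ℚ).map (algebraMap ℚ N)) ≠ 0 :=
    (Polynomial.map_ne_zero_iff (algebraMap ℚ N).injective).2 (mul_ne_zero hm0 hX)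
  have hs1 : ((X ^ l - C 2 : Polynomial ℚ).map (algebraMap ℚ N)).Splits :=
    Polynomial.Splits.of_dvd hs hmap0 (Polynomial.map_dvd _ (dvd_mul_right _ _))
  have hs2 : ((X ^ 2 + 1 : Polynomial ℚ).map (algebraMap ℚ N)).Splits :=
    Polynomial.Splits.of_dvd hs hmap0 (Polynomial.map_dvd _ (dvd_mul_left _ _))
  have hd2 : ((X ^ 2 + 1 : Polynomial ℚ).map (algebraMap ℚ N)).degree ≠ 0 := by
    rw [Polynomial.degree_map]
    have : (X ^ 2 + 1 : Polynomial ℚ).degree = 2 := by compute_degree!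
    rw [this]
    norm_num
  obtain ⟨i, hi⟩ := hs2.exists_eval_eq_zero hd2
  rw [Polynomial.eval_map_algebraMap] at hi
  refine ⟨N, i1, i2, i4, i6, hs1, i, ?_⟩
  have h3 : i ^ 2 + 1 = 0 := by simpa using hi
  exact eq_neg_of_add_eq_zero_left h3

theorem starkAt_of_one {K L : Type} [Field K] [NumberField K] [Field L] [NumberField L]
    [Algebra K L] (S : Set (HeightOneSpectrum (𝓞 K)))
    (T : Set (HeightOneSpectrum (𝓞 L))) (Θ : XC L T →ₗ[ℂ] XC L T)
    {V V' : Type} [AddCommGroup V] [Module ℂ V] [AddCommGroup V'] [Module ℂ V']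
    (ρ : Representation ℂ (L ≃ₐ[K] L) V) (ρ' : Representation ℂ (L ≃ₐ[K] L) V')
    (σ : ℂ ≃+* ℂ) : StarkMulAt 1 S T Θ ρ ρ' σ ↔ StarkAt S T Θ ρ ρ' σ := by
  constructor
  · rintro ⟨f, f', hf, hf', h1⟩
    refine ⟨f, f', ⟨hf.1, fun s hs => ?_⟩, ⟨hf'.1, fun s hs => ?_⟩, ?_⟩
    · rw [hf.2 s hs, Nat.cast_one, one_mul]
    · rw [hf'.2 s hs, Nat.cast_one, one_mul]
    · rw [pow_one, pow_one] at h1
      exact h1
  · rintro ⟨f, f', hf, hf', h1⟩
    refine ⟨f, f', ⟨hf.1, fun s hs => ?_⟩, ⟨hf'.1, fun s hs => ?_⟩, ?_⟩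
    · rw [hf.2 s hs, Nat.cast_one, one_mul]
    · rw [hf'.2 s hs, Nat.cast_one, one_mul]
    · rw [pow_one, pow_one]
      exact h1

/-- From the classes to Stark's conjecture over `ℚ`. -/
theorem starkPQ (hB : Stmt_BRA) (hI : Stmt_INFL) (hD : Stmt_IND) (hL : Stmt_LINF)
    (hSZ : Stmt_SSPANZ) (hTY : Stmt_STY1) (hEPS : Stmt_SEPS) (hc : Stmt_SCOMP)
    (T : Finset ℕ) (E : Type) [Field E] [NumberField E] {ε : ℝ} (hε : 0 < ε)
    (h2 : StarkUnramified T) (hB' : StarkPrimePowerExt E) (hC : StarkTwoPowerOddExt E ε)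
    (h3 : StarkTotallyOdd) : StarkPQ fun M => M = 1 := by
  intro L _ _ _ S φ Θ V V' _ _ _ _ _ _ ρ ρ' σ hφ hσ
  refine ⟨1, rfl, (starkAt_of_one _ _ _ _ _ _).2 ?_⟩
  obtain ⟨l, hlge, hlp⟩ := Nat.exists_infinite_primes (3 + ⌈1 / ε⌉₊)
  have hlodd : Odd l := hlp.odd_of_ne_two (by omega)
  have hlε : 1 ≤ ε * l := by
    have h1 : 1 / ε ≤ l := (Nat.le_ceil _).trans (by exact_mod_cast (by omega : ⌈1 / ε⌉₊ ≤ l))
    rwa [div_le_iff₀' hε] at h1
  obtain ⟨E', _, _, _, _, hsp, hi⟩ := exists_E' E l hlp.pos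
  obtain ⟨N₁, _, _, aL1, aE1, _, hN₁⟩ := hSZ T E' L ρ.character (hB _ V ρ)
  obtain ⟨N, _, _, aN, aE, _, hN⟩ := span_FM hc hTY T E' N₁ hi hN₁
  let aL : Algebra L N := ((algebraMap N₁ N).comp (algebraMap L N₁)).toAlgebra
  obtain ⟨m, H, ψ, n, hP, hF⟩ := CMB.of_mem_GS hN
  have hst : IsScalarTower ℚ L N := IsScalarTower.of_algebraMap_eq' (Subsingleton.elim _ _)
  refine SPARSE.of_comb (N := N) hI hD hL S φ Θ V V' ρ ρ' σ hφ hσ H ψ n ?_ ?_
  · intro g
    rw [← hF g]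
    show _ = ρ.character (AlgEquiv.restrictNormalHom L
      (AlgEquiv.restrictNormalHom N₁ g : N₁ ≃ₐ[ℚ] N₁))
    rw [SSPANZ.res_res (L := L) (N := N₁) (N' := N) (fun x => rfl)]
  · intro i
    exact finTy_good hEPS hε hlp hlodd hlε hsp h2 hB' hC h3 (H i) (ψ i) (hP i)

end SMAIN

open SMAIN in
theorem SMAIN_thm (hB : Stmt_BRA) (hI : Stmt_INFL) (hD : Stmt_IND) (hL : Stmt_LINF)
    (hSZ : Stmt_SSPANZ) (hTY : Stmt_STY1) (hEPS : Stmt_SEPS) (hc : Stmt_SCOMP)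
    (hBQ : Stmt_BASEQ) : Stmt_SMAIN := by
  intro T E _ _ _ ε hε
  constructor
  · intro h
    have key : ∀ (K L : Type) [Field K] [NumberField K] [Field L] [NumberField L] [Algebra K L]
        [IsGalois K L] (ψ : (L ≃ₐ[K] L) →* ℂˣ), StarkLinear K L ψ := by
      intro K L _ _ _ _ _ _ ψ S φ Θ σ hφ
      refine h K L S φ Θ ℂ ℂ (linRep ψ) (linRep (twist σ ψ)) σ hφ ?_
      intro g
      rw [MAIN.linRep_character, MAIN.linRep_character]
      rfl
    exact ⟨fun K L _ _ _ _ _ _ ψ _ _ _ => key K L ψ,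
      fun K L _ _ _ _ _ _ _ ψ _ _ => key K L ψ,
      fun K L _ _ _ _ _ _ _ ψ _ _ _ _ => key K L ψ,
      fun K L _ _ _ _ _ _ ψ _ _ => key K L ψ⟩
  · rintro ⟨h2, hB', hC, h3⟩
    have h4 : StarkP fun M => M = 1 := hBQ (fun M => M = 1) rfl
      (fun a b ha hb => by rw [ha, hb])
      (starkPQ hB hI hD hL hSZ hTY hEPS hc T E hε h2 hB' hC h3)
    intro K L _ _ _ _ _ _ S φ Θ V V' _ _ _ _ _ _ ρ ρ' σ hφ hσ
    obtain ⟨M, rfl, hM⟩ := h4 K L S φ Θ V V' ρ ρ' σ hφ hσ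
    exact (starkAt_of_one _ _ _ _ _ _).1 hM

end StarkC
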