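import Pool.Agent.StarkI.Stmts
import Pool.Agent.StarkI.SDefs

/-!
# Stark's conjecture, sharper integral reduction: statements of the modules

See `PAPER_S.md`.
-/

open NumberField IsDedekindDomain
open scoped TensorProduct Classical

namespace StarkC

/-! ### Group theory -/

/-- `g` has `p`-power order. -/
def PElt (p : ℕ) {G : Type} [Group G] (g : G) : Prop := ∃ k : ℕ, g ^ (p ^ k) = 1

/-- S_P: a multiple, prime to `p`, of the indicator function of the `p`-elements is an integral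
combination of permutation characters induced from `p`-subgroups. -/
def Stmt_SP : Prop :=
  ∀ (p : ℕ), p.Prime → ∀ (G : Type) [Group G] [Fintype G],
    ∃ (M m : ℕ) (Q : Fin m → Subgroup G) (n : Fin m → ℤ),
      0 < M ∧ Nat.Coprime p M ∧ (∀ i, ∀ g ∈ Q i, PElt p g) ∧
      ∀ g, (if PElt p g then (M : ℂ) else 0) = ∑ i, (n i : ℂ) * indFun (Q i) (fun _ => 1) g

/-- S_LAM: virtual characters of a 2-quasi-elementary group which vanish on the elements of
2-power order. -/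
def Stmt_SLAM : Prop :=
  ∀ (G : Type) [Group G] [Fintype G] (C : Subgroup G), C.Normal → IsCyclic C →
    Odd (Nat.card C) → (∃ n : ℕ, C.index = 2 ^ n) → ∀ f : G → ℂ, IsMonComb f →
    (∀ g, PElt 2 g → f g = 0) →
    f ∈ CMB.GS (G := G) fun B _ => ∀ b ∈ B, ∃ x ∈ C, b * x * b⁻¹ ≠ x⁻¹

/-- S_PROD: product with a permutation character. -/
def Stmt_SPROD : Prop :=
  ∀ (G : Type) [Group G] [Fintype G] (P : ∀ B : Subgroup G, (B →* ℂˣ) → Prop),
    (∀ (B J : Subgroup G) (hJ : J ≤ B) (ν : B →* ℂˣ), P B ν →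
      P J (ν.comp (Subgroup.inclusion hJ))) →
    ∀ f ∈ CMB.GS (G := G) P, ∀ Q : Subgroup G,
      (fun g => f g * indFun Q (fun _ => 1) g) ∈ CMB.GS (G := G) P

/-! ### Types -/

/-- Type 1: `ψ` has `p`-power order and the elements of `H` induce automorphisms of `p`-power
order on `E`. -/
def Ty1S (p : ℕ) (E : Type) [Field E] {K N : Type} [Field K] [Field N] [Algebra K N]
    [Algebra E N] (H : Subgroup (N ≃ₐ[K] N)) (ψ : H →* ℂˣ) : Prop :=
  (∃ a : ℕ, ψ ^ (p ^ a) = 1) ∧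
    ∀ h ∈ H, ∃ k : ℕ, ∀ x : E, (h ^ (p ^ k)) (algebraMap E N x) = algebraMap E N x

/-- The property (V) of `f` at the prime `W`: `f` vanishes on the decomposition group if `W` is
above `T₀`, and otherwise its restriction to the decomposition group is an integral combination of
characters induced from unramified linear characters. -/
def VAt {K N : Type} [Field K] [NumberField K] [Field N] [NumberField N] [Algebra K N]
    (T₀ : Finset ℕ) (f : (N ≃ₐ[K] N) → ℂ) (W : HeightOneSpectrum (𝓞 N)) : Prop :=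
  (Above T₀ W → ∀ g : N ≃ₐ[K] N, Dec W g → f g = 0) ∧
  (¬ Above T₀ W → (fun g : decGrp K W => f g) ∈ CMB.GS (G := decGrp K W) fun B ν =>
    ∀ b : B, FrobPow N W 1 ((b : decGrp K W) : N ≃ₐ[K] N) → ν b = 1)

/-! ### The decomposition -/

/-- S_LOC: functions with the property (V) which vanish at the elements of `p`-power order. -/
def Stmt_SLOC : Prop :=
  ∀ (p : ℕ), p.Prime → ∀ (T T₀ : Finset ℕ), T ⊆ T₀ →
  ∀ (K N₁ : Type) [Field K] [NumberField K] [Field N₁] [NumberField N₁] [Algebra K N₁]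
    [IsGalois K N₁] (f : (N₁ ≃ₐ[K] N₁) → ℂ), (∃ i : N₁, i ^ 2 = -1) → IsMonComb f →
    (∀ g, PElt p g → f g = 0) → (∀ W, VAt T₀ f W) →
    ∃ (N : Type) (_ : Field N) (_ : NumberField N) (_ : Algebra K N)
      (_ : Algebra N₁ N) (_ : IsScalarTower K N₁ N) (_ : IsGalois K N) (M : ℕ),
      0 < M ∧ Nat.Coprime p M ∧
      (fun g : N ≃ₐ[K] N => (M : ℂ) * f (AlgEquiv.restrictNormalHom N₁ g)) ∈
        CMB.GS (G := N ≃ₐ[K] N) fun H ψ => Ty1S 2 N₁ H ψ ∨ Ty2 T H ψ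

/-- S_STEP (REAL'): the local characters are removed with totally odd characters. -/
def Stmt_SSTEP : Prop :=
  ∀ (p : ℕ), p.Prime → ∀ (T : Finset ℕ) (L : Type) [Field L] [NumberField L]
    [IsGalois ℚ L] (f : (L ≃ₐ[ℚ] L) → ℂ), IsMonComb f → (∀ g, PElt p g → f g = 0) →
    ∃ (N₁ : Type) (_ : Field N₁) (_ : NumberField N₁) (_ : Algebra L N₁) (_ : IsGalois ℚ N₁)
      (T₀ : Finset ℕ) (M : ℕ) (f₁ : (N₁ ≃ₐ[ℚ] N₁) → ℂ),
      T ⊆ T₀ ∧ 0 < M ∧ Nat.Coprime p M ∧ (∃ i : N₁, i ^ 2 = -1) ∧ IsMonComb f₁ ∧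
      (∀ W, VAt T₀ f₁ W) ∧
      (fun g : N₁ ≃ₐ[ℚ] N₁ => (M : ℂ) * f (AlgEquiv.restrictNormalHom L g) - f₁ g) ∈
        CMB.GS (G := N₁ ≃ₐ[ℚ] N₁) fun H ψ => Ty3 H ψ

/-- S_COMP: two Galois number fields are contained in a third one, which contains `√-1`. -/
def Stmt_SCOMP : Prop :=
  ∀ (E L : Type) [Field E] [NumberField E] [Field L] [NumberField L],
    ∃ (N : Type) (_ : Field N) (_ : NumberField N) (_ : Algebra E N) (_ : Algebra L N)
      (_ : IsGalois ℚ N), ∃ i : N, i ^ 2 = -1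

/-- S_SPAN: `M χ` is in the span, `M` prime to `p`. -/
def Stmt_SSPAN : Prop :=
  ∀ (p : ℕ), p.Prime → ∀ (T : Finset ℕ) (E : Type) [Field E] [NumberField E] [IsGalois ℚ E]
    (L : Type) [Field L] [NumberField L] [IsGalois ℚ L] (f : (L ≃ₐ[ℚ] L) → ℂ), IsMonComb f →
    ∃ (N : Type) (_ : Field N) (_ : NumberField N) (_ : Algebra L N) (_ : Algebra E N)
      (_ : IsGalois ℚ N) (M : ℕ), 0 < M ∧ Nat.Coprime p M ∧
      (fun g : N ≃ₐ[ℚ] N => (M : ℂ) * f (AlgEquiv.restrictNormalHom L g)) ∈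
        CMB.GS (G := N ≃ₐ[ℚ] N) fun H ψ =>
          (∃ q : ℕ, q.Prime ∧ Ty1S q E H ψ) ∨ Ty2 T H ψ ∨ Ty3 H ψ

/-- S_SPANZ: the integral form. -/
def Stmt_SSPANZ : Prop :=
  ∀ (T : Finset ℕ) (E : Type) [Field E] [NumberField E] [IsGalois ℚ E]
    (L : Type) [Field L] [NumberField L] [IsGalois ℚ L] (f : (L ≃ₐ[ℚ] L) → ℂ), IsMonComb f →
    ∃ (N : Type) (_ : Field N) (_ : NumberField N) (_ : Algebra L N) (_ : Algebra E N)
      (_ : IsGalois ℚ N),
      (fun g : N ≃ₐ[ℚ] N => f (AlgEquiv.restrictNormalHom L g)) ∈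
        CMB.GS (G := N ≃ₐ[ℚ] N) fun H ψ =>
          (∃ q : ℕ, q.Prime ∧ Ty1S q E H ψ) ∨ Ty2 T H ψ ∨ Ty3 H ψ

/-- S_TY1: characters of 2-power order: subgroups without complex conjugations, and characters
which are odd at all complex conjugations. -/
def Stmt_STY1 : Prop :=
  ∀ (E N : Type) [Field E] [NumberField E] [Field N] [NumberField N] [Algebra E N] [IsGalois ℚ N]
    (H : Subgroup (N ≃ₐ[ℚ] N)) (ψ : H →* ℂˣ), Ty1S 2 E H ψ →
    ∃ (N' : Type) (_ : Field N') (_ : NumberField N') (_ : Algebra N N') (_ : Algebra E N')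
      (_ : IsScalarTower E N N') (_ : IsGalois ℚ N'),
      (fun g : N' ≃ₐ[ℚ] N' => indFun H (extZ ψ) (AlgEquiv.restrictNormalHom N g)) ∈
        CMB.GS (G := N' ≃ₐ[ℚ] N') fun H ψ => Ty1S 2 E H ψ ∧
          ((∀ c ∈ H, ¬ IsCC c) ∨
            ∀ c : H, IsCC (c : N' ≃ₐ[ℚ] N') → ((ψ c : ℂˣ) : ℂ) = -1)

/-- S_EPS: few real places. -/
def Stmt_SEPS : Prop :=
  ∀ (l : ℕ), l.Prime → Odd l → ∀ (E K L : Type) [Field E] [NumberField E] [Field K]
    [NumberField K] [Field L] [NumberField L] [Algebra K L] [IsGalois K L] [Algebra E L],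
    ((Polynomial.X ^ l - Polynomial.C 2 : Polynomial ℚ).map (algebraMap ℚ E)).Splits →
    (∀ g : L ≃ₐ[K] L, ∃ k : ℕ, ∀ x : E, (g ^ (2 ^ k)) (algebraMap E L x) = algebraMap E L x) →
    (InfinitePlace.nrRealPlaces K : ℝ) * l ≤ (Module.finrank ℚ K : ℝ)

/-! ### The theorem -/

/-- The main theorem. -/
def Stmt_SMAIN : Prop :=
  ∀ (T : Finset ℕ) (E : Type) [Field E] [NumberField E] [IsGalois ℚ E] (ε : ℝ), 0 < ε →
    (StarkConjecture ↔ StarkUnramified T ∧ StarkPrimePowerExt E ∧ StarkTwoPowerOddExt E ε ∧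
      StarkTotallyOdd)

end StarkC
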