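import Pool.Agent.Stark.RStmts
import Pool.Agent.Stark.RBasic
import Pool.Agent.Stark.CMB
import Pool.Agent.StarkI.Defs

/-!
# Stark's conjecture, integral unramified reduction: statements of the modules (p-local part)

The parameter `p` is `1` or a prime.  See `PAPER.md`.
-/

open NumberField IsDedekindDomain
open scoped TensorProduct Classical

namespace StarkC

/-! ### Types of pairs -/

section Types

variable {K N : Type} [Field K] [NumberField K] [Field N] [NumberField N] [Algebra K N]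

/-- Type 1: `p`-power order, and no complex conjugation in `H` unless `p = 2`. -/
def Ty1 (p : ℕ) (H : Subgroup (N ≃ₐ[K] N)) (ψ : H →* ℂˣ) : Prop :=
  (p = 2 ∨ ∀ c ∈ H, ¬ IsCC c) ∧ ∃ a : ℕ, ψ ^ (p ^ a) = 1

/-- Type 2: no complex conjugation in `H`, `ψ` unramified and trivial on the decomposition groups
above `T`. -/
def Ty2 (T : Finset ℕ) (H : Subgroup (N ≃ₐ[K] N)) (ψ : H →* ℂˣ) : Prop :=
  (∀ c ∈ H, ¬ IsCC c) ∧
  (∀ (w : HeightOneSpectrum (𝓞 N)) (g : H), FrobPow N w 1 (g : N ≃ₐ[K] N) → ψ g = 1) ∧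
  (∀ w : HeightOneSpectrum (𝓞 N), (∃ q ∈ T, q.Prime ∧ (q : 𝓞 N) ∈ w.asIdeal) →
    ∀ g : H, Dec w (g : N ≃ₐ[K] N) → ψ g = 1)

/-- Type 3: all complex conjugations lie in `H`, and `ψ` is `-1` at them. -/
def Ty3 (H : Subgroup (N ≃ₐ[K] N)) (ψ : H →* ℂˣ) : Prop :=
  ∀ c : N ≃ₐ[K] N, IsCC c → ∃ h : c ∈ H, ((ψ ⟨c, h⟩ : ℂˣ) : ℂ) = -1

/-- The decomposition group of `w`. -/
def decGrp (K : Type) {N : Type} [Field K] [Field N] [NumberField N] [Algebra K N]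
    (w : HeightOneSpectrum (𝓞 N)) : Subgroup (N ≃ₐ[K] N) where
  carrier := {g | Dec w g}
  mul_mem' := fun ha hb => RB.dec_mul ha hb
  one_mem' := RB.dec_one w
  inv_mem' := fun ha => RB.dec_inv ha

/-- The property (U) of a function `f` at the prime `W`: the restriction of `f` to the
decomposition group of `W` is an integral combination of characters induced from linear characters
which have `p`-power order or are, in case `W` is not above `T₀`, unramified. -/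
def UAt (p : ℕ) (T₀ : Finset ℕ) (f : (N ≃ₐ[K] N) → ℂ) (W : HeightOneSpectrum (𝓞 N)) : Prop :=
  (fun g : decGrp K W => f g) ∈ CMB.GS (G := decGrp K W) fun B ν =>
    (∃ a : ℕ, ν ^ (p ^ a) = 1) ∨
      ((∀ b : B, FrobPow N W 1 ((b : decGrp K W) : N ≃ₐ[K] N) → ν b = 1) ∧
        ¬ ∃ q ∈ T₀, q.Prime ∧ (q : 𝓞 N) ∈ W.asIdeal)

end Types

/-- `p`-quasi-elementary group; for `p = 1` this means cyclic. -/
def IsQE (p : ℕ) (G : Type) [Group G] : Prop :=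
  ∃ C : Subgroup G, C.Normal ∧ IsCyclic C ∧ Nat.Coprime p (Nat.card C) ∧ ∃ n : ℕ, C.index = p ^ n

/-- `w` lies above a prime number in `T`. -/
def Above (T : Finset ℕ) {N : Type} [Field N] [NumberField N] (w : HeightOneSpectrum (𝓞 N)) :
    Prop :=
  ∃ q ∈ T, q.Prime ∧ (q : 𝓞 N) ∈ w.asIdeal

/-! ### Group theory -/

/-- I_SOL: Solomon's induction theorem, `p`-local (for `p = 1`: Artin's induction theorem). -/
def Stmt_ISOL : Prop :=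
  ∀ (p : ℕ), p = 1 ∨ p.Prime → ∀ (G : Type) [Group G] [Fintype G],
    ∃ (M m : ℕ) (H : Fin m → Subgroup G) (n : Fin m → ℤ),
      0 < M ∧ Nat.Coprime p M ∧ (∀ i, IsQE p (H i)) ∧
      ∀ g, (M : ℂ) = ∑ i, (n i : ℂ) * indFun (H i) (fun _ => 1) g

/-- The homomorphism `h ↦ x⁻¹ r(h) x`. -/
def cj {H D : Type} [Group H] [Group D] (r : H →* D) (x : D) : H →* D :=
  (MulAut.conj x⁻¹).toMonoidHom.comp r

/-- I_PULL: the pull back of an induced character (Mackey). -/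
def Stmt_IPULL : Prop :=
  ∀ (H D : Type) [Group H] [Fintype H] [Group D] [Fintype D] (r : H →* D) (B : Subgroup D)
    (ν : B →* ℂˣ), (fun h : H => indFun B (extZ ν) (r h)) ∈
      Submodule.span ℤ (Set.range fun x : D =>
        indFun (B.comap (cj r x)) (extZ (ν.comp ((cj r x).subgroupComap B))))

/-- I_GRP: the group theoretic part of KEY.  `X` is the set of primes of `N`, `e₂`, `e₃` are the
relations of having the same restriction to `N₂`, `N₃`, and `R₁ ≥ R₂ ≥ R₃` are the groups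
`Gal(N/N₁)`, `Gal(N/N₂)`, `Gal(N/N₃)`. -/
def Stmt_IGRP : Prop :=
  ∀ (G X : Type) [Group G] [Finite G] [MulAction G X] (R₁ R₂ R₃ : Subgroup G)
    (e₂ e₃ : X → X → Prop), R₁.Normal → R₃ ≤ R₂ → R₂ ≤ R₁ →
    Equivalence e₂ → Equivalence e₃ → (∀ x y, e₃ x y → e₂ x y) →
    (∀ (g : G) x y, e₂ x y → e₂ (g • x) (g • y)) →
    (∀ (g : G) x y, e₃ x y → e₃ (g • x) (g • y)) →
    ∀ W : Set X, (∀ (g : G), ∀ x ∈ W, g • x ∈ W) →
    -- FK for (N₃) at N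
    (∀ (g : G), ∀ x ∈ W, ∀ y ∈ W, g • x = x → g • y = y → ¬ e₃ x y → g ∈ R₃) →
    -- FK for (N₂) at N₃
    (∀ (g : G), ∀ x ∈ W, ∀ y ∈ W, e₃ (g • x) x → e₃ (g • y) y → ¬ e₂ x y → g ∈ R₂) →
    -- TOR for N₁ at N₃
    (∀ (g : G), ∀ x ∈ W, e₃ (g • x) x → g ^ R₁.index.factorial ∈ R₃ → g ∈ R₁) →
    ∀ p : ℕ, p = 1 ∨ p.Prime → ∀ H C : Subgroup G, C ≤ H → (∀ h ∈ H, ∀ c ∈ C, h * c * h⁻¹ ∈ C) →
      IsCyclic C → Nat.Coprime p (Nat.card C) → (∃ n : ℕ, ∀ h ∈ H, h ^ (p ^ n) ∈ C) →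
      ¬ C ≤ R₁ → ∀ w ∈ W, ∀ h ∈ H, h • w = w → h ∉ R₁ → ∀ x ∈ H, e₂ (x • w) w

/-! ### Arithmetic -/

/-- I_INV: over a large field an involution in a decomposition group fixes the square roots of
`-1`. -/
def Stmt_IINV : Prop :=
  ∀ T : Finset ℕ, ∃ F : Polynomial ℚ, F ≠ 0 ∧
    ∀ (N : Type) [Field N] [NumberField N], (F.map (algebraMap ℚ N)).Splits →
      ∀ (σ : N ≃ₐ[ℚ] N) (w : HeightOneSpectrum (𝓞 N)), Above T w → Dec w σ → σ * σ = 1 →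
        ∀ i : N, i ^ 2 = -1 → σ i = i

/-- I_TOR: decomposition groups are torsion free, finite level. -/
def Stmt_ITOR : Prop :=
  ∀ (K L : Type) [Field K] [NumberField K] [Field L] [NumberField L] [Algebra K L] [IsGalois K L]
    (T : Finset ℕ) (e : ℕ), 0 < e →
    ∃ (N : Type) (_ : Field N) (_ : NumberField N) (_ : Algebra K N)
      (_ : Algebra L N) (_ : IsScalarTower K L N) (_ : IsGalois K N),
      ∀ (σ : N ≃ₐ[K] N) (w : HeightOneSpectrum (𝓞 N)), Above T w → Dec w σ → σ ^ e = 1 →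
        AlgEquiv.restrictNormalHom L σ = 1

/-- I_KEY: the tower `N₁ ≤ N₂ ≤ N`. -/
def Stmt_IKEY : Prop :=
  ∀ (K N₁ : Type) [Field K] [NumberField K] [Field N₁] [NumberField N₁] [Algebra K N₁]
    [IsGalois K N₁] (T₁ : Finset ℕ), (∃ i : N₁, i ^ 2 = -1) →
    ∃ (N₂ : Type) (_ : Field N₂) (_ : NumberField N₂) (_ : Algebra K N₂)
      (_ : Algebra N₁ N₂) (_ : IsScalarTower K N₁ N₂) (_ : IsGalois K N₂)
      (N : Type) (_ : Field N) (_ : NumberField N) (_ : Algebra K N)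
      (_ : Algebra N₁ N) (_ : IsScalarTower K N₁ N) (_ : Algebra N₂ N) (_ : IsScalarTower K N₂ N)
      (_ : IsScalarTower N₁ N₂ N) (_ : IsGalois K N),
      (∀ (σ : N₂ ≃ₐ[K] N₂) (P Q : HeightOneSpectrum (𝓞 N₂)), Dec P σ → Dec Q σ →
        Above T₁ P → Above T₁ Q → P.under (𝓞 N₁) ≠ Q.under (𝓞 N₁) →
        AlgEquiv.restrictNormalHom N₁ σ = 1) ∧
      (∀ (c : N₂ ≃ₐ[K] N₂) (P : HeightOneSpectrum (𝓞 N₂)), IsCC c → Above T₁ P → ¬ Dec P c) ∧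
      (∀ c u : N ≃ₐ[K] N, IsCC c → u * c = c * u →
        AlgEquiv.restrictNormalHom N₁ u = (1 : N₁ ≃ₐ[K] N₁) ∨
          AlgEquiv.restrictNormalHom N₁ u = (AlgEquiv.restrictNormalHom N₁ c : N₁ ≃ₐ[K] N₁)) ∧
      (∀ p : ℕ, p = 1 ∨ p.Prime → ∀ H C : Subgroup (N ≃ₐ[K] N), C ≤ H →
        (∀ h ∈ H, ∀ c ∈ C, h * c * h⁻¹ ∈ C) → IsCyclic C → Nat.Coprime p (Nat.card C) →
        (∃ n : ℕ, ∀ h ∈ H, h ^ (p ^ n) ∈ C) →
        (∃ c ∈ C, AlgEquiv.restrictNormalHom N₁ c ≠ (1 : N₁ ≃ₐ[K] N₁)) →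
        ∀ (w : HeightOneSpectrum (𝓞 N)) (h : N ≃ₐ[K] N), Above T₁ w → h ∈ H → Dec w h →
          AlgEquiv.restrictNormalHom N₁ h ≠ (1 : N₁ ≃ₐ[K] N₁) →
          ∀ x ∈ H, Dec (w.under (𝓞 N₂)) (AlgEquiv.restrictNormalHom N₂ x : N₂ ≃ₐ[K] N₂))

/-! ### The decomposition -/

/-- I_LOC: functions with the property (U) which vanish at the complex conjugations. -/
def Stmt_ILOC : Prop :=
  ∀ (p : ℕ), p = 1 ∨ p.Prime → ∀ (T T₀ : Finset ℕ), T ⊆ T₀ →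
  ∀ (K N₁ : Type) [Field K] [NumberField K] [Field N₁] [NumberField N₁] [Algebra K N₁]
    [IsGalois K N₁] (f : (N₁ ≃ₐ[K] N₁) → ℂ), (∃ i : N₁, i ^ 2 = -1) → IsMonComb f →
    (∀ c : N₁ ≃ₐ[K] N₁, IsCC c → f c = 0) → (∀ W, UAt p T₀ f W) →
    ∃ (N : Type) (_ : Field N) (_ : NumberField N) (_ : Algebra K N)
      (_ : Algebra N₁ N) (_ : IsScalarTower K N₁ N) (_ : IsGalois K N) (M : ℕ),
      0 < M ∧ Nat.Coprime p M ∧
      (fun g : N ≃ₐ[K] N => (M : ℂ) * f (AlgEquiv.restrictNormalHom N₁ g)) ∈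
        CMB.GS (G := N ≃ₐ[K] N) fun H ψ => Ty1 p H ψ ∨ Ty2 T H ψ

/-- I_STEP (helper52): the local characters are removed with totally odd characters. -/
def Stmt_ISTEP : Prop :=
  ∀ (p : ℕ), p = 1 ∨ p.Prime → ∀ (T : Finset ℕ) (L : Type) [Field L] [NumberField L]
    [IsGalois ℚ L] (V : Type) [AddCommGroup V] [Module ℂ V] [Module.Finite ℂ V]
    (ρ : Representation ℂ (L ≃ₐ[ℚ] L) V),
    ∃ (N₁ : Type) (_ : Field N₁) (_ : NumberField N₁) (_ : Algebra L N₁) (_ : IsGalois ℚ N₁)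
      (T₀ : Finset ℕ) (M : ℕ) (f : (N₁ ≃ₐ[ℚ] N₁) → ℂ),
      T ⊆ T₀ ∧ 0 < M ∧ Nat.Coprime p M ∧ (∃ i : N₁, i ^ 2 = -1) ∧ IsMonComb f ∧
      (∀ c : N₁ ≃ₐ[ℚ] N₁, IsCC c → f c = 0) ∧ (∀ W, UAt p T₀ f W) ∧
      (fun g : N₁ ≃ₐ[ℚ] N₁ => (M : ℂ) * ρ.character (AlgEquiv.restrictNormalHom L g) - f g) ∈
        CMB.GS (G := N₁ ≃ₐ[ℚ] N₁) fun H ψ => Ty2 T H ψ ∨ Ty3 H ψ

/-- I_SPAN: `M χ` is in the span, `M` prime to `p`. -/
def Stmt_ISPAN : Prop :=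
  ∀ (p : ℕ), p = 1 ∨ p.Prime → ∀ (T : Finset ℕ) (L : Type) [Field L] [NumberField L]
    [IsGalois ℚ L] (V : Type) [AddCommGroup V] [Module ℂ V] [Module.Finite ℂ V]
    (ρ : Representation ℂ (L ≃ₐ[ℚ] L) V),
    ∃ (N : Type) (_ : Field N) (_ : NumberField N) (_ : Algebra L N) (_ : IsGalois ℚ N) (M : ℕ),
      0 < M ∧ Nat.Coprime p M ∧
      (fun g : N ≃ₐ[ℚ] N => (M : ℂ) * ρ.character (AlgEquiv.restrictNormalHom L g)) ∈
        CMB.GS (G := N ≃ₐ[ℚ] N) fun H ψ => Ty1 p H ψ ∨ Ty2 T H ψ ∨ Ty3 H ψ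

/-- I_SPANZ: the integral form. -/
def Stmt_ISPANZ : Prop :=
  ∀ (T : Finset ℕ) (L : Type) [Field L] [NumberField L]
    [IsGalois ℚ L] (V : Type) [AddCommGroup V] [Module ℂ V] [Module.Finite ℂ V]
    (ρ : Representation ℂ (L ≃ₐ[ℚ] L) V),
    ∃ (N : Type) (_ : Field N) (_ : NumberField N) (_ : Algebra L N) (_ : IsGalois ℚ N),
      (fun g : N ≃ₐ[ℚ] N => ρ.character (AlgEquiv.restrictNormalHom L g)) ∈
        CMB.GS (G := N ≃ₐ[ℚ] N) fun H ψ =>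
          (∃ p : ℕ, p.Prime ∧ Ty1 p H ψ) ∨ Ty2 T H ψ ∨ Ty3 H ψ

/-! ### The theorem -/

/-- I_MAIN. -/
def Stmt_IMAIN : Prop :=
  ∀ T : Finset ℕ, StarkConjecture ↔
    StarkOddPrimePower ∧ StarkTwoPowerOdd ∧ StarkUnramified T ∧ StarkTotallyOdd

end StarkC
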